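import Pool.Agent.T6.H62.AC.Kit

open MeasureTheory Complex Filter Topology
open scoped ENNReal

namespace Pool.Agent.T6.H62.AC

/-- integration by parts against a law with decaying truncated transforms -/
theorem amp_key (μ : Measure ℝ) [IsProbabilityMeasure μ] (h01 : ∀ᵐ x ∂μ, 0 < x ∧ x < 1)
    {s C : ℝ} (hT : Trunc μ s C) (f f' : ℝ → ℝ) (hf : ∀ x, HasDerivAt f (f' x) x)
    (hf' : Continuous f') (M M1 : ℝ) (hM : ∀ x, 0 ≤ x → x ≤ 1 → |f' x| ≤ M)
    (hM1 : |f 1| ≤ M1) (lam : ℝ) (hlam : 1 ≤ |lam|) :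
    ‖∫ x, ((f x : ℝ) : ℂ) * cexp (lam * x * I) ∂μ‖ ≤ (M1 + M) * (C * |lam| ^ (-s)) := by
  set e : ℝ → ℂ := fun x => cexp (lam * x * I) with he
  have hec : Continuous e := by rw [he]; fun_prop
  have hen : ∀ x, ‖e x‖ = 1 := by
    intro x
    have : e x = cexp (((lam * x : ℝ) : ℂ) * I) := by rw [he]; push_cast; rfl
    rw [this, Complex.norm_exp_ofReal_mul_I]
  have hei : Integrable e μ := integrable_of_bdd μ hec.measurable (fun x => (hen x).le)
  set F : ℝ × ℝ → ℂ := {z : ℝ × ℝ | z.1 ≤ z.2}.indicator (fun z => e z.1 * (f' z.2 : ℂ)) with hF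
  have hms : MeasurableSet {z : ℝ × ℝ | z.1 ≤ z.2} := measurableSet_le measurable_fst measurable_snd
  have hf'i : Integrable (fun y => (f' y : ℂ)) (volume.restrict (Set.Ioc (0:ℝ) 1)) := by
    have : Continuous (fun y => (f' y : ℂ)) := by fun_prop
    exact (this.integrableOn_Icc (a := 0) (b := 1)).mono_set Set.Ioc_subset_Icc_self
  have hFi : Integrable F (μ.prod (volume.restrict (Set.Ioc (0:ℝ) 1))) :=
    (hei.mul_prod hf'i).indicator hms
  have e1 : ∀ᵐ x ∂μ, ((f x : ℝ) : ℂ) * e x =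
      (f 1 : ℂ) * e x - ∫ y in Set.Ioc (0:ℝ) 1, F (x, y) := by
    filter_upwards [h01] with x hx
    have h1 : ∫ y in Set.Ioc (0:ℝ) 1, F (x, y) = e x * ∫ y in x..1, (f' y : ℂ) := by
      have : (fun y => F (x, y)) = (Set.Ici x).indicator (fun y => e x * (f' y : ℂ)) := by
        ext y
        simp only [hF, Set.indicator, Set.mem_ofPred_eq, Set.mem_Ici]
      rw [this, integral_indicator measurableSet_Ici, Measure.restrict_restrict measurableSet_Ici,
        intervalIntegral.integral_of_le hx.2.le, ← integral_const_mul]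
      have : Set.Ici x ∩ Set.Ioc 0 1 = Set.Icc x 1 := by
        ext y
        simp only [Set.mem_inter_iff, Set.mem_Ici, Set.mem_Ioc, Set.mem_Icc]
        constructor
        · rintro ⟨a, b, c⟩; exact ⟨a, c⟩
        · rintro ⟨a, b⟩; exact ⟨a, by linarith [hx.1], b⟩
      rw [this, integral_Icc_eq_integral_Ioc]
    have h2 : ∫ y in x..1, (f' y : ℂ) = (f 1 : ℂ) - f x := by
      rw [intervalIntegral.integral_ofReal]
      rw [intervalIntegral.integral_eq_sub_of_hasDerivAt (fun y _ => hf y)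
        (hf'.intervalIntegrable _ _)]
      push_cast; rfl
    rw [h1, h2]; ring
  have e2 : ∫ x, ((f x : ℝ) : ℂ) * e x ∂μ =
      (f 1 : ℂ) * ∫ x, e x ∂μ - ∫ y in Set.Ioc (0:ℝ) 1, ∫ x, F (x, y) ∂μ := by
    rw [integral_congr_ae e1, integral_sub (hei.const_mul _) hFi.integral_prod_left,
      integral_const_mul]
    congr 1
    exact integral_integral_swap (f := fun x y => F (x, y)) hFi
  have hpow : (0:ℝ) ≤ C * |lam| ^ (-s) := (norm_nonneg _).trans (hT lam 0 hlam)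
  have e3 : ‖∫ x, e x ∂μ‖ ≤ C * |lam| ^ (-s) := by
    have := hT lam 1 hlam
    have h2 : μ.restrict (Set.Iic 1) = μ := by
      apply Measure.restrict_eq_self_of_ae_mem
      filter_upwards [h01] with x hx using hx.2.le
    rw [h2] at this
    exact this
  have e4 : ∀ y, ∫ x, F (x, y) ∂μ = (f' y : ℂ) * ∫ x in Set.Iic y, e x ∂μ := by
    intro y
    have : (fun x => F (x, y)) = (Set.Iic y).indicator (fun x => (f' y : ℂ) * e x) := by
      ext x
      simp only [hF, Set.indicator, Set.mem_ofPred_eq, Set.mem_Iic]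
      split_ifs <;> ring
    rw [this, integral_indicator measurableSet_Iic, integral_const_mul]
  have e5 : ‖∫ y in Set.Ioc (0:ℝ) 1, ∫ x, F (x, y) ∂μ‖ ≤ M * (C * |lam| ^ (-s)) := by
    have := norm_setIntegral_le_of_norm_le_const (μ := (volume : Measure ℝ))
      (s := Set.Ioc (0:ℝ) 1) (f := fun y => ∫ x, F (x, y) ∂μ) (C := M * (C * |lam| ^ (-s)))
      (by simp) (by
        intro y hy
        rw [e4, norm_mul, Complex.norm_real, Real.norm_eq_abs]
        exact mul_le_mul (hM y hy.1.le hy.2) (hT lam y hlam) (norm_nonneg _)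
          ((abs_nonneg _).trans (hM y hy.1.le hy.2)))
    simpa using this
  rw [e2]
  calc ‖(f 1 : ℂ) * ∫ x, e x ∂μ - ∫ y in Set.Ioc (0:ℝ) 1, ∫ x, F (x, y) ∂μ‖
      ≤ ‖(f 1 : ℂ) * ∫ x, e x ∂μ‖ + ‖∫ y in Set.Ioc (0:ℝ) 1, ∫ x, F (x, y) ∂μ‖ := norm_sub_le _ _
    _ ≤ M1 * (C * |lam| ^ (-s)) + M * (C * |lam| ^ (-s)) := by
        gcongr
        rw [norm_mul, Complex.norm_real, Real.norm_eq_abs]
        exact mul_le_mul hM1 e3 (norm_nonneg _) ((abs_nonneg _).trans hM1)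
    _ = _ := by ring

theorem pow_pred_mul_le {n : ℕ} {a b w : ℝ} (ha : 0 ≤ a) (haw : a ≤ w) (hb : 0 ≤ b)
    (hbw : b ≤ w) : (n : ℝ) * a ^ (n - 1) * b ≤ n * w ^ n := by
  rcases n with _ | n
  · simp
  · simp only [Nat.add_sub_cancel]
    have h1 : a ^ n ≤ w ^ n := pow_le_pow_left₀ ha haw n
    have h2 : a ^ n * b ≤ w ^ n * w := mul_le_mul h1 hbw hb (pow_nonneg (ha.trans haw) n)
    have h3 : (0:ℝ) ≤ ((n + 1 : ℕ) : ℝ) := by positivity
    calc ((n + 1 : ℕ) : ℝ) * a ^ n * b = ((n + 1 : ℕ) : ℝ) * (a ^ n * b) := by ring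
      _ ≤ ((n + 1 : ℕ) : ℝ) * (w ^ n * w) := mul_le_mul_of_nonneg_left h2 h3
      _ = _ := by rw [pow_succ]

theorem amp : StmAMP := by
  intro μ s C hμ h01 hs hs1 hC hT p q r
  haveI := hμ
  refine ⟨(1 + (p + q + r : ℕ)) * 2 ^ (p + q) * (C + 1), by positivity, ?_⟩
  intro A B lam hA hB hAB hlam
  set z : ℝ := A + B / 2 with hz
  set D : ℝ := (2 * z) ^ p * (2 * (1 - z)) ^ q with hD
  have hz0 : 0 ≤ z := by rw [hz]; linarith
  have hz1 : 0 ≤ 1 - z := by rw [hz]; linarith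
  have hD0 : 0 ≤ D := by positivity
  have hD' : D = 2 ^ (p + q) * (z ^ p * (1 - z) ^ q) := by
    rw [hD, mul_pow, mul_pow, pow_add]; ring
  set f : ℝ → ℝ := fun x => (A + B * x) ^ p * (1 - (A + B * x)) ^ q * (x - 1 / 2) ^ r with hf
  set f' : ℝ → ℝ := fun x => ((p : ℝ) * (A + B * x) ^ (p - 1) * B * (1 - (A + B * x)) ^ q +
      (A + B * x) ^ p * ((q : ℝ) * (1 - (A + B * x)) ^ (q - 1) * (-B))) * (x - 1 / 2) ^ r +
      (A + B * x) ^ p * (1 - (A + B * x)) ^ q * ((r : ℝ) * (x - 1 / 2) ^ (r - 1) * 1) with hf'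
  have hder : ∀ x, HasDerivAt f (f' x) x := by
    intro x
    have h1 : HasDerivAt (fun x : ℝ => A + B * x) B x := by
      simpa using ((hasDerivAt_id x).const_mul B).const_add A
    have h2 : HasDerivAt (fun x : ℝ => 1 - (A + B * x)) (-B) x := by
      simpa using h1.const_sub 1
    have h3 : HasDerivAt (fun x : ℝ => x - 1 / 2) 1 x := by
      simpa using (hasDerivAt_id x).sub_const (1 / 2)
    exact ((h1.pow p).mul (h2.pow q)).mul (h3.pow r)
  have hf'c : Continuous f' := by rw [hf']; fun_prop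
  have bnd : ∀ x : ℝ, 0 ≤ x → x ≤ 1 → 0 ≤ A + B * x ∧ A + B * x ≤ 2 * z ∧
      0 ≤ 1 - (A + B * x) ∧ 1 - (A + B * x) ≤ 2 * (1 - z) ∧ |x - 1 / 2| ≤ 1 := by
    intro x h0 h1
    have e1 : 0 ≤ B * x := mul_nonneg hB.le h0
    have e2 : B * x ≤ B := by nlinarith
    refine ⟨by linarith, by rw [hz]; linarith, by linarith, by rw [hz]; linarith, ?_⟩
    rw [abs_le]; constructor <;> linarith
  have hfb : ∀ x : ℝ, 0 ≤ x → x ≤ 1 → |f x| ≤ D := by
    intro x h0 h1
    obtain ⟨a1, a2, a3, a4, a5⟩ := bnd x h0 h1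
    rw [hf]
    simp only
    rw [abs_mul, abs_mul, abs_pow, abs_pow, abs_pow, abs_of_nonneg a1, abs_of_nonneg a3]
    have b1 : (A + B * x) ^ p ≤ (2 * z) ^ p := pow_le_pow_left₀ a1 a2 p
    have b2 : (1 - (A + B * x)) ^ q ≤ (2 * (1 - z)) ^ q := pow_le_pow_left₀ a3 a4 q
    have b3 : |x - 1 / 2| ^ r ≤ 1 := pow_le_one₀ (abs_nonneg _) a5
    calc (A + B * x) ^ p * (1 - (A + B * x)) ^ q * |x - 1 / 2| ^ r
        ≤ (2 * z) ^ p * (2 * (1 - z)) ^ q * 1 := by gcongr
      _ = D := by rw [hD]; ring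
  have hf'b : ∀ x : ℝ, 0 ≤ x → x ≤ 1 → |f' x| ≤ (p + q + r : ℕ) * D := by
    intro x h0 h1
    obtain ⟨a1, a2, a3, a4, a5⟩ := bnd x h0 h1
    have b1 : (A + B * x) ^ p ≤ (2 * z) ^ p := pow_le_pow_left₀ a1 a2 p
    have b2 : (1 - (A + B * x)) ^ q ≤ (2 * (1 - z)) ^ q := pow_le_pow_left₀ a3 a4 q
    have b3 : |x - 1 / 2| ^ r ≤ 1 := pow_le_one₀ (abs_nonneg _) a5
    have b3' : |x - 1 / 2| ^ (r - 1) ≤ 1 := pow_le_one₀ (abs_nonneg _) a5
    have b4 : (p : ℝ) * (A + B * x) ^ (p - 1) * B ≤ p * (2 * z) ^ p :=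
      pow_pred_mul_le a1 a2 hB.le (by rw [hz]; linarith)
    have b5 : (q : ℝ) * (1 - (A + B * x)) ^ (q - 1) * B ≤ q * (2 * (1 - z)) ^ q :=
      pow_pred_mul_le a3 a4 hB.le (by rw [hz]; linarith)
    have n1 : 0 ≤ (A + B * x) ^ p := pow_nonneg a1 p
    have n2 : 0 ≤ (1 - (A + B * x)) ^ q := pow_nonneg a3 q
    have n4 : 0 ≤ (p : ℝ) * (A + B * x) ^ (p - 1) * B := by positivity
    have n5 : 0 ≤ (q : ℝ) * (1 - (A + B * x)) ^ (q - 1) * B := by positivity
    rw [hf']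
    simp only
    have c1 : |((p : ℝ) * (A + B * x) ^ (p - 1) * B * (1 - (A + B * x)) ^ q +
      (A + B * x) ^ p * ((q : ℝ) * (1 - (A + B * x)) ^ (q - 1) * (-B))) * (x - 1 / 2) ^ r| ≤
      (p + q) * D := by
      rw [abs_mul, abs_pow]
      have : |(p : ℝ) * (A + B * x) ^ (p - 1) * B * (1 - (A + B * x)) ^ q +
        (A + B * x) ^ p * ((q : ℝ) * (1 - (A + B * x)) ^ (q - 1) * (-B))| ≤ (p + q) * D := by
        calc _ ≤ |(p : ℝ) * (A + B * x) ^ (p - 1) * B * (1 - (A + B * x)) ^ q| +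
            |(A + B * x) ^ p * ((q : ℝ) * (1 - (A + B * x)) ^ (q - 1) * (-B))| := abs_add_le _ _
          _ = (p : ℝ) * (A + B * x) ^ (p - 1) * B * (1 - (A + B * x)) ^ q +
            (A + B * x) ^ p * ((q : ℝ) * (1 - (A + B * x)) ^ (q - 1) * B) := by
              rw [abs_of_nonneg (mul_nonneg n4 n2)]
              have : (A + B * x) ^ p * ((q : ℝ) * (1 - (A + B * x)) ^ (q - 1) * (-B)) =
                -((A + B * x) ^ p * ((q : ℝ) * (1 - (A + B * x)) ^ (q - 1) * B)) := by ring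
              rw [this, abs_neg, abs_of_nonneg (mul_nonneg n1 n5)]
          _ ≤ (p * (2 * z) ^ p) * (2 * (1 - z)) ^ q + (2 * z) ^ p * (q * (2 * (1 - z)) ^ q) := by
              gcongr
          _ = _ := by rw [hD]; ring
      calc _ ≤ ((p + q) * D) * 1 := mul_le_mul this b3 (by positivity) (by positivity)
        _ = _ := by ring
    have c2 : |(A + B * x) ^ p * (1 - (A + B * x)) ^ q * ((r : ℝ) * (x - 1 / 2) ^ (r - 1) * 1)| ≤
        r * D := by
      rw [abs_mul, abs_mul, abs_mul, abs_mul, abs_pow (x - 1/2), abs_of_nonneg n1,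
        abs_of_nonneg n2, Nat.abs_cast, abs_one]
      calc (A + B * x) ^ p * (1 - (A + B * x)) ^ q * ((r : ℝ) * |x - 1 / 2| ^ (r - 1) * 1)
          ≤ (2 * z) ^ p * (2 * (1 - z)) ^ q * ((r : ℝ) * 1 * 1) := by gcongr
        _ = _ := by rw [hD]; ring
    calc _ ≤ _ := abs_add_le _ _
      _ ≤ (p + q) * D + r * D := add_le_add c1 c2
      _ = _ := by push_cast; ring
  -- the trivial bound
  have hcf : Continuous f := by rw [hf]; fun_prop
  have triv : ‖∫ x, ((f x : ℝ) : ℂ) * cexp (lam * x * I) ∂μ‖ ≤ D := by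
    have := norm_integral_le_of_norm_le_const (μ := μ)
      (f := fun x : ℝ => ((f x : ℝ) : ℂ) * cexp (lam * x * I)) (C := D) (by
        filter_upwards [h01] with x hx
        have e1 : cexp ((lam : ℂ) * x * I) = cexp (((lam * x : ℝ) : ℂ) * I) := by push_cast; rfl
        rw [norm_mul, e1, Complex.norm_exp_ofReal_mul_I, mul_one, Complex.norm_real,
          Real.norm_eq_abs]
        exact hfb x hx.1.le hx.2.le)
    simpa using this
  have hzz : 0 ≤ z ^ p * (1 - z) ^ q := by positivity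
  have hC1 : 1 ≤ C + 1 := by linarith
  have hN : (0:ℝ) ≤ (p + q + r : ℕ) := by positivity
  have hlp : 0 < |lam| := abs_pos.mpr hlam
  rcases le_total |lam| 1 with h | h
  · have hmin : min 1 (|lam| ^ (-s)) = 1 := by
      apply min_eq_left
      exact Real.one_le_rpow_of_pos_of_le_one_of_nonpos hlp h (by linarith)
    rw [hmin, mul_one]
    refine triv.trans ?_
    rw [hD']
    have : (1:ℝ) ≤ (1 + (p + q + r : ℕ)) * (C + 1) := by nlinarith
    have h3 : 0 ≤ 2 ^ (p + q) * (z ^ p * (1 - z) ^ q) := by positivity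
    nlinarith [mul_le_mul_of_nonneg_right this h3]
  · have hmin : min 1 (|lam| ^ (-s)) = |lam| ^ (-s) := by
      apply min_eq_right
      exact Real.rpow_le_one_of_one_le_of_nonpos h (by linarith)
    rw [hmin]
    have key := amp_key μ h01 hT f f' hder hf'c ((p + q + r : ℕ) * D) D hf'b
      (hfb 1 (by norm_num) le_rfl) lam h
    refine key.trans ?_
    have hpw : 0 ≤ |lam| ^ (-s) := by positivity
    have e1 : (D + (p + q + r : ℕ) * D) * (C * |lam| ^ (-s)) =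
      ((1 + (p + q + r : ℕ)) * D * |lam| ^ (-s)) * C := by ring
    have e2 : (1 + ((p + q + r : ℕ) : ℝ)) * 2 ^ (p + q) * (C + 1) * (z ^ p * (1 - z) ^ q) *
      |lam| ^ (-s) = ((1 + (p + q + r : ℕ)) * D * |lam| ^ (-s)) * (C + 1) := by rw [hD']; ring
    rw [e1, e2]
    exact mul_le_mul_of_nonneg_left (by linarith) (by positivity)

end Pool.Agent.T6.H62.AC
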