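import Pool.Agent.T6.H62.AC.Kit

open MeasureTheory Complex Filter Topology
open scoped ENNReal

namespace Pool.Agent.T6.H62.AC

theorem catb_aux (hB : StmMIXB) (hM : StmMIXM) (hJ : StmMIXJ) (hS : StmSTEP) (hSJ : StmSTEPJ)
    (μ : Measure ℝ) (s : ℝ) (hμ : IsProbabilityMeasure μ)
    (hsupp : ∀ᵐ x ∂μ, 0 < x ∧ x < 1) (hs : 0 < s) (hs1 : s ≤ 1) (hamp : AmpOK μ s)
    (hr : GoodRep μ μ s) (hr2 : GoodRep (mulLaw μ μ) μ s) (M k : ℕ) (Λ : (ℝ → ℂ) → ℂ)
    (hcat : Cat μ M k Λ) : ∀ (n0 N : ℕ) (K : ℝ), 0 ≤ K → K + 2 * s * k ≤ M →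
      ∃ L C C₁ : ℝ, 0 ≤ L ∧ 0 < C ∧ 0 < C₁ ∧ ∀ t δ ε : ℝ, 1 ≤ t → 0 < δ → δ ≤ 1 →
        t * δ ^ 2 ≤ 1 → 0 < ε →
        Mix s t δ n0 k N K L C (C₁ * δ ^ (-(11 / 10 * s * k))) ε Λ := by
  induction hcat with
  | base p q hp hq =>
    intro n0 N K hK hKM
    have hp' : (M : ℝ) ≤ p := by exact_mod_cast hp
    have hq' : (M : ℝ) ≤ q := by exact_mod_cast hq
    simp only [Nat.cast_one, mul_one] at hKM
    obtain ⟨C, C₁, hC, hC₁, h⟩ := hB μ s hμ hsupp hs hs1 hamp hr n0 N p q K hK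
      (by linarith) (by linarith)
    refine ⟨1, C, C₁, by norm_num, hC, hC₁, ?_⟩
    intro t δ ε ht hδ hδ1 htδ hε
    have := h t δ ε ht hδ hδ1 htδ hε
    simpa only [Nat.cast_one, mul_one] using this
  | mul κ hκ p q k Λ hp h ih =>
    intro n0 N K hK hKM
    push_cast at hKM
    have hp' : (M : ℝ) ≤ p := by exact_mod_cast hp
    have hsk : 0 ≤ s * k := by positivity
    obtain ⟨L, C, C₁, hL, hC, hC₁, h1⟩ := ih n0 (N + n0) (K + s) (by linarith) (by nlinarith)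
    have hrκ : GoodRep κ μ s := by
      rcases hκ with rfl | rfl
      · exact hr
      · exact hr2
    obtain ⟨C', C₁', hC', hC₁', h2⟩ := hM hS μ κ s hμ hsupp hs hs1 hamp hrκ n0 k N p q K (K + s) L C
      hK (by nlinarith) le_rfl hL hC.le
    refine ⟨L + 1, C', C₁' * C₁, by linarith, hC', by positivity, ?_⟩
    intro t δ ε ht hδ hδ1 htδ hε
    have h3 := h2 t δ (C₁ * δ ^ (-(11 / 10 * s * k))) (ε / 2) (ε / 2) Λ ht hδ hδ1 htδ
      (by positivity) (by linarith) (by linarith) (h1 t δ (ε / 2) ht hδ hδ1 htδ (by linarith))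
    have e1 : C₁' * δ ^ (-(11 / 10 * s)) * (C₁ * δ ^ (-(11 / 10 * s * k))) =
        C₁' * C₁ * δ ^ (-(11 / 10 * s * ((k + 1 : ℕ) : ℝ))) := by
      have : δ ^ (-(11 / 10 * s * ((k + 1 : ℕ) : ℝ))) =
          δ ^ (-(11 / 10 * s)) * δ ^ (-(11 / 10 * s * k)) := by
        rw [← Real.rpow_add hδ]; congr 1; push_cast; ring
      rw [this]; ring
    rw [e1, add_halves] at h3
    exact h3
  | join κ hκ p q k Λ hq h ih =>
    intro n0 N K hK hKM
    push_cast at hKM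
    have hq' : (M : ℝ) ≤ q := by exact_mod_cast hq
    have hsk : 0 ≤ s * k := by positivity
    obtain ⟨L, C, C₁, hL, hC, hC₁, h1⟩ := ih n0 (N + n0) (K + s) (by linarith) (by nlinarith)
    have hrκ : GoodRep κ μ s := by
      rcases hκ with rfl | rfl
      · exact hr
      · exact hr2
    obtain ⟨C', C₁', hC', hC₁', h2⟩ := hJ hSJ μ κ s hμ hsupp hs hs1 hamp hrκ n0 k N p q K (K + s)
      L C hK (by nlinarith) le_rfl hL hC.le
    refine ⟨L + 1, C', C₁' * C₁, by linarith, hC', by positivity, ?_⟩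
    intro t δ ε ht hδ hδ1 htδ hε
    have h3 := h2 t δ (C₁ * δ ^ (-(11 / 10 * s * k))) (ε / 2) (ε / 2) Λ ht hδ hδ1 htδ
      (by positivity) (by linarith) (by linarith) (h1 t δ (ε / 2) ht hδ hδ1 htδ (by linarith))
    have e1 : C₁' * δ ^ (-(11 / 10 * s)) * (C₁ * δ ^ (-(11 / 10 * s * k))) =
        C₁' * C₁ * δ ^ (-(11 / 10 * s * ((k + 1 : ℕ) : ℝ))) := by
      have : δ ^ (-(11 / 10 * s * ((k + 1 : ℕ) : ℝ))) =
          δ ^ (-(11 / 10 * s)) * δ ^ (-(11 / 10 * s * k)) := by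
        rw [← Real.rpow_add hδ]; congr 1; push_cast; ring
      rw [this]; ring
    rw [e1, add_halves] at h3
    exact h3

theorem catb : StmCATB := by
  intro hB hM hJ hS hSJ hF μ s hμ hsupp hs hs1 hamp hr hr2 M k Λ hkM hcat
  have hkM' : 2 * (k : ℝ) ≤ M := by exact_mod_cast hkM
  have hk0 : (0 : ℝ) ≤ k := Nat.cast_nonneg k
  have hsk : s * k ≤ k := by nlinarith
  have hsk0 : 0 ≤ s * k := by positivity
  obtain ⟨L, C, C₁, hL, hC, hC₁, h⟩ := catb_aux hB hM hJ hS hSJ μ s hμ hsupp hs hs1 hamp hr hr2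
    M k Λ hcat (4 * k) 0 0 le_rfl (by nlinarith)
  refine ⟨C * (C₁ + 1) + 1, by positivity, ?_⟩
  intro t ht
  have ht0 : 0 < t := by linarith
  set δ : ℝ := t ^ (-(11 / 20) : ℝ) with hδ
  have hδ0 : 0 < δ := by positivity
  have hδ1 : δ ≤ 1 := Real.rpow_le_one_of_one_le_of_nonpos ht (by norm_num)
  have htδ : t * δ ^ 2 = t ^ (-(1 / 10) : ℝ) := by
    rw [hδ, ← Real.rpow_natCast, ← Real.rpow_mul ht0.le]
    nth_rewrite 1 [← Real.rpow_one t]
    rw [← Real.rpow_add ht0]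
    congr 1
    norm_num
  have htδ1 : t * δ ^ 2 ≤ 1 := by
    rw [htδ]
    exact Real.rpow_le_one_of_one_le_of_nonpos ht (by norm_num)
  have hε : 0 < t ^ (-(s * k)) := by positivity
  have hmix := h t δ (t ^ (-(s * k))) ht hδ0 hδ1 htδ1 hε
  have hfin := hF s t δ (4 * k) k 0 0 L C (C₁ * δ ^ (-(11 / 10 * s * k))) (t ^ (-(s * k))) Λ
    hs ht hδ0 hδ1 le_rfl hC.le (by positivity) hε.le hmix
  refine hfin.trans ?_
  have e1 : t ^ (-(s * k)) * (C₁ * δ ^ (-(11 / 10 * s * k))) ≤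
      C₁ * t ^ (-(39 / 100 * s * k)) := by
    have : t ^ (-(s * k)) * (C₁ * δ ^ (-(11 / 10 * s * k))) =
        C₁ * t ^ (-(395 / 1000 * (s * k))) := by
      rw [hδ, ← Real.rpow_mul ht0.le, mul_left_comm, ← Real.rpow_add ht0]
      congr 2
      ring
    rw [this]
    apply mul_le_mul_of_nonneg_left _ hC₁.le
    apply Real.rpow_le_rpow_of_exponent_le ht
    nlinarith
  have e2 : (t * δ ^ 2) ^ (4 * k) ≤ t ^ (-(39 / 100 * s * k)) := by
    rw [htδ, ← Real.rpow_natCast, ← Real.rpow_mul ht0.le]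
    apply Real.rpow_le_rpow_of_exponent_le ht
    push_cast
    nlinarith
  have e3 : t ^ (-(s * k)) ≤ t ^ (-(39 / 100 * s * k)) := by
    apply Real.rpow_le_rpow_of_exponent_le ht
    nlinarith
  have e4 := mul_le_mul_of_nonneg_left (add_le_add e1 e2) hC.le
  nlinarith [e4, e3]

end Pool.Agent.T6.H62.AC
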