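import Pool.Agent.T6.H62.AC.Kit

/-!
MP_319742_pr. Module CATM: caterpillar functionals of measurable families are measurable and
bounded.
-/

open MeasureTheory Complex Filter Topology
open scoped ENNReal

namespace Pool.Agent.T6.H62.AC

namespace CATM

theorem supp_mul {a : ℝ} {μ : Measure ℝ} (h : Eqn a μ) :
    ∀ᵐ x ∂(mulLaw μ μ), 0 < x ∧ x < 1 := by
  haveI := h.prob
  unfold mulLaw
  rw [ae_map_iff (by fun_prop) (by
    exact (measurableSet_lt measurable_const measurable_id).inter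
      (measurableSet_lt measurable_id measurable_const))]
  have h1 : ∀ᵐ p : ℝ × ℝ ∂(μ.prod μ), 0 < p.1 ∧ p.1 < 1 :=
    Measure.quasiMeasurePreserving_fst.ae h.supp
  have h2 : ∀ᵐ p : ℝ × ℝ ∂(μ.prod μ), 0 < p.2 ∧ p.2 < 1 :=
    Measure.quasiMeasurePreserving_snd.ae h.supp
  filter_upwards [h1, h2] with p h3 h4
  exact ⟨mul_pos h3.1 h4.1, by nlinarith [h3.1, h3.2, h4.1, h4.2]⟩

theorem bound {κ : Measure ℝ} [IsProbabilityMeasure κ] (hs : ∀ᵐ x ∂κ, 0 < x ∧ x < 1) (p q : ℕ)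
    {g : ℝ → ℂ} {B : ℝ} (hg : ∀ x, ‖g x‖ ≤ B) :
    ‖∫ u, ((u ^ p * (1 - u) ^ q : ℝ) : ℂ) * g u ∂κ‖ ≤ B := by
  have hB : 0 ≤ B := (norm_nonneg _).trans (hg 0)
  have h1 : ∀ᵐ u ∂κ, ‖((u ^ p * (1 - u) ^ q : ℝ) : ℂ) * g u‖ ≤ B := by
    filter_upwards [hs] with u hu
    rw [norm_mul, Complex.norm_real, Real.norm_eq_abs]
    have h2 : 0 ≤ u ^ p := pow_nonneg hu.1.le _
    have h3 : 0 ≤ (1 - u) ^ q := pow_nonneg (by linarith [hu.2]) _
    have h4 : u ^ p ≤ 1 := pow_le_one₀ hu.1.le hu.2.le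
    have h5 : (1 - u) ^ q ≤ 1 := pow_le_one₀ (by linarith [hu.2]) (by linarith [hu.1])
    rw [abs_of_nonneg (mul_nonneg h2 h3)]
    calc u ^ p * (1 - u) ^ q * ‖g u‖ ≤ 1 * B := by
          apply mul_le_mul _ (hg u) (norm_nonneg _) zero_le_one
          exact mul_le_one₀ h4 h3 h5
      _ = B := one_mul B
  have h2 := norm_integral_le_of_norm_le_const h1
  simpa using h2

theorem meas {Ω : Type} [MeasurableSpace Ω] {κ : Measure ℝ} [IsProbabilityMeasure κ] (p q : ℕ)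
    {g : Ω → ℝ → ℂ} (hg : Measurable (fun z : Ω × ℝ => g z.1 z.2)) :
    Measurable (fun v => ∫ u, ((u ^ p * (1 - u) ^ q : ℝ) : ℂ) * g v u ∂κ) := by
  have h1 : Measurable (fun z : Ω × ℝ =>
      ((z.2 ^ p * (1 - z.2) ^ q : ℝ) : ℂ) * g z.1 z.2) := by
    refine Measurable.mul ?_ hg
    exact Complex.measurable_ofReal.comp (by fun_prop)
  have h2 : StronglyMeasurable (Function.uncurry fun (v : Ω) (u : ℝ) =>
      ((u ^ p * (1 - u) ^ q : ℝ) : ℂ) * g v u) := h1.stronglyMeasurable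
  exact h2.integral_prod_right.measurable

end CATM

open CATM in
theorem catm : StmCATM := by
  intro a μ hE M k Λ hC
  haveI := hE.prob
  induction hC with
  | base p q hp hq =>
    intro Ω _ F B hF hB
    exact ⟨meas p q hF, fun v => bound hE.supp p q (hB v)⟩
  | mul κ hκ p q k Λ hp h ih =>
    intro Ω _ F B hF hB
    have hs : IsProbabilityMeasure κ ∧ ∀ᵐ x ∂κ, 0 < x ∧ x < 1 := by
      rcases hκ with rfl | rfl
      · exact ⟨hE.prob, hE.supp⟩
      · exact ⟨inferInstance, supp_mul hE⟩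
    haveI := hs.1
    have h1 := ih (Ω × ℝ) inferInstance (fun z x => F z.1 (z.2 * x)) B (by
      exact hF.comp (by fun_prop : Measurable fun w : (Ω × ℝ) × ℝ => (w.1.1, w.1.2 * w.2)))
      (fun z x => hB _ _)
    refine ⟨meas p q h1.1, fun v => ?_⟩
    exact bound hs.2 p q (g := fun u => Λ (fun x => F v (u * x))) (fun u => h1.2 (v, u))
  | join κ hκ p q k Λ hq h ih =>
    intro Ω _ F B hF hB
    have hs : IsProbabilityMeasure κ ∧ ∀ᵐ x ∂κ, 0 < x ∧ x < 1 := by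
      rcases hκ with rfl | rfl
      · exact ⟨hE.prob, hE.supp⟩
      · exact ⟨inferInstance, supp_mul hE⟩
    haveI := hs.1
    have h1 := ih (Ω × ℝ) inferInstance (fun z x => F z.1 (z.2 + (1 - z.2) * x)) B (by
      exact hF.comp (by fun_prop :
        Measurable fun w : (Ω × ℝ) × ℝ => (w.1.1, w.1.2 + (1 - w.1.2) * w.2)))
      (fun z x => hB _ _)
    refine ⟨meas p q h1.1, fun v => ?_⟩
    exact bound hs.2 p q (g := fun u => Λ (fun x => F v (u + (1 - u) * x)))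
      (fun u => h1.2 (v, u))

end Pool.Agent.T6.H62.AC
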