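import Pool.Agent.T6.H62.AC.Kit

open MeasureTheory Complex Filter Topology
open scoped ENNReal

namespace Pool.Agent.T6.H62.AC

namespace ModCra

theorem exists_lam (ρ : Measure ℝ) [IsProbabilityMeasure ρ] (hsupp : ∀ᵐ d ∂ρ, 0 < d ∧ d < 1) :
    ∃ lam : ℝ, 1 < lam ∧ 1 / 2 ≤ ρ.real {d | lam * d ≤ 1} := by
  obtain ⟨s, hs⟩ : ∃ s : ℕ → Set ℝ, s = fun n : ℕ =>
      {d : ℝ | 0 < d ∧ (1 + 1 / ((n:ℝ) + 1)) * d ≤ 1} := ⟨_, rfl⟩
  have hmono : Monotone s := by
    intro m n hmn d hd
    rw [hs] at hd ⊢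
    refine ⟨hd.1, le_trans ?_ hd.2⟩
    have h1 : 1 / ((n:ℝ) + 1) ≤ 1 / ((m:ℝ) + 1) := by
      have : (m:ℝ) ≤ n := by exact_mod_cast hmn
      gcongr
    have h2 := hd.1
    gcongr
  have hmeas : ∀ n, MeasurableSet (s n) := by
    intro n
    rw [hs]
    have m1 : MeasurableSet {d : ℝ | 0 < d} := measurableSet_lt measurable_const measurable_id
    have m2 : MeasurableSet {d : ℝ | (1 + 1 / ((n:ℝ) + 1)) * d ≤ 1} :=
      measurableSet_le (by fun_prop) measurable_const
    exact m1.inter m2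
  have hU : ρ (⋃ n, s n) = 1 := by
    rw [← mem_ae_iff_prob_eq_one (MeasurableSet.iUnion hmeas)]
    filter_upwards [hsupp] with d hd
    obtain ⟨d0, d1⟩ := hd
    have h1 : 0 < (1 - d) / d := div_pos (by linarith) d0
    obtain ⟨n, hn⟩ := exists_nat_one_div_lt h1
    rw [Set.mem_iUnion]
    refine ⟨n, ?_⟩
    rw [hs]
    refine ⟨d0, ?_⟩
    rw [lt_div_iff₀ d0] at hn
    nlinarith
  have ht : Tendsto (fun n => ρ (s n)) atTop (𝓝 1) := by
    rw [← hU]
    exact tendsto_measure_iUnion_atTop hmono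
  have hlt : (1 / 2 : ℝ≥0∞) < 1 := by
    rw [one_div]
    exact ENNReal.inv_lt_one.2 (by norm_num)
  obtain ⟨n, hn⟩ := (ht.eventually (lt_mem_nhds hlt)).exists
  refine ⟨1 + 1 / ((n:ℝ) + 1), by
    have : 0 < 1 / ((n:ℝ) + 1) := by positivity
    linarith, ?_⟩
  have h1 : s n ⊆ {d | (1 + 1 / ((n:ℝ) + 1)) * d ≤ 1} := by
    intro d hd
    rw [hs] at hd
    exact hd.2
  have h2 : (1 / 2 : ℝ≥0∞) ≤ ρ {d | (1 + 1 / ((n:ℝ) + 1)) * d ≤ 1} :=
    hn.le.trans (measure_mono h1)
  have h3 := ENNReal.toReal_mono (measure_ne_top _ _) h2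
  simpa [Measure.real] using h3

/-- one multiplicative step -/
theorem stepT (h : ℝ → ℝ) (ρ : Measure ℝ) [IsProbabilityMeasure ρ] (hcont : Continuous h)
    (h0 : ∀ t, 0 ≤ h t) (h1 : ∀ t, h t ≤ 1) (hsupp : ∀ᵐ d ∂ρ, 0 < d ∧ d < 1)
    (th C lam : ℝ) (hth : 0 < th) (hC : 0 ≤ C)
    (htail : ∀ r, 0 < r → ρ.real {d | d < r} ≤ C * r ^ th)
    (hrec : ∀ t, 1 ≤ t → h t ≤ ∫ d, h (t * d) ∂ρ)
    (hlam : 1 < lam) (hlamA : 1 / 2 ≤ ρ.real {d | lam * d ≤ 1})
    (T m : ℝ) (hT : 1 ≤ T) (hm0 : 0 ≤ m) (_hm1 : m ≤ 1)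
    (hh : ∀ t, 1 ≤ t → t ≤ T → h t ≤ 1 - m) :
    ∀ t, 1 ≤ t → t ≤ lam * T → h t ≤ 1 - m * (1 - 2 * C * T ^ (-th)) := by
  have hT0 : 0 < T := by linarith
  have hpos : 0 ≤ m * (2 * C * T ^ (-th)) := by positivity
  have hne : (Set.Icc (1:ℝ) (lam * T)).Nonempty := ⟨1, le_rfl, by nlinarith⟩
  obtain ⟨ts, hts, hmax⟩ := isCompact_Icc.exists_isMaxOn hne hcont.continuousOn
  intro t ht1 ht2
  refine (hmax ⟨ht1, ht2⟩ : h t ≤ h ts).trans ?_
  rcases le_total (h ts) (1 - m) with hle | hge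
  · linarith
  rcases le_total ts T with h2 | h2
  · have := hh ts hts.1 h2
    linarith
  have hts0 : 0 < ts := by linarith [hts.1]
  set A : Set ℝ := {d | lam * d ≤ 1} with hA
  set R : Set ℝ := {d | d < 1 / ts} with hR
  have hAm : MeasurableSet A := measurableSet_le (by fun_prop) measurable_const
  have hRm : MeasurableSet R := measurableSet_lt measurable_id measurable_const
  have hbound : ∀ᵐ d ∂ρ, h (ts * d) ≤ h ts + A.indicator (fun _ => 1 - m - h ts) d +
      R.indicator (fun _ => m) d := by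
    filter_upwards [hsupp] with d hd
    obtain ⟨d0, d1⟩ := hd
    have e1 : ts * d ≤ ts := by nlinarith
    by_cases hdA : d ∈ A
    · rw [Set.indicator_of_mem hdA]
      have hdA' : lam * d ≤ 1 := hdA
      by_cases hdR : d ∈ R
      · rw [Set.indicator_of_mem hdR]
        have := h1 (ts * d)
        linarith
      · rw [Set.indicator_of_notMem hdR]
        have hdR' : 1 / ts ≤ d := not_lt.1 hdR
        rw [div_le_iff₀ hts0] at hdR'
        have e2 : ts * d ≤ T := by
          have : ts * d ≤ (lam * T) * d := by nlinarith [hts.2]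
          nlinarith
        have := hh (ts * d) (by linarith) e2
        linarith
    · rw [Set.indicator_of_notMem hdA]
      by_cases hdR : d ∈ R
      · rw [Set.indicator_of_mem hdR]
        have := h1 (ts * d)
        linarith
      · rw [Set.indicator_of_notMem hdR]
        have hdR' : 1 / ts ≤ d := not_lt.1 hdR
        rw [div_le_iff₀ hts0] at hdR'
        have : h (ts * d) ≤ h ts := hmax ⟨by linarith, e1.trans hts.2⟩
        linarith
  have i1 : Integrable (fun d => h (ts * d)) ρ :=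
    Integrable.of_bound (by fun_prop) 1 (Eventually.of_forall fun d => by
      rw [Real.norm_eq_abs, abs_of_nonneg (h0 _)]; exact h1 _)
  have iA : Integrable (A.indicator (fun _ => 1 - m - h ts)) ρ :=
    (integrable_const _).indicator hAm
  have iR : Integrable (R.indicator (fun _ => m)) ρ := (integrable_const _).indicator hRm
  have hint := integral_mono_ae i1 (((integrable_const (h ts)).add iA).add iR) hbound
  have hval : ∫ d, (((fun _ : ℝ => h ts) + A.indicator (fun _ : ℝ => 1 - m - h ts)) +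
      R.indicator (fun _ : ℝ => m) : ℝ → ℝ) d ∂ρ =
      h ts + ρ.real A * (1 - m - h ts) + ρ.real R * m := by
    rw [integral_add' ((integrable_const (h ts)).add iA) iR, integral_add' (integrable_const _) iA,
      integral_const, integral_indicator_const _ hAm, integral_indicator_const _ hRm]
    simp
  have hint' : ∫ d, h (ts * d) ∂ρ ≤ h ts + ρ.real A * (1 - m - h ts) + ρ.real R * m := by
    rw [← hval]; exact hint
  have hr := hrec ts hts.1
  have hRle : ρ.real R ≤ C * T ^ (-th) := by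
    refine (htail (1 / ts) (by positivity)).trans ?_
    have : (1 / ts) ^ th ≤ T ^ (-th) := by
      rw [Real.rpow_neg hT0.le, ← Real.inv_rpow hT0.le, one_div]
      exact Real.rpow_le_rpow (by positivity) (by gcongr) hth.le
    gcongr
  have k1 : ρ.real A * (h ts - (1 - m)) ≤ ρ.real R * m := by nlinarith
  have k2 : 1 / 2 * (h ts - (1 - m)) ≤ ρ.real A * (h ts - (1 - m)) := by
    have : 0 ≤ h ts - (1 - m) := by linarith
    gcongr
  have k3 : ρ.real R * m ≤ C * T ^ (-th) * m := by gcongr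
  nlinarith

theorem core (h : ℝ → ℝ) (ρ : Measure ℝ) [IsProbabilityMeasure ρ] (hcont : Continuous h)
    (h0 : ∀ t, 0 ≤ h t) (h1 : ∀ t, h t ≤ 1) (hlt : ∀ t, 1 ≤ t → h t < 1)
    (hsupp : ∀ᵐ d ∂ρ, 0 < d ∧ d < 1)
    (th C : ℝ) (hth : 0 < th) (hC : 0 ≤ C)
    (htail : ∀ r, 0 < r → ρ.real {d | d < r} ≤ C * r ^ th)
    (hrec : ∀ t, 1 ≤ t → h t ≤ ∫ d, h (t * d) ∂ρ) :
    ∃ q : ℝ, 0 ≤ q ∧ q < 1 ∧ ∀ t, 1 ≤ t → h t ≤ q := by
  obtain ⟨lam, hlam, hlamA⟩ := exists_lam ρ hsupp
  have hlam0 : 0 < lam := by linarith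
  obtain ⟨κ, hκ⟩ : ∃ κ : ℝ, κ = lam ^ (-th) := ⟨_, rfl⟩
  have hκ0 : 0 < κ := by rw [hκ]; positivity
  have hκ1 : κ < 1 := by rw [hκ]; exact Real.rpow_lt_one_of_one_lt_of_neg hlam (by linarith)
  have h1κ : 0 < 1 - κ := by linarith
  have htend : Tendsto (fun t : ℝ => 2 * C * t ^ (-th)) atTop (𝓝 0) := by
    simpa using (tendsto_rpow_neg_atTop hth).const_mul (2 * C)
  obtain ⟨T1, hT1⟩ := eventually_atTop.1 (htend.eventually_le_const
    (by positivity : 0 < (1 - κ) / 2))
  obtain ⟨T0, hT0a, hT0b⟩ : ∃ T0 : ℝ, T1 ≤ T0 ∧ 1 ≤ T0 := ⟨max T1 1, le_max_left _ _, le_max_right _ _⟩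
  have hT00 : 0 < T0 := by linarith
  obtain ⟨E0, hE0⟩ : ∃ E0 : ℝ, E0 = 2 * C * T0 ^ (-th) := ⟨_, rfl⟩
  have hE00 : 0 ≤ E0 := by rw [hE0]; positivity
  have hE01 : E0 ≤ (1 - κ) / 2 := by rw [hE0]; exact hT1 T0 hT0a
  obtain ⟨t0, ht0, hmax⟩ := isCompact_Icc.exists_isMaxOn
    (⟨1, le_rfl, hT0b⟩ : (Set.Icc (1:ℝ) T0).Nonempty) hcont.continuousOn
  obtain ⟨m0, hm0⟩ : ∃ m0 : ℝ, m0 = 1 - h t0 := ⟨_, rfl⟩
  have hm00 : 0 < m0 := by rw [hm0]; linarith [hlt t0 ht0.1]
  have hm01 : m0 ≤ 1 := by rw [hm0]; linarith [h0 t0]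
  have hmain : ∀ j : ℕ, ∀ t, 1 ≤ t → t ≤ T0 * lam ^ j →
      h t ≤ 1 - m0 * (1 - E0 * (1 - κ ^ j) / (1 - κ)) := by
    intro j
    induction j with
    | zero =>
      intro t ht1 ht2
      have : h t ≤ h t0 := hmax ⟨ht1, by simpa using ht2⟩
      simp only [pow_zero, sub_self, mul_zero, zero_div, sub_zero, mul_one]
      rw [hm0]; linarith
    | succ j ih =>
      intro t ht1 ht2
      obtain ⟨e, he⟩ : ∃ e : ℝ, e = E0 * (1 - κ ^ j) / (1 - κ) := ⟨_, rfl⟩
      have hκj : κ ^ j ≤ 1 := pow_le_one₀ hκ0.le hκ1.le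
      have hκj0 : 0 < κ ^ j := by positivity
      have he0 : 0 ≤ e := by
        rw [he]
        have : 0 ≤ 1 - κ ^ j := by linarith
        positivity
      have he1 : e ≤ 1 / 2 := by
        rw [he, div_le_iff₀ h1κ]
        nlinarith
      rw [← he] at ih
      have hTj : 1 ≤ T0 * lam ^ j := by
        have : 1 ≤ lam ^ j := one_le_pow₀ hlam.le
        nlinarith
      have hs := stepT h ρ hcont h0 h1 hsupp th C lam hth hC htail hrec hlam hlamA
        (T0 * lam ^ j) (m0 * (1 - e)) hTj (by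
          have : 0 ≤ 1 - e := by linarith
          positivity) (by nlinarith) ih t ht1 (by
          rw [pow_succ] at ht2; linarith)
      have hpow : 2 * C * (T0 * lam ^ j) ^ (-th) = E0 * κ ^ j := by
        rw [hE0, hκ, Real.mul_rpow hT00.le (by positivity), ← Real.rpow_natCast lam j,
          ← Real.rpow_natCast (lam ^ (-th)) j, ← Real.rpow_mul hlam0.le, ← Real.rpow_mul hlam0.le,
          mul_comm (j:ℝ) (-th)]
        ring
      rw [hpow] at hs
      refine hs.trans ?_
      have hed : E0 * (1 - κ ^ (j+1)) / (1 - κ) = e + E0 * κ ^ j := by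
        rw [he]
        field_simp
        ring
      rw [hed]
      have hd0 : 0 ≤ E0 * κ ^ j := by positivity
      have : 0 ≤ m0 * (e * (E0 * κ ^ j)) := by positivity
      nlinarith
  refine ⟨1 - m0 / 2, by linarith, by linarith, fun t ht => ?_⟩
  obtain ⟨j, hj⟩ := pow_unbounded_of_one_lt t hlam
  have hj0 : 0 < lam ^ j := by positivity
  refine (hmain j t ht (by nlinarith)).trans ?_
  have hκj0 : 0 < κ ^ j := by positivity
  have : E0 * (1 - κ ^ j) / (1 - κ) ≤ 1 / 2 := by
    rw [div_le_iff₀ h1κ]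
    nlinarith
  nlinarith

/-- the law of the factor -/
noncomputable def rho (a : ℝ) (μ : Measure ℝ) : Measure ℝ :=
  ENNReal.ofReal a • (μ.prod μ).map (fun p : ℝ × ℝ => (1 - p.1) * p.2) + ENNReal.ofReal (1 - a) • μ

end ModCra

open ModCra in
theorem cra : StmCRA := by
  intro a μ θ hE hM hlt
  have := hE.prob
  have ha := hE.ha
  have ha1 := hE.ha1
  have hmap : Measurable (fun p : ℝ × ℝ => (1 - p.1) * p.2) := by fun_prop
  have : IsProbabilityMeasure ((μ.prod μ).map (fun p : ℝ × ℝ => (1 - p.1) * p.2)) :=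
    Measure.isProbabilityMeasure_map hmap.aemeasurable
  have hρ : IsProbabilityMeasure (rho a μ) := by
    constructor
    unfold rho
    rw [Measure.add_apply, Measure.smul_apply, Measure.smul_apply, measure_univ, measure_univ,
      smul_eq_mul, smul_eq_mul, mul_one, mul_one, ← ENNReal.ofReal_add (by linarith) (by linarith)]
    norm_num
  have hsupp2 : ∀ᵐ p ∂(μ.prod μ), (0 < p.1 ∧ p.1 < 1) ∧ (0 < p.2 ∧ p.2 < 1) := by
    have a1 : ∀ᵐ w ∂(μ.prod μ), 0 < w.1 ∧ w.1 < 1 :=
      Measure.quasiMeasurePreserving_fst.ae hE.supp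
    have a2 : ∀ᵐ w ∂(μ.prod μ), 0 < w.2 ∧ w.2 < 1 :=
      Measure.quasiMeasurePreserving_snd.ae hE.supp
    filter_upwards [a1, a2] with w h1 h2 using ⟨h1, h2⟩
  have hsupp : ∀ᵐ d ∂(rho a μ), 0 < d ∧ d < 1 := by
    unfold rho
    rw [ae_add_measure_iff]
    constructor
    · apply Measure.ae_smul_measure
      have hms : MeasurableSet {x : ℝ | 0 < x ∧ x < 1} :=
        (measurableSet_lt measurable_const measurable_id).inter
        (measurableSet_lt measurable_id measurable_const)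
      rw [ae_map_iff hmap.aemeasurable hms]
      filter_upwards [hsupp2] with p hp
      obtain ⟨⟨x0, x1⟩, y0, y1⟩ := hp
      have : 0 < 1 - p.1 := by linarith
      exact ⟨by positivity, by nlinarith⟩
    · apply Measure.ae_smul_measure
      exact hE.supp
  -- the negative moment of rho
  have hJ : ∫⁻ d, ENNReal.ofReal (d ^ (-θ)) ∂(rho a μ) ≠ ⊤ := by
    unfold rho
    rw [lintegral_add_measure, lintegral_smul_measure, lintegral_smul_measure]
    refine ENNReal.add_ne_top.2 ⟨?_, ENNReal.mul_ne_top ENNReal.ofReal_ne_top hM.m0⟩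
    refine ENNReal.mul_ne_top ENNReal.ofReal_ne_top ?_
    rw [lintegral_map (by fun_prop) hmap]
    have e : ∫⁻ p, ENNReal.ofReal (((1 - p.1) * p.2) ^ (-θ)) ∂(μ.prod μ) =
        ∫⁻ p, ENNReal.ofReal ((1 - p.1) ^ (-θ)) * ENNReal.ofReal (p.2 ^ (-θ)) ∂(μ.prod μ) := by
      apply lintegral_congr_ae
      filter_upwards [hsupp2] with p hp
      obtain ⟨⟨x0, x1⟩, y0, y1⟩ := hp
      have : 0 < 1 - p.1 := by linarith
      rw [Real.mul_rpow this.le y0.le, ENNReal.ofReal_mul (by positivity)]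
    rw [e, lintegral_prod_mul (f := fun x => ENNReal.ofReal ((1 - x) ^ (-θ)))
      (g := fun y => ENNReal.ofReal (y ^ (-θ))) (by fun_prop) (by fun_prop)]
    exact ENNReal.mul_ne_top hM.m1 hM.m0
  obtain ⟨J, hJd⟩ : ∃ J : ℝ≥0∞, J = ∫⁻ d, ENNReal.ofReal (d ^ (-θ)) ∂(rho a μ) := ⟨_, rfl⟩
  rw [← hJd] at hJ
  have htail : ∀ r, 0 < r → (rho a μ).real {d | d < r} ≤ J.toReal * r ^ θ := by
    intro r hr
    have hθ := hM.pos
    have hm : (rho a μ) {d | d < r} ≤ J * ENNReal.ofReal (r ^ θ) := by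
      have hms : MeasurableSet {d : ℝ | d < r} := measurableSet_lt measurable_id measurable_const
      calc (rho a μ) {d | d < r} = ∫⁻ d, ({d : ℝ | d < r}.indicator (fun _ => (1:ℝ≥0∞))) d ∂(rho a μ) := by
            rw [lintegral_indicator_const hms, one_mul]
        _ ≤ ∫⁻ d, ENNReal.ofReal (d ^ (-θ)) * ENNReal.ofReal (r ^ θ) ∂(rho a μ) := by
            apply lintegral_mono_ae
            filter_upwards [hsupp] with d hd
            obtain ⟨d0, d1⟩ := hd
            by_cases hdr : d ∈ {d : ℝ | d < r}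
            · rw [Set.indicator_of_mem hdr, ← ENNReal.ofReal_mul (by positivity),
                ENNReal.one_le_ofReal, Real.rpow_neg d0.le, ← Real.inv_rpow d0.le,
                ← Real.mul_rpow (by positivity) hr.le]
              apply Real.one_le_rpow _ hθ.le
              rw [← div_eq_inv_mul, le_div_iff₀ d0, one_mul]
              exact (le_of_lt hdr)
            · rw [Set.indicator_of_notMem hdr]
              exact zero_le
        _ = J * ENNReal.ofReal (r ^ θ) := by
            rw [lintegral_mul_const' _ _ ENNReal.ofReal_ne_top, hJd]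
    have h2 := ENNReal.toReal_mono (ENNReal.mul_ne_top hJ ENNReal.ofReal_ne_top) hm
    rw [ENNReal.toReal_mul, ENNReal.toReal_ofReal (by positivity)] at h2
    exact h2
  -- the inequality
  have hcont : Continuous (fun t : ℝ => ‖charFun μ t‖) := continuous_charFun.norm
  have hrec : ∀ t, 1 ≤ t → ‖charFun μ t‖ ≤ ∫ d, ‖charFun μ (t * d)‖ ∂(rho a μ) := by
    intro t ht
    have hbd : ∀ u : ℝ, ‖cexp (u * I)‖ ≤ 1 := fun u => by rw [norm_exp_ofReal_mul_I]
    have hI := hE.int (f := fun x : ℝ => cexp (t * x * I)) (by fun_prop) (B := 1)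
      (fun x => by
        have := hbd (t * x)
        push_cast at this
        exact this)
    have e1 : ∀ x y : ℝ, ∫ z, cexp (t * ((x + (1 - x) * (y * z) : ℝ) : ℂ) * I) ∂μ =
        cexp ((t * x : ℝ) * I) * charFun μ (t * ((1 - x) * y)) := by
      intro x y
      rw [charFun_apply_real, ← integral_const_mul]
      congr 1
      ext z
      rw [← Complex.exp_add]
      congr 1
      push_cast
      ring
    have e2 : ∀ y : ℝ, ∫ z, cexp (t * ((y * z : ℝ) : ℂ) * I) ∂μ = charFun μ (t * y) := by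
      intro y
      rw [charFun_apply_real]
      congr 1
      ext z
      congr 1
      push_cast
      ring
    have e0 : charFun μ t = ∫ x : ℝ, cexp (t * x * I) ∂μ := by rw [charFun_apply_real]
    have hbc : ∀ u : ℝ, ‖(‖charFun μ u‖ : ℝ)‖ ≤ 1 := fun u => by
      rw [norm_norm]; exact norm_charFun_le_one _
    have hmain : ‖charFun μ t‖ ≤ a * (∫ x, ∫ y, ‖charFun μ (t * ((1 - x) * y))‖ ∂μ ∂μ) +
        (1 - a) * ∫ y, ‖charFun μ (t * y)‖ ∂μ := by
      rw [e0, hI]
      simp_rw [e1, e2]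
      refine (norm_add_le _ _).trans ?_
      rw [norm_mul, norm_mul]
      have n1 : ‖(a:ℂ)‖ = a := by
        rw [Complex.norm_real, Real.norm_eq_abs, abs_of_nonneg (by linarith)]
      have n2 : ‖((1 - a : ℝ):ℂ)‖ = 1 - a := by
        rw [Complex.norm_real, Real.norm_eq_abs, abs_of_nonneg (by linarith)]
      rw [n1, n2]
      have k1 : ‖∫ x, ∫ y, cexp ((t * x : ℝ) * I) * charFun μ (t * ((1 - x) * y)) ∂μ ∂μ‖ ≤
          ∫ x, ∫ y, ‖charFun μ (t * ((1 - x) * y))‖ ∂μ ∂μ := by
        refine (norm_integral_le_integral_norm _).trans ?_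
        have hpt : ∀ x : ℝ, ‖∫ y, cexp ((t * x : ℝ) * I) * charFun μ (t * ((1 - x) * y)) ∂μ‖ ≤
            ∫ y, ‖charFun μ (t * ((1 - x) * y))‖ ∂μ := by
          intro x
          refine (norm_integral_le_integral_norm _).trans_eq ?_
          congr 1
          ext y
          rw [norm_mul, norm_exp_ofReal_mul_I, one_mul]
        have hc2 : Continuous (fun p : ℝ × ℝ => ‖charFun μ (t * ((1 - p.1) * p.2))‖) :=
          hcont.comp (by fun_prop)
        have hint2 : Integrable (fun x => ∫ y, ‖charFun μ (t * ((1 - x) * y))‖ ∂μ) μ := by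
          have : Integrable (fun p : ℝ × ℝ => ‖charFun μ (t * ((1 - p.1) * p.2))‖) (μ.prod μ) :=
            Integrable.of_bound hc2.aestronglyMeasurable 1 (Eventually.of_forall fun p => hbc _)
          exact this.integral_prod_left
        refine integral_mono_of_nonneg (Eventually.of_forall fun x => norm_nonneg _) hint2
          (Eventually.of_forall hpt)
      have k2 : ‖∫ y, charFun μ (t * y) ∂μ‖ ≤ ∫ y, ‖charFun μ (t * y)‖ ∂μ :=
        norm_integral_le_integral_norm _
      have : 0 ≤ 1 - a := by linarith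
      gcongr
    refine hmain.trans_eq ?_
    have hct : Continuous (fun d : ℝ => ‖charFun μ (t * d)‖) := hcont.comp (by fun_prop)
    have hib : ∀ (ν : Measure ℝ) [IsFiniteMeasure ν], Integrable (fun d : ℝ => ‖charFun μ (t * d)‖) ν :=
      fun ν _ => Integrable.of_bound hct.aestronglyMeasurable 1 (Eventually.of_forall fun p => hbc _)
    unfold rho
    rw [integral_add_measure ((hib _).smul_measure ENNReal.ofReal_ne_top)
      ((hib _).smul_measure ENNReal.ofReal_ne_top), integral_smul_measure, integral_smul_measure,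
      ENNReal.toReal_ofReal (by linarith), ENNReal.toReal_ofReal (by linarith),
      integral_map hmap.aemeasurable hct.aestronglyMeasurable, smul_eq_mul, smul_eq_mul]
    congr 2
    have hc2 : Continuous (fun p : ℝ × ℝ => ‖charFun μ (t * ((1 - p.1) * p.2))‖) :=
      hcont.comp (by fun_prop)
    rw [integral_prod _ (Integrable.of_bound hc2.aestronglyMeasurable 1
      (Eventually.of_forall fun p => hbc _))]
  obtain ⟨q, hq0, hq1, hq⟩ := core (fun t => ‖charFun μ t‖) (rho a μ) hcont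
    (fun t => norm_nonneg _) (fun t => norm_charFun_le_one _)
    (fun t ht => hlt t (by linarith)) hsupp θ J.toReal hM.pos ENNReal.toReal_nonneg htail hrec
  refine ⟨q, hq0, hq1, fun t ht => ?_⟩
  rcases abs_choice t with h | h
  · rw [h] at ht
    exact hq t ht
  · rw [h] at ht
    have := hq (-t) ht
    simp only [charFun_neg, RCLike.norm_conj] at this
    exact this

end Pool.Agent.T6.H62.AC
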