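import Pool.Agent.T6.H62.AC.Kit

/-!
Project AC, module DEC (helper54): the weighted law is a combination of caterpillar functionals.
-/

open MeasureTheory Complex Filter Topology
open scoped ENNReal

namespace Pool.Agent.T6.H62.AC

namespace ModDEC

/-! ### the weights -/

/-- the weight, cut off outside `[0, 1]` -/
noncomputable def wt (p q : ℕ) (x : ℝ) : ℝ := if 0 ≤ x ∧ x ≤ 1 then x ^ p * (1 - x) ^ q else 0

theorem wt_meas (p q : ℕ) : Measurable (wt p q) := by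
  unfold wt
  refine Measurable.ite ?_ (by fun_prop) measurable_const
  exact (measurableSet_le measurable_const measurable_id).inter
    (measurableSet_le measurable_id measurable_const)

theorem wt_nonneg (p q : ℕ) (x : ℝ) : 0 ≤ wt p q x := by
  unfold wt
  split_ifs with h
  · have := h.1
    have := sub_nonneg.2 h.2
    positivity
  · exact le_rfl

theorem wt_le (p q : ℕ) (x : ℝ) : wt p q x ≤ 1 := by
  unfold wt
  split_ifs with h
  · exact mul_le_one₀ (pow_le_one₀ h.1 h.2) (pow_nonneg (sub_nonneg.2 h.2) _)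
      (pow_le_one₀ (sub_nonneg.2 h.2) (by linarith [h.1]))
  · exact zero_le_one

theorem wt_abs (p q : ℕ) (x : ℝ) : ‖((wt p q x : ℝ) : ℂ)‖ ≤ 1 := by
  rw [Complex.norm_real, Real.norm_of_nonneg (wt_nonneg p q x)]
  exact wt_le p q x

theorem wt_eq (p q : ℕ) {x : ℝ} (h : 0 < x ∧ x < 1) : wt p q x = x ^ p * (1 - x) ^ q := by
  unfold wt
  rw [if_pos ⟨h.1.le, h.2.le⟩]

/-! ### laws on the interval -/

theorem supp_mul {μ κ : Measure ℝ} [IsProbabilityMeasure μ] [IsProbabilityMeasure κ]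
    (h1 : ∀ᵐ x ∂μ, 0 < x ∧ x < 1) (h2 : ∀ᵐ x ∂κ, 0 < x ∧ x < 1) :
    ∀ᵐ x ∂(mulLaw μ κ), 0 < x ∧ x < 1 := by
  unfold mulLaw
  rw [ae_map_iff (by fun_prop) measurableSet_Ioo]
  filter_upwards [Measure.quasiMeasurePreserving_fst.ae h1,
    Measure.quasiMeasurePreserving_snd.ae h2] with z hz1 hz2
  refine ⟨mul_pos hz1.1 hz2.1, ?_⟩
  nlinarith [hz1.1, hz1.2, hz2.1, hz2.2]

theorem supp_join {μ κ : Measure ℝ} [IsProbabilityMeasure μ] [IsProbabilityMeasure κ]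
    (h1 : ∀ᵐ x ∂μ, 0 < x ∧ x < 1) (h2 : ∀ᵐ x ∂κ, 0 < x ∧ x < 1) :
    ∀ᵐ x ∂(joinLaw μ κ), 0 < x ∧ x < 1 := by
  unfold joinLaw
  rw [ae_map_iff (by fun_prop) measurableSet_Ioo]
  filter_upwards [Measure.quasiMeasurePreserving_fst.ae h1,
    Measure.quasiMeasurePreserving_snd.ae h2] with z hz1 hz2
  have := mul_pos (sub_pos.2 hz1.2) hz2.1
  have := mul_pos (sub_pos.2 hz1.2) (sub_pos.2 hz2.2)
  constructor
  · linarith [hz1.1]
  · nlinarith

theorem Lw_eq {κ : Measure ℝ} (h : ∀ᵐ x ∂κ, 0 < x ∧ x < 1) (p q : ℕ) (f : ℝ → ℂ) :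
    Lw κ p q f = ∫ x, ((wt p q x : ℝ) : ℂ) * f x ∂κ := by
  unfold Lw
  refine integral_congr_ae ?_
  filter_upwards [h] with x hx
  rw [wt_eq p q hx]

/-- hanging a leaf on a gate -/
noncomputable def hg (m : ℝ → ℝ → ℝ) (κ : Measure ℝ) (p q : ℕ) (Λ : (ℝ → ℂ) → ℂ) (f : ℝ → ℂ) :
    ℂ := ∫ u, ((u ^ p * (1 - u) ^ q : ℝ) : ℂ) * Λ (fun x => f (m u x)) ∂κ

theorem hg_Lw {m : ℝ → ℝ → ℝ} (hm : Measurable (fun z : ℝ × ℝ => m z.1 z.2)) {κ₁ κ₂ : Measure ℝ}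
    [IsProbabilityMeasure κ₁] [IsProbabilityMeasure κ₂] (h1 : ∀ᵐ x ∂κ₁, 0 < x ∧ x < 1)
    (h2 : ∀ᵐ x ∂κ₂, 0 < x ∧ x < 1) (p₁ q₁ p₂ q₂ : ℕ) {f : ℝ → ℂ} (hf : Measurable f) {B : ℝ}
    (hB : ∀ x, ‖f x‖ ≤ B) : hg m κ₁ p₁ q₁ (Lw κ₂ p₂ q₂) f =
      ∫ z, ((wt p₁ q₁ z.1 * wt p₂ q₂ z.2 : ℝ) : ℂ) * f (m z.1 z.2) ∂(κ₁.prod κ₂) := by
  have hfm : Measurable (fun z : ℝ × ℝ => f (m z.1 z.2)) := hf.comp hm
  have hB0 : 0 ≤ B := (norm_nonneg _).trans (hB 0)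
  have w1 : Measurable (fun z : ℝ × ℝ => wt p₁ q₁ z.1) := (wt_meas p₁ q₁).comp measurable_fst
  have w2 : Measurable (fun z : ℝ × ℝ => wt p₂ q₂ z.2) := (wt_meas p₂ q₂).comp measurable_snd
  have hi : Integrable (fun z : ℝ × ℝ => ((wt p₁ q₁ z.1 * wt p₂ q₂ z.2 : ℝ) : ℂ) *
      f (m z.1 z.2)) (κ₁.prod κ₂) := by
    refine integrable_of_bdd _ ((Complex.measurable_ofReal.comp (w1.mul w2)).mul hfm) (B := B)
      fun z => ?_
    rw [norm_mul]
    have : ‖((wt p₁ q₁ z.1 * wt p₂ q₂ z.2 : ℝ) : ℂ)‖ ≤ 1 := by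
      rw [Complex.ofReal_mul, norm_mul]
      exact mul_le_one₀ (wt_abs _ _ _) (norm_nonneg _) (wt_abs _ _ _)
    calc _ ≤ 1 * B := mul_le_mul this (hB _) (norm_nonneg _) zero_le_one
      _ = B := one_mul B
  rw [integral_prod _ hi]
  unfold hg
  refine integral_congr_ae ?_
  filter_upwards [h1] with u hu
  rw [Lw_eq h2, ← wt_eq p₁ q₁ hu, ← integral_const_mul]
  refine integral_congr_ae (Eventually.of_forall fun x => ?_)
  simp only
  push_cast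
  ring

/-! ### combinations of caterpillar functionals -/

/-- combinations -/
def IsComb (μ : Measure ℝ) (M lo hi : ℕ) (Φ : (ℝ → ℂ) → ℂ) : Prop :=
  ∃ (n : ℕ) (co : Fin n → ℝ) (k : Fin n → ℕ) (Λ : Fin n → ((ℝ → ℂ) → ℂ)),
    (∀ i, lo ≤ k i ∧ k i ≤ hi ∧ Cat μ M (k i) (Λ i)) ∧
    ∀ f : ℝ → ℂ, Measurable f → (∃ B : ℝ, ∀ x, ‖f x‖ ≤ B) → Φ f = ∑ i, (co i : ℂ) * Λ i f

section comb

variable {μ : Measure ℝ} {M lo hi : ℕ}

theorem IsComb.congr {Φ Ψ : (ℝ → ℂ) → ℂ} (h : IsComb μ M lo hi Φ)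
    (he : ∀ f : ℝ → ℂ, Measurable f → (∃ B : ℝ, ∀ x, ‖f x‖ ≤ B) → Ψ f = Φ f) :
    IsComb μ M lo hi Ψ := by
  obtain ⟨n, co, k, Λ, h1, h2⟩ := h
  exact ⟨n, co, k, Λ, h1, fun f hf hB => (he f hf hB).trans (h2 f hf hB)⟩

theorem IsComb.mono {Φ : (ℝ → ℂ) → ℂ} {lo' hi' : ℕ} (h : IsComb μ M lo hi Φ) (h1 : lo' ≤ lo)
    (h2 : hi ≤ hi') : IsComb μ M lo' hi' Φ := by
  obtain ⟨n, co, k, Λ, h3, h4⟩ := h
  exact ⟨n, co, k, Λ, fun i => ⟨h1.trans (h3 i).1, (h3 i).2.1.trans h2, (h3 i).2.2⟩, h4⟩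

theorem IsComb.of_cat {Φ : (ℝ → ℂ) → ℂ} {k : ℕ} (h : Cat μ M k Φ) (h1 : lo ≤ k) (h2 : k ≤ hi) :
    IsComb μ M lo hi Φ :=
  ⟨1, fun _ => 1, fun _ => k, fun _ => Φ, fun _ => ⟨h1, h2, h⟩, fun f _ _ => by simp⟩

theorem IsComb.zero : IsComb μ M lo hi (fun _ => 0) :=
  ⟨0, Fin.elim0, Fin.elim0, Fin.elim0, fun i => i.elim0, fun f _ _ => by simp⟩

theorem IsComb.add {Φ Ψ : (ℝ → ℂ) → ℂ} (h : IsComb μ M lo hi Φ) (h' : IsComb μ M lo hi Ψ)
    (c d : ℝ) : IsComb μ M lo hi (fun f => (c : ℂ) * Φ f + (d : ℂ) * Ψ f) := by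
  obtain ⟨n, co, k, Λ, h1, h2⟩ := h
  obtain ⟨n', co', k', Λ', h1', h2'⟩ := h'
  refine ⟨n + n', Fin.append (fun i => c * co i) (fun i => d * co' i), Fin.append k k',
    Fin.append Λ Λ', ?_, ?_⟩
  · intro i
    refine Fin.addCases (fun i => ?_) (fun i => ?_) i
    · rw [Fin.append_left, Fin.append_left]; exact h1 i
    · rw [Fin.append_right, Fin.append_right]; exact h1' i
  · intro f hf hB
    change (c : ℂ) * Φ f + (d : ℂ) * Ψ f = _
    rw [h2 f hf hB, h2' f hf hB, Fin.sum_univ_add, Finset.mul_sum, Finset.mul_sum]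
    congr 1
    · refine Finset.sum_congr rfl fun i _ => ?_
      rw [Fin.append_left, Fin.append_left]; push_cast; ring
    · refine Finset.sum_congr rfl fun i _ => ?_
      rw [Fin.append_right, Fin.append_right]; push_cast; ring

theorem IsComb.sum (n : ℕ) (c : ℕ → ℝ) (Φ : ℕ → (ℝ → ℂ) → ℂ)
    (h : ∀ i < n, IsComb μ M lo hi (Φ i)) :
    IsComb μ M lo hi (fun f => ∑ i ∈ Finset.range n, (c i : ℂ) * Φ i f) := by
  induction n with
  | zero => simpa using IsComb.zero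
  | succ n ih =>
    have h1 := (ih fun i hi => h i (by omega)).add (h n (by omega)) 1 (c n)
    refine h1.congr fun f _ _ => ?_
    rw [Finset.sum_range_succ]
    push_cast
    ring

theorem IsComb.hg (hC : StmCATM) {a : ℝ} (hE : Eqn a μ) {m : ℝ → ℝ → ℝ}
    (hm : Measurable (fun z : ℝ × ℝ => m z.1 z.2)) {κ : Measure ℝ} [IsProbabilityMeasure κ]
    (hκ : ∀ᵐ x ∂κ, 0 < x ∧ x < 1) {p q : ℕ}
    (hcat : ∀ k Λ, Cat μ M k Λ → Cat μ M (k + 1) (hg m κ p q Λ)) {Φ : (ℝ → ℂ) → ℂ}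
    (h : IsComb μ M lo hi Φ) : IsComb μ M (lo + 1) (hi + 1) (ModDEC.hg m κ p q Φ) := by
  obtain ⟨n, co, k, Λ, h1, h2⟩ := h
  refine ⟨n, co, fun i => k i + 1, fun i => ModDEC.hg m κ p q (Λ i), fun i =>
    ⟨Nat.add_le_add_right (h1 i).1 1, Nat.add_le_add_right (h1 i).2.1 1,
      hcat _ _ (h1 i).2.2⟩, ?_⟩
  rintro f hf ⟨B, hB⟩
  have hfm : Measurable (fun z : ℝ × ℝ => f (m z.1 z.2)) := hf.comp hm
  have hB0 : 0 ≤ B := (norm_nonneg _).trans (hB 0)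
  have hi : ∀ i, Integrable (fun u : ℝ => ((u ^ p * (1 - u) ^ q : ℝ) : ℂ) *
      Λ i (fun x => f (m u x))) κ := by
    intro i
    obtain ⟨h3, h4⟩ := hC a μ hE M (k i) (Λ i) (h1 i).2.2 ℝ inferInstance
      (fun u x => f (m u x)) B hfm fun v x => hB _
    have h5 : Measurable (fun u : ℝ => ((u ^ p * (1 - u) ^ q : ℝ) : ℂ)) := by fun_prop
    refine Integrable.of_bound (h5.mul h3).aestronglyMeasurable B ?_
    filter_upwards [hκ] with u hu
    rw [norm_mul]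
    have h6 : ‖((u ^ p * (1 - u) ^ q : ℝ) : ℂ)‖ ≤ 1 := by
      rw [← wt_eq p q hu]; exact wt_abs _ _ _
    calc _ ≤ 1 * B := mul_le_mul h6 (h4 u) (norm_nonneg _) zero_le_one
      _ = B := one_mul B
  have e1 : ModDEC.hg m κ p q Φ f = ∫ u, ∑ i, (co i : ℂ) *
      (((u ^ p * (1 - u) ^ q : ℝ) : ℂ) * Λ i (fun x => f (m u x))) ∂κ := by
    unfold ModDEC.hg
    refine integral_congr_ae (Eventually.of_forall fun u => ?_)
    have h7 : Measurable (fun x => f (m u x)) :=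
      hfm.comp (measurable_const.prodMk measurable_id)
    simp only
    rw [h2 _ h7 ⟨B, fun x => hB _⟩, Finset.mul_sum]
    refine Finset.sum_congr rfl fun i _ => ?_
    ring
  rw [e1, integral_finsetSum _ fun i _ => (hi i).const_mul _]
  refine Finset.sum_congr rfl fun i _ => ?_
  rw [integral_const_mul]
  rfl

end comb

/-! ### the two gates -/

theorem meas_mul : Measurable (fun z : ℝ × ℝ => (fun u x : ℝ => u * x) z.1 z.2) := by fun_prop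

theorem meas_join : Measurable (fun z : ℝ × ℝ => (fun u x : ℝ => u + (1 - u) * x) z.1 z.2) := by
  fun_prop

/-- the integral against a product law -/
noncomputable def T (m : ℝ → ℝ → ℝ) (κ₁ κ₂ : Measure ℝ) (p₁ q₁ p₂ q₂ : ℕ) (f : ℝ → ℂ) : ℂ :=
  ∫ z, ((wt p₁ q₁ z.1 * wt p₂ q₂ z.2 : ℝ) : ℂ) * f (m z.1 z.2) ∂(κ₁.prod κ₂)

theorem T_int {m : ℝ → ℝ → ℝ} (hm : Measurable (fun z : ℝ × ℝ => m z.1 z.2)) (κ₁ κ₂ : Measure ℝ)
    [IsProbabilityMeasure κ₁] [IsProbabilityMeasure κ₂] (p₁ q₁ p₂ q₂ : ℕ) {f : ℝ → ℂ}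
    (hf : Measurable f) {B : ℝ} (hB : ∀ x, ‖f x‖ ≤ B) :
    Integrable (fun z : ℝ × ℝ => ((wt p₁ q₁ z.1 * wt p₂ q₂ z.2 : ℝ) : ℂ) *
      f (m z.1 z.2)) (κ₁.prod κ₂) := by
  have hfm : Measurable (fun z : ℝ × ℝ => f (m z.1 z.2)) := hf.comp hm
  have hB0 : 0 ≤ B := (norm_nonneg _).trans (hB 0)
  have w1 : Measurable (fun z : ℝ × ℝ => wt p₁ q₁ z.1) := (wt_meas p₁ q₁).comp measurable_fst
  have w2 : Measurable (fun z : ℝ × ℝ => wt p₂ q₂ z.2) := (wt_meas p₂ q₂).comp measurable_snd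
  refine integrable_of_bdd _ ((Complex.measurable_ofReal.comp (w1.mul w2)).mul hfm) (B := B)
    fun z => ?_
  rw [norm_mul]
  have : ‖((wt p₁ q₁ z.1 * wt p₂ q₂ z.2 : ℝ) : ℂ)‖ ≤ 1 := by
    rw [Complex.ofReal_mul, norm_mul]
    exact mul_le_one₀ (wt_abs _ _ _) (norm_nonneg _) (wt_abs _ _ _)
  calc _ ≤ 1 * B := mul_le_mul this (hB _) (norm_nonneg _) zero_le_one
    _ = B := one_mul B

theorem T_swap {m : ℝ → ℝ → ℝ} (hs : ∀ x y, m x y = m y x) (κ₁ κ₂ : Measure ℝ)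
    [IsProbabilityMeasure κ₁] [IsProbabilityMeasure κ₂] (p₁ q₁ p₂ q₂ : ℕ) (f : ℝ → ℂ) :
    T m κ₁ κ₂ p₁ q₁ p₂ q₂ f = T m κ₂ κ₁ p₂ q₂ p₁ q₁ f := by
  unfold T
  rw [← integral_prod_swap]
  refine integral_congr_ae (Eventually.of_forall fun z => ?_)
  simp only [Prod.fst_swap, Prod.snd_swap]
  rw [hs z.2 z.1, mul_comm (wt p₁ q₁ z.2)]

theorem wtf_meas (p q : ℕ) {f : ℝ → ℂ} (hf : Measurable f) :
    Measurable (fun x => ((wt p q x : ℝ) : ℂ) * f x) :=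
  (Complex.measurable_ofReal.comp (wt_meas p q)).mul hf

theorem wtf_bdd (p q : ℕ) {f : ℝ → ℂ} {B : ℝ} (hB : ∀ x, ‖f x‖ ≤ B) (x : ℝ) :
    ‖((wt p q x : ℝ) : ℂ) * f x‖ ≤ B := by
  rw [norm_mul]
  calc _ ≤ 1 * B := mul_le_mul (wt_abs _ _ _) (hB _) (norm_nonneg _) zero_le_one
    _ = B := one_mul B

/-- the expansion at a product gate -/
theorem exp_mul {μ κ : Measure ℝ} [IsProbabilityMeasure μ] [IsProbabilityMeasure κ]
    (h1 : ∀ᵐ x ∂μ, 0 < x ∧ x < 1) (h2 : ∀ᵐ x ∂κ, 0 < x ∧ x < 1) (p q : ℕ) {f : ℝ → ℂ}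
    (hf : Measurable f) {B : ℝ} (hB : ∀ x, ‖f x‖ ≤ B) :
    Lw (mulLaw μ κ) p q f = ∑ i ∈ Finset.range (q + 1), ((q.choose i : ℝ) : ℂ) *
      T (fun u x => u * x) μ κ (p + q - i) i p (q - i) f := by
  rw [Lw_eq (supp_mul h1 h2)]
  unfold mulLaw
  rw [integral_map (by fun_prop) (wtf_meas p q hf).aestronglyMeasurable]
  have e1 : ∀ᵐ z ∂(μ.prod κ), ((wt p q (z.1 * z.2) : ℝ) : ℂ) * f (z.1 * z.2) =
      ∑ i ∈ Finset.range (q + 1), ((q.choose i : ℝ) : ℂ) *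
        (((wt (p + q - i) i z.1 * wt p (q - i) z.2 : ℝ) : ℂ) * f (z.1 * z.2)) := by
    filter_upwards [Measure.quasiMeasurePreserving_fst.ae h1,
      Measure.quasiMeasurePreserving_snd.ae h2] with z hz1 hz2
    have hz : 0 < z.1 * z.2 ∧ z.1 * z.2 < 1 :=
      ⟨mul_pos hz1.1 hz2.1, by nlinarith [hz1.1, hz1.2, hz2.1, hz2.2]⟩
    have e2 : wt p q (z.1 * z.2) = ∑ i ∈ Finset.range (q + 1), (q.choose i : ℝ) *
        (wt (p + q - i) i z.1 * wt p (q - i) z.2) := by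
      rw [wt_eq p q hz]
      have e3 : 1 - z.1 * z.2 = (1 - z.1) + z.1 * (1 - z.2) := by ring
      rw [e3, add_pow, Finset.mul_sum]
      refine Finset.sum_congr rfl fun i hi => ?_
      have hi' : i ≤ q := by
        have := Finset.mem_range.1 hi
        omega
      rw [wt_eq _ _ hz1, wt_eq _ _ hz2]
      have e4 : p + q - i = p + (q - i) := by omega
      rw [e4, pow_add, mul_pow, mul_pow]
      ring
    rw [e2, Complex.ofReal_sum, Finset.sum_mul]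
    refine Finset.sum_congr rfl fun i _ => ?_
    push_cast
    ring
  rw [integral_congr_ae e1, integral_finsetSum _ fun i _ =>
    (T_int (m := fun u x => u * x) meas_mul μ κ _ _ _ _ hf hB).const_mul _]
  refine Finset.sum_congr rfl fun i _ => ?_
  rw [integral_const_mul]
  rfl

/-- the expansion at a coproduct gate -/
theorem exp_join {μ κ : Measure ℝ} [IsProbabilityMeasure μ] [IsProbabilityMeasure κ]
    (h1 : ∀ᵐ x ∂μ, 0 < x ∧ x < 1) (h2 : ∀ᵐ x ∂κ, 0 < x ∧ x < 1) (p q : ℕ) {f : ℝ → ℂ}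
    (hf : Measurable f) {B : ℝ} (hB : ∀ x, ‖f x‖ ≤ B) :
    Lw (joinLaw μ κ) p q f = ∑ i ∈ Finset.range (p + 1), ((p.choose i : ℝ) : ℂ) *
      T (fun u x => u + (1 - u) * x) μ κ i (p + q - i) (p - i) q f := by
  rw [Lw_eq (supp_join h1 h2)]
  unfold joinLaw
  rw [integral_map (by fun_prop) (wtf_meas p q hf).aestronglyMeasurable]
  have e1 : ∀ᵐ z ∂(μ.prod κ), ((wt p q (z.1 + (1 - z.1) * z.2) : ℝ) : ℂ) *
      f (z.1 + (1 - z.1) * z.2) =
      ∑ i ∈ Finset.range (p + 1), ((p.choose i : ℝ) : ℂ) *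
        (((wt i (p + q - i) z.1 * wt (p - i) q z.2 : ℝ) : ℂ) * f (z.1 + (1 - z.1) * z.2)) := by
    filter_upwards [Measure.quasiMeasurePreserving_fst.ae h1,
      Measure.quasiMeasurePreserving_snd.ae h2] with z hz1 hz2
    have hz : 0 < z.1 + (1 - z.1) * z.2 ∧ z.1 + (1 - z.1) * z.2 < 1 := by
      have h3 := mul_pos (sub_pos.2 hz1.2) hz2.1
      have h4 := mul_pos (sub_pos.2 hz1.2) (sub_pos.2 hz2.2)
      constructor
      · linarith [hz1.1]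
      · nlinarith
    have e2 : wt p q (z.1 + (1 - z.1) * z.2) = ∑ i ∈ Finset.range (p + 1), (p.choose i : ℝ) *
        (wt i (p + q - i) z.1 * wt (p - i) q z.2) := by
      rw [wt_eq p q hz]
      have e3 : 1 - (z.1 + (1 - z.1) * z.2) = (1 - z.1) * (1 - z.2) := by ring
      rw [e3, add_pow, Finset.sum_mul]
      refine Finset.sum_congr rfl fun i hi => ?_
      have hi' : i ≤ p := by
        have := Finset.mem_range.1 hi
        omega
      rw [wt_eq _ _ hz1, wt_eq _ _ hz2]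
      have e4 : p + q - i = (p - i) + q := by omega
      rw [e4, pow_add, mul_pow, mul_pow]
      ring
    rw [e2, Complex.ofReal_sum, Finset.sum_mul]
    refine Finset.sum_congr rfl fun i _ => ?_
    push_cast
    ring
  have e5 : ∀ i ∈ Finset.range (p + 1), Integrable (fun z : ℝ × ℝ => ((p.choose i : ℝ) : ℂ) *
        (((wt i (p + q - i) z.1 * wt (p - i) q z.2 : ℝ) : ℂ) * f (z.1 + (1 - z.1) * z.2)))
        (μ.prod κ) := fun i _ =>
    (T_int (m := fun u x => u + (1 - u) * x) meas_join μ κ i (p + q - i) (p - i) q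
      hf hB).const_mul _
  rw [integral_congr_ae e1, integral_finsetSum _ e5]
  refine Finset.sum_congr rfl fun i _ => ?_
  rw [integral_const_mul]
  rfl

section main

variable {μ : Measure ℝ} {M lo hi : ℕ}

theorem comb_mul (hC : StmCATM) {a : ℝ} (hE : Eqn a μ) {m : ℕ} (hM : M ≤ m)
    (H : ∀ p q, m ≤ p → m ≤ q → IsComb μ M lo hi (Lw μ p q)) {p q : ℕ} (hp : m ≤ p)
    (hq : 2 * m ≤ q) : IsComb μ M (lo + 1) (hi + 1) (Lw (mulLaw μ μ) p q) := by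
  have hpr := hE.prob
  have hs := hE.supp
  have h1 : IsComb μ M (lo + 1) (hi + 1) (fun f => ∑ i ∈ Finset.range (q + 1),
      ((q.choose i : ℝ) : ℂ) * T (fun u x => u * x) μ μ (p + q - i) i p (q - i) f) := by
    refine IsComb.sum (q + 1) (fun i => (q.choose i : ℝ))
      (fun i => T (fun u x => u * x) μ μ (p + q - i) i p (q - i)) fun i hi' => ?_
    by_cases hmi : m ≤ i
    · have h2 := (H (p + q - i) i (by omega) hmi).hg hC hE meas_mul hs (p := p) (q := q - i)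
        (fun k Λ hΛ => Cat.mul μ (Or.inl rfl) p (q - i) k Λ (by omega) hΛ)
      refine h2.congr fun f hf hB => ?_
      obtain ⟨B, hB⟩ := hB
      rw [T_swap (fun x y => mul_comm x y), hg_Lw meas_mul hs hs _ _ _ _ hf hB]
      rfl
    · have h2 := (H p (q - i) hp (by omega)).hg hC hE meas_mul hs (p := p + q - i) (q := i)
        (fun k Λ hΛ => Cat.mul μ (Or.inl rfl) (p + q - i) i k Λ (by omega) hΛ)
      refine h2.congr fun f hf hB => ?_
      obtain ⟨B, hB⟩ := hB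
      rw [hg_Lw meas_mul hs hs _ _ _ _ hf hB]
      rfl
  refine h1.congr fun f hf hB => ?_
  obtain ⟨B, hB⟩ := hB
  exact exp_mul hs hs p q hf hB

theorem comb_join (hC : StmCATM) {a : ℝ} (hE : Eqn a μ) {m : ℕ} (hM : M ≤ m)
    (H : ∀ p q, m ≤ p → m ≤ q → IsComb μ M lo hi (Lw μ p q)) {p q : ℕ} (hp : 2 * m ≤ p)
    (hq : 2 * m ≤ q) :
    IsComb μ M (lo + 1) (hi + 2) (Lw (joinLaw μ (mulLaw μ μ)) p q) := by
  have hpr := hE.prob
  have hs := hE.supp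
  have hs2 := supp_mul hs hs
  have h1 : IsComb μ M (lo + 1) (hi + 2) (fun f => ∑ i ∈ Finset.range (p + 1),
      ((p.choose i : ℝ) : ℂ) * T (fun u x => u + (1 - u) * x) μ (mulLaw μ μ) i (p + q - i)
        (p - i) q f) := by
    refine IsComb.sum (p + 1) (fun i => (p.choose i : ℝ))
      (fun i => T (fun u x => u + (1 - u) * x) μ (mulLaw μ μ) i (p + q - i) (p - i) q)
      fun i hi' => ?_
    by_cases hmi : m ≤ i
    · have h2 := (H i (p + q - i) hmi (by omega)).hg hC hE meas_join hs2 (p := p - i) (q := q)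
        (fun k Λ hΛ => Cat.join (mulLaw μ μ) (Or.inr rfl) (p - i) q k Λ (by omega) hΛ)
      refine (h2.mono le_rfl (Nat.le_succ _)).congr fun f hf hB => ?_
      obtain ⟨B, hB⟩ := hB
      rw [T_swap (fun x y => by ring), hg_Lw meas_join hs2 hs _ _ _ _ hf hB]
      rfl
    · have h2 := (comb_mul hC hE hM H (p := p - i) (q := q) (by omega) hq).hg hC hE meas_join hs
        (p := i) (q := p + q - i)
        (fun k Λ hΛ => Cat.join μ (Or.inl rfl) i (p + q - i) k Λ (by omega) hΛ)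
      refine (h2.mono (Nat.le_succ _) le_rfl).congr fun f hf hB => ?_
      obtain ⟨B, hB⟩ := hB
      rw [hg_Lw meas_join hs hs2 _ _ _ _ hf hB]
      rfl
  refine h1.congr fun f hf hB => ?_
  obtain ⟨B, hB⟩ := hB
  exact exp_join hs hs2 p q hf hB

theorem comb_step (hC : StmCATM) {a : ℝ} (hE : Eqn a μ) {m : ℕ} (hM : M ≤ m)
    (H : ∀ p q, m ≤ p → m ≤ q → IsComb μ M lo hi (Lw μ p q)) {p q : ℕ} (hp : 2 * m ≤ p)
    (hq : 2 * m ≤ q) : IsComb μ M (lo + 1) (hi + 2) (Lw μ p q) := by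
  have hpr := hE.prob
  have hs := hE.supp
  have h1 := (comb_join hC hE hM H hp hq).add
    ((comb_mul hC hE hM H (p := p) (q := q) (by omega) hq).mono le_rfl (Nat.le_succ _)) a (1 - a)
  refine h1.congr fun f hf hB => ?_
  obtain ⟨B, hB⟩ := hB
  rw [Lw_eq hs, hE.int' (wtf_meas p q hf) (wtf_bdd p q hB), Lw_eq (supp_mul hs hs),
    Lw_eq (supp_join hs (supp_mul hs hs))]

end main

end ModDEC

open ModDEC in
theorem dec : StmDEC := by
  intro hC a μ hE D M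
  have key : ∃ P0 : ℕ, ∀ p q : ℕ, P0 ≤ p → P0 ≤ q → IsComb μ M D (2 * D + 2) (Lw μ p q) := by
    induction D with
    | zero =>
      exact ⟨M, fun p q hp hq => IsComb.of_cat (Cat.base p q hp hq) (by omega) (by omega)⟩
    | succ D ih =>
      obtain ⟨P0, hP0⟩ := ih
      refine ⟨2 * max P0 M, fun p q hp hq => ?_⟩
      have := comb_step hC hE (m := max P0 M) (le_max_right _ _)
        (fun p q hp hq => hP0 p q ((le_max_left _ _).trans hp) ((le_max_left _ _).trans hq)) hp hq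
      exact this.mono le_rfl (by omega)
  obtain ⟨P0, hP0⟩ := key
  refine ⟨P0, fun p q hp hq => ?_⟩
  obtain ⟨n, co, k, Λ, h1, h2⟩ := hP0 p q hp hq
  exact ⟨n, co, k, Λ, fun i => ⟨(h1 i).1, (h1 i).2.2⟩, fun i => (h1 i).2.1, h2⟩

end Pool.Agent.T6.H62.AC
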