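import Pool.Agent.T6.H62.AC.Kit

/-!
# Module MIXB of project AC (MP_319742_pr): the first leaf
-/

open MeasureTheory Complex Filter Topology
open scoped ENNReal

namespace Pool.Agent.T6.H62.AC.ModMixb

open Pool.Agent.T6.H62.AC

/-- elementary bounds for the affine image of a point of the unit interval -/
theorem pt {A B x : ℝ} (hA : 0 ≤ A) (hB : 0 < B) (hAB : A + B ≤ 1) (hx : 0 < x ∧ x < 1)
    (p q : ℕ) : 0 ≤ A + B * x ∧ A + B * x ≤ 1 ∧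
      0 ≤ (A + B * x) ^ p * (1 - (A + B * x)) ^ q ∧
      (A + B * x) ^ p * (1 - (A + B * x)) ^ q ≤ 1 ∧ |A + B * x - (A + B / 2)| ≤ B := by
  have h1 : 0 ≤ A + B * x := by nlinarith
  have h2 : A + B * x ≤ 1 := by nlinarith
  have h3 : 0 ≤ 1 - (A + B * x) := by linarith
  refine ⟨h1, h2, mul_nonneg (pow_nonneg h1 _) (pow_nonneg h3 _), ?_, ?_⟩
  · exact mul_le_one₀ (pow_le_one₀ h1 h2) (pow_nonneg h3 _) (pow_le_one₀ h3 (by linarith))
  · rw [abs_le]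
    constructor <;> nlinarith

theorem key {μ : Measure ℝ} {s : ℝ} {C : ℝ} {p q n : ℕ} {K : ℝ} (hKp : K ≤ p)
    (hKq : K ≤ q) (hC : 0 < C)
    (h : ∀ A B lam : ℝ, 0 ≤ A → 0 < B → A + B ≤ 1 → lam ≠ 0 →
    ‖∫ x, (((A + B * x) ^ p * (1 - (A + B * x)) ^ q * (x - 1 / 2) ^ n : ℝ) : ℂ) *
      cexp (lam * x * I) ∂μ‖ ≤
      C * ((A + B / 2) ^ p * (1 - (A + B / 2)) ^ q) * min 1 (|lam| ^ (-s)))
    {A B δ τ : ℝ} (hA : 0 ≤ A) (hB : 0 < B) (hAB : A + B ≤ 1) (hBδ : B ≤ δ) (hτ : τ ≠ 0) :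
    ‖∫ x, ((((A + B * x) - (A + B / 2)) ^ n * ((A + B * x) ^ p * (1 - (A + B * x)) ^ q) : ℝ) : ℂ) *
      cexp (τ * ((A + B * x : ℝ) : ℂ) * I) ∂μ‖ ≤
    C * δ ^ n * (|τ| ^ (-s) * B ^ (-s) * ((A + B / 2) ^ K * (1 - (A + B / 2)) ^ K)) := by
  have e : ∀ x : ℝ, ((((A + B * x) - (A + B / 2)) ^ n *
      ((A + B * x) ^ p * (1 - (A + B * x)) ^ q) : ℝ) : ℂ) *
      cexp (τ * ((A + B * x : ℝ) : ℂ) * I) =
      ((B : ℂ) ^ n * cexp (τ * A * I)) *
      ((((A + B * x) ^ p * (1 - (A + B * x)) ^ q * (x - 1 / 2) ^ n : ℝ) : ℂ) *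
      cexp (((τ * B : ℝ) : ℂ) * x * I)) := by
    intro x
    have e1 : cexp (τ * ((A + B * x : ℝ) : ℂ) * I) =
        cexp (τ * A * I) * cexp (((τ * B : ℝ) : ℂ) * x * I) := by
      rw [← Complex.exp_add]
      congr 1
      push_cast
      ring
    rw [e1]
    have e2 : (A + B * x) - (A + B / 2) = B * (x - 1 / 2) := by ring
    rw [e2, mul_pow B (x - 1 / 2) n]
    push_cast
    ring
  simp_rw [e]
  rw [integral_const_mul, norm_mul, norm_mul, norm_pow, norm_real, Real.norm_of_nonneg hB.le]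
  have e3 : ‖cexp (τ * A * I)‖ = 1 := by
    have := Complex.norm_exp_ofReal_mul_I (τ * A)
    push_cast at this
    exact this
  rw [e3, mul_one]
  have h1 := h A B (τ * B) hA hB hAB (mul_ne_zero hτ hB.ne')
  have hc0 : 0 < A + B / 2 := by linarith
  have hc1 : A + B / 2 < 1 := by linarith
  have hd0 : 0 < 1 - (A + B / 2) := by linarith
  have hd1 : 1 - (A + B / 2) ≤ 1 := by linarith
  have h2 : (A + B / 2) ^ p ≤ (A + B / 2) ^ K := by
    rw [← Real.rpow_natCast]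
    exact Real.rpow_le_rpow_of_exponent_ge hc0 hc1.le hKp
  have h3 : (1 - (A + B / 2)) ^ q ≤ (1 - (A + B / 2)) ^ K := by
    rw [← Real.rpow_natCast]
    exact Real.rpow_le_rpow_of_exponent_ge hd0 hd1 hKq
  have h4 : min 1 (|τ * B| ^ (-s)) ≤ |τ| ^ (-s) * B ^ (-s) := by
    refine (min_le_right _ _).trans (le_of_eq ?_)
    rw [abs_mul, abs_of_pos hB, Real.mul_rpow (abs_nonneg _) hB.le]
  have h5 : (A + B / 2) ^ p * (1 - (A + B / 2)) ^ q ≤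
      (A + B / 2) ^ K * (1 - (A + B / 2)) ^ K :=
    mul_le_mul h2 h3 (pow_nonneg hd0.le _) (Real.rpow_nonneg hc0.le _)
  have h6 : 0 ≤ (A + B / 2) ^ K * (1 - (A + B / 2)) ^ K :=
    mul_nonneg (Real.rpow_nonneg hc0.le _) (Real.rpow_nonneg hd0.le _)
  have h7 : 0 ≤ min 1 (|τ * B| ^ (-s)) :=
    le_min zero_le_one (Real.rpow_nonneg (abs_nonneg _) _)
  have h8 : C * ((A + B / 2) ^ p * (1 - (A + B / 2)) ^ q) * min 1 (|τ * B| ^ (-s)) ≤
      C * ((A + B / 2) ^ K * (1 - (A + B / 2)) ^ K) * (|τ| ^ (-s) * B ^ (-s)) :=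
    mul_le_mul (mul_le_mul_of_nonneg_left h5 hC.le) h4 h7 (mul_nonneg hC.le h6)
  have h9 : B ^ n ≤ δ ^ n := pow_le_pow_left₀ hB.le hBδ n
  calc B ^ n * ‖∫ x, (((A + B * x) ^ p * (1 - (A + B * x)) ^ q * (x - 1 / 2) ^ n : ℝ) : ℂ) *
        cexp (((τ * B : ℝ) : ℂ) * x * I) ∂μ‖
      ≤ δ ^ n * (C * ((A + B / 2) ^ K * (1 - (A + B / 2)) ^ K) * (|τ| ^ (-s) * B ^ (-s))) :=
        mul_le_mul h9 (h1.trans h8) (norm_nonneg _) (pow_nonneg (hB.le.trans hBδ) _)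
    _ = _ := by ring

theorem lw {μ : Measure ℝ} [IsProbabilityMeasure μ] (hμ : ∀ᵐ x ∂μ, 0 < x ∧ x < 1)
    {P : Measure (ℝ × ℝ)} (h : Rep μ μ P) (p q : ℕ) {f : ℝ → ℂ} (hf : Measurable f) {M : ℝ}
    (hM : ∀ x, ‖f x‖ ≤ M) :
    Lw μ p q f = ∫ ω : ℝ × ℝ, ∫ x : ℝ, f (ω.1 + ω.2 * x) *
      (((ω.1 + ω.2 * x) ^ p * (1 - (ω.1 + ω.2 * x)) ^ q : ℝ) : ℂ) ∂μ ∂P := by
  haveI := h.prob
  have hM0 : 0 ≤ M := (norm_nonneg _).trans (hM 0)
  have hfst : ∀ᵐ z ∂(P.prod μ), 0 ≤ z.1.1 ∧ 0 < z.1.2 ∧ z.1.1 + z.1.2 ≤ 1 :=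
    Measure.quasiMeasurePreserving_fst.ae h.supp
  have hsnd : ∀ᵐ z ∂(P.prod μ), 0 < z.2 ∧ z.2 < 1 :=
    Measure.quasiMeasurePreserving_snd.ae hμ
  unfold Lw
  conv_lhs => rw [h.law]
  rw [integral_map (by fun_prop) (by
    refine Measurable.aestronglyMeasurable ?_
    exact Measurable.mul (by fun_prop) hf)]
  rw [integral_prod]
  · refine integral_congr_ae (Eventually.of_forall fun ω => ?_)
    refine integral_congr_ae (Eventually.of_forall fun x => ?_)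
    exact mul_comm _ _
  · refine Integrable.of_bound (C := M) ?_ ?_
    · refine Measurable.aestronglyMeasurable ?_
      exact Measurable.mul (by fun_prop) (hf.comp (by fun_prop))
    · filter_upwards [hfst, hsnd] with z hz1 hz2
      have h1 := pt hz1.1 hz1.2.1 hz1.2.2 hz2 p q
      rw [norm_mul, norm_real, Real.norm_of_nonneg h1.2.2.1]
      calc _ ≤ 1 * M := mul_le_mul h1.2.2.2.1 (hM _) (norm_nonneg _) zero_le_one
        _ = M := one_mul M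

end Pool.Agent.T6.H62.AC.ModMixb

namespace Pool.Agent.T6.H62.AC

open ModMixb

/-- Module MIXB. -/
theorem mixb : StmMIXB := by
  intro μ s hμp hμ hs0 hs1 hamp hrep n0 N p q K hK0 hKp hKq
  choose Cf hCf using fun n : ℕ => hamp p q n
  obtain ⟨C₁, hC₁, hrep⟩ := hrep
  have hCmax : ∀ n ≤ N, Cf n ≤ ∑ i ∈ Finset.range (N + 1), Cf i := fun n hn =>
    Finset.single_le_sum (f := Cf) (fun i _ => (hCf i).1.le)
      (Finset.mem_range.2 (Nat.lt_succ_of_le hn))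
  refine ⟨∑ i ∈ Finset.range (N + 1), Cf i, C₁,
    Finset.sum_pos (fun i _ => (hCf i).1) ⟨0, by simp⟩, hC₁, ?_⟩
  intro t δ ε ht hδ0 hδ1 htδ hε
  obtain ⟨P, hR, hPδ, hPs⟩ := hrep δ ε hδ0 hδ1 hε
  haveI := hR.prob
  let G : Set (ℝ × ℝ) := {ω | 0 ≤ ω.1 ∧ 0 < ω.2 ∧ ω.1 + ω.2 ≤ 1 ∧ ω.2 ≤ δ}
  have hG : MeasurableSet G := by
    have g1 : MeasurableSet {ω : ℝ × ℝ | 0 ≤ ω.1} := measurableSet_le (by fun_prop) (by fun_prop)
    have g2 : MeasurableSet {ω : ℝ × ℝ | 0 < ω.2} := measurableSet_lt (by fun_prop) (by fun_prop)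
    have g3 : MeasurableSet {ω : ℝ × ℝ | ω.1 + ω.2 ≤ 1} :=
      measurableSet_le (by fun_prop) (by fun_prop)
    have g4 : MeasurableSet {ω : ℝ × ℝ | ω.2 ≤ δ} := measurableSet_le (by fun_prop) (by fun_prop)
    exact g1.inter (g2.inter (g3.inter g4))
  refine ⟨ℝ × ℝ, ℝ, inferInstance, inferInstance, P, μ, fun ω x => ω.1 + ω.2 * x,
    fun ω x => (ω.1 + ω.2 * x) ^ p * (1 - (ω.1 + ω.2 * x)) ^ q, fun ω => ω.1 + ω.2 / 2,
    fun ω => ω.2 ^ (-s), G, hR.prob, hμp, by fun_prop, by fun_prop, by fun_prop, by fun_prop, hG,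
    ?_, ?_, ?_, ?_, ?_⟩
  · refine le_trans (measure_mono_ae ?_) hPδ
    filter_upwards [hR.supp] with ω hω hωG
    by_contra hc
    exact hωG ⟨hω.1, hω.2.1, hω.2.2, not_lt.1 hc⟩
  · filter_upwards [hR.supp] with ω hω
    filter_upwards [hμ] with x hx
    have := pt hω.1 hω.2.1 hω.2.2 hx p q
    exact ⟨this.1, this.2.1, this.2.2.1, this.2.2.2.1⟩
  · rintro ⟨A, B⟩ ⟨hA, hB, hAB, hBδ⟩
    simp only at hA hB hAB hBδ
    refine ⟨by show 0 < A + B / 2; linarith, by show A + B / 2 < 1; linarith,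
      Real.rpow_nonneg hB.le _, ?_, ?_⟩
    · filter_upwards [hμ] with x hx
      have := pt hA hB hAB hx p q
      refine ⟨this.1, this.2.1, this.2.2.1, this.2.2.2.1, ?_⟩
      rw [one_mul]
      exact this.2.2.2.2.trans hBδ
    · intro n hn τ hτ hτt
      have h1 := key (K := K) hKp hKq (hCf n).1 (hCf n).2 hA hB hAB hBδ hτ
      have hc0 : 0 < A + B / 2 := by linarith
      have hd0 : 0 < 1 - (A + B / 2) := by linarith
      have hX : 0 ≤ |τ| ^ (-s) * B ^ (-s) * ((A + B / 2) ^ K * (1 - (A + B / 2)) ^ K) :=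
        mul_nonneg (mul_nonneg (Real.rpow_nonneg (abs_nonneg _) _) (Real.rpow_nonneg hB.le _))
          (mul_nonneg (Real.rpow_nonneg hc0.le _) (Real.rpow_nonneg hd0.le _))
      have hY : 0 ≤ (t * δ ^ 2) ^ n0 := by positivity
      have hδn : 0 ≤ δ ^ n := by positivity
      have hC := hCmax n hn
      refine h1.trans ?_
      have e : -(s * ((1 : ℕ) : ℝ)) = -s := by push_cast; ring
      show _ ≤ _ * δ ^ n * (|τ| ^ (-(s * ((1 : ℕ) : ℝ))) * B ^ (-s) *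
        ((A + B / 2) ^ K * (1 - (A + B / 2)) ^ K) + (t * δ ^ 2) ^ n0)
      rw [e]
      refine mul_le_mul (mul_le_mul_of_nonneg_right hC hδn) (by linarith) hX ?_
      exact mul_nonneg ((hCf n).1.le.trans hC) hδn
  · exact (setLIntegral_le_lintegral _ _).trans hPs
  · rintro f hf ⟨M, hM⟩
    exact lw hμ hR p q hf hM

end Pool.Agent.T6.H62.AC
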