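import Pool.Agent.T6.H62.AC.Kit

open MeasureTheory Complex Filter Topology
open scoped ENNReal

namespace Pool.Agent.T6.H62.AC

theorem mixf : StmMIXF := by
  intro s t δ n0 k N K L C β ε Λ hs ht hδ hδ1 hK hC hβ hε hM
  obtain ⟨Ω, Ω', mΩ, mΩ', P, Q, X, W, c, b, G, hP, hQ, hXm, hWm, hc, hb, hG, hGε, hae, hel, hbβ,
    hform⟩ := hM
  have he : ∀ x : ℝ, ‖cexp (t * x * I)‖ = 1 := fun x => by
    rw [show (t : ℂ) * x * I = ((t * x : ℝ) : ℂ) * I by push_cast; ring,
      Complex.norm_exp_ofReal_mul_I]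
  rw [hform (fun x => cexp (t * x * I)) (by fun_prop) ⟨1, fun x => (he x).le⟩]
  have ht0 : 0 < t := by linarith
  set E : ℝ := (t * δ ^ 2) ^ n0 with hE
  have hE0 : 0 ≤ E := by positivity
  set T : ℝ := t ^ (-(s * k)) with hT
  have hT0 : 0 ≤ T := by positivity
  -- pointwise bounds
  have hb1 : ∀ᵐ ω ∂P, ‖∫ ω', cexp (t * X ω ω' * I) * (W ω ω' : ℂ) ∂Q‖ₑ ≤ 1 := by
    filter_upwards [hae] with ω hω
    have h1 : ‖∫ ω', cexp (t * X ω ω' * I) * (W ω ω' : ℂ) ∂Q‖ ≤ 1 * Q.real Set.univ := by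
      refine norm_integral_le_of_norm_le_const ?_
      filter_upwards [hω] with ω' h
      rw [norm_mul, he, one_mul, Complex.norm_real, Real.norm_eq_abs, abs_of_nonneg h.2.2.1]
      exact h.2.2.2
    have h2 : ‖∫ ω', cexp (t * X ω ω' * I) * (W ω ω' : ℂ) ∂Q‖ ≤ 1 := by simpa using h1
    rw [← ofReal_norm_eq_enorm]
    calc ENNReal.ofReal _ ≤ ENNReal.ofReal 1 := ENNReal.ofReal_le_ofReal h2
      _ = 1 := by simp
  have hb2 : ∀ ω ∈ G, ‖∫ ω', cexp (t * X ω ω' * I) * (W ω ω' : ℂ) ∂Q‖ₑ ≤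
      ENNReal.ofReal (C * T) * ENNReal.ofReal (b ω) + ENNReal.ofReal (C * E) := by
    intro ω hω
    obtain ⟨hc0, hc1, hb0, -, h⟩ := hel ω hω
    have h := h 0 (Nat.zero_le _) t ht0.ne' (by rw [abs_of_pos ht0])
    have h1 : ‖∫ ω', cexp (t * X ω ω' * I) * (W ω ω' : ℂ) ∂Q‖ ≤ C * (T * b ω + E) := by
      have h2 : (∫ ω', cexp (t * X ω ω' * I) * (W ω ω' : ℂ) ∂Q) =
          ∫ ω', (((X ω ω' - c ω) ^ 0 * W ω ω' : ℝ) : ℂ) * cexp (t * X ω ω' * I) ∂Q := by
        refine integral_congr_ae (Eventually.of_forall fun ω' => ?_)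
        simp [mul_comm]
      rw [h2]
      refine h.trans ?_
      rw [pow_zero, mul_one, abs_of_pos ht0]
      refine mul_le_mul_of_nonneg_left ?_ hC
      refine add_le_add ?_ le_rfl
      have h3 : c ω ^ K * (1 - c ω) ^ K ≤ 1 := by
        refine mul_le_one₀ (Real.rpow_le_one hc0.le hc1.le hK) ?_
          (Real.rpow_le_one (by linarith) (by linarith) hK)
        exact Real.rpow_nonneg (by linarith) _
      calc T * b ω * (c ω ^ K * (1 - c ω) ^ K) ≤ T * b ω * 1 :=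
            mul_le_mul_of_nonneg_left h3 (mul_nonneg hT0 hb0)
        _ = T * b ω := by ring
    rw [← ofReal_norm_eq_enorm, ← ENNReal.ofReal_mul (mul_nonneg hC hT0),
      ← ENNReal.ofReal_add (by positivity) (by positivity)]
    exact ENNReal.ofReal_le_ofReal (h1.trans (le_of_eq (by ring)))
  have hmain : ‖∫ ω, ∫ ω', cexp (t * X ω ω' * I) * (W ω ω' : ℂ) ∂Q ∂P‖ₑ ≤
      ENNReal.ofReal (C * (T * β + E) + ε) := by
    refine (enorm_integral_le_lintegral_enorm _).trans ?_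
    rw [← lintegral_add_compl _ hG]
    have e1 : ∫⁻ ω in G, ‖∫ ω', cexp (t * X ω ω' * I) * (W ω ω' : ℂ) ∂Q‖ₑ ∂P ≤
        ENNReal.ofReal (C * (T * β + E)) := by
      calc _ ≤ ∫⁻ ω in G, (ENNReal.ofReal (C * T) * ENNReal.ofReal (b ω) +
              ENNReal.ofReal (C * E)) ∂P := setLIntegral_mono' hG hb2
        _ = ENNReal.ofReal (C * T) * ∫⁻ ω in G, ENNReal.ofReal (b ω) ∂P +
              ENNReal.ofReal (C * E) * P G := by
            rw [lintegral_add_right _ measurable_const, lintegral_const_mul _ (by fun_prop)]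
            simp
        _ ≤ ENNReal.ofReal (C * T) * ENNReal.ofReal β + ENNReal.ofReal (C * E) * 1 := by
            gcongr
            exact prob_le_one
        _ = ENNReal.ofReal (C * (T * β + E)) := by
            rw [mul_one, ← ENNReal.ofReal_mul (mul_nonneg hC hT0),
              ← ENNReal.ofReal_add (by positivity) (by positivity)]
            congr 1; ring
    have e2 : ∫⁻ ω in Gᶜ, ‖∫ ω', cexp (t * X ω ω' * I) * (W ω ω' : ℂ) ∂Q‖ₑ ∂P ≤
        ENNReal.ofReal ε := by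
      calc _ ≤ ∫⁻ ω in Gᶜ, 1 ∂P := lintegral_mono_ae (ae_restrict_of_ae hb1)
        _ = P Gᶜ := by simp
        _ ≤ _ := hGε
    rw [ENNReal.ofReal_add (by positivity) hε]
    exact add_le_add e1 e2
  rw [← ofReal_norm_eq_enorm] at hmain
  exact (ENNReal.ofReal_le_ofReal_iff (by positivity)).1 hmain

end Pool.Agent.T6.H62.AC
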