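import Pool.Agent.T6.H62.AC.Hang

/-!
# A mixture, hung on a coproduct gate (helper71 for helper62)
-/

open MeasureTheory Complex Filter Topology
open scoped ENNReal

namespace Pool.Agent.T6.H62.AC

theorem mixj : StmMIXJ := by
  intro hST μ κ s hμ hsupp hs hs1 hA hGR n0 k N p q K K₁ L C hK hp hK1 hL hC
  obtain ⟨C', hC', hst⟩ := hST μ s hμ hsupp hs hs1 hA n0 k N p q K K₁ L C hK hp hK1 hL hC
  obtain ⟨C₁, hC1, hGR⟩ := hGR
  refine ⟨C', C₁, hC', hC1, ?_⟩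
  intro t δ β ε ε' Λ ht hδ hδ1 htδ hβ hε hε' hM
  obtain ⟨P, hP, hP1, hP2⟩ := hGR δ ε' hδ hδ1 hε'
  exact Hang.main (g := fun u x => u + (1 - u) * x) (by fun_prop)
    (fun u x h0 h1 h2 h3 => ⟨add_nonneg h0 (mul_nonneg (by linarith) h2), by nlinarith⟩) hsupp hP
    hε hε' hC1 hδ hP1
    hP2 (fun Ω' mΩ' Q X W c b A B hQ hX hW hA hB hAB hBδ hE =>
      hst Ω' mΩ' Q X W c b t δ A B hQ hX hW ht hδ hδ1 htδ hA hB hAB hBδ hE) hM

end Pool.Agent.T6.H62.AC
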