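import Pool.Agent.T6.H62.AC.Kit

/-!
Project AC (helper62), MP_319742_pr, module MOM0 (helper82): negative moments at `0`.
-/

set_option autoImplicit false
open MeasureTheory Complex Filter Topology
open scoped ENNReal

namespace Pool.Agent.T6.H62.AC

namespace ModMom0

theorem mul_zero_of {μ : Measure ℝ} [IsProbabilityMeasure μ] (hs : ∀ᵐ x ∂μ, 0 < x ∧ x < 1) :
    mulLaw μ μ (Set.Iic 0) = 0 := by
  rw [← lintegral_indicator_one measurableSet_Iic,
    lint_mulLaw μ μ (measurable_one.indicator measurableSet_Iic)]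
  have h1 : ∀ᵐ u ∂μ, (∫⁻ x, (Set.Iic (0 : ℝ)).indicator 1 (u * x) ∂μ : ℝ≥0∞) = 0 := by
    filter_upwards [hs] with u hu
    have h2 : ∀ᵐ x ∂μ, ((Set.Iic (0 : ℝ)).indicator 1 (u * x) : ℝ≥0∞) = 0 := by
      filter_upwards [hs] with x hx
      apply Set.indicator_of_notMem
      rw [Set.mem_Iic, not_le]
      exact mul_pos hu.1 hx.1
    rw [lintegral_congr_ae h2, lintegral_zero]
  rw [lintegral_congr_ae h1, lintegral_zero]

theorem exists_kappa {μ : Measure ℝ} [IsProbabilityMeasure μ] (hs : ∀ᵐ x ∂μ, 0 < x ∧ x < 1)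
    {q : ℝ} (hq : 0 < q) : ∃ κ : ℝ, 0 < κ ∧ κ < 1 ∧ mulLaw μ μ (Set.Iic κ) ≤ ENNReal.ofReal q := by
  have h1 : Tendsto (fun n : ℕ => mulLaw μ μ (Set.Iic (1 / ((n : ℝ) + 2)))) atTop
      (𝓝 (mulLaw μ μ (⋂ n : ℕ, Set.Iic (1 / ((n : ℝ) + 2))))) := by
    apply tendsto_measure_iInter_atTop
    · intro n
      exact measurableSet_Iic.nullMeasurableSet
    · intro n k hnk
      apply Set.Iic_subset_Iic.2
      apply one_div_le_one_div_of_le (by positivity)
      have : (n : ℝ) ≤ k := by exact_mod_cast hnk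
      linarith
    · exact ⟨0, measure_ne_top _ _⟩
  have h2 : (⋂ n : ℕ, Set.Iic (1 / ((n : ℝ) + 2))) = Set.Iic (0 : ℝ) := by
    ext x
    simp only [Set.mem_iInter, Set.mem_Iic]
    constructor
    · intro hx
      apply le_of_forall_pos_le_add
      intro ε hε
      obtain ⟨n, hn⟩ := exists_nat_one_div_lt hε
      have h3 := hx n
      have h4 : 1 / ((n : ℝ) + 2) ≤ 1 / ((n : ℝ) + 1) :=
        one_div_le_one_div_of_le (by positivity) (by linarith)
      linarith
    · intro hx n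
      have : 0 < 1 / ((n : ℝ) + 2) := by positivity
      linarith
  rw [h2, mul_zero_of hs] at h1
  have h3 : ∀ᶠ n : ℕ in atTop, mulLaw μ μ (Set.Iic (1 / ((n : ℝ) + 2))) < ENNReal.ofReal q :=
    h1.eventually (gt_mem_nhds (ENNReal.ofReal_pos.2 hq))
  obtain ⟨n, hn⟩ := h3.exists
  refine ⟨1 / ((n : ℝ) + 2), by positivity, ?_, hn.le⟩
  rw [div_lt_one (by positivity)]
  have : (0 : ℝ) ≤ n := Nat.cast_nonneg n
  linarith

/-- the truncated power -/
noncomputable def tr (θ : ℝ) (n : ℕ) (x : ℝ) : ℝ := min (x ^ (-θ)) (Real.exp (θ * n))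

theorem tr_meas (θ : ℝ) (n : ℕ) : Measurable (tr θ n) := by
  unfold tr
  fun_prop

theorem tr_anti {θ : ℝ} (hθ : 0 < θ) (n : ℕ) {x y : ℝ} (hx : 0 < x) (hxy : x ≤ y) :
    tr θ n y ≤ tr θ n x := by
  unfold tr
  apply min_le_min _ le_rfl
  exact Real.rpow_le_rpow_of_nonpos hx hxy (by linarith)

theorem one_le_rpow {θ : ℝ} (hθ : 0 < θ) {x : ℝ} (hx : 0 < x) (hx1 : x ≤ 1) : 1 ≤ x ^ (-θ) :=
  Real.one_le_rpow_of_pos_of_le_one_of_nonpos hx hx1 (by linarith)

theorem one_le_exp {θ : ℝ} (hθ : 0 < θ) (n : ℕ) : 1 ≤ Real.exp (θ * n) := by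
  apply Real.one_le_exp
  positivity

theorem tr_mul {θ : ℝ} (hθ : 0 < θ) (n : ℕ) {x y : ℝ} (hx : 0 < x) (hx1 : x < 1) (hy : 0 < y)
    (hy1 : y < 1) : tr θ n (x * y) ≤ tr θ n x * tr θ n y := by
  unfold tr
  rw [Real.mul_rpow hx.le hy.le]
  have h1 := one_le_rpow hθ hx hx1.le
  have h2 := one_le_rpow hθ hy hy1.le
  have h3 := one_le_exp hθ n
  set A := x ^ (-θ)
  set B := y ^ (-θ)
  set T := Real.exp (θ * n)
  rcases le_total A T with hA | hA
  · rcases le_total B T with hB | hB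
    · rw [min_eq_left hA, min_eq_left hB]
      exact min_le_left _ _
    · rw [min_eq_left hA, min_eq_right hB]
      refine (min_le_right _ _).trans ?_
      nlinarith
  · rw [min_eq_right hA]
    refine (min_le_right _ _).trans ?_
    have h4 : 1 ≤ min B T := le_min h2 h3
    nlinarith

theorem tr_join {θ : ℝ} (hθ : 0 < θ) (n : ℕ) {x y κ : ℝ} (hx : 0 < x) (hx1 : x < 1) (hy : 0 < y)
    (hy1 : y < 1) (hκ : 0 < κ) :
    ENNReal.ofReal (tr θ n (x + (1 - x) * y)) ≤ ENNReal.ofReal (κ ^ (-θ)) +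
      (Set.Iic κ).indicator 1 y * ENNReal.ofReal (tr θ n x) := by
  by_cases h : y ≤ κ
  · rw [Set.indicator_of_mem (show y ∈ Set.Iic κ from h), Pi.one_apply, one_mul]
    refine le_trans ?_ (le_add_left le_rfl)
    apply ENNReal.ofReal_le_ofReal
    apply tr_anti hθ n hx
    nlinarith
  · push Not at h
    refine le_trans ?_ (le_add_right le_rfl)
    apply ENNReal.ofReal_le_ofReal
    have h1 : tr θ n (x + (1 - x) * y) ≤ tr θ n κ := by
      apply tr_anti hθ n hκ
      nlinarith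
    exact h1.trans (min_le_left _ _)

theorem tr_succ {θ : ℝ} (hθ : 0 < θ) (n : ℕ) (x : ℝ) (hx : 0 < x) :
    tr θ (n + 1) x ≤ Real.exp θ * tr θ n x := by
  unfold tr
  have h1 : Real.exp (θ * ((n + 1 : ℕ) : ℝ)) = Real.exp θ * Real.exp (θ * n) := by
    rw [← Real.exp_add]
    congr 1
    push_cast
    ring
  rw [h1]
  have h2 : 1 ≤ Real.exp θ := Real.one_le_exp hθ.le
  have h3 : 0 < x ^ (-θ) := Real.rpow_pos_of_pos hx _
  rw [mul_min_of_nonneg _ _ (by positivity)]
  apply min_le_min _ le_rfl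
  nlinarith

theorem step {a : ℝ} {μ : Measure ℝ} (h : Eqn a μ) {θ κ q I : ℝ} (hθ : 0 < θ) (n : ℕ) (hκ : 0 < κ)
    (hq0 : 0 ≤ q) (hq : mulLaw μ μ (Set.Iic κ) ≤ ENNReal.ofReal q) (hI0 : 0 ≤ I)
    (hI : ∫⁻ x, ENNReal.ofReal (tr θ n x) ∂μ = ENNReal.ofReal I) :
    I ≤ a * (κ ^ (-θ) + q * I) + (1 - a) * (I * I) := by
  haveI := h.prob
  have ha := h.ha
  have ha1 := h.ha1
  have hm : Measurable (fun x => ENNReal.ofReal (tr θ n x)) := (tr_meas θ n).ennreal_ofReal
  have e := h.lint hm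
  rw [hI] at e
  have e1 : ∫⁻ y, ∫⁻ z, ENNReal.ofReal (tr θ n (y * z)) ∂μ ∂μ ≤ ENNReal.ofReal (I * I) := by
    calc ∫⁻ y, ∫⁻ z, ENNReal.ofReal (tr θ n (y * z)) ∂μ ∂μ
        ≤ ∫⁻ y, ∫⁻ z, ENNReal.ofReal (tr θ n y) * ENNReal.ofReal (tr θ n z) ∂μ ∂μ := by
          apply lintegral_mono_ae
          filter_upwards [h.supp] with y hy
          apply lintegral_mono_ae
          filter_upwards [h.supp] with z hz
          rw [← ENNReal.ofReal_mul]
          · exact ENNReal.ofReal_le_ofReal (tr_mul hθ n hy.1 hy.2 hz.1 hz.2)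
          · unfold tr
            have := one_le_rpow hθ hy.1 hy.2.le
            have := one_le_exp hθ n
            exact le_min (by linarith) (by linarith)
      _ = ∫⁻ y, ENNReal.ofReal (tr θ n y) * ENNReal.ofReal I ∂μ := by
          apply lintegral_congr
          intro y
          rw [lintegral_const_mul _ hm, hI]
      _ = ENNReal.ofReal (I * I) := by
          rw [lintegral_mul_const _ hm, hI, ENNReal.ofReal_mul hI0]
  have e2 : ∫⁻ x, ∫⁻ y, ∫⁻ z, ENNReal.ofReal (tr θ n (x + (1 - x) * (y * z))) ∂μ ∂μ ∂μ ≤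
      ENNReal.ofReal (κ ^ (-θ) + q * I) := by
    have mi : Measurable (fun w : ℝ => ((Set.Iic κ).indicator 1 w : ℝ≥0∞)) :=
      measurable_one.indicator measurableSet_Iic
    have hQ : ∫⁻ y, ∫⁻ z, (Set.Iic κ).indicator (1 : ℝ → ℝ≥0∞) (y * z) ∂μ ∂μ =
        mulLaw μ μ (Set.Iic κ) := by
      rw [← lintegral_indicator_one measurableSet_Iic, lint_mulLaw μ μ mi]
    calc ∫⁻ x, ∫⁻ y, ∫⁻ z, ENNReal.ofReal (tr θ n (x + (1 - x) * (y * z))) ∂μ ∂μ ∂μ
        ≤ ∫⁻ x, ∫⁻ y, ∫⁻ z, (ENNReal.ofReal (κ ^ (-θ)) +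
            (Set.Iic κ).indicator 1 (y * z) * ENNReal.ofReal (tr θ n x)) ∂μ ∂μ ∂μ := by
          apply lintegral_mono_ae
          filter_upwards [h.supp] with x hx
          apply lintegral_mono_ae
          filter_upwards [h.supp] with y hy
          apply lintegral_mono_ae
          filter_upwards [h.supp] with z hz
          apply tr_join hθ n hx.1 hx.2 (mul_pos hy.1 hz.1) _ hκ
          nlinarith [hy.1, hy.2, hz.1, hz.2]
      _ = ∫⁻ x, (ENNReal.ofReal (κ ^ (-θ)) +
            mulLaw μ μ (Set.Iic κ) * ENNReal.ofReal (tr θ n x)) ∂μ := by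
          apply lintegral_congr
          intro x
          have h5 : ∀ y : ℝ, ∫⁻ z, (ENNReal.ofReal (κ ^ (-θ)) +
              (Set.Iic κ).indicator (1 : ℝ → ℝ≥0∞) (y * z) * ENNReal.ofReal (tr θ n x)) ∂μ =
              ENNReal.ofReal (κ ^ (-θ)) +
                (∫⁻ z, (Set.Iic κ).indicator (1 : ℝ → ℝ≥0∞) (y * z) ∂μ) *
                  ENNReal.ofReal (tr θ n x) := by
            intro y
            rw [lintegral_add_left measurable_const, lintegral_const, measure_univ, mul_one,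
              lintegral_mul_const]
            exact mi.comp (by fun_prop)
          simp_rw [h5]
          rw [lintegral_add_left measurable_const, lintegral_const, measure_univ, mul_one,
            lintegral_mul_const, hQ]
          exact Measurable.lintegral_prod_right' (f := fun p : ℝ × ℝ =>
            (Set.Iic κ).indicator (1 : ℝ → ℝ≥0∞) (p.1 * p.2)) (mi.comp (by fun_prop))
      _ = ENNReal.ofReal (κ ^ (-θ)) + mulLaw μ μ (Set.Iic κ) * ENNReal.ofReal I := by
          rw [lintegral_add_left measurable_const, lintegral_const, measure_univ, mul_one,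
            lintegral_const_mul _ hm, hI]
      _ ≤ ENNReal.ofReal (κ ^ (-θ)) + ENNReal.ofReal q * ENNReal.ofReal I :=
          add_le_add le_rfl (mul_le_mul' hq le_rfl)
      _ = ENNReal.ofReal (κ ^ (-θ) + q * I) := by
          rw [ENNReal.ofReal_add (Real.rpow_nonneg hκ.le _) (by positivity),
            ENNReal.ofReal_mul hq0]
  have hk0 : 0 ≤ κ ^ (-θ) := Real.rpow_nonneg hκ.le _
  have e3 : ENNReal.ofReal I ≤ ENNReal.ofReal (a * (κ ^ (-θ) + q * I) + (1 - a) * (I * I)) := by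
    rw [e, ENNReal.ofReal_add, ENNReal.ofReal_mul, ENNReal.ofReal_mul]
    · exact add_le_add (mul_le_mul' le_rfl e2) (mul_le_mul' le_rfl e1)
    · linarith
    · linarith
    · have : 0 ≤ κ ^ (-θ) + q * I := by positivity
      exact mul_nonneg (by linarith) this
    · exact mul_nonneg (by linarith) (by positivity)
  refine (ENNReal.ofReal_le_ofReal_iff ?_).1 e3
  have h6 : 0 ≤ κ ^ (-θ) + q * I := by positivity
  have h7 : 0 ≤ I * I := by positivity
  have h8 : 0 ≤ a * (κ ^ (-θ) + q * I) := mul_nonneg (by linarith) h6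
  have h9 : 0 ≤ (1 - a) * (I * I) := mul_nonneg (by linarith) h7
  linarith

end ModMom0

open ModMom0 in
/-- MOM0: negative moments at `0` -/
theorem mom0 : StmMOM0 := by
  intro a μ h
  haveI := h.prob
  have ha := h.ha
  have ha1 := h.ha1
  obtain ⟨m, hm⟩ : ∃ m : ℝ, m = 1 / (2 * (1 - a)) := ⟨_, rfl⟩
  have hma : (1 - a) * m = 1 / 2 := by
    rw [hm]
    field_simp
    have : (1 - a) ≠ 0 := by linarith
    field_simp
  have hm1 : 1 < m := by
    rw [hm, lt_div_iff₀ (by linarith)]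
    linarith
  obtain ⟨D, hD⟩ : ∃ D : ℝ, D = m / 2 - a := ⟨_, rfl⟩
  have hDp : 0 < D := by
    rw [hD]
    by_contra hc
    push Not at hc
    have h1 : m ≤ 2 * a := by linarith
    have h2 : (1 - a) * m ≤ (1 - a) * (2 * a) := mul_le_mul_of_nonneg_left h1 (by linarith)
    rw [hma] at h2
    nlinarith [sq_nonneg (2 * a - 1)]
  obtain ⟨κ, hκ0, hκ1, hκ⟩ := exists_kappa (μ := μ) h.supp (q := D / (4 * m)) (by positivity)
  obtain ⟨θ, hθ0, hθ1, hθE, hθl, hθb⟩ : ∃ θ : ℝ, 0 < θ ∧ θ < 1 ∧ κ ^ (-θ) < 1 + D / 4 ∧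
      m * (1 - Real.exp (-θ)) ^ 2 / 2 < D / 4 ∧ 1 < m * Real.exp (-θ) := by
    have c1 : ContinuousAt (fun θ : ℝ => κ ^ (-θ)) 0 := by
      apply ContinuousAt.rpow continuousAt_const (by fun_prop)
      left
      exact hκ0.ne'
    have c2 : ContinuousAt (fun θ : ℝ => m * (1 - Real.exp (-θ)) ^ 2 / 2) 0 := by fun_prop
    have c3 : ContinuousAt (fun θ : ℝ => m * Real.exp (-θ)) 0 := by fun_prop
    have t1 : ∀ᶠ θ in 𝓝 (0 : ℝ), κ ^ (-θ) < 1 + D / 4 := by
      apply c1.eventually (gt_mem_nhds _)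
      simp only [neg_zero, Real.rpow_zero]
      linarith
    have t2 : ∀ᶠ θ in 𝓝 (0 : ℝ), m * (1 - Real.exp (-θ)) ^ 2 / 2 < D / 4 := by
      apply c2.eventually (gt_mem_nhds _)
      simp only [neg_zero, Real.exp_zero]
      norm_num
      exact hDp
    have t3 : ∀ᶠ θ in 𝓝 (0 : ℝ), 1 < m * Real.exp (-θ) := by
      apply c3.eventually (lt_mem_nhds _)
      simp only [neg_zero, Real.exp_zero, mul_one]
      exact hm1
    have t4 : ∀ᶠ θ in 𝓝 (0 : ℝ), θ < 1 := gt_mem_nhds (by norm_num)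
    have t5 := (((t1.and t2).and t3).and t4)
    have t6 : ∀ᶠ θ in 𝓝[>] (0 : ℝ), (((κ ^ (-θ) < 1 + D / 4 ∧
        m * (1 - Real.exp (-θ)) ^ 2 / 2 < D / 4) ∧ 1 < m * Real.exp (-θ)) ∧ θ < 1) ∧ 0 < θ :=
      (t5.filter_mono nhdsWithin_le_nhds).and self_mem_nhdsWithin
    obtain ⟨θ, ⟨⟨⟨x1, x2⟩, x3⟩, x4⟩, x5⟩ := t6.exists
    exact ⟨θ, x5, x4, x1, x2, x3⟩
  refine ⟨θ, hθ0, hθ1.le, ?_⟩
  -- the truncated moments are finite
  have hfin : ∀ n : ℕ, ∫⁻ x, ENNReal.ofReal (tr θ n x) ∂μ ≠ ∞ := by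
    intro n
    have : ∫⁻ x, ENNReal.ofReal (tr θ n x) ∂μ ≤ ENNReal.ofReal (Real.exp (θ * n)) := by
      calc ∫⁻ x, ENNReal.ofReal (tr θ n x) ∂μ ≤ ∫⁻ _, ENNReal.ofReal (Real.exp (θ * n)) ∂μ := by
            apply lintegral_mono
            intro x
            exact ENNReal.ofReal_le_ofReal (min_le_right _ _)
        _ = _ := by
            rw [lintegral_const, measure_univ, mul_one]
    exact ne_top_of_le_ne_top ENNReal.ofReal_ne_top this
  have key : ∀ n : ℕ, (∫⁻ x, ENNReal.ofReal (tr θ n x) ∂μ).toReal ≤ m * Real.exp (-θ) := by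
    intro n
    induction n with
    | zero =>
      have h1 : ∫⁻ x, ENNReal.ofReal (tr θ 0 x) ∂μ ≤ 1 := by
        calc ∫⁻ x, ENNReal.ofReal (tr θ 0 x) ∂μ ≤ ∫⁻ _, 1 ∂μ := by
              apply lintegral_mono
              intro x
              rw [← ENNReal.ofReal_one]
              apply ENNReal.ofReal_le_ofReal
              refine (min_le_right _ _).trans ?_
              simp
          _ = 1 := by simp
      have h2 := ENNReal.toReal_mono ENNReal.one_ne_top h1
      rw [ENNReal.toReal_one] at h2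
      linarith
    | succ n ih =>
      obtain ⟨I, hI⟩ : ∃ I : ℝ, I = (∫⁻ x, ENNReal.ofReal (tr θ (n + 1) x) ∂μ).toReal := ⟨_, rfl⟩
      have hI0 : 0 ≤ I := by
        rw [hI]
        exact ENNReal.toReal_nonneg
      have hIe : ∫⁻ x, ENNReal.ofReal (tr θ (n + 1) x) ∂μ = ENNReal.ofReal I := by
        rw [hI, ENNReal.ofReal_toReal (hfin (n + 1))]
      have hst := step h hθ0 (n + 1) hκ0 (by positivity) hκ hI0 hIe
      have hIm : I ≤ m := by
        have h3 : ∫⁻ x, ENNReal.ofReal (tr θ (n + 1) x) ∂μ ≤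
            ENNReal.ofReal (Real.exp θ) * ∫⁻ x, ENNReal.ofReal (tr θ n x) ∂μ := by
          rw [← lintegral_const_mul _ (tr_meas θ n).ennreal_ofReal]
          apply lintegral_mono_ae
          filter_upwards [h.supp] with x hx
          rw [← ENNReal.ofReal_mul (by positivity)]
          exact ENNReal.ofReal_le_ofReal (tr_succ hθ0 n x hx.1)
        have h4 := ENNReal.toReal_mono (ENNReal.mul_ne_top ENNReal.ofReal_ne_top (hfin n)) h3
        rw [ENNReal.toReal_mul, ENNReal.toReal_ofReal (by positivity), ← hI] at h4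
        have h5 : Real.exp θ * (∫⁻ x, ENNReal.ofReal (tr θ n x) ∂μ).toReal ≤
            Real.exp θ * (m * Real.exp (-θ)) := mul_le_mul_of_nonneg_left ih (by positivity)
        have h6 : Real.exp θ * (m * Real.exp (-θ)) = m := by
          rw [mul_left_comm, ← Real.exp_add]
          simp
        linarith
      rw [← hI]
      by_contra hc
      push Not at hc
      -- `I` in the forbidden interval
      have h7 : D / (4 * m) * I ≤ D / 4 := by
        rw [div_mul_eq_mul_div, div_le_div_iff₀ (by positivity) (by norm_num)]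
        nlinarith
      have h8 : (1 - a) * (I * I) - I = (1 - a) * (m - I) ^ 2 - m / 2 := by
        have : (1 - a) * (m - I) ^ 2 = ((1 - a) * m) * m - 2 * ((1 - a) * m) * I +
            (1 - a) * (I * I) := by ring
        rw [this, hma]
        ring
      have h9 : (1 - a) * (m - I) ^ 2 ≤ m * (1 - Real.exp (-θ)) ^ 2 / 2 := by
        have h10 : (m - I) ^ 2 ≤ (m * (1 - Real.exp (-θ))) ^ 2 := by
          apply pow_le_pow_left₀ (by linarith)
          nlinarith
        calc (1 - a) * (m - I) ^ 2 ≤ (1 - a) * (m * (1 - Real.exp (-θ))) ^ 2 :=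
              mul_le_mul_of_nonneg_left h10 (by linarith)
          _ = ((1 - a) * m) * m * (1 - Real.exp (-θ)) ^ 2 := by ring
          _ = _ := by
              rw [hma]
              ring
      have h11 : a * (κ ^ (-θ) + D / (4 * m) * I) ≤ a + D / 2 := by
        have h12 : κ ^ (-θ) + D / (4 * m) * I ≤ 1 + D / 2 := by linarith
        calc a * (κ ^ (-θ) + D / (4 * m) * I) ≤ a * (1 + D / 2) :=
              mul_le_mul_of_nonneg_left h12 (by linarith)
          _ ≤ a + D / 2 := by nlinarith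
      linarith
  -- monotone convergence
  have hmono : Monotone (fun (n : ℕ) (x : ℝ) => ENNReal.ofReal (tr θ n x)) := by
    intro n k hnk x
    apply ENNReal.ofReal_le_ofReal
    unfold tr
    apply min_le_min le_rfl
    apply Real.exp_le_exp.2
    have : (n : ℝ) ≤ k := by exact_mod_cast hnk
    nlinarith
  have hsup : ∀ x : ℝ, ENNReal.ofReal (x ^ (-θ)) ≤ ⨆ n : ℕ, ENNReal.ofReal (tr θ n x) := by
    intro x
    obtain ⟨n, hn⟩ := exists_nat_ge (x ^ (-θ) / θ)
    refine le_trans ?_ (le_iSup _ n)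
    apply ENNReal.ofReal_le_ofReal
    unfold tr
    apply le_min le_rfl
    have h1 : x ^ (-θ) ≤ θ * n := by
      rw [div_le_iff₀ hθ0] at hn
      linarith
    have h2 := Real.add_one_le_exp (θ * n)
    linarith
  have hle : ∫⁻ x, ENNReal.ofReal (x ^ (-θ)) ∂μ ≤ ENNReal.ofReal (m * Real.exp (-θ)) := by
    calc ∫⁻ x, ENNReal.ofReal (x ^ (-θ)) ∂μ ≤ ∫⁻ x, ⨆ n : ℕ, ENNReal.ofReal (tr θ n x) ∂μ :=
          lintegral_mono hsup
      _ = ⨆ n : ℕ, ∫⁻ x, ENNReal.ofReal (tr θ n x) ∂μ :=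
          lintegral_iSup (fun n => (tr_meas θ n).ennreal_ofReal) hmono
      _ ≤ ENNReal.ofReal (m * Real.exp (-θ)) := by
          apply iSup_le
          intro n
          rw [← ENNReal.ofReal_toReal (hfin n)]
          exact ENNReal.ofReal_le_ofReal (key n)
  exact ne_top_of_le_ne_top ENNReal.ofReal_ne_top hle

end Pool.Agent.T6.H62.AC
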