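import Pool.Agent.T6.H62.AC.Kit

open MeasureTheory Filter Topology
open scoped ENNReal

namespace Pool.Agent.T6.H62.AC

namespace ModMom1

lemma min_mul (u v T : ℝ≥0∞) (hu : 1 ≤ u) (hv : 1 ≤ v) (hT : 1 ≤ T) :
    min (u * v) T ≤ min u T * min v T := by
  rcases le_total u T with h1 | h1 <;> rcases le_total v T with h2 | h2
  · rw [min_eq_left h1, min_eq_left h2]; exact min_le_left _ _
  · rw [min_eq_left h1, min_eq_right h2]
    exact (min_le_right _ _).trans (le_mul_of_one_le_left' hu)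
  · rw [min_eq_right h1, min_eq_left h2]
    exact (min_le_right _ _).trans (le_mul_of_one_le_right' hv)
  · rw [min_eq_right h1, min_eq_right h2]
    exact (min_le_right _ _).trans (le_mul_of_one_le_right' hT)

/-- the function `(1 - x)^(-θ)` -/
noncomputable def u (θ : ℝ) (x : ℝ) : ℝ≥0∞ := ENNReal.ofReal ((1 - x) ^ (-θ))

lemma measurable_u (θ : ℝ) : Measurable (u θ) := by
  unfold u; fun_prop

lemma one_le_u {θ x : ℝ} (hθ : 0 < θ) (h0 : 0 < x) (h1 : x < 1) : 1 ≤ u θ x := by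
  unfold u
  rw [← ENNReal.ofReal_one]
  apply ENNReal.ofReal_le_ofReal
  exact Real.one_le_rpow_of_pos_of_le_one_of_nonpos (by linarith) (by linarith) (by linarith)

lemma u_join {θ x w : ℝ} (h1 : x < 1) (hw : w < 1) :
    u θ (x + (1 - x) * w) = u θ x * u θ w := by
  unfold u
  rw [← ENNReal.ofReal_mul (Real.rpow_nonneg (by linarith) _),
    ← Real.mul_rpow (by linarith) (by linarith)]
  congr 2; ring

lemma u_mono {θ x w : ℝ} (hθ : 0 < θ) (hx : x ≤ w) (hw : w < 1) : u θ x ≤ u θ w := by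
  unfold u
  apply ENNReal.ofReal_le_ofReal
  exact Real.rpow_le_rpow_of_nonpos (by linarith) (by linarith) (by linarith)

lemma prod_bound {θ δ y z : ℝ} (hθ : 0 < θ) (hδ : 0 < δ) (hy0 : 0 < y) (hy : y < 1)
    (hz0 : 0 < z) (hz : z < 1) (T : ℝ≥0∞) :
    min (u θ (y * z)) T ≤ ENNReal.ofReal (δ ^ (-θ)) +
      ({z : ℝ | 1 - z < δ}.indicator 1 z : ℝ≥0∞) * min (u θ y) T := by
  by_cases h : 1 - z < δ
  · have hyz : y * z ≤ y := by nlinarith
    rw [Set.indicator_of_mem (by exact h)]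
    simp only [Pi.one_apply, one_mul]
    exact (min_le_min_right _ (u_mono hθ hyz hy)).trans (by simp)
  · have hyz : y * z ≤ z := by nlinarith
    refine le_trans ((min_le_left _ _).trans (u_mono hθ hyz hz)) ?_
    refine le_trans ?_ le_self_add
    unfold u
    apply ENNReal.ofReal_le_ofReal
    exact Real.rpow_le_rpow_of_nonpos hδ (by linarith) (by linarith)

lemma exists_delta (μ : Measure ℝ) [IsProbabilityMeasure μ] (hs : ∀ᵐ x ∂μ, 0 < x ∧ x < 1)
    {e : ℝ} (he : 0 < e) : ∃ δ : ℝ, 0 < δ ∧ δ < 1 ∧ μ {z | 1 - z < δ} ≤ ENNReal.ofReal e := by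
  have h1 : Tendsto (fun n : ℕ => μ {z : ℝ | 1 - z < 1 / ((n : ℝ) + 2)}) atTop
      (𝓝 (μ (⋂ n : ℕ, {z : ℝ | 1 - z < 1 / ((n : ℝ) + 2)}))) := by
    apply tendsto_measure_iInter_atTop
    · intro n
      exact (measurableSet_lt (by fun_prop) (by fun_prop)).nullMeasurableSet
    · intro m n hmn z hz
      simp only [Set.mem_setOf_eq] at hz ⊢
      refine hz.trans_le ?_
      apply one_div_le_one_div_of_le (by positivity)
      have : (m : ℝ) ≤ n := by exact_mod_cast hmn
      linarith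
    · exact ⟨0, measure_ne_top _ _⟩
  have h0 : μ (⋂ n : ℕ, {z : ℝ | 1 - z < 1 / ((n : ℝ) + 2)}) = 0 := by
    refine measure_mono_null ?_ (ae_iff.1 hs)
    intro z hz
    simp only [Set.mem_iInter, Set.mem_setOf_eq] at hz
    simp only [Set.mem_setOf_eq, not_and, not_lt]
    intro _
    by_contra hc
    push Not at hc
    obtain ⟨n, hn⟩ := exists_nat_gt (1 / (1 - z))
    have h2 := hz n
    have h3 : 0 < 1 - z := by linarith
    have h4 : 1 / ((n : ℝ) + 2) ≤ 1 / (1 / (1 - z)) := by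
      apply one_div_le_one_div_of_le (by positivity)
      linarith
    rw [one_div_one_div] at h4
    linarith
  rw [h0] at h1
  have h2 : ∀ᶠ n : ℕ in atTop, μ {z : ℝ | 1 - z < 1 / ((n : ℝ) + 2)} < ENNReal.ofReal e :=
    h1.eventually_lt_const (by simpa using he)
  obtain ⟨n, hn⟩ := h2.exists
  refine ⟨1 / ((n : ℝ) + 2), by positivity, ?_, hn.le⟩
  rw [div_lt_one (by positivity)]
  have : (0 : ℝ) ≤ n := Nat.cast_nonneg n
  linarith

lemma exists_theta {δ e : ℝ} (h0 : 0 < δ) (h1 : δ < 1) (he : 0 < e) :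
    ∃ θ : ℝ, 0 < θ ∧ θ ≤ 1 ∧ δ ^ (-θ) ≤ 1 + e := by
  have hl : 0 < -Real.log δ := by
    have := Real.log_neg h0 h1
    linarith
  have hle : 0 < Real.log (1 + e) := Real.log_pos (by linarith)
  refine ⟨min 1 (Real.log (1 + e) / (-Real.log δ)), lt_min one_pos (div_pos hle hl),
    min_le_left _ _, ?_⟩
  rw [Real.rpow_def_of_pos h0]
  have : Real.log δ * -min 1 (Real.log (1 + e) / (-Real.log δ)) ≤ Real.log (1 + e) := by
    have h2 : min 1 (Real.log (1 + e) / (-Real.log δ)) ≤ Real.log (1 + e) / (-Real.log δ) :=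
      min_le_right _ _
    have h3 : (-Real.log δ) * min 1 (Real.log (1 + e) / (-Real.log δ)) ≤
        (-Real.log δ) * (Real.log (1 + e) / (-Real.log δ)) := by gcongr
    rw [mul_div_cancel₀ _ hl.ne'] at h3
    linarith
  calc Real.exp (Real.log δ * -min 1 (Real.log (1 + e) / (-Real.log δ)))
      ≤ Real.exp (Real.log (1 + e)) := Real.exp_le_exp.2 this
    _ = 1 + e := Real.exp_log (by linarith)

end ModMom1

open ModMom1 in
theorem mom1 : StmMOM1 := by
  intro a μ h
  haveI := h.prob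
  have ha := h.ha
  have ha1 := h.ha1
  have hε : 0 < (1 - a) / (2 + a) := div_pos (by linarith) (by linarith)
  obtain ⟨ε, hεd⟩ : ∃ ε, ε = (1 - a) / (2 + a) := ⟨_, rfl⟩
  rw [← hεd] at hε
  obtain ⟨δ, hδ0, hδ1, hq⟩ := exists_delta μ h.supp (e := ε / 4) (by linarith)
  obtain ⟨θ, hθ0, hθ1, hc⟩ := exists_theta hδ0 hδ1 (e := ε / 2) (by linarith)
  refine ⟨θ, hθ0, hθ1, ?_⟩
  have hmu := measurable_u θ
  have hbound : ∀ T : ℝ≥0∞, 1 ≤ T → ∫⁻ x, min (u θ x) T ∂μ ≤
      ENNReal.ofReal a * ((∫⁻ x, min (u θ x) T ∂μ) * (ENNReal.ofReal (δ ^ (-θ)) +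
        μ {z | 1 - z < δ} * ∫⁻ x, min (u θ x) T ∂μ)) +
      ENNReal.ofReal (1 - a) * (ENNReal.ofReal (δ ^ (-θ)) +
        μ {z | 1 - z < δ} * ∫⁻ x, min (u θ x) T ∂μ) := by
    intro T hT
    have hm : Measurable (fun x => min (u θ x) T) := hmu.min measurable_const
    have hS : MeasurableSet {z : ℝ | 1 - z < δ} := measurableSet_lt (by fun_prop) (by fun_prop)
    have hN : ∫⁻ y, ∫⁻ z, (ENNReal.ofReal (δ ^ (-θ)) +
        ({z : ℝ | 1 - z < δ}.indicator 1 z : ℝ≥0∞) * min (u θ y) T) ∂μ ∂μ =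
        ENNReal.ofReal (δ ^ (-θ)) + μ {z | 1 - z < δ} * ∫⁻ x, min (u θ x) T ∂μ := by
      have h1 : ∀ y, ∫⁻ z, (ENNReal.ofReal (δ ^ (-θ)) +
          ({z : ℝ | 1 - z < δ}.indicator 1 z : ℝ≥0∞) * min (u θ y) T) ∂μ =
          ENNReal.ofReal (δ ^ (-θ)) + μ {z | 1 - z < δ} * min (u θ y) T := by
        intro y
        rw [lintegral_add_left measurable_const, lintegral_const, measure_univ, mul_one,
          lintegral_mul_const _ (measurable_one.indicator hS), lintegral_indicator_one hS]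
      simp_rw [h1]
      rw [lintegral_add_left measurable_const, lintegral_const, measure_univ, mul_one,
        lintegral_const_mul _ hm]
    have hprod : ∫⁻ y, ∫⁻ z, min (u θ (y * z)) T ∂μ ∂μ ≤
        ENNReal.ofReal (δ ^ (-θ)) + μ {z | 1 - z < δ} * ∫⁻ x, min (u θ x) T ∂μ := by
      rw [← hN]
      exact lintegral_mono_ae (h.supp.mono fun y hy => lintegral_mono_ae
        (h.supp.mono fun z hz => prod_bound hθ0 hδ0 hy.1 hy.2 hz.1 hz.2 T))
    have hjoin : ∫⁻ x, ∫⁻ y, ∫⁻ z, min (u θ (x + (1 - x) * (y * z))) T ∂μ ∂μ ∂μ ≤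
        (∫⁻ x, min (u θ x) T ∂μ) * (ENNReal.ofReal (δ ^ (-θ)) +
          μ {z | 1 - z < δ} * ∫⁻ x, min (u θ x) T ∂μ) := by
      rw [← lintegral_mul_const _ hm]
      refine lintegral_mono_ae (h.supp.mono fun x hx => ?_)
      calc ∫⁻ y, ∫⁻ z, min (u θ (x + (1 - x) * (y * z))) T ∂μ ∂μ
          ≤ ∫⁻ y, ∫⁻ z, min (u θ x) T * min (u θ (y * z)) T ∂μ ∂μ := by
            refine lintegral_mono_ae (h.supp.mono fun y hy => lintegral_mono_ae
              (h.supp.mono fun z hz => ?_))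
            have hyz : y * z < 1 := by nlinarith [hy.1, hy.2, hz.1, hz.2]
            have hyz0 : 0 < y * z := mul_pos hy.1 hz.1
            show min (u θ (x + (1 - x) * (y * z))) T ≤ min (u θ x) T * min (u θ (y * z)) T
            rw [u_join hx.2 hyz]
            exact min_mul _ _ _ (one_le_u hθ0 hx.1 hx.2) (one_le_u hθ0 hyz0 hyz) hT
        _ = min (u θ x) T * ∫⁻ y, ∫⁻ z, min (u θ (y * z)) T ∂μ ∂μ := by
            have h1 : ∀ y, ∫⁻ z, min (u θ x) T * min (u θ (y * z)) T ∂μ =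
                min (u θ x) T * ∫⁻ z, min (u θ (y * z)) T ∂μ := by
              intro y
              exact lintegral_const_mul _ (hm.comp (measurable_const_mul y))
            simp_rw [h1]
            apply lintegral_const_mul
            have h2 : Measurable (fun p : ℝ × ℝ => min (u θ (p.1 * p.2)) T) :=
              hm.comp (g := fun x => min (u θ x) T) (f := fun p : ℝ × ℝ => p.1 * p.2)
                (by fun_prop)
            exact Measurable.lintegral_prod_right' h2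
        _ ≤ _ := by gcongr
    calc ∫⁻ x, min (u θ x) T ∂μ = _ := h.lint hm
      _ ≤ _ := by gcongr
  have key : ∀ T : ℝ≥0∞, 1 ≤ T → T ≠ ⊤ → (∫⁻ x, min (u θ x) T ∂μ) ≤ ENNReal.ofReal 2 →
      ∫⁻ x, min (u θ x) T ∂μ ≤ ENNReal.ofReal (3 / 2) := by
    intro T hT1 hT h2
    have hb := hbound T hT1
    generalize (∫⁻ x, min (u θ x) T ∂μ) = M at hb h2 ⊢
    have hM : M ≠ ⊤ := ne_top_of_le_ne_top ENNReal.ofReal_ne_top h2
    have hqt : μ {z | 1 - z < δ} ≠ ⊤ := measure_ne_top _ _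
    generalize μ {z | 1 - z < δ} = q at hb hq hqt
    obtain ⟨m, hm0, rfl⟩ : ∃ m : ℝ, 0 ≤ m ∧ M = ENNReal.ofReal m :=
      ⟨M.toReal, ENNReal.toReal_nonneg, (ENNReal.ofReal_toReal hM).symm⟩
    obtain ⟨r, hr0, rfl⟩ : ∃ r : ℝ, 0 ≤ r ∧ q = ENNReal.ofReal r :=
      ⟨q.toReal, ENNReal.toReal_nonneg, (ENNReal.ofReal_toReal hqt).symm⟩
    have hcp : 0 ≤ δ ^ (-θ) := Real.rpow_nonneg hδ0.le _
    have hm2 : m ≤ 2 := (ENNReal.ofReal_le_ofReal_iff (by norm_num)).1 h2
    have hr : r ≤ ε / 4 := (ENNReal.ofReal_le_ofReal_iff (by linarith)).1 hq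
    rw [← ENNReal.ofReal_mul hr0, ← ENNReal.ofReal_add hcp (by positivity),
      ← ENNReal.ofReal_mul hm0, ← ENNReal.ofReal_mul (by linarith),
      ← ENNReal.ofReal_mul (by linarith), ← ENNReal.ofReal_add
        (mul_nonneg (by linarith) (mul_nonneg hm0 (by positivity)))
        (mul_nonneg (by linarith) (by positivity)),
      ENNReal.ofReal_le_ofReal_iff
        (add_nonneg (mul_nonneg (by linarith) (mul_nonneg hm0 (by positivity)))
        (mul_nonneg (by linarith) (by positivity)))] at hb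
    apply ENNReal.ofReal_le_ofReal
    have hN : δ ^ (-θ) + r * m ≤ 1 + ε := by nlinarith
    have h3 : m ≤ (a * m + (1 - a)) * (1 + ε) := by
      have h4 : 0 ≤ a * m + (1 - a) := by nlinarith
      nlinarith [mul_le_mul_of_nonneg_left hN h4]
    have h5 : (1 + ε) * (2 + a) = 3 := by
      rw [hεd]; field_simp; ring
    -- m (1 - a (1 + ε)) ≤ (1 - a) (1 + ε)
    by_contra hcon
    push Not at hcon
    have h6 : m * (2 + a) ≤ (a * m + (1 - a)) * 3 := by
      have := mul_le_mul_of_nonneg_right h3 (by linarith : (0 : ℝ) ≤ 2 + a)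
      nlinarith
    nlinarith
  have ind : ∀ n : ℕ, ∫⁻ x, min (u θ x) (ENNReal.ofReal ((4 / 3 : ℝ) ^ n)) ∂μ ≤
      ENNReal.ofReal (3 / 2) := by
    intro n
    induction n with
    | zero =>
      calc ∫⁻ x, min (u θ x) (ENNReal.ofReal ((4 / 3 : ℝ) ^ 0)) ∂μ
          ≤ ∫⁻ x, ENNReal.ofReal ((4 / 3 : ℝ) ^ 0) ∂μ := lintegral_mono fun x => min_le_right _ _
        _ = ENNReal.ofReal 1 := by simp
        _ ≤ _ := ENNReal.ofReal_le_ofReal (by norm_num)
    | succ n ih =>
      apply key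
      · rw [← ENNReal.ofReal_one]
        exact ENNReal.ofReal_le_ofReal (one_le_pow₀ (by norm_num))
      · exact ENNReal.ofReal_ne_top
      · calc ∫⁻ x, min (u θ x) (ENNReal.ofReal ((4 / 3 : ℝ) ^ (n + 1))) ∂μ
            ≤ ∫⁻ x, ENNReal.ofReal (4 / 3) * min (u θ x) (ENNReal.ofReal ((4 / 3 : ℝ) ^ n)) ∂μ := by
              apply lintegral_mono
              intro x
              show min (u θ x) (ENNReal.ofReal ((4 / 3 : ℝ) ^ (n + 1))) ≤
                ENNReal.ofReal (4 / 3) * min (u θ x) (ENNReal.ofReal ((4 / 3 : ℝ) ^ n))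
              rw [pow_succ', ENNReal.ofReal_mul (by norm_num), mul_min]
              refine min_le_min_right _ ?_
              refine le_mul_of_one_le_left' ?_
              rw [← ENNReal.ofReal_one]
              exact ENNReal.ofReal_le_ofReal (by norm_num)
          _ = ENNReal.ofReal (4 / 3) * ∫⁻ x, min (u θ x) (ENNReal.ofReal ((4 / 3 : ℝ) ^ n)) ∂μ :=
              lintegral_const_mul _ (hmu.min measurable_const)
          _ ≤ ENNReal.ofReal (4 / 3) * ENNReal.ofReal (3 / 2) := by gcongr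
          _ = ENNReal.ofReal 2 := by
              rw [← ENNReal.ofReal_mul (by norm_num)]; norm_num
  have hlim : Tendsto (fun n : ℕ => ∫⁻ x, min (u θ x) (ENNReal.ofReal ((4 / 3 : ℝ) ^ n)) ∂μ)
      atTop (𝓝 (∫⁻ x, u θ x ∂μ)) := by
    apply lintegral_tendsto_of_tendsto_of_monotone
    · intro n
      exact (hmu.min measurable_const).aemeasurable
    · refine Eventually.of_forall fun x => ?_
      intro m n hmn
      exact min_le_min_left _ (ENNReal.ofReal_le_ofReal (pow_le_pow_right₀ (by norm_num) hmn))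
    · refine Eventually.of_forall fun x => ?_
      apply tendsto_const_nhds.congr'
      have h1 : Tendsto (fun n : ℕ => (4 / 3 : ℝ) ^ n) atTop atTop :=
        tendsto_pow_atTop_atTop_of_one_lt (by norm_num)
      filter_upwards [h1.eventually_ge_atTop ((1 - x) ^ (-θ))] with n hn
      rw [min_eq_left]
      exact ENNReal.ofReal_le_ofReal hn
  have hfin : ∫⁻ x, u θ x ∂μ ≤ ENNReal.ofReal (3 / 2) := le_of_tendsto' hlim ind
  exact ne_top_of_le_ne_top ENNReal.ofReal_ne_top hfin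

end Pool.Agent.T6.H62.AC
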