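import Pool.Agent.T6.H62.AC.Kit

set_option autoImplicit false

open MeasureTheory Complex Filter Topology
open scoped ENNReal

namespace Pool.Agent.T6.H62.AC

namespace ModMXB

lemma bnd (P : Measure (ℝ × ℝ)) (μ : Measure ℝ) [IsProbabilityMeasure μ] (s : ℝ) (hs : 0 < s)
    (c : ℝ × ℝ → ℝ) (U : ℝ × ℝ → ℝ → ℝ) (G : Set (ℝ × ℝ)) (hG : MeasurableSet G)
    (hc : ∀ p ∈ G, 0 < c p) (hU : ∀ p ∈ G, ∀ᵐ x ∂μ, 0 < U p x ∧ U p x ≤ 2 * c p) :
    ∫⁻ p in G, ENNReal.ofReal ((c p) ^ (-s)) ∂P ≤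
      ENNReal.ofReal (2 ^ s) * ∫⁻ p, ∫⁻ x, ENNReal.ofReal ((U p x) ^ (-s)) ∂μ ∂P := by
  calc ∫⁻ p in G, ENNReal.ofReal ((c p) ^ (-s)) ∂P
      ≤ ∫⁻ p in G, ENNReal.ofReal (2 ^ s) *
          ∫⁻ x, ENNReal.ofReal ((U p x) ^ (-s)) ∂μ ∂P := by
        apply setLIntegral_mono' hG
        intro p hp
        rw [← lintegral_const_mul' _ _ ENNReal.ofReal_ne_top]
        calc ENNReal.ofReal ((c p) ^ (-s)) = ∫⁻ _x, ENNReal.ofReal ((c p) ^ (-s)) ∂μ := by
              rw [lintegral_const, measure_univ, mul_one]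
          _ ≤ _ := by
              apply lintegral_mono_ae
              filter_upwards [hU p hp] with x hx
              rw [← ENNReal.ofReal_mul (by positivity)]
              apply ENNReal.ofReal_le_ofReal
              have hcp := hc p hp
              have h1 : (2 * c p) ^ (-s) ≤ (U p x) ^ (-s) :=
                Real.rpow_le_rpow_of_nonpos hx.1 hx.2 (by linarith)
              rw [Real.mul_rpow (by norm_num) hcp.le] at h1
              calc (c p) ^ (-s) = 2 ^ s * (2 ^ (-s) * (c p) ^ (-s)) := by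
                    rw [← mul_assoc, ← Real.rpow_add (by norm_num)]
                    simp
                _ ≤ _ := by
                    apply mul_le_mul_of_nonneg_left h1 (by positivity)
    _ ≤ ∫⁻ p, ENNReal.ofReal (2 ^ s) *
          ∫⁻ x, ENNReal.ofReal ((U p x) ^ (-s)) ∂μ ∂P := setLIntegral_le_lintegral _ _
    _ = _ := lintegral_const_mul' _ _ ENNReal.ofReal_ne_top

lemma char_bd (μ : Measure ℝ) (A B τ : ℝ) :
    ‖∫ x, cexp (τ * ((A + B * x : ℝ) : ℂ) * I) ∂μ‖ = ‖charFun μ (τ * B)‖ := by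
  rw [charFun_apply_real]
  have : ∀ x : ℝ, cexp (τ * ((A + B * x : ℝ) : ℂ) * I) =
      cexp ((τ * A : ℝ) * I) * cexp (((τ * B : ℝ) : ℂ) * x * I) := by
    intro x
    rw [← Complex.exp_add]
    congr 1
    push_cast
    ring
  simp_rw [this]
  rw [integral_const_mul, norm_mul, Complex.norm_exp_ofReal_mul_I, one_mul]

end ModMXB

open ModMXB in
theorem mxb : StmMXB := by
  intro μ κ s hμ hsupp hM hG
  haveI := hμ
  obtain ⟨C, hC, hG⟩ := hG
  have hs := hM.pos
  have hI0 := hM.m0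
  have hI1 := hM.m1
  set i0 := (∫⁻ x, ENNReal.ofReal (x ^ (-s)) ∂κ).toReal with hi0
  set i1 := (∫⁻ x, ENNReal.ofReal ((1 - x) ^ (-s)) ∂κ).toReal with hi1
  have hi0n : 0 ≤ i0 := ENNReal.toReal_nonneg
  have hi1n : 0 ≤ i1 := ENNReal.toReal_nonneg
  refine ⟨C + 2 ^ s * i0 + 2 ^ s * i1, by positivity, ?_⟩
  intro δ ε hδ hδ1 hε
  obtain ⟨P, hR, hP1, hP2⟩ := hG δ ε hδ hδ1 hε
  haveI := hR.prob
  have hGm : MeasurableSet {p : ℝ × ℝ | 0 ≤ p.1 ∧ 0 < p.2 ∧ p.1 + p.2 ≤ 1 ∧ p.2 ≤ δ} := by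
    apply MeasurableSet.inter
    · exact measurableSet_le measurable_const measurable_fst
    apply MeasurableSet.inter
    · exact measurableSet_lt measurable_const measurable_snd
    apply MeasurableSet.inter
    · exact measurableSet_le (measurable_fst.add measurable_snd) measurable_const
    · exact measurableSet_le measurable_snd measurable_const
  refine ⟨ℝ × ℝ, ℝ, inferInstance, inferInstance, P, μ, fun p x => p.1 + p.2 * x,
    fun p => p.1 + p.2 / 2, fun _ p => p.2,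
    {p : ℝ × ℝ | 0 ≤ p.1 ∧ 0 < p.2 ∧ p.1 + p.2 ≤ 1 ∧ p.2 ≤ δ}, hR.prob, hμ, by fun_prop,
    by fun_prop, fun _ => by fun_prop, hGm, ?_, hR.law, ?_, ?_, ?_, ?_⟩
  · refine le_trans ?_ hP1
    apply measure_mono_ae
    filter_upwards [hR.supp] with p hp hpG
    show δ < p.2
    by_contra hcon
    push Not at hcon
    exact hpG ⟨hp.1, hp.2.1, hp.2.2, hcon⟩
  · rintro p ⟨h1, h2, h3, h4⟩
    refine ⟨by positivity, ?_, fun _ => h2, ?_, ?_⟩
    · show p.1 + p.2 / 2 < 1
      linarith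
    · filter_upwards [hsupp] with x hx
      refine ⟨?_, ?_, ?_⟩
      · have := mul_nonneg h2.le hx.1.le
        linarith
      · have := mul_le_mul_of_nonneg_left hx.2.le h2.le
        linarith
      · show |p.1 + p.2 * x - (p.1 + p.2 / 2)| ≤ ((1 : ℕ) : ℝ) * δ
        rw [Nat.cast_one, one_mul, abs_le]
        constructor <;> nlinarith [hx.1, hx.2]
    · intro τ
      have h5 := char_bd μ p.1 p.2 τ
      show ‖∫ x, cexp (τ * ((p.1 + p.2 * x : ℝ) : ℂ) * I) ∂μ‖ ≤ _
      rw [h5, Fin.prod_univ_one]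
      have : 0 ≤ ((1 : ℕ) : ℝ) * ((1 : ℕ) : ℝ) * |τ| * δ ^ 2 := by positivity
      linarith
  · intro j
    refine le_trans (setLIntegral_le_lintegral _ _) (le_trans hP2 ?_)
    apply ENNReal.ofReal_le_ofReal
    apply mul_le_mul_of_nonneg_right _ (by positivity)
    have : 0 ≤ (2 : ℝ) ^ s * i0 + 2 ^ s * i1 := by positivity
    linarith
  · refine le_trans (bnd P μ s hs (fun p => p.1 + p.2 / 2) (fun p x => p.1 + p.2 * x) _ hGm
      ?_ ?_) ?_
    · rintro p ⟨h1, h2, h3, h4⟩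
      show 0 < p.1 + p.2 / 2
      positivity
    · rintro p ⟨h1, h2, h3, h4⟩
      filter_upwards [hsupp] with x hx
      constructor
      · have := mul_pos h2 hx.1
        linarith
      · have := mul_le_mul_of_nonneg_left hx.2.le h2.le
        linarith
    · rw [← hR.lint (g := fun x => ENNReal.ofReal (x ^ (-s))) (by fun_prop)]
      rw [← ENNReal.ofReal_toReal hI0, ← hi0, ← ENNReal.ofReal_mul (by positivity)]
      apply ENNReal.ofReal_le_ofReal
      have : 0 ≤ (2 : ℝ) ^ s * i1 := by positivity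
      linarith
  · refine le_trans (bnd P μ s hs (fun p => 1 - (p.1 + p.2 / 2))
      (fun p x => 1 - (p.1 + p.2 * x)) _ hGm ?_ ?_) ?_
    · rintro p ⟨h1, h2, h3, h4⟩
      show 0 < 1 - (p.1 + p.2 / 2)
      linarith
    · rintro p ⟨h1, h2, h3, h4⟩
      filter_upwards [hsupp] with x hx
      constructor
      · have := mul_lt_mul_of_pos_left hx.2 h2
        linarith
      · have := mul_pos h2 hx.1
        linarith
    · rw [← hR.lint (g := fun x => ENNReal.ofReal ((1 - x) ^ (-s))) (by fun_prop)]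
      rw [← ENNReal.ofReal_toReal hI1, ← hi1, ← ENNReal.ofReal_mul (by positivity)]
      apply ENNReal.ofReal_le_ofReal
      have : 0 ≤ (2 : ℝ) ^ s * i0 := by positivity
      linarith

end Pool.Agent.T6.H62.AC
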