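import Pool.Agent.T6.H62.AC.Aff

/-!
# Unweighted decoupling at a coproduct gate (helper71 for helper62)
-/

open MeasureTheory Complex Filter Topology
open scoped ENNReal

namespace Pool.Agent.T6.H62.AC

open Aff in
theorem mxj : StmMXJ := by
  intro μ κ₁ κ s k hμ hsupp hMom hGR hk hMx
  obtain ⟨C, hC, hGR⟩ := hGR
  obtain ⟨β, hβ, hMx⟩ := hMx
  have hs := hMom.pos
  set m : ℝ := 2 ^ s * (∫⁻ x, ENNReal.ofReal ((1 - x) ^ (-s)) ∂κ₁).toReal with hm
  have hm0 : 0 ≤ m := by positivity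
  refine ⟨(m + C + 1) * β, by positivity, ?_⟩
  intro δ ε hδ hδ1 hε
  obtain ⟨P, hR, hP1, hP2⟩ := hGR δ (ε / 2) hδ hδ1 (by linarith)
  obtain ⟨Ω, Ω', mΩ, mΩ', V, Q, X, c, b, G, hV, hQ, hX, hc, hb, hG, hGc, hκ, hel, hbm, hcm, hcm'⟩ :=
    hMx δ (ε / 2) hδ hδ1 (by linarith)
  have hP := hR.prob
  have hXp : Measurable (fun z : ((ℝ × ℝ) × Ω) × (ℝ × Ω') => X z.1.2 z.2.2) :=
    hX.comp (by fun_prop : Measurable (fun z : ((ℝ × ℝ) × Ω) × (ℝ × Ω') => (z.1.2, z.2.2)))
  have hδs : 0 < δ ^ (-(11 / 10 * s)) := Real.rpow_pos_of_pos hδ _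
  have hδs1 : 1 ≤ δ ^ (-(11 / 10 * s)) :=
    Real.one_le_rpow_of_pos_of_le_one_of_nonpos hδ hδ1 (by linarith)
  -- moments of `1 - ζ`
  have hz : ∫⁻ r in A₀ δ, ENNReal.ofReal ((1 - (r.1 + r.2 / 2)) ^ (-s)) ∂P ≤
      ENNReal.ofReal m := by
    refine cent hsupp hR hs (fun x => 1 - x) (fun x => 1 - x) (by fun_prop) ?_ hMom.m1
    intro r hr ξ h0 h1
    have h2 : r.2 * ξ < r.2 := mul_lt_of_lt_one_right hr.2.1 h1
    have h3 : 0 < r.2 * ξ := mul_pos hr.2.1 h0
    have h4 := hr.2.2.1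
    have h5 := hr.1
    constructor
    · linarith
    · linarith
  have hone : ∫⁻ r in A₀ δ, (1 : ℝ≥0∞) ∂P ≤ ENNReal.ofReal 1 := by
    rw [setLIntegral_const, one_mul, ENNReal.ofReal_one]
    exact prob_le_one
  have hBm : ∫⁻ r in A₀ δ, ENNReal.ofReal (r.2 ^ (-s)) ∂P ≤
      ENNReal.ofReal (C * δ ^ (-(11 / 10 * s))) :=
    (lintegral_mono' Measure.restrict_le_self le_rfl).trans hP2
  refine ⟨(ℝ × ℝ) × Ω, ℝ × Ω', inferInstance, inferInstance, P.prod V, μ.prod Q,
    fun z z' => (z.1.1 + z.1.2 * z'.1) + (1 - (z.1.1 + z.1.2 * z'.1)) * X z.2 z'.2,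
    fun z => (z.1.1 + z.1.2 / 2) + (1 - (z.1.1 + z.1.2 / 2)) * c z.2,
    fun j z => (Fin.cons (z.1.2 * (1 - c z.2)) (fun i => (1 - (z.1.1 + z.1.2 / 2)) * b i z.2) :
      Fin (k + 1) → ℝ) j, A₀ δ ×ˢ G, inferInstance, inferInstance, ?_, ?_, ?_,
    (A₀_meas δ).prod hG, ?_, ?_, ?_, ?_, ?_, ?_⟩
  · fun_prop
  · fun_prop
  · intro j
    refine Fin.cases ?_ (fun i => ?_) j
    · simp only [Fin.cons_zero]
      fun_prop
    · simp only [Fin.cons_succ]
      have := hb i
      fun_prop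
  · exact compl_prod P V hε (A₀_compl hR hP1) hGc
  · exact law_gate (g := fun u x => u + (1 - u) * x) (by fun_prop) hX hR hκ
  · rintro ⟨r, ω⟩ ⟨hr, hω⟩
    obtain ⟨c0, c1, hb0, hXc, hT⟩ := hel ω hω
    have r1 := hr.1
    have r2 := hr.2.1
    have r3 := hr.2.2.1
    have r4 := hr.2.2.2
    have hζ : r.1 + r.2 / 2 < 1 := by linarith
    have hζ0 : 0 < r.1 + r.2 / 2 := by linarith
    refine ⟨?_, ?_, ?_, ?_, ?_⟩
    · have := mul_pos (sub_pos.2 hζ) c0
      simp only
      linarith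
    · have := mul_pos (sub_pos.2 hζ) (sub_pos.2 c1)
      simp only
      nlinarith
    · intro j
      refine Fin.cases ?_ (fun i => ?_) j
      · simp only [Fin.cons_zero]
        exact mul_pos r2 (sub_pos.2 c1)
      · simp only [Fin.cons_succ]
        exact mul_pos (sub_pos.2 hζ) (hb0 i)
    · filter_upwards [(Measure.quasiMeasurePreserving_fst (μ := μ) (ν := Q)).ae hsupp,
        (Measure.quasiMeasurePreserving_snd (μ := μ) (ν := Q)).ae hXc] with z' h3 h4
      obtain ⟨h5, h6⟩ := Hang.phi_mem ⟨r1, r2, r3⟩ h3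
      have h7 := mul_nonneg (sub_nonneg.2 h6) h4.1
      have h8 := mul_nonneg (sub_nonneg.2 h6) (sub_nonneg.2 h4.2.1)
      refine ⟨by linarith, by nlinarith, ?_⟩
      have e : (r.1 + r.2 * z'.1) + (1 - (r.1 + r.2 * z'.1)) * X ω z'.2 -
          ((r.1 + r.2 / 2) + (1 - (r.1 + r.2 / 2)) * c ω) =
          r.2 * (z'.1 - 1 / 2) * (1 - X ω z'.2) + (1 - (r.1 + r.2 / 2)) * (X ω z'.2 - c ω) := by
        ring
      rw [e]
      refine (abs_add_le _ _).trans ?_
      rw [abs_mul, abs_mul, abs_mul, abs_of_pos r2, abs_of_pos (sub_pos.2 hζ),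
        abs_of_nonneg (sub_nonneg.2 h4.2.1)]
      have h9 : |z'.1 - 1 / 2| ≤ 1 := by
        rw [abs_le]
        exact ⟨by linarith [h3.1], by linarith [h3.2]⟩
      have h10 : r.2 * |z'.1 - 1 / 2| * (1 - X ω z'.2) ≤ δ := by
        have a1 : r.2 * |z'.1 - 1 / 2| ≤ r.2 := mul_le_of_le_one_right r2.le h9
        have a2 : r.2 * |z'.1 - 1 / 2| * (1 - X ω z'.2) ≤ r.2 * |z'.1 - 1 / 2| :=
          mul_le_of_le_one_right (mul_nonneg r2.le (abs_nonneg _)) (by linarith [h4.1])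
        linarith
      have h11 : (1 - (r.1 + r.2 / 2)) * |X ω z'.2 - c ω| ≤ k * δ :=
        (mul_le_of_le_one_left (abs_nonneg _) (by linarith)).trans h4.2.2
      push_cast
      linarith
    · intro τ
      have h1 := transform μ hsupp Q (X ω) (hX.comp (measurable_prodMk_left (x := ω))) (c ω) δ r.2
        (r.1 + r.2 / 2) (1 - (r.1 + r.2 / 2)) 1 (-1) k (fun j => b j ω) hk hδ r2 r4
        (by linarith) (by linarith) (by norm_num) (hXc.mono fun z h => h.2.2) hT τ
      rw [Fin.prod_univ_succ]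
      simp only [Fin.cons_zero, Fin.cons_succ]
      have e2 : (1 : ℝ) + -1 * c ω = 1 - c ω := by ring
      rw [e2] at h1
      have e1 : ∀ z : ℝ × Ω', ((r.1 + r.2 / 2 + (1 - (r.1 + r.2 / 2)) * X ω z.2 +
          r.2 * (z.1 - 1 / 2) * (1 + -1 * X ω z.2) : ℝ) : ℂ) =
          (((r.1 + r.2 * z.1) + (1 - (r.1 + r.2 * z.1)) * X ω z.2 : ℝ) : ℂ) := by
        intro z
        congr 1
        ring
      simp only [e1] at h1
      push_cast at h1 ⊢
      exact h1
  · intro j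
    refine Fin.cases ?_ (fun i => ?_) j
    · simp only [Fin.cons_zero]
      refine (prodInt P V (A₀_meas δ) hG (f := fun r => ENNReal.ofReal (r.2 ^ (-s)))
        (h := fun ω => ENNReal.ofReal ((1 - c ω) ^ (-s))) (by fun_prop) (by fun_prop) ?_
        (by positivity) hBm hcm').trans (ENNReal.ofReal_le_ofReal ?_)
      · intro r hr ω hω
        rw [← ENNReal.ofReal_mul (Real.rpow_nonneg hr.2.1.le _),
          Real.mul_rpow hr.2.1.le (sub_nonneg.2 (hel ω hω).2.1.le)]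
      · have : 0 ≤ (m + 1) * β * δ ^ (-(11 / 10 * s)) := by positivity
        nlinarith
    · simp only [Fin.cons_succ]
      have hbi := hb i
      refine (prodInt P V (A₀_meas δ) hG
        (f := fun r => ENNReal.ofReal ((1 - (r.1 + r.2 / 2)) ^ (-s)))
        (h := fun ω => ENNReal.ofReal ((b i ω) ^ (-s))) (by fun_prop) (by fun_prop) ?_
        hm0 hz (hbm i)).trans (ENNReal.ofReal_le_ofReal ?_)
      · intro r hr ω hω
        have hζ : 0 < 1 - (r.1 + r.2 / 2) := by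
          have := hr.2.1
          have := hr.2.2.1
          linarith
        rw [← ENNReal.ofReal_mul (Real.rpow_nonneg hζ.le _),
          Real.mul_rpow hζ.le ((hel ω hω).2.2.1 i).le]
      · have : 0 ≤ (C + 1) * β * δ ^ (-(11 / 10 * s)) := by positivity
        nlinarith
  · refine (prodInt P V (A₀_meas δ) hG (f := fun _ => 1)
      (h := fun ω => ENNReal.ofReal ((c ω) ^ (-s))) (by fun_prop) (by fun_prop) ?_
      zero_le_one hone hcm).trans (ENNReal.ofReal_le_ofReal ?_)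
    · intro r hr ω hω
      rw [one_mul]
      refine ENNReal.ofReal_le_ofReal
        (Real.rpow_le_rpow_of_nonpos (hel ω hω).1 ?_ (by linarith))
      have hζ : 0 < r.1 + r.2 / 2 := by
        have := hr.2.1
        have := hr.1
        linarith
      have := mul_nonneg hζ.le (sub_nonneg.2 (hel ω hω).2.1.le)
      simp only
      nlinarith
    · have : 0 ≤ (m + C) * β := by positivity
      linarith
  · refine (prodInt P V (A₀_meas δ) hG
      (f := fun r => ENNReal.ofReal ((1 - (r.1 + r.2 / 2)) ^ (-s)))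
      (h := fun ω => ENNReal.ofReal ((1 - c ω) ^ (-s))) (by fun_prop) (by fun_prop) ?_
      hm0 hz hcm').trans (ENNReal.ofReal_le_ofReal ?_)
    · intro r hr ω hω
      have hζ : 0 < 1 - (r.1 + r.2 / 2) := by
        have := hr.2.1
        have := hr.2.2.1
        linarith
      rw [← ENNReal.ofReal_mul (Real.rpow_nonneg hζ.le _),
        ← Real.mul_rpow hζ.le (sub_nonneg.2 (hel ω hω).2.1.le)]
      refine le_of_eq ?_
      congr 2
      simp only
      ring
    · have : 0 ≤ (C + 1) * β := by positivity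
      linarith

end Pool.Agent.T6.H62.AC
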