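import Pool.Agent.T6.H62.AC.Kit

/-!
Project AC, module MXM (helper54): hanging a leaf on a product gate.
-/

open MeasureTheory Complex Filter Topology
open scoped ENNReal

namespace Pool.Agent.T6.H62.AC

namespace ModMXM

section law

variable {Ω Ω' : Type} [MeasurableSpace Ω] [MeasurableSpace Ω']

/-- the law of a gate -/
theorem law {μ κ₁ κ : Measure ℝ} [IsProbabilityMeasure μ] {P1 : Measure (ℝ × ℝ)}
    (h1 : Rep κ₁ μ P1) {P : Measure Ω} {Q : Measure Ω'} [IsProbabilityMeasure P]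
    [IsProbabilityMeasure Q] {X : Ω → Ω' → ℝ} (hX : Measurable (fun z : Ω × Ω' => X z.1 z.2))
    (hκ : κ = (P.prod Q).map (fun z : Ω × Ω' => X z.1 z.2)) {m : ℝ × ℝ → ℝ} (hm : Measurable m) :
    (κ₁.prod κ).map m = ((P1.prod P).prod (μ.prod Q)).map
      (fun z : ((ℝ × ℝ) × Ω) × (ℝ × Ω') =>
        m (z.1.1.1 + z.1.1.2 * z.2.1, X z.1.2 z.2.2)) := by
  have := h1.prob
  have : IsProbabilityMeasure κ := by
    rw [hκ]; exact Measure.isProbabilityMeasure_map hX.aemeasurable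
  have hX2 : Measurable (fun z : ((ℝ × ℝ) × Ω) × (ℝ × Ω') => X z.1.2 z.2.2) :=
    hX.comp ((measurable_snd.comp measurable_fst).prodMk (measurable_snd.comp measurable_snd))
  have hm2 : Measurable (fun z : ((ℝ × ℝ) × Ω) × (ℝ × Ω') =>
      m (z.1.1.1 + z.1.1.2 * z.2.1, X z.1.2 z.2.2)) :=
    hm.comp ((by fun_prop : Measurable (fun z : ((ℝ × ℝ) × Ω) × (ℝ × Ω') =>
      z.1.1.1 + z.1.1.2 * z.2.1)).prodMk hX2)
  refine Measure.ext_of_lintegral _ fun f hf => ?_
  have hfm : Measurable (fun z : ℝ × ℝ => f (m z)) := hf.comp hm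
  have hfm2 : Measurable (fun z : ((ℝ × ℝ) × Ω) × (ℝ × Ω') =>
      f (m (z.1.1.1 + z.1.1.2 * z.2.1, X z.1.2 z.2.2))) := hf.comp hm2
  rw [lintegral_map hf hm, lintegral_map hf hm2, lintegral_prod _ hfm.aemeasurable,
    lintegral_prod _ hfm2.aemeasurable]
  rw [h1.lint (g := fun x => ∫⁻ y, f (m (x, y)) ∂κ) hfm.lintegral_prod_right']
  rw [lintegral_prod _ hfm2.lintegral_prod_right'.aemeasurable]
  refine lintegral_congr fun p => ?_
  have e1 : ∀ u : ℝ, ∫⁻ x, f (m (u, x)) ∂κ = ∫⁻ ω, ∫⁻ ω', f (m (u, X ω ω')) ∂Q ∂P := by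
    intro u
    have hu : Measurable (fun x : ℝ => f (m (u, x))) := hfm.comp (by fun_prop)
    have hu2 : Measurable (fun z : Ω × Ω' => f (m (u, X z.1 z.2))) := hu.comp hX
    rw [hκ, lintegral_map hu hX, lintegral_prod _ hu2.aemeasurable]
  simp only [e1]
  have hG : Measurable (fun z : (ℝ × Ω) × Ω' => f (m (p.1 + p.2 * z.1.1, X z.1.2 z.2))) := by
    have hX3 : Measurable (fun z : (ℝ × Ω) × Ω' => X z.1.2 z.2) :=
      hX.comp ((measurable_snd.comp measurable_fst).prodMk measurable_snd)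
    exact hfm.comp ((by fun_prop : Measurable (fun z : (ℝ × Ω) × Ω' =>
      p.1 + p.2 * z.1.1)).prodMk hX3)
  rw [lintegral_lintegral_swap (f := fun ξ ω => ∫⁻ ω', f (m (p.1 + p.2 * ξ, X ω ω')) ∂Q)
    hG.lintegral_prod_right'.aemeasurable]
  refine lintegral_congr fun ω => ?_
  have hH : Measurable (fun z : ℝ × Ω' => f (m (p.1 + p.2 * z.1, X ω z.2))) := by
    have hX3 : Measurable (fun z : ℝ × Ω' => X ω z.2) :=
      hX.comp (measurable_const.prodMk measurable_snd)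
    exact hfm.comp ((by fun_prop : Measurable (fun z : ℝ × Ω' => p.1 + p.2 * z.1)).prodMk hX3)
  exact (lintegral_prod _ hH.aemeasurable).symm

end law

theorem exp_diff (a b : ℝ) : ‖cexp (a * I) - cexp (b * I)‖ ≤ |a - b| := by
  have h1 : cexp (a * I) - cexp (b * I) = cexp (b * I) * (cexp (I * ((a - b : ℝ) : ℂ)) - 1) := by
    rw [mul_sub, mul_one, ← Complex.exp_add]
    congr 2
    push_cast
    ring
  rw [h1, norm_mul, Complex.norm_exp_ofReal_mul_I, one_mul]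
  exact Real.norm_exp_I_mul_ofReal_sub_one_le

/-- replacing the phase on a product space by a separated phase -/
theorem trans {Ω' : Type} [MeasurableSpace Ω'] {μ : Measure ℝ} [IsProbabilityMeasure μ]
    {Q : Measure Ω'} [IsProbabilityMeasure Q] {F : ℝ × Ω' → ℝ} (hF : Measurable F)
    {Y : Ω' → ℝ} (hY : Measurable Y) {a b e : ℝ}
    (h : ∀ᵐ z ∂(μ.prod Q), |F z - (a * z.1 + b + Y z.2)| ≤ e) :
    ‖∫ z, cexp (((F z : ℝ) : ℂ) * I) ∂(μ.prod Q)‖ ≤
      ‖charFun μ a‖ * ‖∫ ω, cexp (((Y ω : ℝ) : ℂ) * I) ∂Q‖ + e := by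
  have i1 : Integrable (fun z => cexp (((F z : ℝ) : ℂ) * I)) (μ.prod Q) :=
    integrable_of_bdd _ (by fun_prop) (B := 1) fun z => by
      rw [Complex.norm_exp_ofReal_mul_I]
  have i2 : Integrable (fun z : ℝ × Ω' => cexp (((a * z.1 + b + Y z.2 : ℝ) : ℂ) * I))
      (μ.prod Q) :=
    integrable_of_bdd _ (by fun_prop) (B := 1) fun z => by
      rw [Complex.norm_exp_ofReal_mul_I]
  have h1 : ∫ z, cexp (((F z : ℝ) : ℂ) * I) ∂(μ.prod Q) =
      (∫ z, cexp (((F z : ℝ) : ℂ) * I) ∂(μ.prod Q) -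
        ∫ z, cexp (((a * z.1 + b + Y z.2 : ℝ) : ℂ) * I) ∂(μ.prod Q)) +
      ∫ z, cexp (((a * z.1 + b + Y z.2 : ℝ) : ℂ) * I) ∂(μ.prod Q) := by ring
  have h2 : ‖∫ z, cexp (((F z : ℝ) : ℂ) * I) ∂(μ.prod Q) -
        ∫ z, cexp (((a * z.1 + b + Y z.2 : ℝ) : ℂ) * I) ∂(μ.prod Q)‖ ≤ e := by
    rw [← integral_sub i1 i2]
    refine (norm_integral_le_of_norm_le_const (C := e) ?_).trans (by simp)
    filter_upwards [h] with z hz
    exact (exp_diff _ _).trans hz
  have h3 : ∫ z, cexp (((a * z.1 + b + Y z.2 : ℝ) : ℂ) * I) ∂(μ.prod Q) =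
      cexp (b * I) * (charFun μ a * ∫ ω, cexp (((Y ω : ℝ) : ℂ) * I) ∂Q) := by
    rw [charFun_apply_real, ← integral_prod_mul, ← integral_const_mul]
    refine integral_congr_ae (Eventually.of_forall fun z => ?_)
    simp only
    rw [← Complex.exp_add, ← Complex.exp_add]
    congr 1
    push_cast
    ring
  have h4 : ‖∫ z, cexp (((a * z.1 + b + Y z.2 : ℝ) : ℂ) * I) ∂(μ.prod Q)‖ =
      ‖charFun μ a‖ * ‖∫ ω, cexp (((Y ω : ℝ) : ℂ) * I) ∂Q‖ := by
    rw [h3, norm_mul, Complex.norm_exp_ofReal_mul_I, one_mul, norm_mul]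
  rw [h1, add_comm (‖charFun μ a‖ * _)]
  refine (norm_add_le _ _).trans ?_
  rw [h4]
  exact add_le_add h2 le_rfl

end ModMXM

open ModMXM in
theorem mxm : StmMXM := by
  intro μ κ₁ κ s k hμp hμ hMom hRep hk hκ
  obtain ⟨C, hC, hRep⟩ := hRep
  obtain ⟨β, hβ, hκ⟩ := hκ
  have hs : 0 < s := hMom.pos
  set m0 : ℝ := (∫⁻ x, ENNReal.ofReal (x ^ (-s)) ∂κ₁).toReal with hm0
  have hm0' : ∫⁻ x, ENNReal.ofReal (x ^ (-s)) ∂κ₁ = ENNReal.ofReal m0 :=
    (ENNReal.ofReal_toReal hMom.m0).symm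
  have hm00 : 0 ≤ m0 := ENNReal.toReal_nonneg
  have h2s : (0 : ℝ) < 2 ^ s := Real.rpow_pos_of_pos two_pos _
  set β' : ℝ := C * β + 2 ^ s * m0 * β + β with hβ'
  have hβ'0 : 0 < β' := by positivity
  refine ⟨β', hβ'0, ?_⟩
  intro δ ε hδ hδ1 hε
  obtain ⟨P1, hP1, hP1δ, hP1s⟩ := hRep δ (ε / 2) hδ hδ1 (by positivity)
  obtain ⟨Ω, Ω', mΩ, mΩ', P, Q, X, c, b, G, hP, hQ, hX, hc, hb, hG, hGc, hlaw, hall, hbm, hcm,
    hcm'⟩ := hκ δ (ε / 2) hδ hδ1 (by positivity)
  have := hP1.prob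
  set S : Set (ℝ × ℝ) := {p | 0 ≤ p.1 ∧ 0 < p.2 ∧ p.1 + p.2 ≤ 1 ∧ p.2 ≤ δ} with hS
  have hSm : MeasurableSet S := by
    have e1 : MeasurableSet {p : ℝ × ℝ | 0 ≤ p.1} := measurableSet_le (by fun_prop) (by fun_prop)
    have e2 : MeasurableSet {p : ℝ × ℝ | 0 < p.2} := measurableSet_lt (by fun_prop) (by fun_prop)
    have e3 : MeasurableSet {p : ℝ × ℝ | p.1 + p.2 ≤ 1} :=
      measurableSet_le (by fun_prop) (by fun_prop)
    have e4 : MeasurableSet {p : ℝ × ℝ | p.2 ≤ δ} := measurableSet_le (by fun_prop) (by fun_prop)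
    exact e1.inter (e2.inter (e3.inter e4))
  have hSc : P1 Sᶜ ≤ ENNReal.ofReal (ε / 2) := by
    refine le_trans ?_ hP1δ
    refine measure_mono_ae ?_
    filter_upwards [hP1.supp] with p hp hpS
    by_contra hcon
    exact hpS ⟨hp.1, hp.2.1, hp.2.2, not_lt.1 hcon⟩
  -- the moment of zeta
  have hzeta : ∫⁻ p in S, ENNReal.ofReal ((p.1 + p.2 / 2) ^ (-s)) ∂P1 ≤
      ENNReal.ofReal (2 ^ s * m0) := by
    have h1 : ∀ p ∈ S, ENNReal.ofReal ((p.1 + p.2 / 2) ^ (-s)) ≤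
        ENNReal.ofReal (2 ^ s) * ∫⁻ x, ENNReal.ofReal ((p.1 + p.2 * x) ^ (-s)) ∂μ := by
      intro p hp
      obtain ⟨hp1, hp2, hp3, hp4⟩ := hp
      rw [← lintegral_const_mul' _ _ ENNReal.ofReal_ne_top]
      calc ENNReal.ofReal ((p.1 + p.2 / 2) ^ (-s)) =
          ∫⁻ _x, ENNReal.ofReal ((p.1 + p.2 / 2) ^ (-s)) ∂μ := by
            rw [lintegral_const, measure_univ, mul_one]
        _ ≤ _ := by
          refine lintegral_mono_ae ?_
          filter_upwards [hμ] with x hx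
          rw [← ENNReal.ofReal_mul h2s.le]
          apply ENNReal.ofReal_le_ofReal
          have hU : 0 < p.1 + p.2 * x := by
            have := mul_pos hp2 hx.1
            linarith
          have hU2 : p.1 + p.2 * x ≤ 2 * (p.1 + p.2 / 2) := by
            have := mul_le_mul_of_nonneg_left hx.2.le hp2.le
            linarith
          have hz : 0 < p.1 + p.2 / 2 := by linarith
          have h3 : (2 * (p.1 + p.2 / 2)) ^ (-s) ≤ (p.1 + p.2 * x) ^ (-s) :=
            Real.rpow_le_rpow_of_nonpos hU hU2 (by linarith)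
          have h4 : (p.1 + p.2 / 2) ^ (-s) = 2 ^ s * (2 * (p.1 + p.2 / 2)) ^ (-s) := by
            rw [Real.mul_rpow two_pos.le hz.le, ← mul_assoc, ← Real.rpow_add two_pos]
            simp
          rw [h4]
          exact mul_le_mul_of_nonneg_left h3 h2s.le
    calc ∫⁻ p in S, ENNReal.ofReal ((p.1 + p.2 / 2) ^ (-s)) ∂P1 ≤
        ∫⁻ p in S, ENNReal.ofReal (2 ^ s) *
          ∫⁻ x, ENNReal.ofReal ((p.1 + p.2 * x) ^ (-s)) ∂μ ∂P1 :=
        setLIntegral_mono' hSm h1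
      _ ≤ ∫⁻ p, ENNReal.ofReal (2 ^ s) *
          ∫⁻ x, ENNReal.ofReal ((p.1 + p.2 * x) ^ (-s)) ∂μ ∂P1 := setLIntegral_le_lintegral _ _
      _ = ENNReal.ofReal (2 ^ s) * ENNReal.ofReal m0 := by
        rw [lintegral_const_mul' _ _ ENNReal.ofReal_ne_top, ← hm0',
          hP1.lint (g := fun x => ENNReal.ofReal (x ^ (-s))) (by fun_prop)]
      _ = ENNReal.ofReal (2 ^ s * m0) := (ENNReal.ofReal_mul h2s.le).symm
  have hXm : Measurable (fun z : ((ℝ × ℝ) × Ω) × (ℝ × Ω') =>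
      (z.1.1.1 + z.1.1.2 * z.2.1) * X z.1.2 z.2.2) := by
    have hX2 : Measurable (fun z : ((ℝ × ℝ) × Ω) × (ℝ × Ω') => X z.1.2 z.2.2) :=
      hX.comp ((measurable_snd.comp measurable_fst).prodMk (measurable_snd.comp measurable_snd))
    exact (by fun_prop : Measurable (fun z : ((ℝ × ℝ) × Ω) × (ℝ × Ω') =>
      z.1.1.1 + z.1.1.2 * z.2.1)).mul hX2
  have hpr : ∀ f : (ℝ × ℝ) × Ω → ℝ≥0∞, ∀ f₁ : ℝ × ℝ → ℝ≥0∞, ∀ f₂ : Ω → ℝ≥0∞, Measurable f₁ →
      Measurable f₂ → (∀ z ∈ S ×ˢ G, f z ≤ f₁ z.1 * f₂ z.2) →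
      ∫⁻ z in S ×ˢ G, f z ∂(P1.prod P) ≤ (∫⁻ p in S, f₁ p ∂P1) * ∫⁻ ω in G, f₂ ω ∂P := by
    intro f f₁ f₂ hf₁ hf₂ hle
    refine (setLIntegral_mono' (hSm.prod hG) hle).trans (le_of_eq ?_)
    rw [← Measure.prod_restrict, lintegral_prod_mul hf₁.aemeasurable hf₂.aemeasurable]
  refine ⟨(ℝ × ℝ) × Ω, ℝ × Ω', inferInstance, inferInstance, P1.prod P, μ.prod Q,
    fun z w => (z.1.1 + z.1.2 * w.1) * X z.2 w.2, fun z => (z.1.1 + z.1.2 / 2) * c z.2,
    Fin.cons (fun z => z.1.2 * c z.2) (fun j z => (z.1.1 + z.1.2 / 2) * b j z.2), S ×ˢ G,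
    inferInstance, inferInstance, hXm, ?_, ?_, hSm.prod hG, ?_, ?_, ?_, ?_, ?_, ?_⟩
  · exact (by fun_prop : Measurable (fun z : (ℝ × ℝ) × Ω => z.1.1 + z.1.2 / 2)).mul
      (hc.comp measurable_snd)
  · intro j
    refine Fin.cases ?_ (fun j => ?_) j
    · simp only [Fin.cons_zero]
      exact (by fun_prop : Measurable (fun z : (ℝ × ℝ) × Ω => z.1.2)).mul
        (hc.comp measurable_snd)
    · simp only [Fin.cons_succ]
      exact (by fun_prop : Measurable (fun z : (ℝ × ℝ) × Ω => z.1.1 + z.1.2 / 2)).mul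
        ((hb j).comp measurable_snd)
  · have h1 : (S ×ˢ G)ᶜ ⊆ (Sᶜ ×ˢ Set.univ) ∪ (Set.univ ×ˢ Gᶜ) := by
      intro z hz
      by_cases h : z.1 ∈ S
      · right
        refine ⟨Set.mem_univ _, fun hg => hz ⟨h, hg⟩⟩
      · left
        exact ⟨h, Set.mem_univ _⟩
    calc (P1.prod P) (S ×ˢ G)ᶜ ≤ (P1.prod P) ((Sᶜ ×ˢ Set.univ) ∪ (Set.univ ×ˢ Gᶜ)) :=
        measure_mono h1
      _ ≤ (P1.prod P) (Sᶜ ×ˢ Set.univ) + (P1.prod P) (Set.univ ×ˢ Gᶜ) := measure_union_le _ _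
      _ = P1 Sᶜ + P Gᶜ := by
        rw [Measure.prod_prod, Measure.prod_prod, measure_univ, measure_univ, mul_one, one_mul]
      _ ≤ ENNReal.ofReal (ε / 2) + ENNReal.ofReal (ε / 2) := add_le_add hSc hGc
      _ = ENNReal.ofReal ε := by
        rw [← ENNReal.ofReal_add (by positivity) (by positivity), add_halves]
  · exact law hP1 hX hlaw (m := fun p : ℝ × ℝ => p.1 * p.2) (by fun_prop)
  · rintro ⟨⟨A, B⟩, ω⟩ ⟨⟨hA, hB, hAB, hBδ⟩, hω⟩
    simp only at hA hB hAB hBδ hω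
    obtain ⟨hc0, hc1, hb0, hXc, hchar⟩ := hall ω hω
    have hz0 : 0 < A + B / 2 := by linarith
    have hz1 : A + B / 2 < 1 := by linarith
    have hXω : Measurable (X ω) := hX.comp (measurable_const.prodMk measurable_id)
    have hae : ∀ᵐ w ∂(μ.prod Q), (0 < w.1 ∧ w.1 < 1) ∧
        (0 ≤ X ω w.2 ∧ X ω w.2 ≤ 1 ∧ |X ω w.2 - c ω| ≤ k * δ) :=
      (Measure.quasiMeasurePreserving_fst.ae hμ).and
        (Measure.quasiMeasurePreserving_snd.ae hXc)
    refine ⟨mul_pos hz0 hc0, ?_, ?_, ?_, ?_⟩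
    · simp only
      nlinarith
    · intro j
      refine Fin.cases ?_ (fun j => ?_) j
      · simp only [Fin.cons_zero]
        exact mul_pos hB hc0
      · simp only [Fin.cons_succ]
        exact mul_pos hz0 (hb0 j)
    · filter_upwards [hae] with w hw
      obtain ⟨⟨hw1, hw2⟩, hX0, hX1, hXd⟩ := hw
      have hU0 : 0 ≤ A + B * w.1 := by positivity
      have hU1 : A + B * w.1 ≤ 1 := by nlinarith
      refine ⟨mul_nonneg hU0 hX0, ?_, ?_⟩
      · calc (A + B * w.1) * X ω w.2 ≤ 1 * 1 := mul_le_mul hU1 hX1 hX0 zero_le_one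
          _ = 1 := one_mul 1
      · have e1 : (A + B * w.1) * X ω w.2 - (A + B / 2) * c ω =
            (B * (w.1 - 1 / 2)) * X ω w.2 + (A + B / 2) * (X ω w.2 - c ω) := by ring
        rw [e1]
        refine (abs_add_le _ _).trans ?_
        rw [abs_mul, abs_mul, abs_mul, abs_of_pos hB, abs_of_nonneg hX0, abs_of_pos hz0]
        have e2 : |w.1 - 1 / 2| ≤ 1 := by
          rw [abs_le]; constructor <;> linarith
        have e3 : B * |w.1 - 1 / 2| * X ω w.2 ≤ δ * 1 * 1 := by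
          refine mul_le_mul (mul_le_mul hBδ e2 (abs_nonneg _) hδ.le) hX1 hX0 (by positivity)
        have e4 : (A + B / 2) * |X ω w.2 - c ω| ≤ 1 * (k * δ) :=
          mul_le_mul hz1.le hXd (abs_nonneg _) zero_le_one
        push_cast
        linarith
    · intro τ
      simp only
      have hF : Measurable (fun w : ℝ × Ω' => τ * ((A + B * w.1) * X ω w.2)) := by
        have hX2 : Measurable (fun w : ℝ × Ω' => X ω w.2) := hXω.comp measurable_snd
        exact ((by fun_prop : Measurable (fun w : ℝ × Ω' => A + B * w.1)).mul hX2).const_mul τ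
      have hY : Measurable (fun w : Ω' => τ * (A + B / 2) * X ω w) := hXω.const_mul _
      have hle := trans (μ := μ) (Q := Q) hF hY (a := τ * (B * c ω)) (b := -(τ * (B * c ω) / 2))
        (e := k * |τ| * δ ^ 2) (by
          filter_upwards [hae] with w hw
          obtain ⟨⟨hw1, hw2⟩, hX0, hX1, hXd⟩ := hw
          have e1 : τ * ((A + B * w.1) * X ω w.2) - (τ * (B * c ω) * w.1 +
              -(τ * (B * c ω) / 2) + τ * (A + B / 2) * X ω w.2) =
              τ * ((B * (w.1 - 1 / 2)) * (X ω w.2 - c ω)) := by ring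
          rw [e1, abs_mul, abs_mul, abs_mul, abs_of_pos hB]
          have e2 : |w.1 - 1 / 2| ≤ 1 := by
            rw [abs_le]; constructor <;> linarith
          have e3 : B * |w.1 - 1 / 2| * |X ω w.2 - c ω| ≤ δ * 1 * (k * δ) :=
            mul_le_mul (mul_le_mul hBδ e2 (abs_nonneg _) hδ.le) hXd (abs_nonneg _)
              (by positivity)
          calc |τ| * (B * |w.1 - 1 / 2| * |X ω w.2 - c ω|) ≤ |τ| * (δ * 1 * (k * δ)) :=
              mul_le_mul_of_nonneg_left e3 (abs_nonneg _)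
            _ = k * |τ| * δ ^ 2 := by ring)
      have hQ1 := hchar (τ * (A + B / 2))
      have hcf : ‖charFun μ (τ * (B * c ω))‖ ≤ 1 := norm_charFun_le_one _
      have e5 : ∫ w, cexp (((τ * ((A + B * w.1) * X ω w.2) : ℝ) : ℂ) * I) ∂(μ.prod Q) =
          ∫ w : ℝ × Ω', cexp ((τ : ℂ) * (((A + B * w.1) * X ω w.2 : ℝ) : ℂ) * I)
            ∂(μ.prod Q) := by
        refine integral_congr_ae (Eventually.of_forall fun w => ?_)
        simp only
        push_cast
        ring_nf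
      have e6 : ∫ w, cexp (((τ * (A + B / 2) * X ω w : ℝ) : ℂ) * I) ∂Q =
          ∫ w, cexp (((τ * (A + B / 2) : ℝ) : ℂ) * (X ω w : ℂ) * I) ∂Q := by
        refine integral_congr_ae (Eventually.of_forall fun w => ?_)
        simp only
        push_cast
        ring_nf
      rw [e5, e6] at hle
      refine hle.trans ?_
      rw [Fin.prod_univ_succ]
      simp only [Fin.cons_zero, Fin.cons_succ]
      have e7 : ∏ j, ‖charFun μ (τ * (A + B / 2) * b j ω)‖ =
          ∏ j, ‖charFun μ (τ * ((A + B / 2) * b j ω))‖ := by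
        refine Finset.prod_congr rfl fun j _ => ?_
        rw [mul_assoc]
      rw [e7] at hQ1
      have e8 : |τ * (A + B / 2)| ≤ |τ| := by
        rw [abs_mul, abs_of_pos hz0]
        nlinarith [abs_nonneg τ]
      have hk1 : (1 : ℝ) ≤ k := by exact_mod_cast hk
      have e9 : (k : ℝ) * k * |τ * (A + B / 2)| * δ ^ 2 ≤ k * k * |τ| * δ ^ 2 := by
        have : (0 : ℝ) ≤ k * k := by positivity
        have h1 := mul_le_mul_of_nonneg_left e8 this
        exact mul_le_mul_of_nonneg_right h1 (by positivity)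
      calc ‖charFun μ (τ * (B * c ω))‖ *
            ‖∫ w, cexp (((τ * (A + B / 2) : ℝ) : ℂ) * (X ω w : ℂ) * I) ∂Q‖ + k * |τ| * δ ^ 2 ≤
          ‖charFun μ (τ * (B * c ω))‖ * (∏ j, ‖charFun μ (τ * ((A + B / 2) * b j ω))‖ +
            k * k * |τ| * δ ^ 2) + k * |τ| * δ ^ 2 := by
            refine add_le_add_left (mul_le_mul_of_nonneg_left (hQ1.trans ?_) (norm_nonneg _)) _
            exact add_le_add_right e9 _
        _ ≤ ‖charFun μ (τ * (B * c ω))‖ * ∏ j, ‖charFun μ (τ * ((A + B / 2) * b j ω))‖ +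
            (k * k * |τ| * δ ^ 2 + k * |τ| * δ ^ 2) := by
            rw [mul_add, add_assoc]
            refine add_le_add_right (add_le_add_left ?_ _) _
            have h0 : (0 : ℝ) ≤ k * k * |τ| * δ ^ 2 := by positivity
            calc ‖charFun μ (τ * (B * c ω))‖ * (k * k * |τ| * δ ^ 2) ≤
                1 * (k * k * |τ| * δ ^ 2) := mul_le_mul_of_nonneg_right hcf h0
              _ = _ := one_mul _
        _ ≤ _ := by
            refine add_le_add_right ?_ _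
            push_cast
            have h0 : (0 : ℝ) ≤ |τ| * δ ^ 2 := by positivity
            nlinarith
  · intro j
    refine Fin.cases ?_ (fun j => ?_) j
    · simp only [Fin.cons_zero]
      refine (hpr _ (fun p => ENNReal.ofReal (p.2 ^ (-s))) (fun ω => ENNReal.ofReal ((c ω) ^ (-s)))
        (by fun_prop) (by fun_prop) ?_).trans ?_
      · rintro ⟨⟨A, B⟩, ω⟩ ⟨⟨hA, hB, hAB, hBδ⟩, hω⟩
        simp only at hA hB hAB hBδ hω ⊢
        have hc0 := (hall ω hω).1
        rw [Real.mul_rpow hB.le hc0.le, ENNReal.ofReal_mul (Real.rpow_nonneg hB.le _)]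
      · refine (mul_le_mul' ((setLIntegral_le_lintegral _ _).trans hP1s) hcm).trans ?_
        rw [← ENNReal.ofReal_mul (by positivity)]
        apply ENNReal.ofReal_le_ofReal
        have h1 : C * β ≤ β' := by
          have : 0 ≤ 2 ^ s * m0 * β := by positivity
          linarith
        have h2 : (0 : ℝ) ≤ δ ^ (-(11 / 10 * s)) := by positivity
        calc C * δ ^ (-(11 / 10 * s)) * β = C * β * δ ^ (-(11 / 10 * s)) := by ring
          _ ≤ β' * δ ^ (-(11 / 10 * s)) := mul_le_mul_of_nonneg_right h1 h2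
    · simp only [Fin.cons_succ]
      refine (hpr _ (fun p => ENNReal.ofReal ((p.1 + p.2 / 2) ^ (-s)))
        (fun ω => ENNReal.ofReal ((b j ω) ^ (-s))) (by fun_prop)
        (by have := hb j; fun_prop) ?_).trans ?_
      · rintro ⟨⟨A, B⟩, ω⟩ ⟨⟨hA, hB, hAB, hBδ⟩, hω⟩
        simp only at hA hB hAB hBδ hω ⊢
        have hb0 := (hall ω hω).2.2.1 j
        have hz0 : 0 < A + B / 2 := by linarith
        rw [Real.mul_rpow hz0.le hb0.le, ENNReal.ofReal_mul (Real.rpow_nonneg hz0.le _)]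
      · refine (mul_le_mul' hzeta (hbm j)).trans ?_
        rw [← ENNReal.ofReal_mul (by positivity)]
        apply ENNReal.ofReal_le_ofReal
        have h1 : 2 ^ s * m0 * β ≤ β' := by
          have : 0 ≤ C * β := by positivity
          linarith
        have h2 : (0 : ℝ) ≤ δ ^ (-(11 / 10 * s)) := by positivity
        calc 2 ^ s * m0 * (β * δ ^ (-(11 / 10 * s))) =
            2 ^ s * m0 * β * δ ^ (-(11 / 10 * s)) := by ring
          _ ≤ β' * δ ^ (-(11 / 10 * s)) := mul_le_mul_of_nonneg_right h1 h2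
  · refine (hpr _ (fun p => ENNReal.ofReal ((p.1 + p.2 / 2) ^ (-s)))
      (fun ω => ENNReal.ofReal ((c ω) ^ (-s))) (by fun_prop) (by fun_prop) ?_).trans ?_
    · rintro ⟨⟨A, B⟩, ω⟩ ⟨⟨hA, hB, hAB, hBδ⟩, hω⟩
      simp only at hA hB hAB hBδ hω ⊢
      have hc0 := (hall ω hω).1
      have hz0 : 0 < A + B / 2 := by linarith
      rw [Real.mul_rpow hz0.le hc0.le, ENNReal.ofReal_mul (Real.rpow_nonneg hz0.le _)]
    · refine (mul_le_mul' hzeta hcm).trans ?_
      rw [← ENNReal.ofReal_mul (by positivity)]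
      apply ENNReal.ofReal_le_ofReal
      have : 0 ≤ C * β := by positivity
      linarith
  · refine (hpr _ (fun _ => 1) (fun ω => ENNReal.ofReal ((1 - c ω) ^ (-s))) (by fun_prop)
      (by fun_prop) ?_).trans ?_
    · rintro ⟨⟨A, B⟩, ω⟩ ⟨⟨hA, hB, hAB, hBδ⟩, hω⟩
      simp only at hA hB hAB hBδ hω ⊢
      rw [one_mul]
      apply ENNReal.ofReal_le_ofReal
      have hc0 := (hall ω hω).1
      have hc1 := (hall ω hω).2.1
      have hz1 : A + B / 2 < 1 := by linarith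
      refine Real.rpow_le_rpow_of_nonpos (by linarith) ?_ (by linarith)
      nlinarith
    · refine (mul_le_mul' (setLIntegral_le_lintegral _ _) hcm').trans ?_
      rw [lintegral_const, measure_univ, mul_one, one_mul]
      apply ENNReal.ofReal_le_ofReal
      have : 0 ≤ C * β := by positivity
      have : 0 ≤ 2 ^ s * m0 * β := by positivity
      linarith

end Pool.Agent.T6.H62.AC
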