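import Pool.Agent.T6.H62.AC.Kit

set_option autoImplicit false

open MeasureTheory Complex Filter Topology
open scoped ENNReal

namespace Pool.Agent.T6.H62.AC

namespace ModNLT

/-- atoms are squared -/
lemma atom_sq {a : ℝ} {μ : Measure ℝ} (hE : Eqn a μ) {x : ℝ} (hx : μ {x} ≠ 0) :
    μ {x * x} ≠ 0 := by
  haveI := hE.prob
  have h1 : ENNReal.ofReal (1 - a) ≠ 0 := by
    have := hE.ha1
    rw [Ne, ENNReal.ofReal_eq_zero]
    linarith
  have h2 : mulLaw μ μ {x * x} ≠ 0 := by
    unfold mulLaw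
    rw [Measure.map_apply (by fun_prop) (measurableSet_singleton _)]
    have h3 : (μ.prod μ) ({x} ×ˢ {x}) ≤
        (μ.prod μ) ((fun p : ℝ × ℝ => p.1 * p.2) ⁻¹' {x * x}) := by
      apply measure_mono
      rintro ⟨p, q⟩ ⟨hp, hq⟩
      simp only [Set.mem_singleton_iff] at hp hq
      subst hp hq
      rfl
    rw [Measure.prod_prod] at h3
    intro h4
    rw [h4] at h3
    have h5 : μ {x} * μ {x} = 0 := le_antisymm h3 bot_le
    rcases mul_eq_zero.1 h5 with h | h <;> exact hx h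
  intro h3
  have h4 := congrArg (fun ν : Measure ℝ => ν {x * x}) hE.eqn
  simp only [Measure.add_apply, Measure.smul_apply, smul_eq_mul] at h4
  rw [h3] at h4
  have h5 := (add_eq_zero.1 h4.symm).2
  rcases mul_eq_zero.1 h5 with h | h
  · exact h1 h
  · exact h2 h

lemma of_atom {μ : Measure ℝ} {p : ℝ → Prop} (h : ∀ᵐ x ∂μ, p x) {x : ℝ} (hx : μ {x} ≠ 0) :
    p x := by
  by_contra hp
  apply hx
  rw [ae_iff] at h
  exact measure_mono_null (by
    intro y hy
    rw [Set.mem_singleton_iff] at hy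
    subst hy
    exact hp) h

end ModNLT

open ModNLT in
theorem nlt : StmNLT := by
  intro a μ hE u hu
  haveI := hE.prob
  have hle : ∀ᵐ x : ℝ ∂μ, ‖cexp (u * x * I)‖ ≤ 1 := by
    refine Eventually.of_forall fun x => ?_
    have := Complex.norm_exp_ofReal_mul_I (u * x)
    push_cast at this
    rw [this]
  rw [charFun_apply_real]
  rcases ae_eq_const_or_norm_integral_lt_of_norm_le_const hle with h | h
  swap
  · simpa using h
  exfalso
  set v := ⨍ x : ℝ, cexp (u * x * I) ∂μ with hv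
  have hae : ∀ᵐ x : ℝ ∂μ, (0 < x ∧ x < 1) ∧ cexp (u * x * I) = v := by
    filter_upwards [hE.supp, h] with x hx1 hx2
    exact ⟨hx1, hx2⟩
  -- there is a point of the set
  have hne : ∃ x₀ : ℝ, (0 < x₀ ∧ x₀ < 1) ∧ cexp (u * x₀ * I) = v := hae.exists
  obtain ⟨x₀, hx₀, hx₀v⟩ := hne
  -- an atom
  have hatom : ∃ m : ℝ, μ {m} ≠ 0 := by
    by_contra hno
    push Not at hno
    have hcount : (Set.range fun n : ℤ => x₀ + 2 * Real.pi * n / u).Countable :=
      Set.countable_range _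
    have h0 : μ (Set.range fun n : ℤ => x₀ + 2 * Real.pi * n / u) = 0 := by
      rw [← Set.biUnion_of_singleton (Set.range fun n : ℤ => x₀ + 2 * Real.pi * n / u)]
      rw [measure_biUnion_null_iff hcount]
      intro x _
      exact hno x
    have h1 : ∀ᵐ x ∂μ, x ∈ (Set.range fun n : ℤ => x₀ + 2 * Real.pi * n / u) := by
      filter_upwards [hae] with x hx
      have h2 : cexp (u * x * I) = cexp (u * x₀ * I) := by rw [hx.2, hx₀v]
      rw [Complex.exp_eq_exp_iff_exists_int] at h2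
      obtain ⟨n, hn⟩ := h2
      refine ⟨n, ?_⟩
      have h3 : (u * x : ℂ) = u * x₀ + n * (2 * Real.pi) := by
        have : (u * x : ℂ) * I = (u * x₀ + n * (2 * Real.pi)) * I := by
          rw [hn]; ring
        exact mul_right_cancel₀ I_ne_zero this
      have h4 : u * x = u * x₀ + n * (2 * Real.pi) := by exact_mod_cast h3
      show x₀ + 2 * Real.pi * n / u = x
      field_simp
      linarith
    have h2 : μ (Set.univ) = 0 := by
      have h3 : ∀ᵐ x ∂μ, False := by
        have h4 : ∀ᵐ x ∂μ, x ∉ (Set.range fun n : ℤ => x₀ + 2 * Real.pi * n / u) :=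
          measure_eq_zero_iff_ae_notMem.1 h0
        filter_upwards [h1, h4] with x hx1 hx2
        exact hx2 hx1
      rw [ae_iff] at h3
      simpa using h3
    rw [measure_univ] at h2
    exact one_ne_zero h2
  obtain ⟨m, hm⟩ := hatom
  have hk : ∀ k : ℕ, μ {m ^ (2 ^ k)} ≠ 0 := by
    intro k
    induction k with
    | zero => simpa using hm
    | succ k ih =>
      have := atom_sq hE ih
      rwa [← pow_add, ← two_mul, ← pow_succ'] at this
  have hm01 := (of_atom hae hm).1
  have htend : Tendsto (fun k : ℕ => |u| * m ^ (2 ^ k)) atTop (𝓝 (|u| * 0)) := by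
    apply Tendsto.const_mul
    have h1 : Tendsto (fun n : ℕ => m ^ n) atTop (𝓝 0) :=
      tendsto_pow_atTop_nhds_zero_of_lt_one hm01.1.le hm01.2
    exact h1.comp (tendsto_pow_atTop_atTop_of_one_lt (by norm_num))
  rw [mul_zero] at htend
  obtain ⟨k, hk1⟩ := (htend.eventually (gt_mem_nhds (show (0 : ℝ) < 2 * Real.pi by positivity))).exists
  have hA := of_atom hae (hk k)
  have hB := of_atom hae (hk (k + 1))
  have h2 : cexp (u * (m ^ (2 ^ k) : ℝ) * I) = cexp (u * (m ^ (2 ^ (k + 1)) : ℝ) * I) := by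
    rw [hA.2, hB.2]
  rw [Complex.exp_eq_exp_iff_exists_int] at h2
  obtain ⟨n, hn⟩ := h2
  have h3 : (u * (m ^ (2 ^ k) : ℝ) : ℂ) = u * (m ^ (2 ^ (k + 1)) : ℝ) + n * (2 * Real.pi) := by
    have : (u * (m ^ (2 ^ k) : ℝ) : ℂ) * I =
        (u * (m ^ (2 ^ (k + 1)) : ℝ) + n * (2 * Real.pi)) * I := by
      rw [hn]; ring
    exact mul_right_cancel₀ I_ne_zero this
  have h4 : u * (m ^ (2 ^ k)) = u * (m ^ (2 ^ (k + 1))) + n * (2 * Real.pi) := by
    exact_mod_cast h3
  have h5 : m ^ (2 ^ (k + 1)) = m ^ (2 ^ k) * m ^ (2 ^ k) := by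
    rw [← pow_add, ← two_mul, ← pow_succ']
  obtain ⟨y, hy⟩ : ∃ y, y = m ^ (2 ^ k) := ⟨_, rfl⟩
  rw [← hy] at hk1 h4 h5 hA
  rw [h5] at h4
  obtain ⟨⟨hy0, hy1⟩, -⟩ := hA
  have h6 : (n : ℝ) * (2 * Real.pi) = u * (y * (1 - y)) := by linarith
  have h7 : |(n : ℝ)| * (2 * Real.pi) < 2 * Real.pi := by
    have h8 : |(n : ℝ)| * (2 * Real.pi) = |u| * (y * (1 - y)) := by
      have := congrArg abs h6
      rwa [abs_mul, abs_mul u, abs_of_pos (show (0 : ℝ) < 2 * Real.pi by positivity),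
        abs_of_pos (show 0 < y * (1 - y) by nlinarith)] at this
    rw [h8]
    calc |u| * (y * (1 - y)) ≤ |u| * y := by
          apply mul_le_mul_of_nonneg_left _ (abs_nonneg u)
          nlinarith
      _ < 2 * Real.pi := hk1
  have h8 : |(n : ℝ)| < 1 := by
    have hpi : (0 : ℝ) < 2 * Real.pi := by positivity
    by_contra hcon
    push Not at hcon
    nlinarith
  have h9 : n = 0 := by
    have : |n| < 1 := by exact_mod_cast h8
    exact Int.abs_lt_one_iff.1 this
  rw [h9] at h6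
  have h10 : u * (y * (1 - y)) = 0 := by
    rw [← h6]; simp
  rcases mul_eq_zero.1 h10 with h | h
  · exact hu h
  · have : 0 < y * (1 - y) := by nlinarith
    linarith

end Pool.Agent.T6.H62.AC
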