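import Pool.Agent.T6.H62.AC.Kit

/-!
Project AC, module POLA: one step of the recursion for the decay of the characteristic function.
-/

open MeasureTheory Complex Filter Topology
open scoped ENNReal

namespace Pool.Agent.T6.H62.AC.Pola

theorem norm_e (t x : ℝ) : ‖cexp (t * x * I)‖ = 1 := by
  rw [← ofReal_mul]
  exact Complex.norm_exp_ofReal_mul_I _

theorem one (μ κ : Measure ℝ) (s β : ℝ) (hβ : 0 < β)
    (hM : ∀ δ ε : ℝ, 0 < δ → δ ≤ 1 → 0 < ε → Mx μ s β 3 δ ε κ) (hs : 0 < s)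
    (t η : ℝ) (ht : 1 ≤ t) (hη : 0 ≤ η)
    (hu : ∀ u : ℝ, t ^ (9 / 25 : ℝ) ≤ |u| → ‖charFun μ u‖ ≤ η) :
    ‖charFun κ t‖ ≤ η ^ 3 + (3 * β + 10) * t ^ (-(min (1 / 10) (7 / 200 * s))) := by
  have ht0 : 0 < t := by linarith
  obtain ⟨Ω, Ω', mΩ, mΩ', P, Q, X, c, b, G, hP, hQ, hX, hc, hb, hG, hGc, hκ, hGG, hbs, -, -⟩ :=
    hM (t ^ (-(11 / 20) : ℝ)) (t ^ (-1 : ℝ)) (Real.rpow_pos_of_pos ht0 _)
      (Real.rpow_le_one_of_one_le_of_nonpos ht (by norm_num)) (Real.rpow_pos_of_pos ht0 _)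
  obtain ⟨F, hF⟩ : ∃ F : Ω → ℂ, F = fun ω => ∫ ω', cexp (t * X ω ω' * I) ∂Q := ⟨_, rfl⟩
  have hmeas : Measurable (fun z : Ω × Ω' => cexp (t * X z.1 z.2 * I)) := by
    have h1 : Measurable (fun z : Ω × Ω' => ((X z.1 z.2 : ℝ) : ℂ)) :=
      Complex.measurable_ofReal.comp hX
    exact ((h1.const_mul _).mul_const _).cexp
  have hFm : StronglyMeasurable F := by
    rw [hF]
    exact hmeas.stronglyMeasurable.integral_prod_right'
  have hchar : charFun κ t = ∫ ω, F ω ∂P := by
    rw [charFun_apply_real, hκ, integral_map hX.aemeasurable (by fun_prop),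
      integral_prod _ (integrable_of_bdd _ hmeas (B := 1) (fun z => (norm_e _ _).le)), hF]
  have hF1 : ∀ ω, ‖F ω‖ ≤ 1 := by
    intro ω
    rw [hF]
    refine (norm_integral_le_integral_norm _).trans ?_
    simp only [norm_e]
    simp
  have e1 : t * (t ^ (-(11 / 20) : ℝ)) ^ 2 = t ^ (-(1 / 10) : ℝ) := by
    rw [← Real.rpow_natCast, ← Real.rpow_mul ht0.le]
    nth_rewrite 1 [← Real.rpow_one t]
    rw [← Real.rpow_add ht0]
    norm_num
  have e2 : t * t ^ (-(16 / 25) : ℝ) = t ^ (9 / 25 : ℝ) := by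
    nth_rewrite 1 [← Real.rpow_one t]
    rw [← Real.rpow_add ht0]
    norm_num
  obtain ⟨E, hE⟩ : ∃ E : ℝ, E = η ^ 3 + 9 * t ^ (-(1 / 10) : ℝ) := ⟨_, rfl⟩
  have hE0 : 0 ≤ E := by rw [hE]; positivity
  obtain ⟨Bj, hBj⟩ : ∃ Bj : Fin 3 → Set Ω, Bj = fun j => {ω | ω ∈ G ∧ b j ω < t ^ (-(16 / 25) : ℝ)} :=
    ⟨_, rfl⟩
  have hBjm : ∀ j, MeasurableSet (Bj j) := by
    intro j
    rw [hBj]
    exact hG.inter (measurableSet_lt (hb j) measurable_const)
  obtain ⟨B, hB⟩ : ∃ B : Set Ω, B = Gᶜ ∪ ⋃ j, Bj j := ⟨_, rfl⟩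
  have hBm : MeasurableSet B := by
    rw [hB]
    exact hG.compl.union (MeasurableSet.iUnion hBjm)
  have hbd : ∀ ω, ‖F ω‖ ≤ E + B.indicator (fun _ => (1 : ℝ)) ω := by
    intro ω
    by_cases hω : ω ∈ B
    · rw [Set.indicator_of_mem hω]
      linarith [hF1 ω]
    · rw [Set.indicator_of_notMem hω, add_zero]
      rw [hB, Set.mem_union, not_or, Set.mem_compl_iff, not_not, Set.mem_iUnion, not_exists] at hω
      obtain ⟨hωG, hωB⟩ := hω
      have h1 : ∀ j, t ^ (-(16 / 25) : ℝ) ≤ b j ω := by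
        intro j
        by_contra hlt
        apply hωB j
        rw [hBj]
        exact ⟨hωG, not_le.1 hlt⟩
      have h2 := (hGG ω hωG).2.2.2.2 t
      have h3 : ∏ j, ‖charFun μ (t * b j ω)‖ ≤ η ^ 3 := by
        calc ∏ j : Fin 3, ‖charFun μ (t * b j ω)‖ ≤ ∏ _j : Fin 3, η := by
              apply Finset.prod_le_prod
              · intro j _
                exact norm_nonneg _
              · intro j _
                apply hu
                rw [← e2]
                refine le_trans ?_ (le_abs_self _)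
                exact mul_le_mul_of_nonneg_left (h1 j) ht0.le
          _ = η ^ 3 := by simp
      have h4 : ((3 : ℕ) : ℝ) * ((3 : ℕ) : ℝ) * |t| * (t ^ (-(11 / 20) : ℝ)) ^ 2
          = 9 * t ^ (-(1 / 10) : ℝ) := by
        rw [abs_of_pos ht0, ← e1]
        push_cast
        ring
      rw [h4] at h2
      rw [hF, hE]
      simp only
      linarith
  have hPB : P B ≤ ENNReal.ofReal (t ^ (-1 : ℝ) + 3 * (β * t ^ (-(7 / 200 * s)))) := by
    have h0 : ∀ j, P (Bj j) ≤ ENNReal.ofReal (β * t ^ (-(7 / 200 * s))) := by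
      intro j
      have hA0 : 0 < t ^ (16 / 25 * s) := Real.rpow_pos_of_pos ht0 _
      have h1 : ENNReal.ofReal (t ^ (16 / 25 * s)) * P (Bj j) ≤
          ENNReal.ofReal (β * (t ^ (-(11 / 20) : ℝ)) ^ (-(11 / 10 * s))) := by
        refine le_trans ?_ (hbs j)
        have hbm : Measurable (fun ω => ENNReal.ofReal ((b j ω) ^ (-s))) :=
          ((hb j).pow_const _).ennreal_ofReal
        refine le_trans ?_ (mul_meas_ge_le_lintegral₀ hbm.aemeasurable
          (ENNReal.ofReal (t ^ (16 / 25 * s))))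
        refine mul_le_mul' le_rfl ?_
        refine le_trans (measure_mono ?_) (Measure.le_restrict_apply _ _)
        intro ω hω
        rw [hBj] at hω
        obtain ⟨hω1, hω2⟩ := hω
        refine ⟨?_, hω1⟩
        have hb0 : 0 < b j ω := (hGG ω hω1).2.2.1 j
        show ENNReal.ofReal (t ^ (16 / 25 * s)) ≤ ENNReal.ofReal ((b j ω) ^ (-s))
        apply ENNReal.ofReal_le_ofReal
        have h5 : t ^ (16 / 25 * s) = (t ^ (-(16 / 25) : ℝ)) ^ (-s) := by
          rw [← Real.rpow_mul ht0.le]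
          congr 1
          ring
        rw [h5]
        exact Real.rpow_le_rpow_of_nonpos hb0 hω2.le (by linarith)
      calc P (Bj j) = ENNReal.ofReal ((t ^ (16 / 25 * s))⁻¹) *
            (ENNReal.ofReal (t ^ (16 / 25 * s)) * P (Bj j)) := by
            rw [← mul_assoc, ← ENNReal.ofReal_mul (inv_nonneg.2 hA0.le),
              inv_mul_cancel₀ hA0.ne', ENNReal.ofReal_one, one_mul]
        _ ≤ ENNReal.ofReal ((t ^ (16 / 25 * s))⁻¹) *
            ENNReal.ofReal (β * (t ^ (-(11 / 20) : ℝ)) ^ (-(11 / 10 * s))) := by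
            gcongr
        _ = ENNReal.ofReal (β * t ^ (-(7 / 200 * s))) := by
            rw [← ENNReal.ofReal_mul (inv_nonneg.2 hA0.le)]
            congr 1
            rw [← Real.rpow_mul ht0.le, ← Real.rpow_neg ht0.le, mul_comm, mul_assoc,
              ← Real.rpow_add ht0]
            congr 2
            ring
    calc P B ≤ P Gᶜ + P (⋃ j, Bj j) := by
          rw [hB]
          exact measure_union_le _ _
      _ ≤ P Gᶜ + ∑ j, P (Bj j) := by
          gcongr
          exact measure_iUnion_fintype_le _ _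
      _ ≤ ENNReal.ofReal (t ^ (-1 : ℝ)) + ∑ _j : Fin 3, ENNReal.ofReal (β * t ^ (-(7 / 200 * s))) := by
          gcongr with j _
          exact h0 j
      _ = ENNReal.ofReal (t ^ (-1 : ℝ) + 3 * (β * t ^ (-(7 / 200 * s)))) := by
          rw [ENNReal.ofReal_add (by positivity) (by positivity),
            ENNReal.ofReal_mul (p := 3) (by norm_num), Finset.sum_const, Finset.card_univ,
            Fintype.card_fin, nsmul_eq_mul, ENNReal.ofReal_ofNat]
          norm_num
  have hPB' : P.real B ≤ t ^ (-1 : ℝ) + 3 * (β * t ^ (-(7 / 200 * s))) := by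
    unfold Measure.real
    exact ENNReal.toReal_le_of_le_ofReal (by positivity) hPB
  have hint : ‖charFun κ t‖ ≤ E + P.real B := by
    rw [hchar]
    refine (norm_integral_le_integral_norm _).trans ?_
    have hi1 : Integrable (fun ω => ‖F ω‖) P :=
      (Integrable.of_bound hFm.aestronglyMeasurable 1 (Eventually.of_forall hF1)).norm
    have hi2 : Integrable (B.indicator (fun _ => (1 : ℝ))) P :=
      (integrable_const (1 : ℝ)).indicator hBm
    calc ∫ ω, ‖F ω‖ ∂P ≤ ∫ ω, (E + B.indicator (fun _ => (1 : ℝ)) ω) ∂P :=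
          integral_mono hi1 ((integrable_const _).add hi2) hbd
      _ = E + P.real B := by
          rw [integral_add (integrable_const _) hi2, integral_indicator_const _ hBm]
          simp
  obtain ⟨m, hm⟩ : ∃ m : ℝ, m = min (1 / 10) (7 / 200 * s) := ⟨_, rfl⟩
  have hm1 : m ≤ 1 / 10 := by rw [hm]; exact min_le_left _ _
  have hm2 : m ≤ 7 / 200 * s := by rw [hm]; exact min_le_right _ _
  rw [← hm]
  have g1 : t ^ (-(1 / 10) : ℝ) ≤ t ^ (-m) := Real.rpow_le_rpow_of_exponent_le ht (by linarith)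
  have g2 : t ^ (-1 : ℝ) ≤ t ^ (-m) := Real.rpow_le_rpow_of_exponent_le ht (by linarith)
  have g3 : t ^ (-(7 / 200 * s)) ≤ t ^ (-m) := Real.rpow_le_rpow_of_exponent_le ht (by linarith)
  have g4 : β * t ^ (-(7 / 200 * s)) ≤ β * t ^ (-m) := mul_le_mul_of_nonneg_left g3 hβ.le
  rw [hE] at hint
  nlinarith

theorem pola : StmPOLA := by
  intro μ s hμ hs hs1 hT
  obtain ⟨w, κ, hw0, hw1, hκ, hμκ, hM⟩ := hT
  choose β hβ hMx using hM
  refine ⟨min (1 / 10) (7 / 200 * s), ∑ i, (3 * β i + 10), lt_min (by norm_num) (by positivity),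
    Finset.sum_pos (fun i _ => by have := hβ i; positivity) Finset.univ_nonempty, ?_⟩
  intro t η ht hη hη1 hu
  have hchar : charFun μ t = ∑ i, (w i : ℂ) * charFun (κ i) t := by
    simp only [charFun_apply_real]
    conv_lhs => rw [hμκ]
    rw [integral_finsetSum_measure]
    · refine Finset.sum_congr rfl fun i _ => ?_
      rw [integral_smul_measure, ENNReal.toReal_ofReal (hw0 i), real_smul]
    · intro i _
      have := hκ i
      exact (integrable_of_bdd _ (by fun_prop) (B := 1) (fun z => (norm_e _ _).le)).smul_measure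
        ENNReal.ofReal_ne_top
  have hpt : 0 ≤ t ^ (-(min (1 / 10) (7 / 200 * s))) := by
    apply Real.rpow_nonneg
    linarith
  rw [hchar]
  calc ‖∑ i, (w i : ℂ) * charFun (κ i) t‖ ≤ ∑ i, ‖(w i : ℂ) * charFun (κ i) t‖ := norm_sum_le _ _
    _ ≤ ∑ i, w i * (η ^ 3 + (∑ i, (3 * β i + 10)) * t ^ (-(min (1 / 10) (7 / 200 * s)))) := by
        refine Finset.sum_le_sum fun i _ => ?_
        rw [norm_mul, norm_real, Real.norm_of_nonneg (hw0 i)]
        refine mul_le_mul_of_nonneg_left ?_ (hw0 i)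
        refine (one μ (κ i) s (β i) (hβ i) (hMx i) hs t η ht hη hu).trans ?_
        have h1 : 3 * β i + 10 ≤ ∑ i, (3 * β i + 10) :=
          Finset.single_le_sum (f := fun i => 3 * β i + 10)
            (fun j _ => by have := hβ j; positivity) (Finset.mem_univ i)
        have := mul_le_mul_of_nonneg_right h1 hpt
        linarith
    _ = η ^ 3 + (∑ i, (3 * β i + 10)) * t ^ (-(min (1 / 10) (7 / 200 * s))) := by
        rw [← Finset.sum_mul, hw1, one_mul]

end Pool.Agent.T6.H62.AC.Pola
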