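import Pool.Agent.T6.H62.AC.Kit

open MeasureTheory Complex Filter Topology
open scoped ENNReal

namespace Pool.Agent.T6.H62.AC

namespace ModPolb

/-- step A: decay below any level -/
theorem stepA (φ : ℝ → ℝ) (q c C : ℝ) (hev : ∀ t, φ |t| = φ t)
    (hq1 : q < 1) (hc : 0 < c) (hq : ∀ t, 1 ≤ |t| → φ t ≤ q)
    (hrec : ∀ t η : ℝ, 1 ≤ t → 0 ≤ η → η ≤ 1 → (∀ u : ℝ, t ^ (9 / 25 : ℝ) ≤ |u| → φ u ≤ η) →
      φ t ≤ η ^ 3 + C * t ^ (-c)) (e : ℝ) (he : 0 < e) :
    ∃ T : ℝ, 1 ≤ T ∧ ∀ u, T ≤ |u| → φ u ≤ e := by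
  obtain ⟨q', hq'0, hq'1, hq'q⟩ : ∃ q' : ℝ, 0 < q' ∧ q' < 1 ∧ q ≤ q' :=
    ⟨max q (1/2), lt_of_lt_of_le (by norm_num) (le_max_right _ _), max_lt hq1 (by norm_num),
      le_max_left _ _⟩
  obtain ⟨κ, hκ⟩ : ∃ κ : ℝ, κ = (1 + q'^2)/2 := ⟨_, rfl⟩
  have hκ0 : 0 < κ := by rw [hκ]; positivity
  have hsq : q'^2 < 1 := by nlinarith
  have hκ1 : κ < 1 := by rw [hκ]; linarith
  have htend : Tendsto (fun t : ℝ => C * t ^ (-c)) atTop (𝓝 0) := by
    simpa using (tendsto_rpow_neg_atTop hc).const_mul C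
  have hA : ∀ n : ℕ, ∃ T : ℝ, 1 ≤ T ∧ ∀ u, T ≤ |u| → φ u ≤ q' * κ ^ n := by
    intro n
    induction n with
    | zero => exact ⟨1, le_rfl, fun u hu => by simpa using (hq u hu).trans hq'q⟩
    | succ n ih =>
      obtain ⟨T, hT1, hT⟩ := ih
      obtain ⟨η, hη⟩ : ∃ η : ℝ, η = q' * κ ^ n := ⟨_, rfl⟩
      rw [← hη] at hT
      have hη0 : 0 < η := by rw [hη]; positivity
      have hηq : η ≤ q' := by
        have : κ ^ n ≤ 1 := pow_le_one₀ hκ0.le hκ1.le
        rw [hη]; nlinarith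
      have hδ : 0 < η * (1 - q'^2) / 2 := by
        have : 0 < 1 - q'^2 := by linarith
        positivity
      obtain ⟨T1, hT1'⟩ := eventually_atTop.1 (htend.eventually_le_const hδ)
      refine ⟨max (max T1 1) (T ^ (25/9 : ℝ)), (le_max_right _ _).trans (le_max_left _ _),
        fun u hu => ?_⟩
      have h1 : 1 ≤ |u| := ((le_max_right _ _).trans (le_max_left _ _)).trans hu
      have h2 : T1 ≤ |u| := ((le_max_left _ _).trans (le_max_left _ _)).trans hu
      have h3 : T ^ (25/9 : ℝ) ≤ |u| := (le_max_right _ _).trans hu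
      have h4 : T ≤ |u| ^ (9/25 : ℝ) := by
        have := Real.rpow_le_rpow (by positivity) h3 (by norm_num : (0:ℝ) ≤ 9/25)
        rw [← Real.rpow_mul (by linarith)] at this
        norm_num at this
        exact this
      have h5 := hrec |u| η h1 hη0.le (hηq.trans hq'1.le) (fun v hv => hT v (h4.trans hv))
      rw [hev] at h5
      have h6 := hT1' |u| h2
      have h7 : η ^ 3 ≤ q'^2 * η := by
        have : η ^ 2 ≤ q' ^ 2 := by gcongr
        nlinarith
      have h8 : q' * κ ^ (n+1) = η * κ := by rw [hη]; ring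
      rw [h8, hκ]
      nlinarith
  obtain ⟨n, hn⟩ := exists_pow_lt_of_lt_one he hκ1
  obtain ⟨T, hT1, hT⟩ := hA n
  refine ⟨T, hT1, fun u hu => (hT u hu).trans ?_⟩
  have : 0 < κ ^ n := by positivity
  nlinarith

end ModPolb

theorem polb : StmPOLB := by
  intro φ q c C h0 hev' hq0 hq1 hc hC hq hrec
  have hev : ∀ u, φ |u| = φ u := by
    intro u
    rcases abs_choice u with h | h
    · rw [h]
    · rw [h, hev']
  obtain ⟨Ta, hTa1, hTa⟩ := ModPolb.stepA φ q c C hev hq1 hc hq hrec (Real.exp (-4)) (by positivity)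
  -- choice of T0
  have htend : Tendsto (fun t : ℝ => Real.exp 4 * t ^ (-c)) atTop (𝓝 0) := by
    simpa using (tendsto_rpow_neg_atTop hc).const_mul (Real.exp 4)
  have hmin : 0 < min 1 (1 / (2 * C)) := lt_min one_pos (by positivity)
  obtain ⟨Tb, hTb⟩ := eventually_atTop.1 (htend.eventually_le_const hmin)
  obtain ⟨T0, hT0a, hT0b, hT02⟩ : ∃ T0 : ℝ, Ta ≤ T0 ∧ Tb ≤ T0 ∧ 2 ≤ T0 :=
    ⟨max (max Ta Tb) 2, (le_max_left _ _).trans (le_max_left _ _),
      (le_max_right _ _).trans (le_max_left _ _), le_max_right _ _⟩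
  have hT01 : 1 < T0 := by linarith
  have hT00 : 0 < T0 := by linarith
  have hlog : 0 < Real.log T0 := Real.log_pos hT01
  have hx := hTb T0 hT0b
  have hx1 : Real.exp 4 * T0 ^ (-c) ≤ 1 := hx.trans (min_le_left _ _)
  have hx2 : Real.exp 4 * T0 ^ (-c) ≤ 1 / (2 * C) := hx.trans (min_le_right _ _)
  have hx0 : 0 < Real.exp 4 * T0 ^ (-c) := by positivity
  -- the error term
  have herr : ∀ k : ℝ, 1 ≤ k → C * (T0 ^ k) ^ (-c) ≤ 1 / 2 * Real.exp (-(4 * k)) := by
    intro k hk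
    have e1 : (Real.exp 4 * T0 ^ (-c)) ^ k ≤ Real.exp 4 * T0 ^ (-c) := by
      have := Real.rpow_le_rpow_of_exponent_ge hx0 hx1 hk
      rwa [Real.rpow_one] at this
    have e2 : (Real.exp 4 * T0 ^ (-c)) ^ k = Real.exp (4 * k) * (T0 ^ k) ^ (-c) := by
      rw [Real.mul_rpow (by positivity) (by positivity), ← Real.exp_mul,
        ← Real.rpow_mul hT00.le, ← Real.rpow_mul hT00.le, mul_comm (-c) k]
    have e3 : Real.exp (4 * k) * (T0 ^ k) ^ (-c) ≤ 1 / (2 * C) := by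
      rw [← e2]; exact e1.trans hx2
    rw [Real.exp_neg]
    have e4 : 0 < Real.exp (4 * k) := Real.exp_pos _
    have e5 : (T0 ^ k) ^ (-c) ≤ 1 / (2 * C) / Real.exp (4 * k) := by
      rw [le_div_iff₀ e4]; linarith
    calc C * (T0 ^ k) ^ (-c) ≤ C * (1 / (2 * C) / Real.exp (4 * k)) := by gcongr
      _ = 1 / 2 * (Real.exp (4 * k))⁻¹ := by field_simp
  have hB : ∀ n : ℕ, ∀ u, T0 ^ ((25 / 9 : ℝ) ^ n) ≤ |u| → φ u ≤ Real.exp (-(4 * (25 / 9 : ℝ) ^ n)) := by
    intro n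
    induction n with
    | zero =>
      intro u hu
      simp only [pow_zero, Real.rpow_one, mul_one] at hu ⊢
      exact hTa u (hT0a.trans hu)
    | succ n ih =>
      intro u hu
      have hr1 : (1:ℝ) ≤ (25 / 9 : ℝ) ^ n := one_le_pow₀ (by norm_num)
      have hr2 : (1:ℝ) ≤ (25 / 9 : ℝ) ^ (n+1) := one_le_pow₀ (by norm_num)
      have hu1 : 1 ≤ |u| := (Real.one_le_rpow hT01.le (by positivity)).trans hu
      have h4 : T0 ^ ((25 / 9 : ℝ) ^ n) ≤ |u| ^ (9/25 : ℝ) := by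
        have := Real.rpow_le_rpow (by positivity) hu (by norm_num : (0:ℝ) ≤ 9/25)
        rw [← Real.rpow_mul hT00.le] at this
        have e : (25 / 9 : ℝ) ^ (n+1) * (9/25) = (25 / 9 : ℝ) ^ n := by rw [pow_succ]; ring
        rwa [e] at this
      have h5 := hrec |u| (Real.exp (-(4 * (25 / 9 : ℝ) ^ n))) hu1 (by positivity)
        (Real.exp_le_one_iff.2 (by linarith)) (fun v hv => ih v (h4.trans hv))
      rw [hev] at h5
      have h6 : C * |u| ^ (-c) ≤ 1 / 2 * Real.exp (-(4 * (25 / 9 : ℝ) ^ (n+1))) := by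
        refine le_trans ?_ (herr _ hr2)
        have : |u| ^ (-c) ≤ (T0 ^ ((25 / 9 : ℝ) ^ (n+1))) ^ (-c) :=
          Real.rpow_le_rpow_of_nonpos (by positivity) hu (by linarith)
        gcongr
      have h7 : Real.exp (-(4 * (25 / 9 : ℝ) ^ n)) ^ 3 ≤
          1 / 2 * Real.exp (-(4 * (25 / 9 : ℝ) ^ (n+1))) := by
        have e1 : Real.exp (-(4 * (25 / 9 : ℝ) ^ n)) ^ 3 =
            Real.exp (-(8/9 * (25 / 9 : ℝ) ^ n)) * Real.exp (-(4 * (25 / 9 : ℝ) ^ (n+1))) := by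
          rw [← Real.exp_nat_mul, ← Real.exp_add]
          congr 1
          push_cast
          rw [pow_succ]
          ring
        rw [e1]
        have e2 : Real.exp (-(8/9 * (25 / 9 : ℝ) ^ n)) ≤ 1/2 := by
          have l2 := Real.log_two_lt_d9
          have : -(8/9 * (25 / 9 : ℝ) ^ n) ≤ -Real.log 2 := by linarith
          calc Real.exp (-(8/9 * (25 / 9 : ℝ) ^ n)) ≤ Real.exp (-Real.log 2) := Real.exp_le_exp.2 this
            _ = 1/2 := by rw [Real.exp_neg, Real.exp_log (by norm_num)]; norm_num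
        gcongr
      linarith
  obtain ⟨c', hc'⟩ : ∃ c' : ℝ, c' = 4 / (25 / 9 * Real.log T0) := ⟨_, rfl⟩
  have hc'0 : 0 < c' := by rw [hc']; positivity
  refine ⟨c', T0 ^ c', hc'0, by positivity, fun u hu => ?_⟩
  have hu0 : 0 < |u| := by linarith
  rcases le_total T0 |u| with hT | hT
  · have hy1 : 1 ≤ Real.log |u| / Real.log T0 := by
      rw [le_div_iff₀ hlog, one_mul]
      exact Real.log_le_log hT00 hT
    obtain ⟨n, hn1, hn2⟩ := exists_nat_pow_near hy1 (by norm_num : (1:ℝ) < 25/9)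
    have h1 : T0 ^ ((25 / 9 : ℝ) ^ n) ≤ |u| := by
      rw [Real.rpow_def_of_pos hT00, ← Real.le_log_iff_exp_le hu0]
      rw [le_div_iff₀ hlog] at hn1
      linarith
    have h2 := hB n u h1
    have h3 : Real.exp (-(4 * (25 / 9 : ℝ) ^ n)) ≤ |u| ^ (-c') := by
      rw [Real.rpow_def_of_pos hu0]
      apply Real.exp_le_exp.2
      have e1 : Real.log |u| * -c' = -(4 * ((Real.log |u| / Real.log T0) / (25/9))) := by
        rw [hc']; field_simp
      rw [e1]
      have e2 : (Real.log |u| / Real.log T0) / (25/9) ≤ (25 / 9 : ℝ) ^ n := by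
        rw [div_le_iff₀ (by norm_num), ← pow_succ]
        exact hn2.le
      linarith
    have h4 : (1:ℝ) ≤ T0 ^ c' := Real.one_le_rpow hT01.le hc'0.le
    have h5 : 0 < |u| ^ (-c') := by positivity
    nlinarith
  · have h1 : φ u ≤ 1 := (hq u hu).trans hq1.le
    refine h1.trans ?_
    rw [Real.rpow_neg hu0.le, ← div_eq_mul_inv, le_div_iff₀ (by positivity), one_mul]
    exact Real.rpow_le_rpow hu0.le hT hc'0.le

end Pool.Agent.T6.H62.AC
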