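import Pool.Agent.T6.H62.AC.Kit

open MeasureTheory Complex Filter Topology
open scoped ENNReal

namespace Pool.Agent.T6.H62.AC

namespace ModREP

/-- the one step law -/
noncomputable def P1 (a : ℝ) (μ : Measure ℝ) : Measure (ℝ × ℝ) :=
  ENNReal.ofReal a • (mulLaw μ μ).map (fun w : ℝ => (w, 1 - w)) +
    ENNReal.ofReal (1 - a) • μ.map (fun y : ℝ => ((0 : ℝ), y))

theorem lint_P1 (a : ℝ) (μ : Measure ℝ) {F : ℝ × ℝ → ℝ≥0∞} (hF : Measurable F) :
    ∫⁻ p, F p ∂(P1 a μ) = ENNReal.ofReal a * ∫⁻ w, F (w, 1 - w) ∂(mulLaw μ μ) +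
      ENNReal.ofReal (1 - a) * ∫⁻ y, F (0, y) ∂μ := by
  unfold P1
  rw [lintegral_add_measure, lintegral_smul_measure, lintegral_smul_measure,
    lintegral_map hF (by fun_prop), lintegral_map hF (by fun_prop)]
  rfl

theorem prob_P1 {a : ℝ} {μ : Measure ℝ} (h : Eqn a μ) : IsProbabilityMeasure (P1 a μ) := by
  have := h.prob
  have h1 := h.ha
  have h2 := h.ha1
  constructor
  rw [← lintegral_one, lint_P1 a μ measurable_const, lintegral_one, lintegral_one, measure_univ,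
    measure_univ, mul_one, mul_one, ← ENNReal.ofReal_add (by linarith) (by linarith)]
  simp

theorem ae_mul {μ : Measure ℝ} [IsProbabilityMeasure μ] (hs : ∀ᵐ x ∂μ, 0 < x ∧ x < 1) :
    ∀ᵐ w ∂(mulLaw μ μ), 0 < w ∧ w < 1 := by
  unfold mulLaw
  have hm : MeasurableSet {w : ℝ | 0 < w ∧ w < 1} :=
    (measurableSet_lt measurable_const measurable_id).inter
      (measurableSet_lt measurable_id measurable_const)
  rw [ae_map_iff (by fun_prop) hm]
  have h1 : ∀ᵐ z ∂(μ.prod μ), 0 < z.1 ∧ z.1 < 1 :=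
    (Measure.quasiMeasurePreserving_fst (μ := μ) (ν := μ)).ae hs
  have h2 : ∀ᵐ z ∂(μ.prod μ), 0 < z.2 ∧ z.2 < 1 :=
    (Measure.quasiMeasurePreserving_snd (μ := μ) (ν := μ)).ae hs
  filter_upwards [h1, h2] with z hz1 hz2
  exact ⟨mul_pos hz1.1 hz2.1, by nlinarith⟩

theorem supp_P1 {a : ℝ} {μ : Measure ℝ} (h : Eqn a μ) :
    ∀ᵐ p ∂(P1 a μ), (0 ≤ p.1 ∧ 0 < p.2 ∧ p.1 + p.2 ≤ 1) ∧ p.2 < 1 := by
  have := h.prob
  have hm : MeasurableSet {p : ℝ × ℝ | (0 ≤ p.1 ∧ 0 < p.2 ∧ p.1 + p.2 ≤ 1) ∧ p.2 < 1} := by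
    refine MeasurableSet.inter (MeasurableSet.inter ?_ (MeasurableSet.inter ?_ ?_)) ?_
    · exact measurableSet_le measurable_const measurable_fst
    · exact measurableSet_lt measurable_const measurable_snd
    · exact measurableSet_le (measurable_fst.add measurable_snd) measurable_const
    · exact measurableSet_lt measurable_snd measurable_const
  unfold P1
  rw [ae_add_measure_iff]
  refine ⟨Measure.ae_smul_measure ?_ _, Measure.ae_smul_measure ?_ _⟩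
  · rw [ae_map_iff (by fun_prop) hm]
    filter_upwards [ae_mul h.supp] with w hw
    exact ⟨⟨hw.1.le, by linarith [hw.2], by simp⟩, by linarith [hw.1]⟩
  · rw [ae_map_iff (by fun_prop) hm]
    filter_upwards [h.supp] with y hy
    exact ⟨⟨le_refl _, hy.1, by simpa using hy.2.le⟩, hy.2⟩

theorem rep_of_lint {μ : Measure ℝ} [IsProbabilityMeasure μ] {P : Measure (ℝ × ℝ)}
    (hP : IsProbabilityMeasure P) (hs : ∀ᵐ p ∂P, 0 ≤ p.1 ∧ 0 < p.2 ∧ p.1 + p.2 ≤ 1)
    (hl : ∀ g : ℝ → ℝ≥0∞, Measurable g →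
      ∫⁻ x, g x ∂μ = ∫⁻ p, ∫⁻ x, g (p.1 + p.2 * x) ∂μ ∂P) : Rep μ μ P := by
  refine ⟨hP, hs, ?_⟩
  refine Measure.ext_of_lintegral _ fun g hg => ?_
  rw [hl g hg, lintegral_map hg (by fun_prop), lintegral_prod _ (by fun_prop)]

theorem rep_P1 {a : ℝ} {μ : Measure ℝ} (h : Eqn a μ) : Rep μ μ (P1 a μ) := by
  have := h.prob
  refine rep_of_lint (prob_P1 h) ((supp_P1 h).mono fun p hp => hp.1) fun g hg => ?_
  have hF : Measurable fun p : ℝ × ℝ => ∫⁻ x, g (p.1 + p.2 * x) ∂μ :=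
    Measurable.lintegral_prod_right' (f := fun z : (ℝ × ℝ) × ℝ => g (z.1.1 + z.1.2 * z.2))
      (by fun_prop)
  rw [lint_P1 a μ hF, h.lint', lint_joinLaw _ _ hg, lint_mulLaw _ _ hg]
  congr 2
  · rw [lintegral_lintegral_swap (by fun_prop)]
    refine lintegral_congr fun w => lintegral_congr fun x => ?_
    congr 1
    ring
  · refine lintegral_congr fun w => lintegral_congr fun x => ?_
    congr 1
    ring

/-- freeze when the scale is at most `δ` -/
noncomputable def Phi (δ : ℝ) (z : (ℝ × ℝ) × (ℝ × ℝ)) : ℝ × ℝ :=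
  if z.1.2 ≤ δ then z.1 else (z.1.1 + z.1.2 * z.2.1, z.1.2 * z.2.2)

theorem meas_Phi (δ : ℝ) : Measurable (Phi δ) := by
  unfold Phi
  exact Measurable.ite (measurableSet_le (by fun_prop) (by fun_prop)) (by fun_prop) (by fun_prop)

/-- the chain -/
noncomputable def Pn (a : ℝ) (μ : Measure ℝ) (δ : ℝ) : ℕ → Measure (ℝ × ℝ)
  | 0 => Measure.dirac (0, 1)
  | n + 1 => ((Pn a μ δ n).prod (P1 a μ)).map (Phi δ)

theorem prob_Pn {a : ℝ} {μ : Measure ℝ} (h : Eqn a μ) (δ : ℝ) (n : ℕ) :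
    IsProbabilityMeasure (Pn a μ δ n) := by
  have := prob_P1 h
  induction n with
  | zero => exact Measure.dirac.isProbabilityMeasure
  | succ n ih =>
    have := ih
    exact Measure.isProbabilityMeasure_map (meas_Phi δ).aemeasurable

theorem lint_Pn {a : ℝ} {μ : Measure ℝ} (h : Eqn a μ) (δ : ℝ) (n : ℕ) {F : ℝ × ℝ → ℝ≥0∞}
    (hF : Measurable F) : ∫⁻ p, F p ∂(Pn a μ δ (n + 1)) =
      ∫⁻ p, ∫⁻ r, F (Phi δ (p, r)) ∂(P1 a μ) ∂(Pn a μ δ n) := by
  have := prob_P1 h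
  have := prob_Pn h δ n
  show ∫⁻ p, F p ∂(((Pn a μ δ n).prod (P1 a μ)).map (Phi δ)) = _
  rw [lintegral_map hF (meas_Phi δ),
    lintegral_prod (fun z => F (Phi δ z)) (hF.comp (meas_Phi δ)).aemeasurable]

theorem rep_Pn {a : ℝ} {μ : Measure ℝ} (h : Eqn a μ) (δ : ℝ) (n : ℕ) :
    Rep μ μ (Pn a μ δ n) := by
  have := h.prob
  have := prob_P1 h
  induction n with
  | zero =>
    refine rep_of_lint (prob_Pn h δ 0) ?_ fun g hg => ?_
    · show ∀ᵐ p ∂(Measure.dirac ((0 : ℝ), (1 : ℝ))), _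
      rw [ae_dirac_eq]
      show (0 : ℝ) ≤ 0 ∧ (0 : ℝ) < 1 ∧ (0 : ℝ) + 1 ≤ 1
      norm_num
    · show _ = ∫⁻ p, ∫⁻ x, g (p.1 + p.2 * x) ∂μ ∂(Measure.dirac ((0 : ℝ), (1 : ℝ)))
      rw [lintegral_dirac]
      simp
  | succ n ih =>
    have := prob_Pn h δ n
    refine rep_of_lint (prob_Pn h δ (n + 1)) ?_ fun g hg => ?_
    · have hm : MeasurableSet {p : ℝ × ℝ | 0 ≤ p.1 ∧ 0 < p.2 ∧ p.1 + p.2 ≤ 1} := by
        refine MeasurableSet.inter ?_ (MeasurableSet.inter ?_ ?_)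
        · exact measurableSet_le measurable_const measurable_fst
        · exact measurableSet_lt measurable_const measurable_snd
        · exact measurableSet_le (measurable_fst.add measurable_snd) measurable_const
      show ∀ᵐ p ∂(((Pn a μ δ n).prod (P1 a μ)).map (Phi δ)), _
      rw [ae_map_iff (meas_Phi δ).aemeasurable hm]
      have h1 := (Measure.quasiMeasurePreserving_fst (μ := Pn a μ δ n) (ν := P1 a μ)).ae ih.supp
      have h2 := (Measure.quasiMeasurePreserving_snd (μ := Pn a μ δ n) (ν := P1 a μ)).ae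
        (supp_P1 h)
      filter_upwards [h1, h2] with z hz1 hz2
      unfold Phi
      split_ifs with hd
      · exact hz1
      · obtain ⟨⟨b1, b2, b3⟩, b4⟩ := hz2
        obtain ⟨c1, c2, c3⟩ := hz1
        refine ⟨?_, ?_, ?_⟩
        · exact add_nonneg c1 (mul_nonneg c2.le b1)
        · exact mul_pos c2 b2
        · show z.1.1 + z.1.2 * z.2.1 + z.1.2 * z.2.2 ≤ 1
          nlinarith
    · have hF : Measurable fun p : ℝ × ℝ => ∫⁻ x, g (p.1 + p.2 * x) ∂μ :=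
        Measurable.lintegral_prod_right' (f := fun z : (ℝ × ℝ) × ℝ => g (z.1.1 + z.1.2 * z.2))
          (by fun_prop)
      rw [lint_Pn h δ n hF, ih.lint hg]
      refine lintegral_congr fun p => ?_
      by_cases hd : p.2 ≤ δ
      · have e : ∀ r : ℝ × ℝ, Phi δ (p, r) = p := fun r => if_pos hd
        simp only [e]
        rw [lintegral_const, measure_univ, mul_one]
      · have e : ∀ r : ℝ × ℝ, Phi δ (p, r) = (p.1 + p.2 * r.1, p.2 * r.2) := fun r => if_neg hd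
        simp only [e]
        rw [(rep_P1 h).lint (g := fun x => g (p.1 + p.2 * x)) (by fun_prop)]
        refine lintegral_congr fun w => lintegral_congr fun x => ?_
        congr 1
        ring

/-- truncated moment -/
noncomputable def G (δ s : ℝ) : ℝ × ℝ → ℝ≥0∞ :=
  Set.indicator {p | δ < p.2} fun p => ENNReal.ofReal (p.2 ^ s)

theorem meas_G (δ s : ℝ) : Measurable (G δ s) := by
  unfold G
  exact Measurable.indicator (by fun_prop) (measurableSet_lt measurable_const measurable_snd)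

/-- the factor of the contraction -/
noncomputable def qq (a : ℝ) (μ : Measure ℝ) (s : ℝ) : ℝ≥0∞ :=
  ∫⁻ r, ENNReal.ofReal (r.2 ^ s) ∂(P1 a μ)

theorem qq_lt {a : ℝ} {μ : Measure ℝ} (h : Eqn a μ) {s : ℝ} (hs : 0 < s) : qq a μ s < 1 := by
  have := prob_P1 h
  have h1 : ∀ᵐ r ∂(P1 a μ), ENNReal.ofReal (r.2 ^ s) < 1 := by
    filter_upwards [supp_P1 h] with r hr
    rw [ENNReal.ofReal_lt_one]
    exact Real.rpow_lt_one hr.1.2.1.le hr.2 hs
  have h2 : ∫⁻ _, (1 : ℝ≥0∞) ∂(P1 a μ) = 1 := by rw [lintegral_one, measure_univ]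
  have h3 : qq a μ s ≠ ⊤ := by
    refine ne_top_of_le_ne_top ENNReal.one_ne_top ?_
    rw [← h2]
    exact lintegral_mono_ae (h1.mono fun r hr => hr.le)
  rw [← h2]
  exact lintegral_strict_mono (IsProbabilityMeasure.ne_zero _) (by fun_prop) h3 h1

theorem J_succ {a : ℝ} {μ : Measure ℝ} (h : Eqn a μ) {δ s : ℝ} (hδ : 0 < δ) (n : ℕ) :
    ∫⁻ p, G δ s p ∂(Pn a μ δ (n + 1)) ≤ qq a μ s * ∫⁻ p, G δ s p ∂(Pn a μ δ n) := by
  have := prob_P1 h
  rw [lint_Pn h δ n (meas_G δ s), ← lintegral_const_mul _ (meas_G δ s)]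
  refine lintegral_mono fun p => ?_
  by_cases hd : p.2 ≤ δ
  · have e : ∀ r : ℝ × ℝ, Phi δ (p, r) = p := fun r => if_pos hd
    have e2 : G δ s p = 0 := by
      unfold G
      rw [Set.indicator_of_notMem]
      exact not_lt.2 hd
    simp only [e, e2]
    simp
  · have e : ∀ r : ℝ × ℝ, Phi δ (p, r) = (p.1 + p.2 * r.1, p.2 * r.2) := fun r => if_neg hd
    have e2 : G δ s p = ENNReal.ofReal (p.2 ^ s) := by
      unfold G
      rw [Set.indicator_of_mem]
      exact not_le.1 hd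
    have hp : 0 < p.2 := lt_trans hδ (not_le.1 hd)
    simp only [e, e2]
    unfold qq
    rw [← lintegral_mul_const _ (by fun_prop)]
    refine lintegral_mono_ae ?_
    filter_upwards [supp_P1 h] with r hr
    have h1 : G δ s (p.1 + p.2 * r.1, p.2 * r.2) ≤ ENNReal.ofReal ((p.2 * r.2) ^ s) := by
      unfold G
      exact Set.indicator_le_self' (fun _ _ => zero_le) _
    refine h1.trans ?_
    rw [Real.mul_rpow hp.le hr.1.2.1.le, ENNReal.ofReal_mul (Real.rpow_nonneg hp.le s), mul_comm]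

theorem J_le {a : ℝ} {μ : Measure ℝ} (h : Eqn a μ) {δ s : ℝ} (hδ : 0 < δ) (n : ℕ) :
    ∫⁻ p, G δ s p ∂(Pn a μ δ n) ≤ qq a μ s ^ n := by
  induction n with
  | zero =>
    show ∫⁻ p, G δ s p ∂(Measure.dirac ((0 : ℝ), (1 : ℝ))) ≤ _
    rw [lintegral_dirac, pow_zero]
    unfold G
    refine (Set.indicator_le_self' (fun _ _ => zero_le) _).trans ?_
    simp
  | succ n ih =>
    refine (J_succ h hδ n).trans ?_
    rw [pow_succ, mul_comm (qq a μ s ^ n)]
    exact mul_le_mul_right ih _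

/-- the negative moment of the one step law -/
noncomputable def EE (a : ℝ) (μ : Measure ℝ) (θ : ℝ) : ℝ≥0∞ :=
  ∫⁻ r, ENNReal.ofReal (r.2 ^ (-θ)) ∂(P1 a μ)

theorem EE_ne {a : ℝ} {μ : Measure ℝ} {θ : ℝ} (h : Eqn a μ) (hm : Mom μ θ) :
    EE a μ θ ≠ ⊤ := by
  have := h.prob
  unfold EE
  rw [lint_P1 a μ (by fun_prop)]
  refine ENNReal.add_ne_top.2 ⟨ENNReal.mul_ne_top ENNReal.ofReal_ne_top ?_,
    ENNReal.mul_ne_top ENNReal.ofReal_ne_top hm.m0⟩
  show ∫⁻ w, ENNReal.ofReal ((1 - w) ^ (-θ)) ∂(mulLaw μ μ) ≠ ⊤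
  rw [lint_mulLaw _ _ (by fun_prop)]
  refine ne_top_of_le_ne_top hm.m1 ?_
  refine lintegral_mono_ae ?_
  filter_upwards [h.supp] with y hy
  have h1 : ∫⁻ z, ENNReal.ofReal ((1 - y * z) ^ (-θ)) ∂μ ≤
      ∫⁻ _, ENNReal.ofReal ((1 - y) ^ (-θ)) ∂μ := by
    refine lintegral_mono_ae ?_
    filter_upwards [h.supp] with z hz
    refine ENNReal.ofReal_le_ofReal ?_
    refine Real.rpow_le_rpow_of_nonpos (by linarith [hy.2]) (by nlinarith [hy.1, hz.2]) ?_
    linarith [hm.pos]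
  refine h1.trans ?_
  rw [lintegral_const, measure_univ, mul_one]

theorem e_succ {a : ℝ} {μ : Measure ℝ} (h : Eqn a μ) {δ θ : ℝ} (hδ : 0 < δ) (hθ : 0 < θ)
    (n : ℕ) :
    ∫⁻ p, ENNReal.ofReal (p.2 ^ (-θ)) ∂(Pn a μ δ (n + 1)) ≤
      ∫⁻ p, ENNReal.ofReal (p.2 ^ (-θ)) ∂(Pn a μ δ n) +
        ENNReal.ofReal (δ ^ (-(11 / 10 * θ))) * EE a μ θ *
          ∫⁻ p, G δ (θ / 10) p ∂(Pn a μ δ n) := by
  have := prob_P1 h
  rw [lint_Pn h δ n (by fun_prop), ← lintegral_const_mul _ (meas_G δ (θ / 10)),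
    ← lintegral_add_right _ ((meas_G δ (θ / 10)).const_mul _)]
  refine lintegral_mono fun p => ?_
  by_cases hd : p.2 ≤ δ
  · have e : ∀ r : ℝ × ℝ, Phi δ (p, r) = p := fun r => if_pos hd
    simp only [e]
    rw [lintegral_const, measure_univ, mul_one]
    exact le_self_add
  · have e : ∀ r : ℝ × ℝ, Phi δ (p, r) = (p.1 + p.2 * r.1, p.2 * r.2) := fun r => if_neg hd
    have e2 : G δ (θ / 10) p = ENNReal.ofReal (p.2 ^ (θ / 10)) := by
      unfold G
      rw [Set.indicator_of_mem]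
      exact not_le.1 hd
    have hdl : δ < p.2 := not_le.1 hd
    have hp : 0 < p.2 := lt_trans hδ hdl
    simp only [e, e2]
    have h1 : ∫⁻ r, ENNReal.ofReal ((p.2 * r.2) ^ (-θ)) ∂(P1 a μ) ≤
        ENNReal.ofReal (p.2 ^ (-θ)) * EE a μ θ := by
      unfold EE
      rw [← lintegral_const_mul _ (by fun_prop)]
      refine lintegral_mono_ae ?_
      filter_upwards [supp_P1 h] with r hr
      rw [Real.mul_rpow hp.le hr.1.2.1.le, ENNReal.ofReal_mul (Real.rpow_nonneg hp.le _)]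
    have h2 : ENNReal.ofReal (p.2 ^ (-θ)) ≤ ENNReal.ofReal (δ ^ (-(11 / 10 * θ))) *
        ENNReal.ofReal (p.2 ^ (θ / 10)) := by
      rw [← ENNReal.ofReal_mul (Real.rpow_nonneg hδ.le _)]
      refine ENNReal.ofReal_le_ofReal ?_
      have h3 : p.2 ^ (-θ) = p.2 ^ (-(11 / 10 * θ)) * p.2 ^ (θ / 10) := by
        rw [← Real.rpow_add hp]
        congr 1
        ring
      rw [h3]
      refine mul_le_mul_of_nonneg_right ?_ (Real.rpow_nonneg hp.le _)
      exact Real.rpow_le_rpow_of_nonpos hδ hdl.le (by linarith)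
    refine h1.trans (le_trans ?_ le_add_self)
    calc ENNReal.ofReal (p.2 ^ (-θ)) * EE a μ θ ≤
          (ENNReal.ofReal (δ ^ (-(11 / 10 * θ))) * ENNReal.ofReal (p.2 ^ (θ / 10))) *
            EE a μ θ := mul_le_mul_left h2 _
      _ = _ := by ring

theorem e_le {a : ℝ} {μ : Measure ℝ} (h : Eqn a μ) {δ θ : ℝ} (hδ : 0 < δ) (hθ : 0 < θ)
    (n : ℕ) :
    ∫⁻ p, ENNReal.ofReal (p.2 ^ (-θ)) ∂(Pn a μ δ n) ≤
      1 + ENNReal.ofReal (δ ^ (-(11 / 10 * θ))) * EE a μ θ *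
        ∑ k ∈ Finset.range n, qq a μ (θ / 10) ^ k := by
  induction n with
  | zero =>
    show ∫⁻ p, ENNReal.ofReal (p.2 ^ (-θ)) ∂(Measure.dirac ((0 : ℝ), (1 : ℝ))) ≤ _
    rw [lintegral_dirac]
    simp
  | succ n ih =>
    refine (e_succ h hδ hθ n).trans ?_
    rw [Finset.sum_range_succ, mul_add, ← add_assoc]
    exact add_le_add ih (mul_le_mul_right (J_le h hδ n) _)

end ModREP

open ModREP in
theorem rep : StmREP := by
  intro a μ θ h hm
  have hθ := hm.pos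
  have := h.prob
  have hq := qq_lt h (s := θ / 10) (by linarith)
  have hE := EE_ne h hm
  set q := qq a μ (θ / 10) with hqd
  have hq1 : (1 - q)⁻¹ ≠ ⊤ := ENNReal.inv_ne_top.2 (tsub_pos_of_lt hq).ne'
  have hK : 1 + EE a μ θ * (1 - q)⁻¹ ≠ ⊤ :=
    ENNReal.add_ne_top.2 ⟨ENNReal.one_ne_top, ENNReal.mul_ne_top hE hq1⟩
  refine ⟨(1 + EE a μ θ * (1 - q)⁻¹).toReal, ?_, ?_⟩
  · refine ENNReal.toReal_pos ?_ hK
    exact (lt_of_lt_of_le one_pos le_self_add).ne'
  intro δ ε hδ hδ1 hε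
  have hpos : 0 < ENNReal.ofReal (δ ^ (θ / 10)) :=
    ENNReal.ofReal_pos.2 (Real.rpow_pos_of_pos hδ _)
  obtain ⟨n, hn⟩ : ∃ n, q ^ n < ENNReal.ofReal (δ ^ (θ / 10)) * ENNReal.ofReal ε := by
    have h1 := ENNReal.tendsto_pow_atTop_nhds_zero_of_lt_one hq
    have h2 : 0 < ENNReal.ofReal (δ ^ (θ / 10)) * ENNReal.ofReal ε :=
      ENNReal.mul_pos hpos.ne' (ENNReal.ofReal_pos.2 hε).ne'
    exact (h1.eventually (gt_mem_nhds h2)).exists
  refine ⟨Pn a μ δ n, rep_Pn h δ n, ?_, ?_⟩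
  · have h1 : ENNReal.ofReal (δ ^ (θ / 10)) * Pn a μ δ n {p | δ < p.2} ≤
        ENNReal.ofReal (δ ^ (θ / 10)) * ENNReal.ofReal ε := by
      refine le_trans ?_ ((J_le h hδ n).trans hn.le)
      rw [← lintegral_indicator_const (measurableSet_lt measurable_const measurable_snd)]
      refine lintegral_mono fun p => ?_
      unfold G
      by_cases hx : δ < p.2
      · rw [Set.indicator_of_mem (show p ∈ {p : ℝ × ℝ | δ < p.2} from hx),
          Set.indicator_of_mem (show p ∈ {p : ℝ × ℝ | δ < p.2} from hx)]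
        exact ENNReal.ofReal_le_ofReal (Real.rpow_le_rpow hδ.le (le_of_lt hx) (by linarith))
      · rw [Set.indicator_of_notMem (show p ∉ {p : ℝ × ℝ | δ < p.2} from hx)]
        exact zero_le
    exact (ENNReal.mul_le_mul_iff_right hpos.ne' ENNReal.ofReal_ne_top).1 h1
  · refine (e_le h hδ hθ n).trans ?_
    have h1 : ∑ k ∈ Finset.range n, q ^ k ≤ (1 - q)⁻¹ := by
      rw [← ENNReal.tsum_geometric]
      exact ENNReal.sum_le_tsum _
    have h2 : (1 : ℝ≥0∞) ≤ ENNReal.ofReal (δ ^ (-(11 / 10 * θ))) := by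
      rw [← ENNReal.ofReal_one]
      refine ENNReal.ofReal_le_ofReal ?_
      exact Real.one_le_rpow_of_pos_of_le_one_of_nonpos hδ hδ1 (by linarith)
    rw [ENNReal.ofReal_mul ENNReal.toReal_nonneg, ENNReal.ofReal_toReal hK, add_mul, one_mul]
    refine add_le_add h2 ?_
    calc _ ≤ ENNReal.ofReal (δ ^ (-(11 / 10 * θ))) * EE a μ θ * (1 - q)⁻¹ :=
          mul_le_mul_right h1 _
      _ = _ := by ring

end Pool.Agent.T6.H62.AC
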