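import Pool.Agent.T6.H62.AC.Kit

set_option autoImplicit false

open MeasureTheory Complex Filter Topology
open scoped ENNReal

namespace Pool.Agent.T6.H62.AC

theorem rep2 : StmREP2 := by
  intro a μ θ hE hM hG
  haveI := hE.prob
  obtain ⟨C, hC, hG⟩ := hG
  have hI0t : ∫⁻ x, ENNReal.ofReal (x ^ (-θ)) ∂μ ≠ ⊤ := hM.m0
  refine ⟨C * ((∫⁻ x, ENNReal.ofReal (x ^ (-θ)) ∂μ).toReal + 1), by positivity, ?_⟩
  intro δ ε hδ hδ1 hε
  obtain ⟨P, hR, hP1, hP2⟩ := hG δ ε hδ hδ1 hε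
  haveI := hR.prob
  have hmeas : Measurable (fun z : ℝ × (ℝ × ℝ) => (z.1 * z.2.1, z.1 * z.2.2)) := by fun_prop
  have h1 : ∀ᵐ z ∂(μ.prod P), (0 < z.1 ∧ z.1 < 1) :=
    Measure.quasiMeasurePreserving_fst.ae hE.supp
  have h2 : ∀ᵐ z ∂(μ.prod P), (0 ≤ z.2.1 ∧ 0 < z.2.2 ∧ z.2.1 + z.2.2 ≤ 1) :=
    Measure.quasiMeasurePreserving_snd.ae hR.supp
  refine ⟨(μ.prod P).map (fun z => (z.1 * z.2.1, z.1 * z.2.2)),
    ⟨Measure.isProbabilityMeasure_map hmeas.aemeasurable, ?_, ?_⟩, ?_, ?_⟩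
  · have hms : MeasurableSet {p : ℝ × ℝ | 0 ≤ p.1 ∧ 0 < p.2 ∧ p.1 + p.2 ≤ 1} := by
      apply MeasurableSet.inter
      · exact measurableSet_le measurable_const measurable_fst
      apply MeasurableSet.inter
      · exact measurableSet_lt measurable_const measurable_snd
      · exact measurableSet_le (measurable_fst.add measurable_snd) measurable_const
    rw [ae_map_iff hmeas.aemeasurable hms]
    filter_upwards [h1, h2] with z hz1 hz2
    obtain ⟨ha, hb⟩ := hz1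
    obtain ⟨hc, hd, he⟩ := hz2
    refine ⟨by positivity, by positivity, ?_⟩
    have : z.1 * (z.2.1 + z.2.2) ≤ 1 * 1 := by
      apply mul_le_mul hb.le he (by positivity) (by norm_num)
    show z.1 * z.2.1 + z.1 * z.2.2 ≤ 1
    nlinarith
  · apply Measure.ext_of_lintegral
    intro g hg
    rw [lint_mulLaw μ μ hg, lintegral_map hg (by fun_prop), lintegral_prod _ (by fun_prop),
      lintegral_map (by fun_prop) hmeas, lintegral_prod _ (by fun_prop)]
    apply lintegral_congr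
    intro z
    rw [hR.lint (g := fun x => g (z * x)) (by fun_prop)]
    apply lintegral_congr
    intro p
    apply lintegral_congr
    intro x
    congr 1
    ring
  · have hms : MeasurableSet {p : ℝ × ℝ | δ < p.2} :=
      measurableSet_lt measurable_const measurable_snd
    rw [Measure.map_apply hmeas hms]
    refine le_trans ?_ hP1
    calc (μ.prod P) ((fun z : ℝ × (ℝ × ℝ) => (z.1 * z.2.1, z.1 * z.2.2)) ⁻¹' {p | δ < p.2})
        ≤ (μ.prod P) (Set.univ ×ˢ {p : ℝ × ℝ | δ < p.2}) := by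
          apply measure_mono_ae
          filter_upwards [h1, h2] with z hz1 hz2 hz
          obtain ⟨ha, hb⟩ := hz1
          obtain ⟨hc, hd, he⟩ := hz2
          have hz' : δ < z.1 * z.2.2 := hz
          refine ⟨trivial, ?_⟩
          show δ < z.2.2
          nlinarith
      _ = P {p | δ < p.2} := by
          rw [Measure.prod_prod, measure_univ, one_mul]
  · rw [lintegral_map (by fun_prop) hmeas]
    have : ∫⁻ z : ℝ × (ℝ × ℝ), ENNReal.ofReal ((z.1 * z.2.2) ^ (-θ)) ∂(μ.prod P) =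
        (∫⁻ x, ENNReal.ofReal (x ^ (-θ)) ∂μ) * ∫⁻ p, ENNReal.ofReal (p.2 ^ (-θ)) ∂P := by
      rw [← lintegral_prod_mul (by fun_prop) (by fun_prop)]
      apply lintegral_congr_ae
      filter_upwards [h1, h2] with z hz1 hz2
      obtain ⟨ha, hb⟩ := hz1
      obtain ⟨hc, hd, he⟩ := hz2
      rw [Real.mul_rpow ha.le hd.le, ENNReal.ofReal_mul (by positivity)]
    show ∫⁻ z : ℝ × (ℝ × ℝ), ENNReal.ofReal ((z.1 * z.2.2) ^ (-θ)) ∂(μ.prod P) ≤ _
    rw [this]
    calc (∫⁻ x, ENNReal.ofReal (x ^ (-θ)) ∂μ) * ∫⁻ p, ENNReal.ofReal (p.2 ^ (-θ)) ∂P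
        ≤ ENNReal.ofReal ((∫⁻ x, ENNReal.ofReal (x ^ (-θ)) ∂μ).toReal) *
            ENNReal.ofReal (C * δ ^ (-(11 / 10 * θ))) := by
          rw [ENNReal.ofReal_toReal hI0t]
          gcongr
      _ = ENNReal.ofReal ((∫⁻ x, ENNReal.ofReal (x ^ (-θ)) ∂μ).toReal *
            (C * δ ^ (-(11 / 10 * θ)))) := by
          rw [← ENNReal.ofReal_mul ENNReal.toReal_nonneg]
      _ ≤ _ := by
          apply ENNReal.ofReal_le_ofReal
          have : 0 ≤ C * δ ^ (-(11 / 10 * θ)) := by positivity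
          nlinarith

end Pool.Agent.T6.H62.AC
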