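import Pool.Agent.T6.H62.AC.Kit

open MeasureTheory Complex Filter Topology Real
open scoped ENNReal FourierTransform

namespace Pool.Agent.T6.H62.AC

namespace ModSMA

noncomputable def psi (ρ : Measure ℝ) (ξ : ℝ) : ℂ := charFun ρ (2 * π * ξ)

theorem psi_cont (ρ : Measure ℝ) [IsFiniteMeasure ρ] : Continuous (psi ρ) := by
  unfold psi
  exact continuous_charFun.comp (by fun_prop)

theorem psi_int (ρ : Measure ℝ) [IsFiniteMeasure ρ] (n : ℕ) (C : ℝ)
    (h : ∀ t : ℝ, 1 ≤ |t| → ‖charFun ρ t‖ ≤ C * |t| ^ (-((n : ℝ) + 2))) (j : ℕ) (hj : j ≤ n) :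
    Integrable (fun v => ‖v‖ ^ j * ‖psi ρ v‖) := by
  have hint : Integrable (fun x : ℝ => (4 * ρ.real Set.univ + 4 * |C|) *
      (1 + ‖x‖) ^ (-(2 : ℝ))) := by
    apply Integrable.const_mul
    apply integrable_one_add_norm
    simp
  refine hint.mono' ?_ ?_
  · exact ((continuous_norm.pow j).mul (psi_cont ρ).norm).aestronglyMeasurable
  · refine Eventually.of_forall fun v => ?_
    rw [Real.norm_of_nonneg (by positivity)]
    have hpos : 0 < 1 + ‖v‖ := by positivity
    rw [Real.rpow_neg hpos.le, Real.rpow_two, ← div_eq_mul_inv, le_div_iff₀ (by positivity)]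
    have hr : 0 ≤ ρ.real Set.univ := measureReal_nonneg
    have hpn : ‖psi ρ v‖ ≤ ρ.real Set.univ := norm_charFun_le _
    rcases le_or_gt ‖v‖ 1 with hv | hv
    · have h1 : ‖v‖ ^ j ≤ 1 := pow_le_one₀ (norm_nonneg _) hv
      have h2 : (1 + ‖v‖) ^ 2 ≤ 4 := by nlinarith [norm_nonneg v]
      have h3 : ‖v‖ ^ j * ‖psi ρ v‖ ≤ 1 * ρ.real Set.univ :=
        mul_le_mul h1 hpn (norm_nonneg _) zero_le_one
      have h4 : ‖v‖ ^ j * ‖psi ρ v‖ * (1 + ‖v‖) ^ 2 ≤ (1 * ρ.real Set.univ) * 4 :=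
        mul_le_mul h3 h2 (by positivity) (by positivity)
      have := abs_nonneg C
      linarith
    · have hvn : ‖v‖ = |v| := rfl
      have h2 : (1 + ‖v‖) ^ 2 ≤ 4 * ‖v‖ ^ 2 := by nlinarith
      have ht : |v| ≤ |2 * π * v| := by
        rw [abs_mul, abs_of_pos (by positivity : (0 : ℝ) < 2 * π)]
        nlinarith [Real.pi_gt_three, abs_nonneg v]
      have h5 : ‖psi ρ v‖ ≤ |C| * |v| ^ (-((n : ℝ) + 2)) := by
        refine (h (2 * π * v) (by rw [hvn] at hv; linarith)).trans ?_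
        refine mul_le_mul (le_abs_self C) ?_ (by positivity) (abs_nonneg C)
        exact Real.rpow_le_rpow_of_nonpos (by rw [hvn] at hv; linarith) ht
          (by have : (0 : ℝ) ≤ n := Nat.cast_nonneg n; linarith)
      have h6 : ‖v‖ ^ j * ‖psi ρ v‖ * (1 + ‖v‖) ^ 2 ≤
          ‖v‖ ^ j * (|C| * |v| ^ (-((n : ℝ) + 2))) * (4 * ‖v‖ ^ 2) :=
        mul_le_mul (mul_le_mul_of_nonneg_left h5 (by positivity)) h2 (by positivity)
          (by positivity)
      refine h6.trans ?_
      have h7 : ‖v‖ ^ j * (|C| * |v| ^ (-((n : ℝ) + 2))) * (4 * ‖v‖ ^ 2) =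
          4 * |C| * (‖v‖ ^ (j + 2) * ‖v‖ ^ (-((n : ℝ) + 2))) := by
        rw [hvn, pow_add]; ring
      rw [h7]
      have h8 : ‖v‖ ^ (j + 2) * ‖v‖ ^ (-((n : ℝ) + 2)) ≤ 1 := by
        have h9 : ‖v‖ ^ (j + 2) ≤ ‖v‖ ^ (n + 2) := pow_le_pow_right₀ hv.le (by omega)
        have h10 : ‖v‖ ^ (-((n : ℝ) + 2)) = (‖v‖ ^ (n + 2))⁻¹ := by
          rw [Real.rpow_neg (norm_nonneg _), ← Real.rpow_natCast]
          push_cast
          rfl
        rw [h10, ← div_eq_mul_inv, div_le_one (by positivity)]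
        exact h9
      have := abs_nonneg C
      nlinarith

/-- the Gaussian kernel -/
noncomputable def gk (c y : ℝ) : ℝ := √(π * c) * rexp (-(π ^ 2 * c) * y ^ 2)

theorem gk_nonneg (c y : ℝ) : 0 ≤ gk c y := by unfold gk; positivity

theorem gk_four (c : ℝ) (hc : 0 < c) (y : ℝ) :
    ∫ ξ : ℝ, cexp (-(c : ℂ)⁻¹ * ‖ξ‖ ^ 2) * cexp (((2 * π * ξ * y : ℝ) : ℂ) * I) = (gk c y : ℂ) := by
  have hb : 0 < ((c : ℂ)⁻¹).re := by
    rw [← Complex.ofReal_inv, Complex.ofReal_re]; positivity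
  have h := fourierIntegral_gaussian hb ((2 * π * y : ℝ) : ℂ)
  have h1 : ∀ ξ : ℝ, cexp (-(c : ℂ)⁻¹ * ‖ξ‖ ^ 2) * cexp (((2 * π * ξ * y : ℝ) : ℂ) * I) =
      cexp (I * ((2 * π * y : ℝ) : ℂ) * ξ) * cexp (-(c : ℂ)⁻¹ * ξ ^ 2) := by
    intro ξ
    have h2 : ((‖ξ‖ : ℝ) : ℂ) ^ 2 = (ξ : ℂ) ^ 2 := by
      rw [Real.norm_eq_abs, ← Complex.ofReal_pow, sq_abs, Complex.ofReal_pow]
    rw [h2, mul_comm]
    congr 2
    push_cast; ring
  simp_rw [h1]
  rw [h]
  unfold gk
  have hcne : (c : ℂ) ≠ 0 := by exact_mod_cast hc.ne'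
  have h3 : (π : ℂ) / (c : ℂ)⁻¹ = ((π * c : ℝ) : ℂ) := by
    push_cast; field_simp
  rw [h3, Real.sqrt_eq_rpow, Complex.ofReal_mul ((π * c) ^ (1 / 2 : ℝ)),
    Complex.ofReal_cpow (by positivity)]
  congr 1
  · norm_num
  · rw [Complex.ofReal_exp]
    congr 1
    push_cast
    field_simp
    ring

theorem gk_int (c : ℝ) (hc : 0 < c) (x : ℝ) : ∫⁻ y, ENNReal.ofReal (gk c (x - y)) = 1 := by
  have h0 : Integrable (fun y : ℝ => gk c (x - y)) := by
    have : Integrable (fun y : ℝ => gk c y) := by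
      unfold gk
      exact (integrable_exp_neg_mul_sq (by positivity)).const_mul _
    exact this.comp_sub_left x
  rw [← ofReal_integral_eq_lintegral_ofReal h0 (Eventually.of_forall fun y => gk_nonneg _ _),
    integral_sub_left_eq_self (fun y => gk c y) volume x]
  unfold gk
  rw [integral_const_mul, integral_gaussian, ← Real.sqrt_mul (by positivity)]
  have : π * c * (π / (π ^ 2 * c)) = 1 := by
    have := Real.pi_pos.ne'
    field_simp
  rw [this]
  simp

/-- Gaussian regularisation of the inverse transform -/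
theorem fub (ρ : Measure ℝ) [IsFiniteMeasure ρ] (c : ℝ) (hc : 0 < c) (x₀ : ℝ) :
    ∫ ξ : ℝ, cexp (-(c : ℂ)⁻¹ * ‖ξ‖ ^ 2) •
      (cexp (((-2 * π * ξ * x₀ : ℝ) : ℂ) * I) • psi ρ ξ) =
    ((∫ x, gk c (x - x₀) ∂ρ : ℝ) : ℂ) := by
  have hb : 0 < ((c : ℂ)⁻¹).re := by
    rw [← Complex.ofReal_inv, Complex.ofReal_re]; positivity
  have h1 : ∀ ξ : ℝ, cexp (-(c : ℂ)⁻¹ * ‖ξ‖ ^ 2) •
      (cexp (((-2 * π * ξ * x₀ : ℝ) : ℂ) * I) • psi ρ ξ) =
      ∫ x, cexp (-(c : ℂ)⁻¹ * ‖ξ‖ ^ 2) * cexp (((2 * π * ξ * (x - x₀) : ℝ) : ℂ) * I) ∂ρ := by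
    intro ξ
    unfold psi
    rw [charFun_apply_real, smul_eq_mul, smul_eq_mul, ← integral_const_mul, ← integral_const_mul]
    apply integral_congr_ae
    refine Eventually.of_forall fun x => ?_
    show _ = _
    simp only
    rw [mul_assoc]
    congr 1
    rw [← Complex.exp_add]
    congr 1
    push_cast
    ring
  simp_rw [h1]
  rw [integral_integral_swap]
  · rw [← integral_complex_ofReal]
    apply integral_congr_ae
    refine Eventually.of_forall fun x => ?_
    exact gk_four c hc (x - x₀)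
  · have h2 : Integrable (fun ξ : ℝ => cexp (-(c : ℂ)⁻¹ * ‖ξ‖ ^ 2)) := by
      have h3 := integrable_cexp_neg_mul_sq hb
      refine h3.congr (Eventually.of_forall fun ξ => ?_)
      show _ = _
      simp only
      have h2 : ((‖ξ‖ : ℝ) : ℂ) ^ 2 = (ξ : ℂ) ^ 2 := by
        rw [Real.norm_eq_abs, ← Complex.ofReal_pow, sq_abs, Complex.ofReal_pow]
      rw [h2]
    have h4 : Integrable (fun z : ℝ × ℝ => cexp (-(c : ℂ)⁻¹ * ‖z.1‖ ^ 2)) (volume.prod ρ) :=
      h2.comp_fst ρ
    refine h4.mono ?_ ?_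
    · apply Measurable.aestronglyMeasurable
      unfold Function.uncurry
      fun_prop
    · refine Eventually.of_forall fun z => ?_
      unfold Function.uncurry
      rw [norm_mul, Complex.norm_exp_ofReal_mul_I, mul_one]

theorem lim (ρ : Measure ℝ) [IsFiniteMeasure ρ] (hi : Integrable (psi ρ)) (x₀ : ℝ) :
    Tendsto (fun c : ℝ => ((∫ x, gk c (x - x₀) ∂ρ : ℝ) : ℂ)) atTop (𝓝 (𝓕 (psi ρ) x₀)) := by
  have h0 : Integrable (fun ξ : ℝ => cexp (((-2 * π * ξ * x₀ : ℝ) : ℂ) * I) • psi ρ ξ) := by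
    refine hi.mono ?_ ?_
    · apply Continuous.aestronglyMeasurable
      exact (by fun_prop : Continuous fun ξ : ℝ => cexp (((-2 * π * ξ * x₀ : ℝ) : ℂ) * I)).smul
        (psi_cont ρ)
    · refine Eventually.of_forall fun z => ?_
      rw [norm_smul, Complex.norm_exp_ofReal_mul_I, one_mul]
  have h := Real.tendsto_integral_cexp_sq_smul h0
  rw [Real.fourier_real_eq_integral_exp_smul]
  refine h.congr' ?_
  filter_upwards [eventually_gt_atTop 0] with c hc
  rw [← fub ρ c hc x₀]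
  simp only [Complex.ofReal_inv]

end ModSMA

open ModSMA in
theorem sma : StmSMA := by
  intro ρ n C hρ h
  have hi : Integrable (psi ρ) := by
    have := psi_int ρ n C h 0 (Nat.zero_le _)
    simp only [pow_zero, one_mul] at this
    exact (integrable_norm_iff (psi_cont ρ).aestronglyMeasurable).1 this
  have hC : ContDiff ℝ n (𝓕 (psi ρ)) := by
    have := Real.contDiff_fourier (f := psi ρ) (N := (n : ℕ∞))
      (fun j hj => psi_int ρ n C h j (by exact_mod_cast hj))
    exact_mod_cast this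
  have hre : ∀ x, 0 ≤ (𝓕 (psi ρ) x).re := by
    intro x
    have h1 := (Complex.continuous_re.tendsto _).comp (lim ρ hi x)
    refine ge_of_tendsto h1 (Eventually.of_forall fun c => ?_)
    simp only [Function.comp_apply, Complex.ofReal_re]
    exact integral_nonneg fun _ => gk_nonneg _ _
  have him : ∀ x, 𝓕 (psi ρ) x = (((𝓕 (psi ρ) x).re : ℝ) : ℂ) := by
    intro x
    have h1 := (Complex.continuous_im.tendsto _).comp (lim ρ hi x)
    have h2 : (𝓕 (psi ρ) x).im = 0 := by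
      refine tendsto_nhds_unique h1 ?_
      refine tendsto_const_nhds.congr fun c => ?_
      simp
    apply Complex.ext
    · simp
    · simp [h2]
  set f : ℝ → ℝ := fun x => (𝓕 (psi ρ) x).re with hf
  have hfC : ContDiff ℝ n f := by
    have := Complex.reCLM.contDiff.comp hC (n := n)
    exact this
  have hfc : Continuous f := hfC.continuous
  have hlim : ∀ x, Tendsto (fun k : ℕ => ENNReal.ofReal (∫ y, gk ((k : ℝ) + 1) (y - x) ∂ρ))
      atTop (𝓝 (ENNReal.ofReal (f x))) := by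
    intro x
    apply (ENNReal.continuous_ofReal.tendsto _).comp
    have h1 := (Complex.continuous_re.tendsto _).comp (lim ρ hi x)
    have h2 : Tendsto (fun k : ℕ => (k : ℝ) + 1) atTop atTop :=
      tendsto_atTop_add_const_right _ _ tendsto_natCast_atTop_atTop
    have h3 := h1.comp h2
    refine h3.congr fun k => ?_
    simp
  have hgm : ∀ c : ℝ, Measurable (fun z : ℝ × ℝ => ENNReal.ofReal (gk c (z.2 - z.1))) := by
    intro c
    unfold gk
    fun_prop
  have hgi : ∀ c x : ℝ, 0 < c → ENNReal.ofReal (∫ y, gk c (y - x) ∂ρ) =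
      ∫⁻ y, ENNReal.ofReal (gk c (y - x)) ∂ρ := by
    intro c x hc
    refine ofReal_integral_eq_lintegral_ofReal ?_ (Eventually.of_forall fun y => gk_nonneg _ _)
    refine Integrable.of_bound (C := √(π * c)) ?_ ?_
    · apply Measurable.aestronglyMeasurable
      unfold gk
      fun_prop
    · refine Eventually.of_forall fun y => ?_
      rw [Real.norm_of_nonneg (gk_nonneg _ _)]
      unfold gk
      refine mul_le_of_le_one_right (Real.sqrt_nonneg _) ?_
      rw [Real.exp_le_one_iff]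
      have : 0 ≤ π ^ 2 * c * (y - x) ^ 2 := by positivity
      linarith
  have hmass : ∫⁻ x, ENNReal.ofReal (f x) ≤ ρ Set.univ := by
    have h1 : ∀ x, ENNReal.ofReal (f x) =
        liminf (fun k : ℕ => ENNReal.ofReal (∫ y, gk ((k : ℝ) + 1) (y - x) ∂ρ)) atTop :=
      fun x => (hlim x).liminf_eq.symm
    simp_rw [h1]
    refine (lintegral_liminf_le ?_).trans ?_
    · intro k
      simp_rw [hgi _ _ (Nat.cast_add_one_pos k)]
      exact (hgm _).lintegral_prod_right'
    · have h2 : ∀ k : ℕ, ∫⁻ x, ENNReal.ofReal (∫ y, gk ((k : ℝ) + 1) (y - x) ∂ρ) =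
          ρ Set.univ := by
        intro k
        simp_rw [hgi _ _ (Nat.cast_add_one_pos k)]
        rw [lintegral_lintegral_swap (hgm _).aemeasurable]
        simp_rw [gk_int _ (Nat.cast_add_one_pos k)]
        simp
      simp_rw [h2]
      simp
  have hfi : Integrable f := by
    refine ⟨hfc.aestronglyMeasurable, ?_⟩
    rw [hasFiniteIntegral_iff_ofReal (Eventually.of_forall hre)]
    exact hmass.trans_lt (measure_lt_top _ _)
  have hFi : Integrable (𝓕 (psi ρ)) := by
    have : 𝓕 (psi ρ) = fun x => ((f x : ℝ) : ℂ) := funext him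
    rw [this]
    exact hfi.ofReal
  have hinv := (psi_cont ρ).fourierInv_fourier_eq hi hFi
  refine ⟨f, hfC, hre, ?_⟩
  have : IsFiniteMeasure (volume.withDensity (fun x => ENNReal.ofReal (f x))) :=
    isFiniteMeasure_withDensity_ofReal hfi.2
  apply Measure.ext_of_charFun
  funext t
  have h1 : charFun ρ t = psi ρ (t / (2 * π)) := by
    unfold psi
    congr 1
    have := Real.pi_pos.ne'
    field_simp
  rw [h1, ← hinv, Real.fourierInv_eq', charFun_apply_real,
    integral_withDensity_eq_integral_toReal_smul (by fun_prop)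
      (Eventually.of_forall fun x => ENNReal.ofReal_lt_top)]
  apply integral_congr_ae
  refine Eventually.of_forall fun x => ?_
  show _ = _
  simp only
  rw [him x, ENNReal.toReal_ofReal (hre x)]
  rw [Complex.real_smul, smul_eq_mul, mul_comm]
  have hpi : (π : ℂ) ≠ 0 := by exact_mod_cast Real.pi_pos.ne'
  congr 2
  simp only [conj_trivial, RCLike.inner_apply, Complex.ofReal_mul, Complex.ofReal_div,
    Complex.ofReal_ofNat]
  field_simp

end Pool.Agent.T6.H62.AC
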