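import Pool.Agent.T6.H62.AC.Kit

/-!
Project AC, module SMB: from fast decaying weighted transforms to a smooth density on `(0,1)`.
-/

open MeasureTheory Complex Filter Topology
open scoped ENNReal

namespace Pool.Agent.T6.H62.AC.Smb

theorem piece (hA : StmSMA) (μ : Measure ℝ) (hμ : IsProbabilityMeasure μ)
    (hs : ∀ᵐ x ∂μ, 0 < x ∧ x < 1) (n p q : ℕ) (C : ℝ)
    (hC : ∀ t : ℝ, 1 ≤ t →
      ‖Lw μ p q (fun x => cexp (t * x * I))‖ ≤ C * t ^ (-((n : ℝ) + 2))) :
    ∃ f : ℝ → ℝ, (∀ x ∈ Set.Ioo (0 : ℝ) 1, 0 ≤ f x) ∧ ContDiffOn ℝ n f (Set.Ioo 0 1) ∧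
      μ = (volume.restrict (Set.Ioo 0 1)).withDensity (fun x => ENNReal.ofReal (f x)) := by
  obtain ⟨W, hW⟩ : ∃ W : ℝ → ℝ, W = fun x => x ^ p * (1 - x) ^ q := ⟨_, rfl⟩
  have hWm : Measurable W := by rw [hW]; fun_prop
  have hWc : ContDiff ℝ n W := by rw [hW]; fun_prop
  have hWpos : ∀ x ∈ Set.Ioo (0 : ℝ) 1, 0 < W x := by
    intro x hx
    rw [hW]
    have h1 : 0 < x := hx.1
    have h2 : 0 < 1 - x := by linarith [hx.2]
    positivity
  have hW1 : ∀ x ∈ Set.Ioo (0 : ℝ) 1, W x ≤ 1 := by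
    intro x hx
    rw [hW]
    have h1 : 0 < x := hx.1
    have h2 : 0 < 1 - x := by linarith [hx.2]
    exact mul_le_one₀ (pow_le_one₀ h1.le hx.2.le) (by positivity)
      (pow_le_one₀ h2.le (by linarith))
  have hs' : ∀ᵐ x ∂μ, x ∈ Set.Ioo (0 : ℝ) 1 := hs
  obtain ⟨ρ, hρ⟩ : ∃ ρ : Measure ℝ, ρ = μ.withDensity (fun x => ENNReal.ofReal (W x)) := ⟨_, rfl⟩
  have hWm' : Measurable (fun x => ENNReal.ofReal (W x)) := hWm.ennreal_ofReal
  have hfin : IsFiniteMeasure ρ := by
    rw [hρ]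
    apply isFiniteMeasure_withDensity
    have h1 : ∫⁻ x, ENNReal.ofReal (W x) ∂μ ≤ ∫⁻ _, 1 ∂μ := by
      apply lintegral_mono_ae
      filter_upwards [hs'] with x hx
      rw [← ENNReal.ofReal_one]
      exact ENNReal.ofReal_le_ofReal (hW1 x hx)
    refine ne_top_of_le_ne_top ?_ h1
    simp
  have hchar : ∀ t : ℝ, charFun ρ t = Lw μ p q (fun x => cexp (t * x * I)) := by
    intro t
    rw [charFun_apply_real, hρ, integral_withDensity_eq_integral_toReal_smul hWm'
      (Eventually.of_forall fun x => ENNReal.ofReal_lt_top)]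
    unfold Lw
    apply integral_congr_ae
    filter_upwards [hs'] with x hx
    rw [ENNReal.toReal_ofReal (hWpos x hx).le, real_smul, hW]
  have hdec : ∀ t : ℝ, 1 ≤ |t| → ‖charFun ρ t‖ ≤ C * |t| ^ (-((n : ℝ) + 2)) := by
    intro t ht
    rcases le_total 0 t with h | h
    · rw [abs_of_nonneg h] at ht ⊢
      rw [hchar]
      exact hC t ht
    · rw [abs_of_nonpos h] at ht ⊢
      have h1 : ‖charFun ρ t‖ = ‖charFun ρ (-t)‖ := by
        rw [charFun_neg]
        exact (RCLike.norm_conj _).symm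
      rw [h1, hchar]
      exact hC (-t) ht
  obtain ⟨h, hh, hh0, hhρ⟩ := hA ρ n C hfin hdec
  refine ⟨fun x => h x / W x, ?_, ?_, ?_⟩
  · intro x hx
    exact div_nonneg (hh0 x) (hWpos x hx).le
  · exact hh.contDiffOn.div hWc.contDiffOn (fun x hx => (hWpos x hx).ne')
  · have hhm : Measurable (fun x => ENNReal.ofReal (h x)) := hh.continuous.measurable.ennreal_ofReal
    have e1 : μ = ρ.withDensity (fun x => (ENNReal.ofReal (W x))⁻¹) := by
      rw [hρ]
      refine (withDensity_inv_same hWm' ?_ ?_).symm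
      · filter_upwards [hs'] with x hx
        rw [Ne, ENNReal.ofReal_eq_zero, not_le]
        exact hWpos x hx
      · exact Eventually.of_forall fun x => ENNReal.ofReal_ne_top
    have e2 : μ = volume.withDensity
        ((fun x => ENNReal.ofReal (h x)) * (fun x => (ENNReal.ofReal (W x))⁻¹)) := by
      have e0 := withDensity_mul volume hhm (g := fun x => (ENNReal.ofReal (W x))⁻¹) hWm'.inv
      rw [e0, ← hhρ]
      exact e1
    have e3 : μ = μ.restrict (Set.Ioo 0 1) := (Measure.restrict_eq_self_of_ae_mem hs').symm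
    rw [e3]
    conv_lhs => rw [e2]
    rw [restrict_withDensity measurableSet_Ioo]
    apply withDensity_congr_ae
    rw [Filter.EventuallyEq, ae_restrict_iff' measurableSet_Ioo]
    refine Eventually.of_forall fun x hx => ?_
    simp only [Pi.mul_apply]
    rw [ENNReal.ofReal_div_of_pos (hWpos x hx), div_eq_mul_inv]

theorem smb : StmSMB := by
  intro hA μ hμ hs hL
  have hp : ∀ n : ℕ, ∃ f : ℝ → ℝ, (∀ x ∈ Set.Ioo (0 : ℝ) 1, 0 ≤ f x) ∧
      ContDiffOn ℝ n f (Set.Ioo 0 1) ∧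
      μ = (volume.restrict (Set.Ioo 0 1)).withDensity (fun x => ENNReal.ofReal (f x)) := by
    intro n
    obtain ⟨p, q, C, hC⟩ := hL n
    exact piece hA μ hμ hs n p q C hC
  choose f hf0 hfc hfμ using hp
  have hcont : ∀ n, ContinuousOn (f n) (Set.Ioo 0 1) := fun n => (hfc n).continuousOn
  have hmeas : ∀ n, AEMeasurable (fun x => ENNReal.ofReal (f n x))
      (volume.restrict (Set.Ioo (0 : ℝ) 1)) := fun n =>
    ((hcont n).aemeasurable measurableSet_Ioo).ennreal_ofReal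
  have heq : ∀ n, Set.EqOn (f n) (f 0) (Set.Ioo 0 1) := by
    intro n
    apply Measure.eqOn_open_of_ae_eq (μ := volume) ?_ isOpen_Ioo (hcont n) (hcont 0)
    have h1 : (volume.restrict (Set.Ioo (0 : ℝ) 1)).withDensity (fun x => ENNReal.ofReal (f n x))
        = (volume.restrict (Set.Ioo (0 : ℝ) 1)).withDensity (fun x => ENNReal.ofReal (f 0 x)) :=
      (hfμ n).symm.trans (hfμ 0)
    have hfin : ∫⁻ x in Set.Ioo (0 : ℝ) 1, ENNReal.ofReal (f n x) ≠ ⊤ := by
      have h2 : μ Set.univ = ∫⁻ x in Set.Ioo (0 : ℝ) 1, ENNReal.ofReal (f n x) := by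
        conv_lhs => rw [hfμ n]
        rw [withDensity_apply _ MeasurableSet.univ, Measure.restrict_univ]
      rw [← h2]
      exact measure_ne_top μ _
    have h3 := (withDensity_eq_iff (hmeas n) (hmeas 0) hfin).1 h1
    have h4 : ∀ᵐ x ∂(volume.restrict (Set.Ioo (0 : ℝ) 1)), x ∈ Set.Ioo (0 : ℝ) 1 :=
      ae_restrict_mem measurableSet_Ioo
    filter_upwards [h3, h4] with x hx hx4
    exact (ENNReal.ofReal_eq_ofReal_iff (hf0 n x hx4) (hf0 0 x hx4)).1 hx
  refine ⟨(Set.Ioo (0 : ℝ) 1).indicator (f 0), ?_, ?_, ?_⟩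
  · intro x
    exact Set.indicator_nonneg (fun y hy => hf0 0 y hy) x
  · rw [contDiffOn_infty]
    intro n
    refine (hfc n).congr ?_
    intro x hx
    rw [Set.indicator_of_mem hx]
    exact (heq n hx).symm
  · conv_lhs => rw [hfμ 0]
    apply withDensity_congr_ae
    rw [Filter.EventuallyEq, ae_restrict_iff' measurableSet_Ioo]
    refine Eventually.of_forall fun x hx => ?_
    rw [Set.indicator_of_mem hx]

end Pool.Agent.T6.H62.AC.Smb
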