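import Pool.Agent.T6.H62.AC.Kit

open MeasureTheory Complex Filter Topology
open scoped ENNReal

namespace Pool.Agent.T6.H62.AC

namespace ModStep

/-- main part of a term -/
theorem mainTerm (s : ℝ) (k p q : ℕ) (K K₁ : ℝ) (hs : 0 < s) (hK : 0 ≤ K)
    (hp : K + s * k ≤ p) (hK₁ : K + s ≤ K₁)
    (z c b B T : ℝ) (hz0 : 0 < z) (hz1 : z < 1) (hc0 : 0 < c) (hc1 : c < 1) (hb : 0 ≤ b)
    (hB : 0 < B) (hT : 0 < T) :
    z ^ p * (1 - z) ^ q * min 1 ((T * B * c) ^ (-s)) *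
      ((T * z) ^ (-(s * k)) * b * (c ^ K₁ * (1 - c) ^ K₁)) ≤
    T ^ (-(s * ((k + 1 : ℕ) : ℝ))) * (B ^ (-s) * b) * ((z * c) ^ K * (1 - z * c) ^ K) := by
  have h1c : 0 < 1 - c := by linarith
  have h1z : 0 < 1 - z := by linarith
  have hzc : z * c < 1 := by nlinarith
  have h1zc : 0 < 1 - z * c := by linarith
  have m1 : min 1 ((T * B * c) ^ (-s)) ≤ T ^ (-s) * B ^ (-s) * c ^ (-s) := by
    refine (min_le_right _ _).trans_eq ?_
    rw [Real.mul_rpow (by positivity) hc0.le, Real.mul_rpow hT.le hB.le]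
  have m0 : 0 ≤ min 1 ((T * B * c) ^ (-s)) := le_min zero_le_one (by positivity)
  have m2 : (1 - z) ^ q ≤ 1 := pow_le_one₀ h1z.le (by linarith)
  have m3 : (T * z) ^ (-(s * k)) = T ^ (-(s * k)) * z ^ (-(s * k)) :=
    Real.mul_rpow hT.le hz0.le
  have m4 : z ^ p * z ^ (-(s * k)) ≤ z ^ K := by
    rw [← Real.rpow_natCast z p, ← Real.rpow_add hz0]
    exact Real.rpow_le_rpow_of_exponent_ge hz0 hz1.le (by linarith)
  have m5 : c ^ (-s) * c ^ K₁ ≤ c ^ K := by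
    rw [← Real.rpow_add hc0]
    exact Real.rpow_le_rpow_of_exponent_ge hc0 hc1.le (by linarith)
  have m6 : (1 - c) ^ K₁ ≤ (1 - z * c) ^ K := by
    refine (Real.rpow_le_rpow_of_exponent_ge h1c (by linarith) (by linarith : K ≤ K₁)).trans ?_
    exact Real.rpow_le_rpow h1c.le (by nlinarith) hK
  have m7 : T ^ (-s) * T ^ (-(s * k)) = T ^ (-(s * ((k + 1 : ℕ) : ℝ))) := by
    rw [← Real.rpow_add hT]
    congr 1
    push_cast
    ring
  rw [m3]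
  calc z ^ p * (1 - z) ^ q * min 1 ((T * B * c) ^ (-s)) *
        (T ^ (-(s * k)) * z ^ (-(s * k)) * b * (c ^ K₁ * (1 - c) ^ K₁))
      ≤ z ^ p * 1 * (T ^ (-s) * B ^ (-s) * c ^ (-s)) *
        (T ^ (-(s * k)) * z ^ (-(s * k)) * b * (c ^ K₁ * (1 - c) ^ K₁)) := by gcongr
    _ = T ^ (-(s * ((k + 1 : ℕ) : ℝ))) * (B ^ (-s) * b) *
        ((z ^ p * z ^ (-(s * k))) * (c ^ (-s) * c ^ K₁) * (1 - c) ^ K₁) := by
        rw [← m7]; ring
    _ ≤ T ^ (-(s * ((k + 1 : ℕ) : ℝ))) * (B ^ (-s) * b) *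
        (z ^ K * c ^ K * (1 - z * c) ^ K) := by gcongr
    _ = _ := by rw [Real.mul_rpow hz0.le hc0.le]

/-- one term of the expansion -/
theorem oneTerm (s : ℝ) (k p q : ℕ) (K K₁ : ℝ) (hs : 0 < s) (hK : 0 ≤ K)
    (hp : K + s * k ≤ p) (hK₁ : K + s ≤ K₁)
    (z c b B t δ τ CA C a1 a2 : ℝ) (n0 n m j l : ℕ) (hj : j ≤ n)
    (hz0 : 0 < z) (hz1 : z < 1) (hc0 : 0 < c) (hc1 : c < 1) (hb : 0 ≤ b)
    (hB : 0 < B) (hBδ : B ≤ δ) (hδ1 : δ ≤ 1) (htδ : t * δ ^ 2 ≤ 1) (hτ : τ ≠ 0) (hτt : |τ| ≤ t)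
    (hCA : 0 ≤ CA) (hC : 0 ≤ C)
    (ha1 : 0 ≤ a1) (ha2 : 0 ≤ a2)
    (h1 : a1 ≤ CA * (z ^ p * (1 - z) ^ q) * min 1 (|τ * B * c| ^ (-s)))
    (h2 : a2 ≤ C * δ ^ (n - j + l + m) *
      (|τ * z| ^ (-(s * k)) * b * (c ^ K₁ * (1 - c) ^ K₁) + (t * δ ^ 2) ^ n0)) :
    (|τ| ^ m * B ^ (m + j)) * a1 * a2 ≤
      CA * C * (δ ^ n * (|τ| ^ (-(s * ((k + 1 : ℕ) : ℝ))) * (B ^ (-s) * b) *
        ((z * c) ^ K * (1 - z * c) ^ K) + (t * δ ^ 2) ^ n0)) := by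
  have hT : 0 < |τ| := abs_pos.2 hτ
  have hδ : 0 < δ := by linarith
  have ht : 0 < t := by linarith
  have h1z : 0 < 1 - z := by linarith
  have e1 : |τ * B * c| = |τ| * B * c := by
    rw [abs_mul, abs_mul, abs_of_pos hB, abs_of_pos hc0]
  have e2 : |τ * z| = |τ| * z := by rw [abs_mul, abs_of_pos hz0]
  rw [e1] at h1
  rw [e2] at h2
  have hmain := mainTerm s k p q K K₁ hs hK hp hK₁ z c b B |τ| hz0 hz1 hc0 hc1 hb hB hT
  set M : ℝ := (|τ| * z) ^ (-(s * k)) * b * (c ^ K₁ * (1 - c) ^ K₁) with hM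
  set D1 : ℝ := |τ| ^ (-(s * ((k + 1 : ℕ) : ℝ))) * (B ^ (-s) * b) *
        ((z * c) ^ K * (1 - z * c) ^ K) with hD1
  set mn : ℝ := min 1 ((|τ| * B * c) ^ (-s)) with hmn
  have mn0 : 0 ≤ mn := le_min zero_le_one (by positivity)
  have mn1 : mn ≤ 1 := min_le_left _ _
  have hE : 0 ≤ (t * δ ^ 2) ^ n0 := by positivity
  have hfac : z ^ p * (1 - z) ^ q * mn ≤ 1 := by
    have a : z ^ p ≤ 1 := pow_le_one₀ hz0.le hz1.le
    have b' : (1 - z) ^ q ≤ 1 := pow_le_one₀ h1z.le (by linarith)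
    calc z ^ p * (1 - z) ^ q * mn ≤ 1 * 1 * 1 := by gcongr
      _ = 1 := by norm_num
  have hfac0 : 0 ≤ z ^ p * (1 - z) ^ q * mn := by positivity
  have hpow : t ^ m * δ ^ (m + j) * δ ^ (n - j + l + m) ≤ δ ^ n := by
    have e : t ^ m * δ ^ (m + j) * δ ^ (n - j + l + m) = δ ^ n * ((t * δ ^ 2) ^ m * δ ^ l) := by
      rw [mul_pow, ← pow_mul, mul_assoc, ← pow_add]
      have : m + j + (n - j + l + m) = n + (2 * m + l) := by omega
      rw [this, pow_add, pow_add]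
      ring
    rw [e]
    have a : (t * δ ^ 2) ^ m ≤ 1 := pow_le_one₀ (by positivity) htδ
    have b' : δ ^ l ≤ 1 := pow_le_one₀ hδ.le hδ1
    calc δ ^ n * ((t * δ ^ 2) ^ m * δ ^ l) ≤ δ ^ n * (1 * 1) := by gcongr
      _ = δ ^ n := by ring
  have hM0 : 0 ≤ M := by
    have : 0 < 1 - c := by linarith
    rw [hM]; positivity
  calc (|τ| ^ m * B ^ (m + j)) * a1 * a2
      ≤ (t ^ m * δ ^ (m + j)) * (CA * (z ^ p * (1 - z) ^ q) * mn) *
        (C * δ ^ (n - j + l + m) * (M + (t * δ ^ 2) ^ n0)) := by gcongr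
    _ = CA * C * ((t ^ m * δ ^ (m + j) * δ ^ (n - j + l + m)) *
        (z ^ p * (1 - z) ^ q * mn * M + z ^ p * (1 - z) ^ q * mn * (t * δ ^ 2) ^ n0)) := by ring
    _ ≤ CA * C * (δ ^ n * (D1 + 1 * (t * δ ^ 2) ^ n0)) := by gcongr
    _ = _ := by rw [one_mul]

end ModStep

open ModStep in
theorem step (h : StmSTX) : StmSTEP := by
  intro μ s hμ hsupp hs hs1 hamp n0 k N p q K K₁ L C hK hp hK₁ hL hC
  choose CA hCA0 hCA using fun r => hamp p q r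
  obtain ⟨CM, hCM⟩ : ∃ CM : ℝ, CM = ∑ r ∈ Finset.range (N + n0 + 1), CA r := ⟨_, rfl⟩
  have hCM0 : 0 ≤ CM := by rw [hCM]; exact Finset.sum_nonneg fun r _ => (hCA0 r).le
  have hCle : ∀ r, r ≤ N + n0 → CA r ≤ CM := by
    intro r hr
    rw [hCM]
    exact Finset.single_le_sum (f := CA) (fun i _ => (hCA0 i).le) (Finset.mem_range.2 (by omega))
  obtain ⟨S, hS⟩ : ∃ S : ℕ → ℝ, S = fun n => ∑ m ∈ Finset.range n0, ∑ j ∈ Finset.range (n + 1),
      ∑ l ∈ Finset.range (j + 1), (n.choose j : ℝ) * (j.choose l : ℝ) := ⟨_, rfl⟩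
  have hS0 : ∀ n, 0 ≤ S n := by
    intro n
    rw [hS]
    positivity
  obtain ⟨ST, hST⟩ : ∃ ST : ℝ, ST = ∑ n ∈ Finset.range (N + 1), S n := ⟨_, rfl⟩
  have hSle : ∀ n, n ≤ N → S n ≤ ST := by
    intro n hn
    rw [hST]
    exact Finset.single_le_sum (f := S) (fun i _ => hS0 i) (Finset.mem_range.2 (by omega))
  have hST0 : 0 ≤ ST := by rw [hST]; exact Finset.sum_nonneg fun r _ => hS0 r
  refine ⟨ST * (CM * C) + (L + 1) ^ N * L ^ n0 + 1, by positivity, ?_⟩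
  intro Ω' _ Q X W c b t δ A B hQ hX hW ht hδ hδ1 htδ hA hB hAB hBδ hE
  obtain ⟨hc0, hc1, hb, hae, hint⟩ := hE
  obtain ⟨z, hz⟩ : ∃ z : ℝ, z = A + B / 2 := ⟨_, rfl⟩
  have hz0 : 0 < z := by rw [hz]; linarith
  have hz1 : z < 1 := by rw [hz]; linarith
  rw [← hz]
  have hzc1 : z * c < 1 := by nlinarith
  refine ⟨by positivity, hzc1, by positivity, ?_, ?_⟩
  · have a1 : ∀ᵐ w ∂(μ.prod Q), 0 < w.1 ∧ w.1 < 1 :=
      Measure.quasiMeasurePreserving_fst.ae hsupp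
    have a2 : ∀ᵐ w ∂(μ.prod Q), 0 ≤ X w.2 ∧ X w.2 ≤ 1 ∧ 0 ≤ W w.2 ∧ W w.2 ≤ 1 ∧
        |X w.2 - c| ≤ L * δ := Measure.quasiMeasurePreserving_snd.ae hae
    filter_upwards [a1, a2] with w h1 h2
    obtain ⟨x0, x1⟩ := h1
    obtain ⟨X0, X1, W0, W1, hXc⟩ := h2
    have u0 : 0 ≤ A + B * w.1 := by positivity
    have u1 : A + B * w.1 ≤ 1 := by nlinarith
    have u2 : 0 ≤ 1 - (A + B * w.1) := by linarith
    have v1 : (A + B * w.1) ^ p ≤ 1 := pow_le_one₀ u0 u1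
    have v2 : (1 - (A + B * w.1)) ^ q ≤ 1 := pow_le_one₀ u2 (by linarith)
    refine ⟨by positivity, ?_, by positivity, ?_, ?_⟩
    · calc (A + B * w.1) * X w.2 ≤ 1 * 1 := by gcongr
        _ = 1 := by norm_num
    · calc (A + B * w.1) ^ p * (1 - (A + B * w.1)) ^ q * W w.2 ≤ 1 * 1 * 1 := by gcongr
        _ = 1 := by norm_num
    · have e : (A + B * w.1) * X w.2 - z * c = (B * (w.1 - 1 / 2)) * X w.2 + z * (X w.2 - c) := by
        rw [hz]; ring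
      rw [e]
      have f1 : |(B * (w.1 - 1 / 2)) * X w.2| ≤ B := by
        rw [abs_mul, abs_mul, abs_of_pos hB, abs_of_nonneg X0]
        have g : |w.1 - 1 / 2| ≤ 1 := by rw [abs_le]; constructor <;> linarith
        calc B * |w.1 - 1 / 2| * X w.2 ≤ B * 1 * 1 := by gcongr
          _ = B := by ring
      have f2 : |z * (X w.2 - c)| ≤ L * δ := by
        rw [abs_mul, abs_of_pos hz0]
        calc z * |X w.2 - c| ≤ 1 * (L * δ) := by gcongr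
          _ = L * δ := by ring
      calc |(B * (w.1 - 1 / 2)) * X w.2 + z * (X w.2 - c)|
          ≤ |(B * (w.1 - 1 / 2)) * X w.2| + |z * (X w.2 - c)| := abs_add_le _ _
        _ ≤ (L + 1) * δ := by linarith
  · intro n hn τ hτ hτt
    have hstx := h μ hμ hsupp Ω' _ Q X W c t δ A B L τ p q n n0 hQ hX hW hae hc0 hc1 hδ hδ1 hL hA hB
      hAB hBδ hτt
    rw [← hz] at hstx
    refine hstx.trans ?_
    obtain ⟨D, hD⟩ : ∃ D : ℝ, D = |τ| ^ (-(s * ((k + 1 : ℕ) : ℝ))) * (B ^ (-s) * b) *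
        ((z * c) ^ K * (1 - z * c) ^ K) + (t * δ ^ 2) ^ n0 := ⟨_, rfl⟩
    rw [← hD]
    have hD1 : (t * δ ^ 2) ^ n0 ≤ D := by
      have : 0 < 1 - z * c := by linarith
      have : 0 ≤ |τ| ^ (-(s * ((k + 1 : ℕ) : ℝ))) * (B ^ (-s) * b) *
        ((z * c) ^ K * (1 - z * c) ^ K) := by positivity
      rw [hD]; linarith
    have hD0 : 0 ≤ D := le_trans (by positivity) hD1
    have hsum : (∑ m ∈ Finset.range n0, ∑ j ∈ Finset.range (n + 1), ∑ l ∈ Finset.range (j + 1),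
        (n.choose j : ℝ) * (j.choose l : ℝ) * (|τ| ^ m * B ^ (m + j)) *
        ‖∫ x, (((A + B * x) ^ p * (1 - (A + B * x)) ^ q * (x - 1 / 2) ^ (j + m) : ℝ) : ℂ) *
          cexp (((τ * B * c : ℝ) : ℂ) * x * I) ∂μ‖ *
        ‖∫ ω, (((X ω - c) ^ (n - j + l + m) * W ω : ℝ) : ℂ) *
          cexp (((τ * z : ℝ) : ℂ) * X ω * I) ∂Q‖) ≤ S n * (CM * C * (δ ^ n * D)) := by
      rw [hS]
      simp only
      rw [Finset.sum_mul]
      refine Finset.sum_le_sum fun m hm => ?_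
      rw [Finset.sum_mul]
      refine Finset.sum_le_sum fun j hj => ?_
      rw [Finset.sum_mul]
      refine Finset.sum_le_sum fun l hl => ?_
      rw [Finset.mem_range] at hm hj hl
      have hτB : τ * B * c ≠ 0 := mul_ne_zero (mul_ne_zero hτ hB.ne') hc0.ne'
      have b1 := hCA (j + m) A B (τ * B * c) hA hB hAB hτB
      rw [← hz] at b1
      have b1' : ‖∫ x, (((A + B * x) ^ p * (1 - (A + B * x)) ^ q * (x - 1 / 2) ^ (j + m) : ℝ) : ℂ) *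
          cexp (((τ * B * c : ℝ) : ℂ) * x * I) ∂μ‖ ≤
          CM * (z ^ p * (1 - z) ^ q) * min 1 (|τ * B * c| ^ (-s)) := by
        refine b1.trans ?_
        have g1 : 0 ≤ min 1 (|τ * B * c| ^ (-s)) := le_min zero_le_one (by positivity)
        have g2 : 0 < 1 - z := by linarith
        have g3 := hCle (j + m) (by omega)
        gcongr
      have hτz : |τ * z| ≤ t := by
        rw [abs_mul, abs_of_pos hz0]
        nlinarith [abs_nonneg τ]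
      have b2 := hint (n - j + l + m) (by omega) (τ * z) (mul_ne_zero hτ hz0.ne') hτz
      have key := oneTerm s k p q K K₁ hs hK hp hK₁ z c b B t δ τ CM C _ _ n0 n m j l (by omega)
        hz0 hz1 hc0 hc1 hb hB hBδ hδ1 htδ hτ hτt hCM0 hC (norm_nonneg _) (norm_nonneg _) b1' b2
      rw [← hD] at key
      have hco : (0:ℝ) ≤ (n.choose j : ℝ) * (j.choose l : ℝ) := by positivity
      calc _ = ((n.choose j : ℝ) * (j.choose l : ℝ)) * ((|τ| ^ m * B ^ (m + j)) *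
        ‖∫ x, (((A + B * x) ^ p * (1 - (A + B * x)) ^ q * (x - 1 / 2) ^ (j + m) : ℝ) : ℂ) *
          cexp (((τ * B * c : ℝ) : ℂ) * x * I) ∂μ‖ *
        ‖∫ ω, (((X ω - c) ^ (n - j + l + m) * W ω : ℝ) : ℂ) *
          cexp (((τ * z : ℝ) : ℂ) * X ω * I) ∂Q‖) := by ring
        _ ≤ _ := mul_le_mul_of_nonneg_left key hco
    have hrem : ((L + 1) * δ) ^ n * (t * L * δ ^ 2) ^ n0 ≤ (L + 1) ^ N * L ^ n0 * (δ ^ n * D) := by
      have e : ((L + 1) * δ) ^ n * (t * L * δ ^ 2) ^ n0 =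
          (L + 1) ^ n * L ^ n0 * (δ ^ n * (t * δ ^ 2) ^ n0) := by
        rw [mul_pow, show t * L * δ ^ 2 = L * (t * δ ^ 2) by ring, mul_pow]
        ring
      rw [e]
      have g : (L + 1) ^ n ≤ (L + 1) ^ N := pow_le_pow_right₀ (by linarith) hn
      gcongr
    have hfin : S n * (CM * C * (δ ^ n * D)) ≤ ST * (CM * C * (δ ^ n * D)) := by
      have := hSle n hn
      gcongr
    have hlast : 0 ≤ 1 * (δ ^ n * D) := by positivity
    calc _ ≤ ST * (CM * C * (δ ^ n * D)) + (L + 1) ^ N * L ^ n0 * (δ ^ n * D) :=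
          add_le_add (hsum.trans hfin) hrem
      _ ≤ ST * (CM * C * (δ ^ n * D)) + (L + 1) ^ N * L ^ n0 * (δ ^ n * D) + 1 * (δ ^ n * D) := by
          linarith
      _ = _ := by ring

end Pool.Agent.T6.H62.AC
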