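import Pool.Agent.T6.H62.AC.Kit

open MeasureTheory Complex Filter Topology
open scoped ENNReal

namespace Pool.Agent.T6.H62.AC

namespace ModSTEPJ

theorem norm_cexp_I (u : ℝ) : ‖cexp (u * I)‖ = 1 := Complex.norm_exp_ofReal_mul_I u

theorem norm_negOne_pow (n : ℕ) : ‖((-1 : ℂ)) ^ n‖ = 1 := by
  rw [norm_pow, norm_neg, norm_one, one_pow]

/-- reflection of an elementary piece -/
theorem elem_refl {Ω' : Type} [MeasurableSpace Ω'] {s t δ : ℝ} {n0 k N : ℕ} {K L C : ℝ}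
    {Q : Measure Ω'} {X W : Ω' → ℝ} {c b : ℝ} (h : Elem s t δ n0 k N K L C Q X W c b) :
    Elem s t δ n0 k N K L C Q (fun ω => 1 - X ω) W (1 - c) b := by
  obtain ⟨h1, h2, h3, h4, h5⟩ := h
  refine ⟨by linarith, by linarith, h3, ?_, ?_⟩
  · filter_upwards [h4] with ω hω
    obtain ⟨a1, a2, a3, a4, a5⟩ := hω
    refine ⟨by linarith, by linarith, a3, a4, ?_⟩
    rw [show 1 - X ω - (1 - c) = -(X ω - c) by ring, abs_neg]
    exact a5
  · intro n hn τ hτ hτt
    have h6 := h5 n hn (-τ) (neg_ne_zero.mpr hτ) (by rwa [abs_neg])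
    have e1 : (∫ ω, (((1 - X ω - (1 - c)) ^ n * W ω : ℝ) : ℂ) *
        cexp (τ * ((1 - X ω : ℝ) : ℂ) * I) ∂Q) =
        ((-1 : ℂ) ^ n * cexp (τ * I)) *
        ∫ ω, (((X ω - c) ^ n * W ω : ℝ) : ℂ) * cexp (((-τ : ℝ) : ℂ) * X ω * I) ∂Q := by
      rw [← integral_const_mul]
      apply integral_congr_ae
      refine Eventually.of_forall fun ω => ?_
      have e2 : cexp (τ * ((1 - X ω : ℝ) : ℂ) * I) =
          cexp (τ * I) * cexp (((-τ : ℝ) : ℂ) * X ω * I) := by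
        rw [← Complex.exp_add]
        congr 1
        push_cast
        ring
      have e3 : (1 - X ω - (1 - c)) ^ n = (-1) ^ n * (X ω - c) ^ n := by
        rw [← mul_pow]
        congr 1
        ring
      show (((1 - X ω - (1 - c)) ^ n * W ω : ℝ) : ℂ) * cexp (τ * ((1 - X ω : ℝ) : ℂ) * I) =
        ((-1 : ℂ) ^ n * cexp (τ * I)) *
          ((((X ω - c) ^ n * W ω : ℝ) : ℂ) * cexp (((-τ : ℝ) : ℂ) * X ω * I))
      rw [e2, e3]
      push_cast
      ring
    rw [e1, norm_mul, norm_mul, norm_negOne_pow, norm_cexp_I, one_mul, one_mul]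
    refine h6.trans_eq ?_
    rw [abs_neg, show 1 - (1 - c) = c by ring, mul_comm (c ^ K) ((1 - c) ^ K)]

/-- change of variables for an elementary piece -/
theorem elem_map {Ω₁ Ω₂ : Type} [MeasurableSpace Ω₁] [MeasurableSpace Ω₂] {s t δ : ℝ}
    {n0 k N : ℕ} {K L C : ℝ} {Q : Measure Ω₁} {φ : Ω₁ → Ω₂} (hφ : Measurable φ)
    {X W : Ω₂ → ℝ} (hX : Measurable X) (hW : Measurable W) {c b : ℝ}
    (h : Elem s t δ n0 k N K L C (Q.map φ) X W c b) :
    Elem s t δ n0 k N K L C Q (fun ω => X (φ ω)) (fun ω => W (φ ω)) c b := by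
  obtain ⟨h1, h2, h3, h4, h5⟩ := h
  refine ⟨h1, h2, h3, ae_of_ae_map hφ.aemeasurable h4, ?_⟩
  intro n hn τ hτ hτt
  have h6 := h5 n hn τ hτ hτt
  rw [integral_map hφ.aemeasurable (Measurable.aestronglyMeasurable (by fun_prop))] at h6
  exact h6

/-- reflection of the amplitude bound -/
theorem amp_refl {μ : Measure ℝ} {s : ℝ} (h : AmpOK μ s) :
    AmpOK (μ.map (fun x => 1 - x)) s := by
  intro p q r
  obtain ⟨C, hC, h1⟩ := h q p r
  refine ⟨C, hC, ?_⟩
  intro A B lam hA hB hAB hlam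
  have h2 := h1 (1 - A - B) B (-lam) (by linarith) hB (by linarith) (neg_ne_zero.mpr hlam)
  rw [integral_map (by fun_prop) (Measurable.aestronglyMeasurable (by fun_prop))]
  have e1 : (∫ x, (((A + B * (1 - x)) ^ p * (1 - (A + B * (1 - x))) ^ q *
        ((1 - x) - 1 / 2) ^ r : ℝ) : ℂ) * cexp (lam * ((1 - x : ℝ) : ℂ) * I) ∂μ) =
      ((-1 : ℂ) ^ r * cexp (lam * I)) *
      ∫ x, ((((1 - A - B) + B * x) ^ q * (1 - ((1 - A - B) + B * x)) ^ p *
        (x - 1 / 2) ^ r : ℝ) : ℂ) * cexp (((-lam : ℝ) : ℂ) * x * I) ∂μ := by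
    rw [← integral_const_mul]
    apply integral_congr_ae
    refine Eventually.of_forall fun x => ?_
    have e2 : cexp (lam * ((1 - x : ℝ) : ℂ) * I) =
        cexp (lam * I) * cexp (((-lam : ℝ) : ℂ) * x * I) := by
      rw [← Complex.exp_add]
      congr 1
      push_cast
      ring
    have e3 : ((1 - x) - 1 / 2) ^ r = (-1) ^ r * (x - 1 / 2) ^ r := by
      rw [← mul_pow]
      congr 1
      ring
    have e4 : A + B * (1 - x) = 1 - ((1 - A - B) + B * x) := by ring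
    have e5 : 1 - (A + B * (1 - x)) = (1 - A - B) + B * x := by ring
    show (((A + B * (1 - x)) ^ p * (1 - (A + B * (1 - x))) ^ q *
        ((1 - x) - 1 / 2) ^ r : ℝ) : ℂ) * cexp (lam * ((1 - x : ℝ) : ℂ) * I) =
      ((-1 : ℂ) ^ r * cexp (lam * I)) *
        (((((1 - A - B) + B * x) ^ q * (1 - ((1 - A - B) + B * x)) ^ p *
        (x - 1 / 2) ^ r : ℝ) : ℂ) * cexp (((-lam : ℝ) : ℂ) * x * I))
    rw [e5, e4, e2, e3]
    push_cast
    ring
  rw [e1, norm_mul, norm_mul, norm_negOne_pow, norm_cexp_I, one_mul, one_mul]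
  refine h2.trans_eq ?_
  rw [abs_neg, show 1 - A - B + B / 2 = 1 - (A + B / 2) by ring,
    show 1 - (1 - (A + B / 2)) = A + B / 2 by ring,
    mul_comm ((1 - (A + B / 2)) ^ q) ((A + B / 2) ^ p)]

end ModSTEPJ

open ModSTEPJ in
theorem stepj (h : StmSTEP) : StmSTEPJ := by
  intro μ s hμ hsupp hs hs1 hamp n0 k N p q K K₁ L C hK hKq hK1 hL hC
  haveI : IsProbabilityMeasure (μ.map (fun x : ℝ => 1 - x)) :=
    Measure.isProbabilityMeasure_map (by fun_prop)
  have hsupp' : ∀ᵐ x ∂(μ.map (fun x : ℝ => 1 - x)), 0 < x ∧ x < 1 := by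
    rw [ae_map_iff (by fun_prop) (measurableSet_Ioo (a := (0:ℝ)) (b := 1))]
    filter_upwards [hsupp] with x hx
    exact ⟨by linarith [hx.2], by linarith [hx.1]⟩
  obtain ⟨C', hC', h1⟩ := h (μ.map (fun x : ℝ => 1 - x)) s inferInstance hsupp' hs hs1
    (amp_refl hamp) n0 k N q p K K₁ L C hK hKq hK1 hL hC
  refine ⟨C', hC', ?_⟩
  intro Ω' mΩ Q X W c b t δ A B hQ hX hW ht hδ hδ1 htδ hA hB hAB hBδ hE
  have h2 := h1 Ω' mΩ Q (fun ω => 1 - X ω) W (1 - c) b t δ (1 - A - B) B hQ (by fun_prop) hW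
    ht hδ hδ1 htδ (by linarith) hB (by linarith) hBδ (elem_refl hE)
  have e1 : (μ.map (fun x : ℝ => 1 - x)).prod Q =
      (μ.prod Q).map (fun z : ℝ × Ω' => (1 - z.1, z.2)) := by
    have := Measure.map_prod_map μ Q (f := fun x : ℝ => 1 - x) (g := id) (by fun_prop)
      measurable_id
    rw [Measure.map_id] at this
    rw [this]
    rfl
  rw [e1] at h2
  have h3 := elem_refl (elem_map (φ := fun z : ℝ × Ω' => (1 - z.1, z.2)) (by fun_prop)
    (by fun_prop) (by fun_prop) h2)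
  have f1 : (fun z : ℝ × Ω' => 1 - ((1 - A - B) + B * (1 - z.1)) * (1 - X z.2)) =
      (fun z : ℝ × Ω' => (A + B * z.1) + (1 - (A + B * z.1)) * X z.2) := by
    funext z
    ring
  have f2 : (fun z : ℝ × Ω' => ((1 - A - B) + B * (1 - z.1)) ^ q *
        (1 - ((1 - A - B) + B * (1 - z.1))) ^ p * W z.2) =
      (fun z : ℝ × Ω' => (A + B * z.1) ^ p * (1 - (A + B * z.1)) ^ q * W z.2) := by
    funext z
    rw [show (1 - A - B) + B * (1 - z.1) = 1 - (A + B * z.1) by ring,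
      show 1 - (1 - (A + B * z.1)) = A + B * z.1 by ring]
    ring
  have f3 : 1 - ((1 - A - B) + B / 2) * (1 - c) = (A + B / 2) + (1 - (A + B / 2)) * c := by
    ring
  rw [← f1, ← f2, ← f3]
  exact h3

end Pool.Agent.T6.H62.AC
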