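import Mathlib

/-!
# Project AC, module STR: the numerical part
-/

set_option autoImplicit false

namespace Pool.Agent.T6.H62.AC

/-- a positive solution of `v = p (v + (1 - v) v ^ 2)`, `p = α / (α + 1)` -/
theorem str_root {α v : ℝ} (hα : 4 < α) (hv : 0 < v)
    (h : v = α / (α + 1) * (v + (1 - v) * v ^ 2)) : α * (v * (1 - v)) = 1 := by
  have h1 : (α + 1) * v = α * (v + (1 - v) * v ^ 2) := by
    have h2 : α + 1 ≠ 0 := by linarith
    calc (α + 1) * v = (α + 1) * (α / (α + 1) * (v + (1 - v) * v ^ 2)) := by rw [← h]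
      _ = _ := by field_simp
  have h3 : v * (α * (v * (1 - v)) - 1) = 0 := by linear_combination -h1
  rcases mul_eq_zero.1 h3 with h4 | h4
  · exact absurd h4 hv.ne'
  · linarith

theorem str_num {α A m b : ℝ} (hα : 4 < α) (hb : 0 ≤ b) (hbm : b < m) (hmA : m < A)
    (eA : A = α / (α + 1) * (A + (1 - A) * A ^ 2))
    (em : m = α / (α + 1) * (m + (1 - m) * m ^ 2))
    (eb : b = α / (α + 1) * (b + (1 - b) * b ^ 2)) :
    1 / 2 < A ∧ A < 1 ∧ b = 0 ∧ A + m = 1 ∧ 1 / (α + 1) = α / (α + 1) * (A * (1 - A)) := by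
  have hm0 : 0 < m := by linarith
  have hA0 : 0 < A := by linarith
  have rA := str_root hα hA0 eA
  have rm := str_root hα hm0 em
  have hsum : A + m = 1 := by
    have h1 : (A - m) * (α * (1 - (A + m))) = 0 := by linear_combination rA - rm
    rcases mul_eq_zero.1 h1 with h2 | h2
    · linarith
    · rcases mul_eq_zero.1 h2 with h3 | h3 <;> linarith
  refine ⟨by linarith, by linarith, ?_, hsum, ?_⟩
  · by_contra hne
    have hb0 : 0 < b := lt_of_le_of_ne hb (Ne.symm hne)
    have rb := str_root hα hb0 eb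
    have h1 : (A - b) * (α * (1 - (A + b))) = 0 := by linear_combination rA - rb
    rcases mul_eq_zero.1 h1 with h2 | h2
    · linarith
    · rcases mul_eq_zero.1 h2 with h3 | h3 <;> linarith
  · have h2 : α + 1 ≠ 0 := by linarith
    field_simp
    linear_combination -rA

end Pool.Agent.T6.H62.AC
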