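import Pool.Agent.T6.H62.AC.Kit
import Pool.Agent.T6.H62.AC.StrNum

/-!
# Project AC, module STR: the conditional equation
-/

set_option autoImplicit false

open MeasureTheory Filter Topology
open scoped ENNReal

namespace Pool.Agent.T6.H62.AC

namespace ModSTR

/-- the equation tested against a nonnegative function -/
theorem test {α : ℝ} {ν : Measure ℝ} [IsProbabilityMeasure ν] (h : IsSolution α ν)
    {g : ℝ → ℝ≥0∞} (hg : Measurable g) :
    ∫⁻ x, g x ∂ν = ENNReal.ofReal (1 / (α + 1)) * g 0 +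
      ENNReal.ofReal (α / (α + 1)) * ∫⁻ x, ∫⁻ y, ∫⁻ z, g (x + (1 - x) * (y * z)) ∂ν ∂ν ∂ν := by
  have h1 : ∫⁻ x, g x ∂ν = ∫⁻ x, g x ∂(((chiLaw α).prod (ν.prod (ν.prod ν))).map
    (fun q : ℝ × ℝ × ℝ × ℝ => q.1 * (q.2.1 + (1 - q.2.1) * q.2.2.1 * q.2.2.2))) := by
    unfold IsSolution at h
    rw [← h]
  rw [h1, lintegral_map hg (by fun_prop), lintegral_prod _ (by fun_prop)]
  unfold chiLaw
  rw [lintegral_add_measure, lintegral_smul_measure, lintegral_smul_measure,
    lintegral_dirac, lintegral_dirac, smul_eq_mul, smul_eq_mul]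
  congr 1
  · simp
  · congr 1
    rw [lintegral_prod _ (by fun_prop)]
    apply lintegral_congr; intro x
    rw [lintegral_prod _ (by fun_prop)]
    apply lintegral_congr; intro y
    apply lintegral_congr; intro z
    simp only [one_mul]
    congr 1
    ring

/-- splitting off the atom at zero -/
theorem split (ν : Measure ℝ) {g : ℝ → ℝ≥0∞} :
    ∫⁻ x, g x ∂ν = ν {0} * g 0 + ∫⁻ x, g x ∂(ν.restrict {0}ᶜ) := by
  rw [← lintegral_add_compl g (measurableSet_singleton (0 : ℝ)), lintegral_singleton, mul_comm]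

theorem inner (ν : Measure ℝ) [IsProbabilityMeasure ν] (h : ℝ → ℝ≥0∞) :
    ∫⁻ y, ∫⁻ z, h (y * z) ∂ν ∂ν = ν {0} * h 0 * (1 + ν.restrict {0}ᶜ Set.univ) +
      ∫⁻ y, ∫⁻ z, h (y * z) ∂(ν.restrict {0}ᶜ) ∂(ν.restrict {0}ᶜ) := by
  have h1 : ∀ y, ∫⁻ z, h (y * z) ∂ν = ν {0} * h 0 + ∫⁻ z, h (y * z) ∂(ν.restrict {0}ᶜ) := by
    intro y
    rw [split ν (g := fun z => h (y * z))]
    simp
  have h2 : ν {0} + ν.restrict {0}ᶜ Set.univ = 1 := by
    rw [Measure.restrict_apply MeasurableSet.univ, Set.univ_inter]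
    rw [measure_add_measure_compl (measurableSet_singleton (0 : ℝ)), measure_univ]
  simp_rw [h1]
  rw [split ν (g := fun y => ν {0} * h 0 + ∫⁻ z, h (y * z) ∂(ν.restrict {0}ᶜ))]
  rw [lintegral_add_left measurable_const, lintegral_const]
  simp only [zero_mul, lintegral_const]
  set c := ν {0}
  set M := ν.restrict {0}ᶜ Set.univ
  calc c * (c * h 0 + h 0 * M) + (c * h 0 * M + _)
      = c * h 0 * (c + M + M) + ∫⁻ y, ∫⁻ z, h (y * z) ∂(ν.restrict {0}ᶜ) ∂(ν.restrict {0}ᶜ) := by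
        ring
    _ = _ := by rw [h2]

/-- the equation for the part outside zero -/
theorem core {α : ℝ} {ν : Measure ℝ} [IsProbabilityMeasure ν] (h : IsSolution α ν)
    {g : ℝ → ℝ≥0∞} (hg : Measurable g) (g0 : g 0 = 0) :
    ∫⁻ x, g x ∂(ν.restrict {0}ᶜ) = ENNReal.ofReal (α / (α + 1)) *
      (ν {0} * ∫⁻ y, ∫⁻ z, g (y * z) ∂(ν.restrict {0}ᶜ) ∂(ν.restrict {0}ᶜ) +
        (ν {0} * (1 + ν.restrict {0}ᶜ Set.univ) * ∫⁻ x, g x ∂(ν.restrict {0}ᶜ) +
        ∫⁻ x, ∫⁻ y, ∫⁻ z, g (x + (1 - x) * (y * z))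
          ∂(ν.restrict {0}ᶜ) ∂(ν.restrict {0}ᶜ) ∂(ν.restrict {0}ᶜ))) := by
  have h1 := test h hg
  rw [split ν (g := g), g0, mul_zero, zero_add, mul_zero, zero_add] at h1
  have h2 : ∀ x, ∫⁻ y, ∫⁻ z, g (x + (1 - x) * (y * z)) ∂ν ∂ν =
      ν {0} * g x * (1 + ν.restrict {0}ᶜ Set.univ) +
      ∫⁻ y, ∫⁻ z, g (x + (1 - x) * (y * z)) ∂(ν.restrict {0}ᶜ) ∂(ν.restrict {0}ᶜ) := by
    intro x
    rw [inner ν (fun w => g (x + (1 - x) * w))]
    simp
  simp_rw [h2] at h1
  refine h1.trans ?_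
  rw [split ν (g := fun x => ν {0} * g x * (1 + ν.restrict {0}ᶜ Set.univ) +
      ∫⁻ y, ∫⁻ z, g (x + (1 - x) * (y * z)) ∂(ν.restrict {0}ᶜ) ∂(ν.restrict {0}ᶜ))]
  rw [lintegral_add_left (by fun_prop)]
  simp only [g0, mul_zero, zero_mul, zero_add, sub_zero, one_mul]
  rw [lintegral_mul_const _ (by fun_prop), lintegral_const_mul _ hg]
  congr 3
  ring

/-- the common equation of the three test functions -/
theorem three {α : ℝ} {ν : Measure ℝ} (hα : 4 < α) [IsProbabilityMeasure ν]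
    (hIcc : ν (Set.Icc 0 1)ᶜ = 0) (h : IsSolution α ν)
    {g : ℝ → ℝ≥0∞} (hg : Measurable g) (g0 : g 0 = 0) (g1 : ∀ x, 0 < x → x ≤ 1 → g x ≤ 1)
    (gm : ∀ y z, 0 < y → y ≤ 1 → 0 < z → z ≤ 1 → g (y * z) = g y * g z)
    (gj : ∀ x w, 0 < x → x ≤ 1 → 0 < w → w ≤ 1 →
      g (x + (1 - x) * w) + g x * g w = g x + g w) :
    (∫⁻ x, g x ∂ν).toReal = α / (α + 1) * ((∫⁻ x, g x ∂ν).toReal +
      (1 - (∫⁻ x, g x ∂ν).toReal) * (∫⁻ x, g x ∂ν).toReal ^ 2) := by
  have hae : ∀ᵐ x ∂(ν.restrict {0}ᶜ), 0 < x ∧ x ≤ 1 := by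
    rw [ae_restrict_iff' (measurableSet_singleton (0 : ℝ)).compl]
    have h1 : ∀ᵐ x ∂ν, x ∈ Set.Icc (0 : ℝ) 1 := hIcc
    filter_upwards [h1] with x hx hx0
    exact ⟨lt_of_le_of_ne hx.1 (Ne.symm hx0), hx.2⟩
  have hc := core h hg g0
  have hs : ∫⁻ x, g x ∂ν = ∫⁻ x, g x ∂(ν.restrict {0}ᶜ) := by
    rw [split ν (g := g), g0, mul_zero, zero_add]
  rw [hs]
  set κ := ν.restrict {0}ᶜ with hκ
  set v := ∫⁻ x, g x ∂κ with hv
  have hQ : ∫⁻ y, ∫⁻ z, g (y * z) ∂κ ∂κ = v * v := by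
    have e1 : ∫⁻ y, ∫⁻ z, g (y * z) ∂κ ∂κ = ∫⁻ y, g y * v ∂κ := by
      apply lintegral_congr_ae
      filter_upwards [hae] with y hy
      rw [hv, ← lintegral_const_mul _ hg]
      apply lintegral_congr_ae
      filter_upwards [hae] with z hz
      exact gm y z hy.1 hy.2 hz.1 hz.2
    rw [e1, lintegral_mul_const _ hg]
  have hT : ∫⁻ x, ∫⁻ y, ∫⁻ z, g (x + (1 - x) * (y * z)) ∂κ ∂κ ∂κ + v * (v * v) =
      v * (κ Set.univ * κ Set.univ) + κ Set.univ * (v * v) := by
    have e1 : ∀ᵐ x ∂κ, ∫⁻ y, ∫⁻ z, g (x + (1 - x) * (y * z)) ∂κ ∂κ + g x * (v * v) =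
        g x * (κ Set.univ * κ Set.univ) + v * v := by
      filter_upwards [hae] with x hx
      rw [← hQ, ← lintegral_const_mul _ (by fun_prop), ← lintegral_add_left (by fun_prop)]
      have e2 : ∀ᵐ y ∂κ, ∫⁻ z, g (x + (1 - x) * (y * z)) ∂κ + g x * ∫⁻ z, g (y * z) ∂κ =
          g x * κ Set.univ + ∫⁻ z, g (y * z) ∂κ := by
        filter_upwards [hae] with y hy
        rw [← lintegral_const_mul _ (by fun_prop), ← lintegral_add_left (by fun_prop),
          ← lintegral_const, ← lintegral_add_left measurable_const]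
        apply lintegral_congr_ae
        filter_upwards [hae] with z hz
        exact gj x (y * z) hx.1 hx.2 (mul_pos hy.1 hz.1) (mul_le_one₀ hy.2 hz.1.le hz.2)
      rw [lintegral_congr_ae e2, lintegral_add_left measurable_const, lintegral_const, mul_assoc]
    have e3 := lintegral_congr_ae e1
    rw [lintegral_add_left (by fun_prop), lintegral_mul_const _ hg,
      lintegral_add_left (by fun_prop), lintegral_mul_const _ hg, lintegral_const] at e3
    rw [e3]
    ring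
  have hM1 : κ Set.univ ≤ 1 := by
    rw [hκ, Measure.restrict_apply MeasurableSet.univ, Set.univ_inter]
    exact prob_le_one
  have hv1 : v ≤ 1 := by
    calc v ≤ ∫⁻ _, 1 ∂κ := by
          apply lintegral_mono_ae
          filter_upwards [hae] with x hx
          exact g1 x hx.1 hx.2
      _ = κ Set.univ := by simp
      _ ≤ 1 := hM1
  have hcM : ν {0} + κ Set.univ = 1 := by
    rw [hκ, Measure.restrict_apply MeasurableSet.univ, Set.univ_inter,
      measure_add_measure_compl (measurableSet_singleton (0 : ℝ)), measure_univ]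
  have hvt : v ≠ ⊤ := (hv1.trans_lt ENNReal.one_lt_top).ne
  have hMt : κ Set.univ ≠ ⊤ := (hM1.trans_lt ENNReal.one_lt_top).ne
  set T := ∫⁻ x, ∫⁻ y, ∫⁻ z, g (x + (1 - x) * (y * z)) ∂κ ∂κ ∂κ with hTd
  have hTt : T ≠ ⊤ := by
    intro htop
    rw [htop, top_add] at hT
    have : v * (κ Set.univ * κ Set.univ) + κ Set.univ * (v * v) ≠ ⊤ := by
      exact ENNReal.add_ne_top.2 ⟨ENNReal.mul_ne_top hvt (ENNReal.mul_ne_top hMt hMt),
        ENNReal.mul_ne_top hMt (ENNReal.mul_ne_top hvt hvt)⟩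
    exact this hT.symm
  have hct : ν {0} ≠ ⊤ := measure_ne_top _ _
  rw [hQ] at hc
  -- pass to real numbers
  have r1 : (ν {0}).toReal + (κ Set.univ).toReal = 1 := by
    rw [← ENNReal.toReal_add hct hMt, hcM, ENNReal.toReal_one]
  have r2 : T.toReal + v.toReal * (v.toReal * v.toReal) =
      v.toReal * ((κ Set.univ).toReal * (κ Set.univ).toReal) +
        (κ Set.univ).toReal * (v.toReal * v.toReal) := by
    have := congrArg ENNReal.toReal hT
    rw [ENNReal.toReal_add hTt (ENNReal.mul_ne_top hvt (ENNReal.mul_ne_top hvt hvt)),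
      ENNReal.toReal_add (ENNReal.mul_ne_top hvt (ENNReal.mul_ne_top hMt hMt))
        (ENNReal.mul_ne_top hMt (ENNReal.mul_ne_top hvt hvt))] at this
    simpa only [ENNReal.toReal_mul] using this
  have hp0 : 0 ≤ α / (α + 1) := by positivity
  have r3 : v.toReal = α / (α + 1) * ((ν {0}).toReal * (v.toReal * v.toReal) +
      ((ν {0}).toReal * (1 + (κ Set.univ).toReal) * v.toReal + T.toReal)) := by
    have := congrArg ENNReal.toReal hc
    rw [ENNReal.toReal_mul, ENNReal.toReal_ofReal hp0, ENNReal.toReal_add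
      (ENNReal.mul_ne_top hct (ENNReal.mul_ne_top hvt hvt))
      (ENNReal.add_ne_top.2 ⟨ENNReal.mul_ne_top (ENNReal.mul_ne_top hct
        (ENNReal.add_ne_top.2 ⟨ENNReal.one_ne_top, hMt⟩)) hvt, hTt⟩),
      ENNReal.toReal_add (ENNReal.mul_ne_top (ENNReal.mul_ne_top hct
        (ENNReal.add_ne_top.2 ⟨ENNReal.one_ne_top, hMt⟩)) hvt) hTt,
      ENNReal.toReal_mul, ENNReal.toReal_mul, ENNReal.toReal_mul, ENNReal.toReal_mul,
      ENNReal.toReal_add ENNReal.one_ne_top hMt, ENNReal.toReal_one] at this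
    exact this
  have hc' : (ν {0}).toReal = 1 - (κ Set.univ).toReal := by linarith
  rw [hc'] at r3
  have hT' : T.toReal = v.toReal * ((κ Set.univ).toReal * (κ Set.univ).toReal) +
        (κ Set.univ).toReal * (v.toReal * v.toReal) - v.toReal * (v.toReal * v.toReal) := by
    linarith
  rw [hT'] at r3
  refine r3.trans ?_
  ring

end ModSTR

open ModSTR in
theorem str : StmSTR := by
  intro α ν hα hprob hIcc hsol hpos
  have hp0 : 0 < α / (α + 1) := by positivity
  have hae0 : ∀ᵐ x ∂ν, x ∈ Set.Icc (0 : ℝ) 1 := hIcc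
  -- the three test functions
  have eA := three hα hIcc hsol (g := Set.indicator {0}ᶜ 1)
    (measurable_one.indicator (measurableSet_singleton (0 : ℝ)).compl) (by simp)
    (fun x hx _ => by simp [hx.ne'])
    (fun y z hy _ hz _ => by simp [hy.ne', hz.ne'])
    (fun x w hx hx1 hw _ => by
      have : x + (1 - x) * w ≠ 0 := by nlinarith
      simp [hx.ne', hw.ne', this])
  have eb := three hα hIcc hsol (g := Set.indicator {1} 1)
    (measurable_one.indicator (measurableSet_singleton (1 : ℝ))) (by simp)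
    (fun x hx _ => by
      by_cases h1 : x = 1
      · simp [h1]
      · simp [h1])
    (fun y z hy hy1 hz hz1 => by
      by_cases h1 : y = 1
      · by_cases h2 : z = 1
        · simp [h1, h2]
        · simp [h1, h2]
      · have h3 : y * z ≠ 1 := by
          have : y < 1 := lt_of_le_of_ne hy1 h1
          nlinarith
        simp [h1, h3])
    (fun x w hx hx1 hw hw1 => by
      by_cases h1 : x = 1
      · simp [h1]
      · by_cases h2 : w = 1
        · simp [h1, h2]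
        · have h3 : x + (1 - x) * w ≠ 1 := by
            have h4 : x < 1 := lt_of_le_of_ne hx1 h1
            have h5 : w < 1 := lt_of_le_of_ne hw1 h2
            nlinarith
          simp [h1, h2, h3])
  have em := three hα hIcc hsol (g := fun x => ENNReal.ofReal x)
    (by fun_prop) (by simp)
    (fun x hx hx1 => by simpa using hx1)
    (fun y z hy hy1 hz hz1 => ENNReal.ofReal_mul hy.le)
    (fun x w hx hx1 hw hw1 => by
      have h1 : 0 ≤ (1 - x) * w := mul_nonneg (by linarith) hw.le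
      rw [← ENNReal.ofReal_mul hx.le, ← ENNReal.ofReal_add (by linarith) (by positivity),
        ← ENNReal.ofReal_add hx.le hw.le]
      congr 1; ring)
  have iA : ∫⁻ x, Set.indicator ({0}ᶜ : Set ℝ) (1 : ℝ → ℝ≥0∞) x ∂ν = ν {0}ᶜ := by
    rw [lintegral_indicator_one (measurableSet_singleton (0 : ℝ)).compl]
  have ib : ∫⁻ x, Set.indicator ({1} : Set ℝ) (1 : ℝ → ℝ≥0∞) x ∂ν = ν {1} := by
    rw [lintegral_indicator_one (measurableSet_singleton (1 : ℝ))]
  rw [iA] at eA
  rw [ib] at eb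
  -- strict inequalities
  have hmt : ∫⁻ x, ENNReal.ofReal x ∂ν ≠ ⊤ := by
    have : ∫⁻ x, ENNReal.ofReal x ∂ν ≤ ∫⁻ _, 1 ∂ν := by
      apply lintegral_mono_ae
      filter_upwards [hae0] with x hx
      simpa using hx.2
    rw [lintegral_one, measure_univ] at this
    exact (this.trans_lt ENNReal.one_lt_top).ne
  have hbm : ν {1} < ∫⁻ x, ENNReal.ofReal x ∂ν := by
    rw [← ib]
    refine lintegral_strict_mono_of_ae_le_of_ae_lt_on (s := Set.Ioo 0 1) (by fun_prop) ?_ ?_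
      hpos.ne' ?_
    · rw [ib]; exact measure_ne_top _ _
    · filter_upwards [hae0] with x hx
      by_cases h1 : x = 1
      · simp [h1]
      · simp [h1]
    · refine Eventually.of_forall fun x hx => ?_
      have h1 : x ≠ 1 := hx.2.ne
      simp [h1, hx.1]
  have hmA : ∫⁻ x, ENNReal.ofReal x ∂ν < ν {0}ᶜ := by
    rw [← iA]
    refine lintegral_strict_mono_of_ae_le_of_ae_lt_on (s := Set.Ioo 0 1)
      (measurable_one.indicator (measurableSet_singleton (0 : ℝ)).compl).aemeasurable hmt ?_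
      hpos.ne' ?_
    · filter_upwards [hae0] with x hx
      by_cases h1 : x = 0
      · simp [h1]
      · simpa [h1] using hx.2
    · refine Eventually.of_forall fun x hx => ?_
      have h1 : x ≠ 0 := hx.1.ne'
      simpa [h1] using hx.2
  have hAt : ν {0}ᶜ ≠ ⊤ := measure_ne_top _ _
  obtain ⟨k1, k2, k3, k4, k5⟩ := str_num (α := α) (A := (ν {0}ᶜ).toReal)
    (m := (∫⁻ x, ENNReal.ofReal x ∂ν).toReal) (b := (ν {1}).toReal) hα ENNReal.toReal_nonneg
    ((ENNReal.toReal_lt_toReal (measure_ne_top _ _) hmt).2 hbm)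
    ((ENNReal.toReal_lt_toReal hmt hAt).2 hmA) eA em eb
  have hb0 : ν {1} = 0 := by
    rcases (ENNReal.toReal_eq_zero_iff _).1 k3 with h | h
    · exact h
    · exact absurd h (measure_ne_top _ _)
  set A := (ν {0}ᶜ).toReal with hA
  have hA0 : 0 < A := by linarith
  have hAo : ν {0}ᶜ = ENNReal.ofReal A := (ENNReal.ofReal_toReal hAt).symm
  have hAne : ENNReal.ofReal A ≠ 0 := by simpa using hA0
  set κ := ν.restrict {0}ᶜ with hκ
  set μ := (ENNReal.ofReal A)⁻¹ • κ with hμ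
  have hκμ : κ = ENNReal.ofReal A • μ := by
    rw [hμ, smul_smul, ENNReal.mul_inv_cancel hAne ENNReal.ofReal_ne_top, one_smul]
  have hκu : κ Set.univ = ENNReal.ofReal A := by
    rw [hκ, Measure.restrict_apply MeasurableSet.univ, Set.univ_inter, hAo]
  have hμp : IsProbabilityMeasure μ := by
    refine ⟨?_⟩
    rw [hμ, Measure.smul_apply, hκu, smul_eq_mul,
      ENNReal.inv_mul_cancel hAne ENNReal.ofReal_ne_top]
  have hsuppκ : ∀ᵐ x ∂κ, 0 < x ∧ x < 1 := by
    rw [hκ, ae_restrict_iff' (measurableSet_singleton (0 : ℝ)).compl]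
    have h1 : ∀ᵐ x ∂ν, x ≠ 1 := by
      rw [ae_iff]
      simpa using hb0
    filter_upwards [hae0, h1] with x hx hx1 hx0
    exact ⟨lt_of_le_of_ne hx.1 (Ne.symm hx0), lt_of_le_of_ne hx.2 hx1⟩
  have hsupp : ∀ᵐ x ∂μ, 0 < x ∧ x < 1 := by
    rw [hμ]
    exact Measure.ae_smul_measure hsuppκ _
  refine ⟨A, μ, ⟨k1, k2, hμp, hsupp, ?_⟩, hκμ⟩
  -- the equation
  ext S hS
  -- test function
  set g : ℝ → ℝ≥0∞ := Set.indicator (S \ {0}) 1 with hg
  have hSm : MeasurableSet (S \ {0}) := hS.diff (measurableSet_singleton 0)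
  have hgm : Measurable g := measurable_one.indicator hSm
  have g0 : g 0 = 0 := by simp [hg]
  have gle : ∀ x, g x ≤ 1 := by
    intro x
    rw [hg]
    exact Set.indicator_le_self' (fun _ _ => zero_le_one) x
  have hcore := core hsol hgm g0
  rw [← hκ] at hcore
  have hcM : (ν {0}).toReal = 1 - A := by
    have h1 : ν {0} + ν {0}ᶜ = 1 := by
      rw [measure_add_measure_compl (measurableSet_singleton (0 : ℝ)), measure_univ]
    have h2 := congrArg ENNReal.toReal h1
    rw [ENNReal.toReal_add (measure_ne_top _ _) hAt, ENNReal.toReal_one] at h2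
    linarith
  have hct : ν {0} ≠ ⊤ := measure_ne_top _ _
  clear_value μ
  have lk : ∀ f : ℝ → ℝ≥0∞, ∫⁻ x, f x ∂κ = ENNReal.ofReal A * ∫⁻ x, f x ∂μ := by
    intro f
    rw [hκμ, lintegral_smul_measure, smul_eq_mul]
  simp only [lk] at hcore
  rw [lintegral_const_mul _ (by fun_prop), lintegral_const_mul _ (by fun_prop), hκu] at hcore
  have hin : ∀ x, ∫⁻ y, ENNReal.ofReal A * ∫⁻ z, g (x + (1 - x) * (y * z)) ∂μ ∂μ =
      ENNReal.ofReal A * ∫⁻ y, ∫⁻ z, g (x + (1 - x) * (y * z)) ∂μ ∂μ := fun x =>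
    lintegral_const_mul _ (by fun_prop)
  simp only [hin] at hcore
  rw [lintegral_const_mul _ (by fun_prop)] at hcore
  set I := ∫⁻ x, g x ∂μ with hI
  set Q := ∫⁻ y, ∫⁻ z, g (y * z) ∂μ ∂μ with hQ
  set T := ∫⁻ x, ∫⁻ y, ∫⁻ z, g (x + (1 - x) * (y * z)) ∂μ ∂μ ∂μ with hT
  have one_le : ∀ f : ℝ → ℝ≥0∞, (∀ x, f x ≤ 1) → ∫⁻ x, f x ∂μ ≤ 1 := by
    intro f hf
    calc ∫⁻ x, f x ∂μ ≤ ∫⁻ _, 1 ∂μ := lintegral_mono hf
      _ = 1 := by rw [lintegral_one, measure_univ]
  have hI1 : I ≤ 1 := one_le _ gle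
  have hQ1 : Q ≤ 1 := one_le _ fun y => one_le _ fun z => gle _
  have hT1 : T ≤ 1 := one_le _ fun x => one_le _ fun y => one_le _ fun z => gle _
  have hIt : I ≠ ⊤ := (hI1.trans_lt ENNReal.one_lt_top).ne
  have hQt : Q ≠ ⊤ := (hQ1.trans_lt ENNReal.one_lt_top).ne
  have hTt : T ≠ ⊤ := (hT1.trans_lt ENNReal.one_lt_top).ne
  have hOt : ENNReal.ofReal A ≠ ⊤ := ENNReal.ofReal_ne_top
  -- pass to real numbers
  have hreal : A * I.toReal = α / (α + 1) * ((1 - A) * (A * (A * Q.toReal)) +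
      ((1 - A) * (1 + A) * (A * I.toReal) + A * (A * (A * T.toReal)))) := by
    have h1 := congrArg ENNReal.toReal hcore
    have t1 : ν {0} * (ENNReal.ofReal A * (ENNReal.ofReal A * Q)) ≠ ⊤ :=
      ENNReal.mul_ne_top hct (ENNReal.mul_ne_top hOt (ENNReal.mul_ne_top hOt hQt))
    have t2 : ν {0} * (1 + ENNReal.ofReal A) * (ENNReal.ofReal A * I) ≠ ⊤ :=
      ENNReal.mul_ne_top (ENNReal.mul_ne_top hct (ENNReal.add_ne_top.2
        ⟨ENNReal.one_ne_top, hOt⟩)) (ENNReal.mul_ne_top hOt hIt)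
    have t3 : ENNReal.ofReal A * (ENNReal.ofReal A * (ENNReal.ofReal A * T)) ≠ ⊤ :=
      ENNReal.mul_ne_top hOt (ENNReal.mul_ne_top hOt (ENNReal.mul_ne_top hOt hTt))
    rw [ENNReal.toReal_mul, ENNReal.toReal_mul, ENNReal.toReal_ofReal hp0.le,
      ENNReal.toReal_add t1 (ENNReal.add_ne_top.2 ⟨t2, t3⟩), ENNReal.toReal_add t2 t3] at h1
    simp only [ENNReal.toReal_mul, ENNReal.toReal_ofReal hA0.le,
      ENNReal.toReal_add ENNReal.one_ne_top hOt, ENNReal.toReal_one, hcM] at h1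
    exact h1
  have hfin : I.toReal = A * T.toReal + (1 - A) * Q.toReal := by
    have h1 : 1 - α / (α + 1) = α / (α + 1) * (A * (1 - A)) := by
      rw [← k5]
      have : α + 1 ≠ 0 := by linarith
      field_simp
      ring
    have h2 : α / (α + 1) * A ^ 2 * (I.toReal - (A * T.toReal + (1 - A) * Q.toReal)) = 0 := by
      linear_combination hreal - A * I.toReal * h1
    rcases mul_eq_zero.1 h2 with h3 | h3
    · exact absurd h3 (by positivity)
    · linarith
  have hfinE : I = ENNReal.ofReal A * T + ENNReal.ofReal (1 - A) * Q := by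
    rw [← ENNReal.toReal_eq_toReal_iff' hIt (ENNReal.add_ne_top.2
      ⟨ENNReal.mul_ne_top hOt hTt, ENNReal.mul_ne_top ENNReal.ofReal_ne_top hQt⟩),
      ENNReal.toReal_add (ENNReal.mul_ne_top hOt hTt)
      (ENNReal.mul_ne_top ENNReal.ofReal_ne_top hQt), ENNReal.toReal_mul, ENNReal.toReal_mul,
      ENNReal.toReal_ofReal hA0.le, ENNReal.toReal_ofReal (by linarith)]
    exact hfin
  -- the measures of `S`
  have hfg : ∀ w : ℝ, w ≠ 0 → Set.indicator S (1 : ℝ → ℝ≥0∞) w = g w := by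
    intro w hw
    rw [hg]
    by_cases hwS : w ∈ S
    · simp [hwS, hw]
    · simp [hwS]
  have hfm : Measurable (Set.indicator S (1 : ℝ → ℝ≥0∞)) := measurable_one.indicator hS
  have s1 : μ S = I := by
    rw [← lintegral_indicator_one hS, hI]
    apply lintegral_congr_ae
    filter_upwards [hsupp] with x hx
    exact hfg x hx.1.ne'
  have s2 : mulLaw μ μ S = Q := by
    rw [← lintegral_indicator_one hS, lint_mulLaw _ _ hfm, hQ]
    apply lintegral_congr_ae
    filter_upwards [hsupp] with y hy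
    apply lintegral_congr_ae
    filter_upwards [hsupp] with z hz
    exact hfg _ (mul_pos hy.1 hz.1).ne'
  have s3 : joinLaw μ (mulLaw μ μ) S = T := by
    rw [← lintegral_indicator_one hS, lint_joinLaw _ _ hfm, hT]
    apply lintegral_congr_ae
    filter_upwards [hsupp] with x hx
    rw [lint_mulLaw _ _ (by fun_prop)]
    apply lintegral_congr_ae
    filter_upwards [hsupp] with y hy
    apply lintegral_congr_ae
    filter_upwards [hsupp] with z hz
    refine hfg _ ?_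
    have h1 := mul_pos hy.1 hz.1
    have h2 : 0 ≤ (1 - x) * (y * z) := mul_nonneg (by linarith [hx.2]) h1.le
    have h3 := hx.1
    linarith
  rw [Measure.add_apply, Measure.smul_apply, Measure.smul_apply, s1, s2, s3, smul_eq_mul,
    smul_eq_mul]
  exact hfinE

end Pool.Agent.T6.H62.AC
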