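import Pool.Agent.T6.H62.AC.Kit

open MeasureTheory Complex Filter Topology
open scoped ENNReal

namespace Pool.Agent.T6.H62.AC

theorem stx_taylor (n : ℕ) : ∀ v : ℝ,
    ‖cexp ((v : ℂ) * I) - ∑ m ∈ Finset.range n, ((v : ℂ) * I) ^ m / (m.factorial : ℂ)‖
      ≤ |v| ^ n := by
  induction n with
  | zero => intro v; simp [norm_exp_ofReal_mul_I]
  | succ n ih =>
    intro v
    have hd : ∀ s : ℝ, HasDerivAt (fun s : ℝ => cexp ((s : ℂ) * I) -
        ∑ m ∈ Finset.range (n + 1), ((s : ℂ) * I) ^ m / (m.factorial : ℂ))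
        (I * (cexp ((s : ℂ) * I) -
          ∑ m ∈ Finset.range n, ((s : ℂ) * I) ^ m / (m.factorial : ℂ))) s := by
      intro s
      have h1 : HasDerivAt (fun s : ℝ => (s : ℂ) * I) I s := by
        have := (Complex.ofRealCLM.hasDerivAt (x := s)).mul_const I
        simpa using this
      have h2 : HasDerivAt (fun s : ℝ => cexp ((s : ℂ) * I)) (cexp ((s : ℂ) * I) * I) s :=
        h1.cexp
      have h3 : ∀ m : ℕ, HasDerivAt
          (fun s : ℝ => ((s : ℂ) * I) ^ (m + 1) / ((m + 1).factorial : ℂ))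
          (I * (((s : ℂ) * I) ^ m / (m.factorial : ℂ))) s := by
        intro m
        have h := (h1.pow (m + 1)).div_const ((m + 1).factorial : ℂ)
        have e : ((m + 1 : ℕ) : ℂ) * ((s : ℂ) * I) ^ (m + 1 - 1) * I /
            ((m + 1).factorial : ℂ) = I * (((s : ℂ) * I) ^ m / (m.factorial : ℂ)) := by
          have hm : ((m.factorial : ℕ) : ℂ) ≠ 0 := by
            exact_mod_cast m.factorial_ne_zero
          have hm1 : ((m + 1 : ℕ) : ℂ) ≠ 0 := by exact_mod_cast Nat.succ_ne_zero m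
          rw [Nat.factorial_succ, Nat.cast_mul, Nat.add_sub_cancel]
          field_simp
        rw [← e]
        exact h
      have h4 : HasDerivAt (fun s : ℝ =>
          ∑ m ∈ Finset.range (n + 1), ((s : ℂ) * I) ^ m / (m.factorial : ℂ))
          (∑ m ∈ Finset.range n, I * (((s : ℂ) * I) ^ m / (m.factorial : ℂ))) s := by
        have h5 : (fun s : ℝ =>
            ∑ m ∈ Finset.range (n + 1), ((s : ℂ) * I) ^ m / (m.factorial : ℂ)) =
            fun s : ℝ => (∑ m ∈ Finset.range n,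
              ((s : ℂ) * I) ^ (m + 1) / ((m + 1).factorial : ℂ)) + 1 := by
          funext u
          rw [Finset.sum_range_succ']
          simp
        rw [h5]
        have h6 : HasDerivAt (fun s : ℝ => ∑ m ∈ Finset.range n,
              ((s : ℂ) * I) ^ (m + 1) / ((m + 1).factorial : ℂ))
              (∑ m ∈ Finset.range n, I * (((s : ℂ) * I) ^ m / (m.factorial : ℂ))) s := by
          have := HasDerivAt.fun_sum (u := Finset.range n)
            (A := fun (m : ℕ) (s : ℝ) => ((s : ℂ) * I) ^ (m + 1) / ((m + 1).factorial : ℂ))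
            (A' := fun (m : ℕ) => I * (((s : ℂ) * I) ^ m / (m.factorial : ℂ)))
            (x := s) (fun m _ => h3 m)
          exact this
        exact h6.add_const 1
      have h7 := h2.sub h4
      have e7 : cexp ((s : ℂ) * I) * I -
          ∑ m ∈ Finset.range n, I * (((s : ℂ) * I) ^ m / (m.factorial : ℂ)) =
          I * (cexp ((s : ℂ) * I) -
            ∑ m ∈ Finset.range n, ((s : ℂ) * I) ^ m / (m.factorial : ℂ)) := by
        rw [← Finset.mul_sum]; ring
      rw [← e7]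
      exact h7
    have key := Convex.norm_image_sub_le_of_norm_hasDerivWithin_le
      (f := fun s : ℝ => cexp ((s : ℂ) * I) -
        ∑ m ∈ Finset.range (n + 1), ((s : ℂ) * I) ^ m / (m.factorial : ℂ))
      (f' := fun s : ℝ => I * (cexp ((s : ℂ) * I) -
          ∑ m ∈ Finset.range n, ((s : ℂ) * I) ^ m / (m.factorial : ℂ)))
      (s := Set.Icc (-|v|) |v|) (x := 0) (y := v) (C := |v| ^ n)
      (fun s _ => (hd s).hasDerivWithinAt)
      (fun s hs => by
        rw [norm_mul, norm_I, one_mul]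
        refine (ih s).trans ?_
        exact pow_le_pow_left₀ (abs_nonneg _) (abs_le.mpr ⟨hs.1, hs.2⟩) n)
      (convex_Icc _ _)
      ⟨by simp, by simp⟩ ⟨neg_abs_le v, le_abs_self v⟩
    have h0 : cexp (((0 : ℝ) : ℂ) * I) -
        ∑ m ∈ Finset.range (n + 1), (((0 : ℝ) : ℂ) * I) ^ m / (m.factorial : ℂ) = 0 := by
      rw [Finset.sum_range_succ']
      simp
    rw [h0, sub_zero, sub_zero, Real.norm_eq_abs, ← pow_succ] at key
    exact key

theorem stx_pow (ζ ξ y c B : ℝ) (n : ℕ) :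
    (ζ * y + B * ξ * (c + y)) ^ n =
      ∑ j ∈ Finset.range (n + 1), ∑ l ∈ Finset.range (j + 1),
        (n.choose j : ℝ) * (j.choose l : ℝ) * (ζ ^ (n - j) * c ^ (j - l)) * B ^ j *
          (ξ ^ j * y ^ (n - j + l)) := by
  rw [add_comm (ζ * y), add_pow]
  apply Finset.sum_congr rfl
  intro j _
  rw [add_comm c y, mul_pow (B * ξ), add_pow, Finset.mul_sum, Finset.sum_mul, Finset.sum_mul]
  apply Finset.sum_congr rfl
  intro l _
  rw [mul_pow, mul_pow, pow_add]
  ring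

/-- the main terms -/
theorem stx_point (ζ ξ y c B τ w W : ℝ) (n n0 : ℕ) :
    ((((ζ * y + B * ξ * (c + y)) ^ n * (w * W) : ℝ)) : ℂ) *
      (cexp (((τ * ζ * (c + y) : ℝ) : ℂ) * I) * cexp (((τ * B * c * ξ : ℝ) : ℂ) * I) *
        ∑ m ∈ Finset.range n0, (((τ * B * ξ * y : ℝ) : ℂ) * I) ^ m / (m.factorial : ℂ)) =
    ∑ m ∈ Finset.range n0, ∑ j ∈ Finset.range (n + 1), ∑ l ∈ Finset.range (j + 1),
      (((n.choose j : ℝ) * (j.choose l : ℝ) * (ζ ^ (n - j) * c ^ (j - l)) * B ^ j *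
        (τ * B) ^ m / (m.factorial : ℝ) : ℝ) : ℂ) * I ^ m *
      (((((w * ξ ^ (j + m) : ℝ)) : ℂ) * cexp (((τ * B * c * ξ : ℝ) : ℂ) * I)) *
       ((((y ^ (n - j + l + m) * W : ℝ)) : ℂ) * cexp (((τ * ζ * (c + y) : ℝ) : ℂ) * I))) := by
  rw [stx_pow, Finset.mul_sum, Finset.mul_sum]
  apply Finset.sum_congr rfl
  intro m _
  rw [Finset.sum_mul]
  push_cast
  rw [Finset.sum_mul]
  apply Finset.sum_congr rfl
  intro j _
  rw [Finset.sum_mul, Finset.sum_mul]
  apply Finset.sum_congr rfl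
  intro l _
  ring

theorem stx : StmSTX := by
  intro μ hμ hsupp Ω' mΩ Q X W c t δ A B L τ p q n n0 hQ hX hW hae hc0 hc1 hδ0 hδ1 hL hA hB hAB
    hBδ hτ
  obtain ⟨ζ, hζ⟩ : ∃ ζ : ℝ, ζ = A + B / 2 := ⟨_, rfl⟩
  have hζ0 : 0 ≤ ζ := by rw [hζ]; positivity
  have hζ1 : ζ ≤ 1 := by rw [hζ]; linarith
  have hB1 : B ≤ 1 := by linarith
  have ht0 : 0 ≤ t := (abs_nonneg τ).trans hτ
  obtain ⟨w, hw⟩ : ∃ w : ℝ → ℝ, w = fun x => (A + B * x) ^ p * (1 - (A + B * x)) ^ q := ⟨_, rfl⟩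
  have hwm : Measurable w := by rw [hw]; fun_prop
  have hwb : ∀ᵐ x ∂μ, 0 ≤ w x ∧ w x ≤ 1 ∧ |x - 1 / 2| ≤ 1 / 2 := by
    filter_upwards [hsupp] with x hx
    have h1 : 0 ≤ A + B * x := by
      have := mul_pos hB hx.1
      linarith
    have h2 : A + B * x ≤ 1 := by
      have := mul_lt_mul_of_pos_left hx.2 hB
      linarith
    refine ⟨?_, ?_, ?_⟩
    · rw [hw]; exact mul_nonneg (pow_nonneg h1 _) (pow_nonneg (by linarith) _)
    · rw [hw]
      exact mul_le_one₀ (pow_le_one₀ h1 h2) (pow_nonneg (by linarith) _)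
        (pow_le_one₀ (by linarith) (by linarith))
    · rw [abs_le]; constructor <;> linarith [hx.1, hx.2]
  obtain ⟨f, hf⟩ : ∃ f : ℕ → ℝ → ℂ, f = fun k x => ((w x * (x - 1 / 2) ^ k : ℝ) : ℂ) *
      cexp (((τ * B * c * (x - 1 / 2) : ℝ) : ℂ) * I) := ⟨_, rfl⟩
  obtain ⟨g, hg⟩ : ∃ g : ℕ → Ω' → ℂ, g = fun k ω => (((X ω - c) ^ k * W ω : ℝ) : ℂ) *
      cexp (((τ * ζ * (c + (X ω - c)) : ℝ) : ℂ) * I) := ⟨_, rfl⟩
  obtain ⟨R, hR⟩ : ∃ R : ℝ × Ω' → ℂ, R = fun z =>
      ((((ζ * (X z.2 - c) + B * (z.1 - 1 / 2) * (c + (X z.2 - c))) ^ n *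
        (w z.1 * W z.2) : ℝ)) : ℂ) *
      (cexp (((τ * ζ * (c + (X z.2 - c)) : ℝ) : ℂ) * I) *
        cexp (((τ * B * c * (z.1 - 1 / 2) : ℝ) : ℂ) * I) *
        (cexp (((τ * B * (z.1 - 1 / 2) * (X z.2 - c) : ℝ) : ℂ) * I) -
          ∑ m ∈ Finset.range n0, (((τ * B * (z.1 - 1 / 2) * (X z.2 - c) : ℝ) : ℂ) * I) ^ m /
            (m.factorial : ℂ))) := ⟨_, rfl⟩
  obtain ⟨co, hco⟩ : ∃ co : ℕ → ℕ → ℕ → ℂ, co = fun m j l =>
      (((n.choose j : ℝ) * (j.choose l : ℝ) * (ζ ^ (n - j) * c ^ (j - l)) * B ^ j *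
        (τ * B) ^ m / (m.factorial : ℝ) : ℝ) : ℂ) * I ^ m := ⟨_, rfl⟩
  have hfm : ∀ k, Measurable (f k) := by
    intro k; rw [hf]; fun_prop
  have hgm : ∀ k, Measurable (g k) := by
    intro k; rw [hg]; fun_prop
  have hRm : Measurable R := by rw [hR]; fun_prop
  have hfi : ∀ k, Integrable (f k) μ := by
    intro k
    refine Integrable.of_bound (hfm k).aestronglyMeasurable 1 ?_
    filter_upwards [hwb] with x hx
    rw [hf]
    simp only
    rw [norm_mul, norm_exp_ofReal_mul_I, mul_one, norm_real, Real.norm_eq_abs, abs_mul, abs_pow,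
      abs_of_nonneg hx.1]
    exact mul_le_one₀ hx.2.1 (by positivity) (pow_le_one₀ (abs_nonneg _) (by linarith [hx.2.2]))
  have hgi : ∀ k, Integrable (g k) Q := by
    intro k
    refine Integrable.of_bound (hgm k).aestronglyMeasurable ((L * δ) ^ k) ?_
    filter_upwards [hae] with ω hω
    rw [hg]
    simp only
    rw [norm_mul, norm_exp_ofReal_mul_I, mul_one, norm_real, Real.norm_eq_abs, abs_mul, abs_pow,
      abs_of_nonneg hω.2.2.1]
    calc |X ω - c| ^ k * W ω ≤ (L * δ) ^ k * 1 :=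
          mul_le_mul (pow_le_pow_left₀ (abs_nonneg _) hω.2.2.2.2 k) hω.2.2.2.1 hω.2.2.1
            (by positivity)
      _ = (L * δ) ^ k := mul_one _
  have hRb : ∀ᵐ z ∂(μ.prod Q), ‖R z‖ ≤ ((L + 1) * δ) ^ n * (t * L * δ ^ 2) ^ n0 := by
    filter_upwards [Measure.quasiMeasurePreserving_fst.ae hwb,
      Measure.quasiMeasurePreserving_snd.ae hae] with z hz1 hz2
    rw [hR]
    simp only
    rw [norm_mul, norm_mul, norm_mul, norm_exp_ofReal_mul_I, norm_exp_ofReal_mul_I, one_mul,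
      one_mul, norm_real, Real.norm_eq_abs, abs_mul, abs_pow]
    obtain ⟨hw0, hw1, hx⟩ := hz1
    obtain ⟨hX0, hX1, hW0, hW1, hXc⟩ := hz2
    have hb1 : |ζ * (X z.2 - c) + B * (z.1 - 1 / 2) * (c + (X z.2 - c))| ≤ (L + 1) * δ := by
      calc |ζ * (X z.2 - c) + B * (z.1 - 1 / 2) * (c + (X z.2 - c))|
          ≤ |ζ * (X z.2 - c)| + |B * (z.1 - 1 / 2) * (c + (X z.2 - c))| := abs_add_le _ _
        _ = ζ * |X z.2 - c| + B * |z.1 - 1 / 2| * X z.2 := by
            rw [abs_mul, abs_mul, abs_mul, abs_of_nonneg hζ0, abs_of_pos hB,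
              show c + (X z.2 - c) = X z.2 by ring, abs_of_nonneg hX0]
        _ ≤ 1 * (L * δ) + δ * (1 / 2) * 1 := by
            gcongr
        _ ≤ (L + 1) * δ := by nlinarith
    have hb2 : |w z.1 * W z.2| ≤ 1 := by
      rw [abs_of_nonneg (mul_nonneg hw0 hW0)]
      exact mul_le_one₀ hw1 hW0 hW1
    have hb3 : |τ * B * (z.1 - 1 / 2) * (X z.2 - c)| ≤ t * L * δ ^ 2 := by
      rw [abs_mul, abs_mul, abs_mul, abs_of_pos hB]
      calc |τ| * B * |z.1 - 1 / 2| * |X z.2 - c| ≤ t * δ * 1 * (L * δ) := by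
            gcongr
            linarith
        _ = t * L * δ ^ 2 := by ring
    calc |ζ * (X z.2 - c) + B * (z.1 - 1 / 2) * (c + (X z.2 - c))| ^ n * |w z.1 * W z.2| *
        ‖cexp (((τ * B * (z.1 - 1 / 2) * (X z.2 - c) : ℝ) : ℂ) * I) -
          ∑ m ∈ Finset.range n0, (((τ * B * (z.1 - 1 / 2) * (X z.2 - c) : ℝ) : ℂ) * I) ^ m /
            (m.factorial : ℂ)‖
        ≤ ((L + 1) * δ) ^ n * 1 * (t * L * δ ^ 2) ^ n0 := by
          gcongr
          exact (stx_taylor n0 _).trans (pow_le_pow_left₀ (abs_nonneg _) hb3 n0)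
      _ = ((L + 1) * δ) ^ n * (t * L * δ ^ 2) ^ n0 := by ring
  have hRi : Integrable R (μ.prod Q) := Integrable.of_bound hRm.aestronglyMeasurable _ hRb
  have hRn : ‖∫ z, R z ∂(μ.prod Q)‖ ≤ ((L + 1) * δ) ^ n * (t * L * δ ^ 2) ^ n0 := by
    have := norm_integral_le_of_norm_le_const hRb
    simpa using this
  -- the identity
  have hpt : ∀ z : ℝ × Ω', ((((A + B * z.1) * X z.2 - (A + B / 2) * c) ^ n *
        ((A + B * z.1) ^ p * (1 - (A + B * z.1)) ^ q * W z.2) : ℝ) : ℂ) *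
        cexp (τ * (((A + B * z.1) * X z.2 : ℝ) : ℂ) * I) =
      (∑ m ∈ Finset.range n0, ∑ j ∈ Finset.range (n + 1), ∑ l ∈ Finset.range (j + 1),
        co m j l * (f (j + m) z.1 * g (n - j + l + m) z.2)) + R z := by
    intro z
    have h1 := stx_point ζ (z.1 - 1 / 2) (X z.2 - c) c B τ (w z.1) (W z.2) n n0
    have h2 : (∑ m ∈ Finset.range n0, ∑ j ∈ Finset.range (n + 1), ∑ l ∈ Finset.range (j + 1),
        co m j l * (f (j + m) z.1 * g (n - j + l + m) z.2)) =
        ((((ζ * (X z.2 - c) + B * (z.1 - 1 / 2) * (c + (X z.2 - c))) ^ n *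
          (w z.1 * W z.2) : ℝ)) : ℂ) *
        (cexp (((τ * ζ * (c + (X z.2 - c)) : ℝ) : ℂ) * I) *
          cexp (((τ * B * c * (z.1 - 1 / 2) : ℝ) : ℂ) * I) *
          ∑ m ∈ Finset.range n0, (((τ * B * (z.1 - 1 / 2) * (X z.2 - c) : ℝ) : ℂ) * I) ^ m /
            (m.factorial : ℂ)) := by
      rw [h1, hco, hf, hg]
    rw [h2, hR]
    simp only
    have e3 : ∀ P E S E' : ℂ, P * (E * S) + P * (E * (E' - S)) = P * (E * E') := by
      intros; ring
    rw [e3]
    have e1 : (A + B * z.1) * X z.2 - (A + B / 2) * c =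
        ζ * (X z.2 - c) + B * (z.1 - 1 / 2) * (c + (X z.2 - c)) := by
      rw [hζ]; ring
    have e2 : (A + B * z.1) ^ p * (1 - (A + B * z.1)) ^ q = w z.1 := by rw [hw]
    rw [e1, e2, ← Complex.exp_add, ← Complex.exp_add]
    congr 2
    rw [hζ]
    push_cast
    ring
  have hint : (∫ z : ℝ × Ω', ((((A + B * z.1) * X z.2 - (A + B / 2) * c) ^ n *
        ((A + B * z.1) ^ p * (1 - (A + B * z.1)) ^ q * W z.2) : ℝ) : ℂ) *
        cexp (τ * (((A + B * z.1) * X z.2 : ℝ) : ℂ) * I) ∂(μ.prod Q)) =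
      (∑ m ∈ Finset.range n0, ∑ j ∈ Finset.range (n + 1), ∑ l ∈ Finset.range (j + 1),
        co m j l * ((∫ x, f (j + m) x ∂μ) * ∫ ω, g (n - j + l + m) ω ∂Q)) +
        ∫ z, R z ∂(μ.prod Q) := by
    have hpi : ∀ k l : ℕ, ∀ a : ℂ, Integrable (fun z : ℝ × Ω' => a * (f k z.1 * g l z.2))
        (μ.prod Q) := fun k l a => ((hfi k).mul_prod (hgi l)).const_mul a
    rw [integral_congr_ae (Eventually.of_forall hpt), integral_add _ hRi]
    · congr 1
      rw [integral_finsetSum]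
      · apply Finset.sum_congr rfl
        intro m _
        rw [integral_finsetSum]
        · apply Finset.sum_congr rfl
          intro j _
          rw [integral_finsetSum]
          · apply Finset.sum_congr rfl
            intro l _
            rw [integral_const_mul, integral_prod_mul]
          · intro l _
            exact hpi _ _ _
        · intro j _
          exact integrable_finsetSum _ fun l _ => hpi _ _ _
      · intro m _
        exact integrable_finsetSum _ fun j _ => integrable_finsetSum _ fun l _ => hpi _ _ _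
    · exact integrable_finsetSum _ fun m _ => integrable_finsetSum _ fun j _ =>
        integrable_finsetSum _ fun l _ => hpi _ _ _
  rw [hint]
  refine (norm_add_le _ _).trans (add_le_add ?_ hRn)
  refine (norm_sum_le _ _).trans (Finset.sum_le_sum fun m _ => ?_)
  refine (norm_sum_le _ _).trans (Finset.sum_le_sum fun j _ => ?_)
  refine (norm_sum_le _ _).trans (Finset.sum_le_sum fun l _ => ?_)
  rw [norm_mul, norm_mul]
  have hn1 : ‖co m j l‖ ≤ (n.choose j : ℝ) * (j.choose l : ℝ) * (|τ| ^ m * B ^ (m + j)) := by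
    rw [hco]
    simp only
    rw [norm_mul, norm_pow, norm_I, one_pow, mul_one, norm_real, Real.norm_eq_abs, abs_div,
      abs_mul, abs_mul, abs_mul, abs_mul, abs_mul, abs_pow, abs_pow, abs_pow, abs_pow, abs_mul,
      Nat.abs_cast, Nat.abs_cast, Nat.abs_cast, abs_of_nonneg hζ0, abs_of_pos hc0, abs_of_pos hB]
    have hz : ζ ^ (n - j) * c ^ (j - l) ≤ 1 :=
      mul_le_one₀ (pow_le_one₀ hζ0 hζ1) (by positivity) (pow_le_one₀ hc0.le hc1.le)
    have hm : (1 : ℝ) ≤ (m.factorial : ℝ) := by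
      exact_mod_cast Nat.succ_le_of_lt m.factorial_pos
    calc (n.choose j : ℝ) * (j.choose l : ℝ) * (ζ ^ (n - j) * c ^ (j - l)) * B ^ j *
        (|τ| * B) ^ m / (m.factorial : ℝ)
        ≤ (n.choose j : ℝ) * (j.choose l : ℝ) * (ζ ^ (n - j) * c ^ (j - l)) * B ^ j *
        (|τ| * B) ^ m := div_le_self (by positivity) hm
      _ ≤ (n.choose j : ℝ) * (j.choose l : ℝ) * 1 * B ^ j * (|τ| * B) ^ m := by
          gcongr
      _ = (n.choose j : ℝ) * (j.choose l : ℝ) * (|τ| ^ m * B ^ (m + j)) := by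
          rw [mul_pow, pow_add]; ring
  have hn2 : ‖∫ x, f (j + m) x ∂μ‖ =
      ‖∫ x, (((A + B * x) ^ p * (1 - (A + B * x)) ^ q * (x - 1 / 2) ^ (j + m) : ℝ) : ℂ) *
          cexp (((τ * B * c : ℝ) : ℂ) * x * I) ∂μ‖ := by
    have h1 : ∀ x : ℝ, f (j + m) x = cexp (((-(τ * B * c / 2) : ℝ) : ℂ) * I) *
        ((((A + B * x) ^ p * (1 - (A + B * x)) ^ q * (x - 1 / 2) ^ (j + m) : ℝ) : ℂ) *
          cexp (((τ * B * c : ℝ) : ℂ) * x * I)) := by
      intro x
      have h2 : cexp (((τ * B * c * (x - 1 / 2) : ℝ) : ℂ) * I) =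
          cexp (((-(τ * B * c / 2) : ℝ) : ℂ) * I) * cexp (((τ * B * c : ℝ) : ℂ) * x * I) := by
        rw [← Complex.exp_add]
        congr 1
        push_cast
        ring
      rw [hf, hw]
      simp only
      rw [h2]
      ring
    rw [integral_congr_ae (Eventually.of_forall h1), integral_const_mul, norm_mul,
      norm_exp_ofReal_mul_I, one_mul]
  have hn3 : ‖∫ ω, g (n - j + l + m) ω ∂Q‖ =
      ‖∫ ω, (((X ω - c) ^ (n - j + l + m) * W ω : ℝ) : ℂ) *
          cexp (((τ * (A + B / 2) : ℝ) : ℂ) * X ω * I) ∂Q‖ := by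
    congr 1
    apply integral_congr_ae
    refine Eventually.of_forall fun ω => ?_
    rw [hg, hζ]
    simp only
    congr 2
    push_cast
    ring
  rw [hn2, hn3, ← mul_assoc]
  gcongr

end Pool.Agent.T6.H62.AC
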