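import Pool.Agent.T6.H62.AC.Kit

open MeasureTheory Complex Filter Topology
open scoped ENNReal

namespace Pool.Agent.T6.H62.AC

theorem joinLaw_comm (μ κ : Measure ℝ) [IsProbabilityMeasure μ] [IsProbabilityMeasure κ] :
    joinLaw μ κ = joinLaw κ μ := by
  unfold joinLaw
  rw [← Measure.prod_swap, Measure.map_map (by fun_prop) (by fun_prop)]
  congr 1
  funext p
  simp only [Function.comp, Prod.fst_swap, Prod.snd_swap]
  ring

theorem Mom.mulLaw {μ : Measure ℝ} {s : ℝ} [IsProbabilityMeasure μ]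
    (hsupp : ∀ᵐ x ∂μ, 0 < x ∧ x < 1) (h : Mom μ s) : Mom (mulLaw μ μ) s := by
  refine ⟨h.pos, h.le, ?_, ?_⟩
  · rw [lint_mulLaw _ _ (by fun_prop)]
    have h1 : ∫⁻ u, ∫⁻ x, ENNReal.ofReal ((u * x) ^ (-s)) ∂μ ∂μ ≤
        ∫⁻ u, ENNReal.ofReal (u ^ (-s)) * ∫⁻ x, ENNReal.ofReal (x ^ (-s)) ∂μ ∂μ := by
      refine lintegral_mono_ae ?_
      filter_upwards [hsupp] with u hu
      rw [← lintegral_const_mul _ (by fun_prop)]
      refine lintegral_mono_ae ?_
      filter_upwards [hsupp] with x hx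
      rw [Real.mul_rpow hu.1.le hx.1.le, ENNReal.ofReal_mul (Real.rpow_nonneg hu.1.le _)]
    refine ne_top_of_le_ne_top ?_ h1
    rw [lintegral_mul_const _ (by fun_prop)]
    exact ENNReal.mul_ne_top h.m0 h.m0
  · rw [lint_mulLaw _ _ (by fun_prop)]
    have h1 : ∫⁻ u, ∫⁻ x, ENNReal.ofReal ((1 - u * x) ^ (-s)) ∂μ ∂μ ≤
        ∫⁻ u, ENNReal.ofReal ((1 - u) ^ (-s)) ∂μ := by
      refine lintegral_mono_ae ?_
      filter_upwards [hsupp] with u hu
      calc ∫⁻ x, ENNReal.ofReal ((1 - u * x) ^ (-s)) ∂μ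
          ≤ ∫⁻ x, ENNReal.ofReal ((1 - u) ^ (-s)) ∂μ := by
            refine lintegral_mono_ae ?_
            filter_upwards [hsupp] with x hx
            refine ENNReal.ofReal_le_ofReal ?_
            refine Real.rpow_le_rpow_of_nonpos (by linarith [hu.2]) ?_ (by linarith [h.pos])
            nlinarith [hu.1, hx.2]
        _ = _ := by simp
    exact ne_top_of_le_ne_top h.m1 h1

theorem thr : StmTHR := by
  intro a μ s hE hmom hr1 hr2 hB hM hJ
  have hprob := hE.prob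
  have hsupp := hE.supp
  have hmom2 : Mom (mulLaw μ μ) s := hmom.mulLaw hsupp
  have ha := hE.ha
  have ha1 := hE.ha1
  set m2 := mulLaw μ μ with hm2
  have E1 : ∀ g : ℝ → ℝ≥0∞, ∫⁻ x, g x ∂μ = ENNReal.ofReal a * ∫⁻ x, g x ∂(joinLaw m2 μ) +
      ENNReal.ofReal (1 - a) * ∫⁻ x, g x ∂(mulLaw μ μ) := by
    intro g
    rw [joinLaw_comm m2 μ]
    exact hE.lint'
  have EJ : ∀ g : ℝ → ℝ≥0∞, Measurable g → ∫⁻ x, g x ∂(joinLaw m2 μ) =
      ENNReal.ofReal a * ∫⁻ x, g x ∂(joinLaw m2 (joinLaw m2 μ)) +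
      ENNReal.ofReal (1 - a) * ∫⁻ x, g x ∂(joinLaw m2 (mulLaw μ μ)) := by
    intro g hg
    rw [lint_joinLaw _ _ hg, lint_joinLaw _ _ hg, lint_joinLaw _ _ hg,
      ← lintegral_const_mul _ (by fun_prop), ← lintegral_const_mul _ (by fun_prop),
      ← lintegral_add_left (by fun_prop)]
    exact lintegral_congr fun u => E1 _
  have EM : ∀ g : ℝ → ℝ≥0∞, Measurable g → ∫⁻ x, g x ∂(mulLaw μ μ) =
      ENNReal.ofReal a * ∫⁻ x, g x ∂(mulLaw μ (joinLaw m2 μ)) +
      ENNReal.ofReal (1 - a) * ∫⁻ x, g x ∂(mulLaw μ (mulLaw μ μ)) := by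
    intro g hg
    rw [lint_mulLaw _ _ hg, lint_mulLaw _ _ hg, lint_mulLaw _ _ hg,
      ← lintegral_const_mul _ (by fun_prop), ← lintegral_const_mul _ (by fun_prop),
      ← lintegral_add_left (by fun_prop)]
    exact lintegral_congr fun u => E1 _
  have K1 : MxA μ s 1 μ := hB μ μ s hprob hsupp hmom hr1
  have K2J : MxA μ s 2 (joinLaw m2 μ) := hJ μ m2 μ s 1 hprob hsupp hmom2 hr2 le_rfl K1
  have K2M : MxA μ s 2 (mulLaw μ μ) := hM μ μ μ s 1 hprob hsupp hmom hr1 le_rfl K1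
  refine ⟨![a * a, a * (1 - a), (1 - a) * a, (1 - a) * (1 - a)],
    ![joinLaw m2 (joinLaw m2 μ), joinLaw m2 (mulLaw μ μ), mulLaw μ (joinLaw m2 μ),
      mulLaw μ (mulLaw μ μ)], ?_, ?_, ?_, ?_, ?_⟩
  · intro i
    fin_cases i <;> simp <;> nlinarith
  · simp [Fin.sum_univ_four]; ring
  · intro i
    fin_cases i <;> simp <;> infer_instance
  · refine Measure.ext_of_lintegral _ fun g hg => ?_
    rw [E1, EJ g hg, EM g hg]
    simp only [Fin.sum_univ_four, lintegral_add_measure, lintegral_smul_measure, smul_eq_mul]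
    simp only [Matrix.cons_val_zero, Matrix.cons_val_one, Matrix.cons_val]
    rw [ENNReal.ofReal_mul (by linarith), ENNReal.ofReal_mul (by linarith),
      ENNReal.ofReal_mul (by linarith), ENNReal.ofReal_mul (by linarith)]
    ring
  · intro i
    fin_cases i
    · exact hJ μ m2 _ s 2 hprob hsupp hmom2 hr2 (by norm_num) K2J
    · exact hJ μ m2 _ s 2 hprob hsupp hmom2 hr2 (by norm_num) K2M
    · exact hM μ μ _ s 2 hprob hsupp hmom hr1 (by norm_num) K2J
    · exact hM μ μ _ s 2 hprob hsupp hmom hr1 (by norm_num) K2M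

end Pool.Agent.T6.H62.AC
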