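import Pool.Agent.T6.H62.AC.Kit

set_option autoImplicit false

open MeasureTheory Complex Filter Topology
open scoped ENNReal

namespace Pool.Agent.T6.H62.AC

namespace ModTST

/-- the truncated exponential -/
noncomputable def g (t y : ℝ) : ℝ → ℂ :=
  (Set.Iic y).indicator (fun x : ℝ => cexp (t * x * I))

theorem exp_norm (t x : ℝ) : ‖cexp (t * x * I)‖ = 1 := by
  have : (t * x * I : ℂ) = ((t * x : ℝ) : ℂ) * I := by push_cast; ring
  rw [this, Complex.norm_exp_ofReal_mul_I]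

theorem g_meas (t y : ℝ) : Measurable (g t y) := by
  unfold g
  exact Measurable.indicator (by fun_prop) measurableSet_Iic

theorem g_norm (t y x : ℝ) : ‖g t y x‖ ≤ 1 := by
  unfold g
  by_cases h : x ∈ Set.Iic y
  · rw [Set.indicator_of_mem h, exp_norm]
  · rw [Set.indicator_of_notMem h]; simp

theorem g_int (t y : ℝ) (κ : Measure ℝ) :
    ∫ x in Set.Iic y, cexp (t * x * I) ∂κ = ∫ x, g t y x ∂κ := by
  unfold g
  rw [integral_indicator measurableSet_Iic]

theorem piece (μ κ : Measure ℝ) [IsProbabilityMeasure μ] (s β cD CD : ℝ) (hs : 0 < s) (hβ : 0 < β)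
    (hcD : 0 < cD) (hCD : 0 < CD) (hdec : ∀ t : ℝ, 1 ≤ |t| → ‖charFun μ t‖ ≤ CD * |t| ^ (-cD))
    (t y T δ : ℝ) (ht : 1 ≤ |t|) (hT : T = |t|) (hδ : δ = T ^ (-(11 / 20) : ℝ))
    (hM : Mx μ s β 3 δ (T ^ (-1 : ℝ)) κ) :
    ‖∫ x, g t y x ∂κ‖ₑ ≤ ENNReal.ofReal (T ^ (-1 : ℝ) +
      (CD * T ^ (-(9 / 25 * cD)) + 9 * T ^ (-(1 / 10) : ℝ)) + β * T ^ (-(7 / 200 * s))) +
      κ (Set.Icc (y - 6 * δ) (y + 6 * δ)) := by
  obtain ⟨Ω, Ω', mΩ, mΩ', P, Q, X, c, b, G, hP, hQ, hX, hc, hb, hG, hGc, hκ, hG1, hbm, hc0,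
    hc1⟩ := hM
  have hT1 : 1 ≤ T := hT ▸ ht
  have hT0 : 0 < T := by linarith
  have hδ0 : 0 < δ := hδ ▸ Real.rpow_pos_of_pos hT0 _
  have e1 : ∫ x, g t y x ∂κ = ∫ ω, ∫ ω', g t y (X ω ω') ∂Q ∂P := by
    rw [hκ, integral_map hX.aemeasurable (g_meas t y).aestronglyMeasurable, integral_prod]
    exact integrable_of_bdd _ ((g_meas t y).comp hX) (fun z => g_norm t y _)
  set F : Ω → ℂ := fun ω => ∫ ω', g t y (X ω ω') ∂Q with hF
  have hF1 : ∀ ω, ‖F ω‖ ≤ 1 := by
    intro ω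
    have := norm_integral_le_of_norm_le_const (μ := Q) (f := fun ω' => g t y (X ω ω')) (C := 1)
      (Eventually.of_forall fun ω' => g_norm t y _)
    simpa using this
  have hF2 : ∀ ω, ‖F ω‖ₑ ≤ 1 := by
    intro ω
    rw [← ofReal_norm, ← ENNReal.ofReal_one]
    exact ENNReal.ofReal_le_ofReal (hF1 ω)
  set A : ℝ := CD * T ^ (-(9 / 25 * cD)) + 9 * T ^ (-(1 / 10) : ℝ) with hA
  have hA0 : 0 ≤ A := by positivity
  set B : Set Ω := {ω | b 0 ω < T ^ (-(16 / 25) : ℝ)} with hB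
  set N : Set Ω := {ω | |c ω - y| ≤ 3 * δ} with hN
  have hBm : MeasurableSet B := measurableSet_lt (hb 0) measurable_const
  have hNm : MeasurableSet N := measurableSet_le (hc.sub_const y).abs measurable_const
  have key : ∀ ω ∈ G, ‖F ω‖ₑ ≤ ENNReal.ofReal A + B.indicator 1 ω + N.indicator 1 ω := by
    intro ω hω
    by_cases hωN : ω ∈ N
    · rw [Set.indicator_of_mem hωN]
      exact (hF2 ω).trans (le_add_self)
    by_cases hωB : ω ∈ B
    · rw [Set.indicator_of_mem hωB]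
      exact (hF2 ω).trans (le_add_self.trans le_self_add)
    rw [Set.indicator_of_notMem hωN, Set.indicator_of_notMem hωB, add_zero, add_zero,
      ← ofReal_norm]
    apply ENNReal.ofReal_le_ofReal
    obtain ⟨g1, g2, g3, g4, g5⟩ := hG1 ω hω
    have hb0 : T ^ (-(16 / 25) : ℝ) ≤ b 0 ω := not_lt.1 hωB
    have hcy : 3 * δ < |c ω - y| := not_le.1 hωN
    rcases lt_abs.1 hcy with h | h
    · -- `y < c - 3 δ`
      have : F ω = 0 := by
        simp only [hF]
        rw [integral_eq_zero_of_ae]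
        filter_upwards [g4] with ω' h'
        obtain ⟨_, _, h''⟩ := h'
        have h3 := (abs_le.1 h'').1
        push_cast at h3
        unfold g
        rw [Set.indicator_of_notMem]
        · rfl
        · simp only [Set.mem_Iic, not_le]
          linarith
      rw [this, norm_zero]
      exact hA0
    · have hFe : F ω = ∫ ω', cexp (t * X ω ω' * I) ∂Q := by
        simp only [hF]
        apply integral_congr_ae
        filter_upwards [g4] with ω' h'
        obtain ⟨_, _, h''⟩ := h'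
        have h3 := (abs_le.1 h'').2
        push_cast at h3
        unfold g
        rw [Set.indicator_of_mem]
        simp only [Set.mem_Iic]
        linarith
      rw [hFe]
      refine (g5 t).trans ?_
      rw [hA]
      apply add_le_add
      · rw [Fin.prod_univ_three]
        have n0 := norm_charFun_le_one (μ := μ) (t * b 0 ω)
        have n1 := norm_charFun_le_one (μ := μ) (t * b 1 ω)
        have n2 := norm_charFun_le_one (μ := μ) (t * b 2 ω)
        have hbpos : 0 < b 0 ω := g3 0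
        have habs : |t * b 0 ω| = T * b 0 ω := by
          rw [abs_mul, ← hT, abs_of_pos hbpos]
        have hTT : T * T ^ (-(16 / 25) : ℝ) = T ^ (9 / 25 : ℝ) := by
          nth_rewrite 1 [← Real.rpow_one T]
          rw [← Real.rpow_add hT0]
          norm_num
        have hge : T ^ (9 / 25 : ℝ) ≤ T * b 0 ω := by
          rw [← hTT]
          exact mul_le_mul_of_nonneg_left hb0 hT0.le
        have hone : 1 ≤ T ^ (9 / 25 : ℝ) := Real.one_le_rpow hT1 (by norm_num)
        have h6 := hdec (t * b 0 ω) (by rw [habs]; linarith)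
        rw [habs] at h6
        have h7 : (T * b 0 ω) ^ (-cD) ≤ T ^ (-(9 / 25 * cD)) := by
          have h8 := Real.rpow_le_rpow_of_nonpos (by linarith : (0:ℝ) < T ^ (9 / 25 : ℝ)) hge
            (by linarith : -cD ≤ 0)
          rw [← Real.rpow_mul hT0.le] at h8
          refine h8.trans (le_of_eq ?_)
          congr 1
          ring
        calc ‖charFun μ (t * b 0 ω)‖ * ‖charFun μ (t * b 1 ω)‖ * ‖charFun μ (t * b 2 ω)‖
            ≤ ‖charFun μ (t * b 0 ω)‖ * 1 * 1 := by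
              gcongr
          _ = ‖charFun μ (t * b 0 ω)‖ := by ring
          _ ≤ CD * (T * b 0 ω) ^ (-cD) := h6
          _ ≤ CD * T ^ (-(9 / 25 * cD)) := mul_le_mul_of_nonneg_left h7 hCD.le
      · rw [← hT, hδ, ← Real.rpow_natCast, ← Real.rpow_mul hT0.le]
        have : T * T ^ (-(11 / 20) * ((2 : ℕ) : ℝ)) = T ^ (-(1 / 10) : ℝ) := by
          nth_rewrite 1 [← Real.rpow_one T]
          rw [← Real.rpow_add hT0]
          norm_num
        push_cast at this ⊢
        rw [mul_assoc, this]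
        norm_num
  have h1 : ‖∫ ω, F ω ∂P‖ₑ ≤ ∫⁻ ω, ‖F ω‖ₑ ∂P := enorm_integral_le_lintegral_enorm _
  have h2 : ∫⁻ ω, ‖F ω‖ₑ ∂P = ∫⁻ ω in G, ‖F ω‖ₑ ∂P + ∫⁻ ω in Gᶜ, ‖F ω‖ₑ ∂P :=
    (lintegral_add_compl _ hG).symm
  have h3 : ∫⁻ ω in Gᶜ, ‖F ω‖ₑ ∂P ≤ P Gᶜ := by
    calc ∫⁻ ω in Gᶜ, ‖F ω‖ₑ ∂P ≤ ∫⁻ _ in Gᶜ, 1 ∂P := lintegral_mono fun ω => hF2 ω
      _ = P Gᶜ := by simp
  have h4 : ∫⁻ ω in G, ‖F ω‖ₑ ∂P ≤
      ∫⁻ ω in G, (ENNReal.ofReal A + B.indicator 1 ω + N.indicator 1 ω) ∂P :=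
    setLIntegral_mono' hG key
  have h5 : ∫⁻ ω in G, (ENNReal.ofReal A + B.indicator 1 ω + N.indicator 1 ω) ∂P =
      ∫⁻ ω in G, ENNReal.ofReal A ∂P + ∫⁻ ω in G, B.indicator 1 ω ∂P +
        ∫⁻ ω in G, N.indicator 1 ω ∂P := by
    rw [lintegral_add_right _ (measurable_one.indicator hNm),
      lintegral_add_right _ (measurable_one.indicator hBm)]
  have h6 : ∫⁻ _ in G, ENNReal.ofReal A ∂P ≤ ENNReal.ofReal A := by
    rw [setLIntegral_const]
    calc ENNReal.ofReal A * P G ≤ ENNReal.ofReal A * 1 := by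
          gcongr; exact prob_le_one
      _ = ENNReal.ofReal A := mul_one _
  have h7 : ∫⁻ ω in G, B.indicator 1 ω ∂P ≤ ENNReal.ofReal (β * T ^ (-(7 / 200 * s))) := by
    have i1 : ∫⁻ ω in G, B.indicator 1 ω ∂P ≤
        ∫⁻ ω in G, ENNReal.ofReal (T ^ (-(16 / 25 * s))) * ENNReal.ofReal ((b 0 ω) ^ (-s)) ∂P := by
      apply setLIntegral_mono' hG
      intro ω hω
      by_cases hωB : ω ∈ B
      · rw [Set.indicator_of_mem hωB, Pi.one_apply, ← ENNReal.ofReal_mul (by positivity),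
          ← ENNReal.ofReal_one]
        apply ENNReal.ofReal_le_ofReal
        have hbpos : 0 < b 0 ω := (hG1 ω hω).2.2.1 0
        have hlt : b 0 ω ≤ T ^ (-(16 / 25) : ℝ) := le_of_lt hωB
        have j1 := Real.rpow_le_rpow_of_nonpos hbpos hlt (by linarith : -s ≤ 0)
        rw [← Real.rpow_mul hT0.le] at j1
        have j2 : T ^ (-(16 / 25 * s)) * T ^ (-(16 / 25) * -s) = 1 := by
          rw [← Real.rpow_add hT0]
          have : -(16 / 25 * s) + -(16 / 25) * -s = 0 := by ring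
          rw [this, Real.rpow_zero]
        rw [← j2]
        exact mul_le_mul_of_nonneg_left j1 (by positivity)
      · rw [Set.indicator_of_notMem hωB]
        exact zero_le
    refine i1.trans ?_
    rw [lintegral_const_mul' _ _ ENNReal.ofReal_ne_top]
    refine (mul_le_mul_right (hbm 0) _).trans ?_
    rw [← ENNReal.ofReal_mul (by positivity)]
    apply ENNReal.ofReal_le_ofReal
    apply le_of_eq
    rw [hδ, ← Real.rpow_mul hT0.le]
    have : T ^ (-(16 / 25 * s)) * T ^ (-(11 / 20) * -(11 / 10 * s)) = T ^ (-(7 / 200 * s)) := by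
      rw [← Real.rpow_add hT0]
      congr 1
      ring
    rw [← this]
    ring
  have h8 : ∫⁻ ω in G, N.indicator 1 ω ∂P ≤ κ (Set.Icc (y - 6 * δ) (y + 6 * δ)) := by
    rw [hκ, Measure.map_apply hX measurableSet_Icc,
      Measure.prod_apply (hX measurableSet_Icc)]
    refine le_trans ?_ (setLIntegral_le_lintegral G _)
    apply setLIntegral_mono' hG
    intro ω hω
    by_cases hωN : ω ∈ N
    · rw [Set.indicator_of_mem hωN, Pi.one_apply]
      obtain ⟨g1, g2, g3, g4, g5⟩ := hG1 ω hω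
      rw [← measure_univ (μ := Q)]
      apply measure_mono_ae
      filter_upwards [g4] with ω' h'
      intro _
      obtain ⟨_, _, h''⟩ := h'
      have i1 := abs_le.1 h''
      have i2 := abs_le.1 (show |c ω - y| ≤ 3 * δ from hωN)
      push_cast at i1
      show X ω ω' ∈ Set.Icc (y - 6 * δ) (y + 6 * δ)
      exact ⟨by linarith [i1.1, i2.1], by linarith [i1.2, i2.2]⟩
    · rw [Set.indicator_of_notMem hωN]
      exact zero_le
  have hTm : 0 ≤ T ^ (-1 : ℝ) := by positivity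
  have hβT : 0 ≤ β * T ^ (-(7 / 200 * s)) := by positivity
  rw [e1]
  refine h1.trans ?_
  rw [h2]
  calc ∫⁻ ω in G, ‖F ω‖ₑ ∂P + ∫⁻ ω in Gᶜ, ‖F ω‖ₑ ∂P
      ≤ (ENNReal.ofReal A + ENNReal.ofReal (β * T ^ (-(7 / 200 * s))) +
          κ (Set.Icc (y - 6 * δ) (y + 6 * δ))) + ENNReal.ofReal (T ^ (-1 : ℝ)) := by
        refine add_le_add (h4.trans ?_) (h3.trans hGc)
        rw [h5]
        exact add_le_add (add_le_add h6 h7) h8
    _ = _ := by
        rw [ENNReal.ofReal_add (by positivity) hβT, ENNReal.ofReal_add hTm hA0]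
        ring

end ModTST

open ModTST

/-- Module TST: truncated transforms decay. -/
theorem tst : StmTST := by
  intro μ s hμ hsupp hs hs1 hThree hDec hConc
  obtain ⟨w, κ, hw, hw1, hκp, hμe, hMx⟩ := hThree
  obtain ⟨cD, CD, hcD, hCD, hdec⟩ := hDec
  obtain ⟨cC, CC, hcC, hCC, hconc⟩ := hConc
  choose β hβ hMx using hMx
  set s' : ℝ := min (min 1 (9 / 25 * cD)) (min (1 / 10) (min (7 / 200 * s) (11 / 20 * cC))) with hs'
  have s'1 : s' ≤ 1 := (min_le_left _ _).trans (min_le_left _ _)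
  have s'2 : s' ≤ 9 / 25 * cD := (min_le_left _ _).trans (min_le_right _ _)
  have s'3 : s' ≤ 1 / 10 := (min_le_right _ _).trans (min_le_left _ _)
  have s'4 : s' ≤ 7 / 200 * s :=
    (min_le_right _ _).trans ((min_le_right _ _).trans (min_le_left _ _))
  have s'5 : s' ≤ 11 / 20 * cC :=
    (min_le_right _ _).trans ((min_le_right _ _).trans (min_le_right _ _))
  have s'0 : 0 < s' := by
    rw [hs']
    refine lt_min (lt_min (by norm_num) (by positivity)) (lt_min (by norm_num)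
      (lt_min (by positivity) (by positivity)))
  have hβs : ∀ i, β i ≤ ∑ j, β j := fun i =>
    Finset.single_le_sum (fun j _ => (hβ j).le) (Finset.mem_univ i)
  have hβs0 : 0 ≤ ∑ j, β j := Finset.sum_nonneg fun j _ => (hβ j).le
  refine ⟨s', 1 + CD + 9 + ∑ j, β j + max CC 1 * 6 ^ cC, s'0, s'1, by positivity, ?_⟩
  intro t y ht
  obtain ⟨T, hT⟩ : ∃ T, T = |t| := ⟨_, rfl⟩
  obtain ⟨δ, hδ⟩ : ∃ δ, δ = T ^ (-(11 / 20) : ℝ) := ⟨_, rfl⟩
  have hT1 : 1 ≤ T := hT ▸ ht
  have hT0 : 0 < T := by linarith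
  have hδ0 : 0 < δ := hδ ▸ Real.rpow_pos_of_pos hT0 _
  have hδ1 : δ ≤ 1 := by
    rw [hδ]
    exact Real.rpow_le_one_of_one_le_of_nonpos hT1 (by norm_num)
  set Ic : Set ℝ := Set.Icc (y - 6 * δ) (y + 6 * δ) with hIc
  set K : ℝ := T ^ (-1 : ℝ) + (CD * T ^ (-(9 / 25 * cD)) + 9 * T ^ (-(1 / 10) : ℝ)) +
    (∑ j, β j) * T ^ (-(7 / 200 * s)) with hK
  have hK0 : 0 ≤ K := by positivity
  have hpiece : ∀ i, ‖∫ x, g t y x ∂(κ i)‖ ≤ K + (κ i).real Ic := by
    intro i
    have := hκp i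
    have h1 := piece μ (κ i) s (β i) cD CD hs (hβ i) hcD hCD hdec t y T δ ht hT hδ
      (hMx i δ (T ^ (-1 : ℝ)) hδ0 hδ1 (by positivity))
    have h2 : ENNReal.ofReal (T ^ (-1 : ℝ) +
        (CD * T ^ (-(9 / 25 * cD)) + 9 * T ^ (-(1 / 10) : ℝ)) + β i * T ^ (-(7 / 200 * s))) ≤
        ENNReal.ofReal K := by
      apply ENNReal.ofReal_le_ofReal
      rw [hK]
      have := mul_le_mul_of_nonneg_right (hβs i) (by positivity : 0 ≤ T ^ (-(7 / 200 * s)))
      linarith
    have h3 : ‖∫ x, g t y x ∂(κ i)‖ₑ ≤ ENNReal.ofReal (K + (κ i).real Ic) := by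
      refine h1.trans ((add_le_add h2 le_rfl).trans (le_of_eq ?_))
      rw [ENNReal.ofReal_add hK0 measureReal_nonneg, ofReal_measureReal (measure_ne_top _ _)]
    rw [← ofReal_norm] at h3
    exact (ENNReal.ofReal_le_ofReal_iff (by positivity)).1 h3
  have hsum : ∫ x, g t y x ∂μ = ∑ i, (w i : ℂ) * ∫ x, g t y x ∂(κ i) := by
    conv_lhs => rw [hμe]
    rw [integral_finsetSum_measure]
    · apply Finset.sum_congr rfl
      intro i _
      rw [integral_smul_measure, ENNReal.toReal_ofReal (hw i), Complex.real_smul]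
    · intro i _
      have := hκp i
      exact (integrable_of_bdd _ (g_meas t y) (g_norm t y)).smul_measure ENNReal.ofReal_ne_top
  have hmeas : μ.real Ic = ∑ i, w i * (κ i).real Ic := by
    have : μ Ic = ∑ i, ENNReal.ofReal (w i) * κ i Ic := by
      conv_lhs => rw [hμe]
      simp [Measure.finsetSum_apply]
    unfold Measure.real
    rw [this, ENNReal.toReal_sum]
    · apply Finset.sum_congr rfl
      intro i _
      rw [ENNReal.toReal_mul, ENNReal.toReal_ofReal (hw i)]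
    · intro i _
      have := hκp i
      exact ENNReal.mul_ne_top ENNReal.ofReal_ne_top (measure_ne_top _ _)
  rw [g_int, hsum]
  have h1 : ‖∑ i, (w i : ℂ) * ∫ x, g t y x ∂(κ i)‖ ≤ K + μ.real Ic := by
    calc ‖∑ i, (w i : ℂ) * ∫ x, g t y x ∂(κ i)‖ ≤ ∑ i, ‖(w i : ℂ) * ∫ x, g t y x ∂(κ i)‖ :=
          norm_sum_le _ _
      _ ≤ ∑ i, w i * (K + (κ i).real Ic) := by
          apply Finset.sum_le_sum
          intro i _
          rw [norm_mul, Complex.norm_real, Real.norm_of_nonneg (hw i)]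
          exact mul_le_mul_of_nonneg_left (hpiece i) (hw i)
      _ = K + μ.real Ic := by
          rw [hmeas]
          simp only [mul_add, Finset.sum_add_distrib, ← Finset.sum_mul, hw1, one_mul]
  have h2 : μ.real Ic ≤ max CC 1 * (6 * δ) ^ cC := by
    by_cases h6 : 6 * δ ≤ 1
    · have h3 := hconc y (6 * δ) (by positivity) h6
      have h4 : μ.real Ic ≤ CC * (6 * δ) ^ cC := by
        unfold Measure.real
        have := ENNReal.toReal_mono ENNReal.ofReal_ne_top h3
        rwa [ENNReal.toReal_ofReal (by positivity)] at this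
      exact h4.trans (mul_le_mul_of_nonneg_right (le_max_left _ _) (by positivity))
    · have h3 : 1 ≤ (6 * δ) ^ cC := Real.one_le_rpow (by linarith) hcC.le
      calc μ.real Ic ≤ 1 := measureReal_le_one
        _ ≤ max CC 1 * (6 * δ) ^ cC := by
          have h4 : 1 ≤ max CC 1 := le_max_right _ _
          nlinarith
  have hpow : ∀ e : ℝ, s' ≤ e → T ^ (-e) ≤ T ^ (-s') := fun e he =>
    Real.rpow_le_rpow_of_exponent_le hT1 (by linarith)
  have h3 : (6 * δ) ^ cC ≤ 6 ^ cC * T ^ (-s') := by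
    rw [Real.mul_rpow (by norm_num) hδ0.le, hδ, ← Real.rpow_mul hT0.le]
    apply mul_le_mul_of_nonneg_left _ (by positivity)
    have := hpow _ s'5
    refine le_trans (le_of_eq ?_) this
    congr 1
    ring
  have k1 := hpow 1 s'1
  have k2 := hpow _ s'2
  have k3 := hpow _ s'3
  have k4 := hpow _ s'4
  rw [← hT]
  have hTs : 0 ≤ T ^ (-s') := by positivity
  have m1 : CD * T ^ (-(9 / 25 * cD)) ≤ CD * T ^ (-s') := mul_le_mul_of_nonneg_left k2 hCD.le
  have m2 : (∑ j, β j) * T ^ (-(7 / 200 * s)) ≤ (∑ j, β j) * T ^ (-s') :=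
    mul_le_mul_of_nonneg_left k4 hβs0
  have m3 : max CC 1 * (6 * δ) ^ cC ≤ max CC 1 * (6 ^ cC * T ^ (-s')) :=
    mul_le_mul_of_nonneg_left h3 (by positivity)
  calc ‖∑ i, (w i : ℂ) * ∫ x, g t y x ∂(κ i)‖ ≤ K + μ.real Ic := h1
    _ ≤ K + max CC 1 * (6 ^ cC * T ^ (-s')) := by linarith
    _ ≤ (1 + CD + 9 + ∑ j, β j + max CC 1 * 6 ^ cC) * T ^ (-s') := by
        rw [hK]
        nlinarith [k1, k3, m1, m2]

end Pool.Agent.T6.H62.AC
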