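import Pool.Agent.T6.H62.AC.Hang

/-!
# Unweighted decoupling at an affine gate (helper71 for helper62)
-/

open MeasureTheory Complex Filter Topology
open scoped ENNReal

namespace Pool.Agent.T6.H62.AC

namespace Aff

theorem norm_exp_sub_one (x : ℝ) : ‖cexp (x * I) - 1‖ ≤ |x| := by
  have := Real.norm_exp_I_mul_ofReal_sub_one_le (x := x)
  rwa [mul_comm, Real.norm_eq_abs] at this

/-- the transform at an affine gate -/
theorem transform {Ω' : Type} [MeasurableSpace Ω'] (μ : Measure ℝ) [IsProbabilityMeasure μ]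
    (hsupp : ∀ᵐ x ∂μ, 0 < x ∧ x < 1) (Q : Measure Ω') [IsProbabilityMeasure Q] (X : Ω' → ℝ)
    (hX : Measurable X) (c δ B a0 a1 g0 g1 : ℝ) (k : ℕ) (b : Fin k → ℝ) (hk : 1 ≤ k)
    (hδ : 0 < δ) (hB : 0 < B) (hBδ : B ≤ δ) (ha0 : 0 ≤ a1) (ha1 : a1 ≤ 1) (hg1 : |g1| ≤ 1)
    (hXc : ∀ᵐ ω ∂Q, |X ω - c| ≤ k * δ)
    (hT : ∀ τ : ℝ, ‖∫ ω, cexp (τ * X ω * I) ∂Q‖ ≤
        (∏ j, ‖charFun μ (τ * b j)‖) + k * k * |τ| * δ ^ 2) (τ : ℝ) :
    ‖∫ z : ℝ × Ω', cexp (τ * ((a0 + a1 * X z.2 + B * (z.1 - 1 / 2) * (g0 + g1 * X z.2) : ℝ) : ℂ)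
      * I) ∂(μ.prod Q)‖ ≤ ‖charFun μ (τ * (B * (g0 + g1 * c)))‖ *
        (∏ j, ‖charFun μ (τ * (a1 * b j))‖) + (k + 1) * (k + 1) * |τ| * δ ^ 2 := by
  set F : ℝ × Ω' → ℂ := fun z => cexp (((τ * B * (g0 + g1 * c) * (z.1 - 1 / 2) : ℝ) : ℂ) * I) *
    cexp (((τ * (a0 + a1 * X z.2) : ℝ) : ℂ) * I) with hF
  set E : ℝ × Ω' → ℂ := fun z =>
    cexp (((τ * B * (z.1 - 1 / 2) * (g1 * (X z.2 - c)) : ℝ) : ℂ) * I) - 1 with hE
  have hFm : Measurable F := by fun_prop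
  have hEm : Measurable E := by fun_prop
  have hFb : ∀ z, ‖F z‖ ≤ 1 := by
    intro z
    rw [hF]
    simp only [norm_mul, Complex.norm_exp_ofReal_mul_I, mul_one, le_refl]
  have hEb : ∀ z, ‖E z‖ ≤ 2 := by
    intro z
    rw [hE]
    refine (norm_sub_le _ _).trans ?_
    rw [Complex.norm_exp_ofReal_mul_I, norm_one]
    norm_num
  have e1 : ∀ z : ℝ × Ω', cexp (τ * ((a0 + a1 * X z.2 + B * (z.1 - 1 / 2) *
      (g0 + g1 * X z.2) : ℝ) : ℂ) * I) = F z + F z * E z := by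
    intro z
    have : F z + F z * E z = F z * cexp (((τ * B * (z.1 - 1 / 2) * (g1 * (X z.2 - c)) : ℝ) : ℂ)
        * I) := by
      rw [hE]; ring
    rw [this, hF]
    simp only
    rw [← Complex.exp_add, ← Complex.exp_add]
    congr 1
    push_cast
    ring
  have hFi : Integrable F (μ.prod Q) := integrable_of_bdd _ hFm hFb
  have hFEi : Integrable (fun z => F z * E z) (μ.prod Q) :=
    integrable_of_bdd (B := 2) _ (hFm.mul hEm) (fun z => by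
      rw [norm_mul]
      exact (mul_le_of_le_one_left (norm_nonneg _) (hFb z)).trans (hEb z))
  rw [integral_congr_ae (Eventually.of_forall e1), integral_add hFi hFEi]
  refine (norm_add_le _ _).trans ?_
  -- the error
  have h1 : ‖∫ z, F z * E z ∂(μ.prod Q)‖ ≤ |τ| * k * δ ^ 2 := by
    have h2 : ∀ᵐ z ∂(μ.prod Q), ‖F z * E z‖ ≤ |τ| * k * δ ^ 2 := by
      filter_upwards [(Measure.quasiMeasurePreserving_fst (μ := μ) (ν := Q)).ae hsupp,
        (Measure.quasiMeasurePreserving_snd (μ := μ) (ν := Q)).ae hXc] with z h3 h4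
      rw [norm_mul]
      refine (mul_le_of_le_one_left (norm_nonneg _) (hFb z)).trans ?_
      refine (norm_exp_sub_one _).trans ?_
      rw [abs_mul, abs_mul, abs_mul, abs_mul, abs_of_pos hB]
      have h5 : |z.1 - 1 / 2| ≤ 1 := by
        rw [abs_le]
        exact ⟨by linarith [h3.1], by linarith [h3.2]⟩
      have h6 : |g1| * |X z.2 - c| ≤ k * δ :=
        (mul_le_of_le_one_left (abs_nonneg _) hg1).trans h4
      have h7 : |τ| * B * |z.1 - 1 / 2| ≤ |τ| * δ := by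
        have : |τ| * B ≤ |τ| * δ := mul_le_mul_of_nonneg_left hBδ (abs_nonneg _)
        exact (mul_le_of_le_one_right (mul_nonneg (abs_nonneg _) hB.le) h5).trans this
      calc |τ| * B * |z.1 - 1 / 2| * (|g1| * |X z.2 - c|) ≤ |τ| * δ * (k * δ) :=
            mul_le_mul h7 h6 (mul_nonneg (abs_nonneg _) (abs_nonneg _))
              (mul_nonneg (abs_nonneg _) hδ.le)
        _ = |τ| * k * δ ^ 2 := by ring
    have h8 := norm_integral_le_of_norm_le_const h2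
    simpa using h8
  -- the main term
  have h9 : ∫ z, F z ∂(μ.prod Q) =
      (∫ x, cexp (((τ * B * (g0 + g1 * c) * (x - 1 / 2) : ℝ) : ℂ) * I) ∂μ) *
      ∫ ω, cexp (((τ * (a0 + a1 * X ω) : ℝ) : ℂ) * I) ∂Q := by
    rw [hF]
    exact integral_prod_mul (μ := μ) (ν := Q)
      (fun x : ℝ => cexp (((τ * B * (g0 + g1 * c) * (x - 1 / 2) : ℝ) : ℂ) * I))
      (fun ω : Ω' => cexp (((τ * (a0 + a1 * X ω) : ℝ) : ℂ) * I))
  have h10 : ‖∫ x, cexp (((τ * B * (g0 + g1 * c) * (x - 1 / 2) : ℝ) : ℂ) * I) ∂μ‖ =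
      ‖charFun μ (τ * (B * (g0 + g1 * c)))‖ := by
    have : ∀ x : ℝ, cexp (((τ * B * (g0 + g1 * c) * (x - 1 / 2) : ℝ) : ℂ) * I) =
        cexp (((-(τ * B * (g0 + g1 * c)) / 2 : ℝ) : ℂ) * I) *
        cexp (((τ * (B * (g0 + g1 * c)) : ℝ) : ℂ) * x * I) := by
      intro x
      rw [← Complex.exp_add]
      congr 1
      push_cast
      ring
    simp only [this]
    rw [integral_const_mul, norm_mul, Complex.norm_exp_ofReal_mul_I, one_mul,
      charFun_apply_real]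
  have h11 : ‖∫ ω, cexp (((τ * (a0 + a1 * X ω) : ℝ) : ℂ) * I) ∂Q‖ ≤
      (∏ j, ‖charFun μ (τ * (a1 * b j))‖) + k * k * |τ| * δ ^ 2 := by
    have : ∀ ω, cexp (((τ * (a0 + a1 * X ω) : ℝ) : ℂ) * I) =
        cexp (((τ * a0 : ℝ) : ℂ) * I) * cexp (((τ * a1 : ℝ) : ℂ) * X ω * I) := by
      intro ω
      rw [← Complex.exp_add]
      congr 1
      push_cast
      ring
    simp only [this]
    rw [integral_const_mul, norm_mul, Complex.norm_exp_ofReal_mul_I, one_mul]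
    refine (hT (τ * a1)).trans ?_
    have h12 : ∏ j, ‖charFun μ (τ * a1 * b j)‖ = ∏ j, ‖charFun μ (τ * (a1 * b j))‖ :=
      Finset.prod_congr rfl fun j _ => by rw [mul_assoc]
    rw [h12, abs_mul, abs_of_nonneg ha0]
    have h13 : |τ| * a1 ≤ |τ| := mul_le_of_le_one_right (abs_nonneg _) ha1
    have h14 : (k : ℝ) * k * (|τ| * a1) * δ ^ 2 ≤ k * k * |τ| * δ ^ 2 :=
      mul_le_mul_of_nonneg_right (mul_le_mul_of_nonneg_left h13 (by positivity)) (by positivity)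
    linarith
  rw [h9, norm_mul, h10]
  have h15 : ‖charFun μ (τ * (B * (g0 + g1 * c)))‖ ≤ 1 := norm_charFun_le_one _
  have h16 := mul_le_mul_of_nonneg_left h11 (norm_nonneg (charFun μ (τ * (B * (g0 + g1 * c)))))
  have h17 : ‖charFun μ (τ * (B * (g0 + g1 * c)))‖ * ((k : ℝ) * k * |τ| * δ ^ 2) ≤
      k * k * |τ| * δ ^ 2 := mul_le_of_le_one_left (by positivity) h15
  have h18 : 0 ≤ |τ| * δ ^ 2 := by positivity
  have h19 : (1 : ℝ) ≤ k := by exact_mod_cast hk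
  nlinarith [mul_nonneg h18 (by linarith : (0 : ℝ) ≤ (k : ℝ) + 1)]

theorem meas_lint {α β : Type} [MeasurableSpace α] [MeasurableSpace β] (ν : Measure β)
    [SFinite ν] {F : α × β → ℝ≥0∞} (hF : Measurable F) :
    Measurable (fun a => ∫⁻ b, F (a, b) ∂ν) := hF.lintegral_prod_right'

/-- the law of the gate in terms of the new data -/
theorem law_gate {Ω Ω' : Type} [MeasurableSpace Ω] [MeasurableSpace Ω'] {g : ℝ → ℝ → ℝ}
    (hg : Measurable (fun z : ℝ × ℝ => g z.1 z.2)) {μ κ₁ κ : Measure ℝ}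
    [IsProbabilityMeasure μ] {P : Measure (ℝ × ℝ)} {V : Measure Ω} {Q : Measure Ω'}
    [IsProbabilityMeasure V] [IsProbabilityMeasure Q] {X : Ω → Ω' → ℝ}
    (hX : Measurable (fun z : Ω × Ω' => X z.1 z.2)) (hR : Rep κ₁ μ P)
    (hκ : κ = (V.prod Q).map (fun z : Ω × Ω' => X z.1 z.2)) :
    (κ₁.prod κ).map (fun z : ℝ × ℝ => g z.1 z.2) = ((P.prod V).prod (μ.prod Q)).map
      (fun y : ((ℝ × ℝ) × Ω) × (ℝ × Ω') => g (y.1.1.1 + y.1.1.2 * y.2.1) (X y.1.2 y.2.2)) := by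
  have := hR.prob
  have hXp : Measurable (fun z : ((ℝ × ℝ) × Ω) × (ℝ × Ω') => X z.1.2 z.2.2) :=
    hX.comp (by fun_prop : Measurable (fun z : ((ℝ × ℝ) × Ω) × (ℝ × Ω') => (z.1.2, z.2.2)))
  have hgp : Measurable (fun z : ((ℝ × ℝ) × Ω) × (ℝ × Ω') =>
      g (z.1.1.1 + z.1.1.2 * z.2.1) (X z.1.2 z.2.2)) :=
    hg.comp (by fun_prop : Measurable (fun z : ((ℝ × ℝ) × Ω) × (ℝ × Ω') =>
      (z.1.1.1 + z.1.1.2 * z.2.1, X z.1.2 z.2.2)))
  have hκ' : IsProbabilityMeasure κ := by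
    rw [hκ]
    exact Measure.isProbabilityMeasure_map hX.aemeasurable
  refine Measure.ext_of_lintegral _ fun f hf => ?_
  rw [lintegral_map hf hg, lintegral_map hf hgp,
    lintegral_prod (fun z : ℝ × ℝ => f (g z.1 z.2)) (hf.comp hg).aemeasurable]
  have h1 : ∀ u, ∫⁻ x, f (g u x) ∂κ = ∫⁻ ω, ∫⁻ ω', f (g u (X ω ω')) ∂Q ∂V := by
    intro u
    have hgu : Measurable (g u) := hg.comp (measurable_prodMk_left (x := u))
    rw [hκ, lintegral_map (f := fun x => f (g u x)) (hf.comp hgu) hX,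
      lintegral_prod (fun z : Ω × Ω' => f (g u (X z.1 z.2)))
        ((hf.comp hgu).comp hX).aemeasurable]
  simp only [h1]
  have hG : Measurable (fun w : (ℝ × Ω) × Ω' => f (g w.1.1 (X w.1.2 w.2))) := by
    have h1 : Measurable (fun w : (ℝ × Ω) × Ω' => X w.1.2 w.2) :=
      hX.comp (by fun_prop : Measurable (fun w : (ℝ × Ω) × Ω' => (w.1.2, w.2)))
    have h3 : Measurable (fun w : (ℝ × Ω) × Ω' => g w.1.1 (X w.1.2 w.2)) :=
      hg.comp (by fun_prop : Measurable (fun w : (ℝ × Ω) × Ω' => (w.1.1, X w.1.2 w.2)))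
    exact hf.comp h3
  have h2 : Measurable (fun u => ∫⁻ ω, ∫⁻ ω', f (g u (X ω ω')) ∂Q ∂V) :=
    meas_lint (α := ℝ) (β := Ω) V (meas_lint Q hG)
  rw [hR.lint h2, lintegral_prod (fun z : ((ℝ × ℝ) × Ω) × (ℝ × Ω') =>
      f (g (z.1.1.1 + z.1.1.2 * z.2.1) (X z.1.2 z.2.2))) (hf.comp hgp).aemeasurable,
    lintegral_prod (fun z : (ℝ × ℝ) × Ω => ∫⁻ z' : ℝ × Ω',
      f (g (z.1.1 + z.1.2 * z'.1) (X z.2 z'.2)) ∂(μ.prod Q))
      (meas_lint (μ.prod Q) (hf.comp hgp)).aemeasurable]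
  refine lintegral_congr fun p => ?_
  have h4 : ∀ ω, ∫⁻ z', f (g (p.1 + p.2 * z'.1) (X ω z'.2)) ∂(μ.prod Q) =
      ∫⁻ ξ, ∫⁻ ω', f (g (p.1 + p.2 * ξ) (X ω ω')) ∂Q ∂μ := by
    intro ω
    refine lintegral_prod _ (Measurable.aemeasurable ?_)
    exact (hf.comp hgp).comp (measurable_prodMk_left (x := (p, ω)))
  simp only [h4]
  refine lintegral_lintegral_swap (Measurable.aemeasurable ?_)
  exact meas_lint (α := ℝ × Ω) Q (F := fun w => f (g (p.1 + p.2 * w.1.1) (X w.1.2 w.2)))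
    (hG.comp (by fun_prop : Measurable (fun w : (ℝ × Ω) × Ω' =>
      (((p.1 + p.2 * w.1.1, w.1.2), w.2) : (ℝ × Ω) × Ω'))))

/-- integrals over a product of sets -/
theorem prodInt {Ω : Type} [MeasurableSpace Ω] (P : Measure (ℝ × ℝ)) (V : Measure Ω)
    [IsProbabilityMeasure P] [IsProbabilityMeasure V] {A : Set (ℝ × ℝ)} {G : Set Ω}
    (hA : MeasurableSet A) (hG : MeasurableSet G) {F : (ℝ × ℝ) × Ω → ℝ≥0∞}
    {f : ℝ × ℝ → ℝ≥0∞} {h : Ω → ℝ≥0∞} (hf : Measurable f) (hh : Measurable h)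
    (hle : ∀ r ∈ A, ∀ ω ∈ G, F (r, ω) ≤ f r * h ω) {a b : ℝ} (ha : 0 ≤ a)
    (h1 : ∫⁻ r in A, f r ∂P ≤ ENNReal.ofReal a) (h2 : ∫⁻ ω in G, h ω ∂V ≤ ENNReal.ofReal b) :
    ∫⁻ z in A ×ˢ G, F z ∂(P.prod V) ≤ ENNReal.ofReal (a * b) := by
  calc ∫⁻ z in A ×ˢ G, F z ∂(P.prod V) ≤ ∫⁻ z in A ×ˢ G, f z.1 * h z.2 ∂(P.prod V) :=
        setLIntegral_mono' (hA.prod hG) (fun z hz => hle z.1 hz.1 z.2 hz.2)
    _ = (∫⁻ r in A, f r ∂P) * ∫⁻ ω in G, h ω ∂V := by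
        rw [← Measure.prod_restrict, lintegral_prod_mul hf.aemeasurable hh.aemeasurable]
    _ ≤ ENNReal.ofReal (a * b) := by
        rw [ENNReal.ofReal_mul ha]
        exact mul_le_mul' h1 h2

/-- the good set for the first leaf -/
def A₀ (δ : ℝ) : Set (ℝ × ℝ) := {r | 0 ≤ r.1 ∧ 0 < r.2 ∧ r.1 + r.2 ≤ 1 ∧ r.2 ≤ δ}

theorem A₀_meas (δ : ℝ) : MeasurableSet (A₀ δ) := by
  have h1 : MeasurableSet {r : ℝ × ℝ | 0 ≤ r.1} := measurableSet_le measurable_const measurable_fst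
  have h2 : MeasurableSet {r : ℝ × ℝ | 0 < r.2} := measurableSet_lt measurable_const measurable_snd
  have h3 : MeasurableSet {r : ℝ × ℝ | r.1 + r.2 ≤ 1} :=
    measurableSet_le (by fun_prop) measurable_const
  have h4 : MeasurableSet {r : ℝ × ℝ | r.2 ≤ δ} := measurableSet_le measurable_snd measurable_const
  exact h1.inter (h2.inter (h3.inter h4))

theorem A₀_compl {κ μ : Measure ℝ} {P : Measure (ℝ × ℝ)} (hR : Rep κ μ P) {δ ε' : ℝ}
    (hP1 : P {p | δ < p.2} ≤ ENNReal.ofReal ε') : P (A₀ δ)ᶜ ≤ ENNReal.ofReal ε' := by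
  refine (measure_mono_ae ?_).trans hP1
  filter_upwards [hR.supp] with r hr hrA
  by_contra hcon
  exact hrA ⟨hr.1, hr.2.1, hr.2.2, not_lt.1 hcon⟩

theorem compl_prod {Ω : Type} [MeasurableSpace Ω] (P : Measure (ℝ × ℝ)) (V : Measure Ω)
    [IsProbabilityMeasure P] [IsProbabilityMeasure V] {A : Set (ℝ × ℝ)} {G : Set Ω} {ε : ℝ}
    (hε : 0 < ε) (h1 : P Aᶜ ≤ ENNReal.ofReal (ε / 2)) (h2 : V Gᶜ ≤ ENNReal.ofReal (ε / 2)) :
    (P.prod V) (A ×ˢ G)ᶜ ≤ ENNReal.ofReal ε := by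
  have h3 : (A ×ˢ G)ᶜ ⊆ (Aᶜ ×ˢ Set.univ) ∪ ((Set.univ : Set (ℝ × ℝ)) ×ˢ Gᶜ) := by
    rintro ⟨r, ω⟩ h
    by_cases hr : r ∈ A
    · right
      exact ⟨Set.mem_univ _, fun hω => h ⟨hr, hω⟩⟩
    · left
      exact ⟨hr, Set.mem_univ _⟩
  refine (measure_mono h3).trans ((measure_union_le _ _).trans ?_)
  rw [Measure.prod_prod, Measure.prod_prod, measure_univ, measure_univ, mul_one, one_mul]
  have h4 : ENNReal.ofReal ε = ENNReal.ofReal (ε / 2) + ENNReal.ofReal (ε / 2) := by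
    rw [← ENNReal.ofReal_add (by linarith) (by linarith)]
    congr 1
    ring
  rw [h4]
  exact add_le_add h1 h2

/-- negative moments of the centre, from those of the law -/
theorem cent {κ μ : Measure ℝ} [IsProbabilityMeasure μ] (hsupp : ∀ᵐ x ∂μ, 0 < x ∧ x < 1)
    {P : Measure (ℝ × ℝ)} (hR : Rep κ μ P) {s δ : ℝ} (hs : 0 < s) (l l' : ℝ → ℝ)
    (hl' : Measurable l')
    (hll : ∀ r ∈ A₀ δ, ∀ ξ : ℝ, 0 < ξ → ξ < 1 → 0 < l' (r.1 + r.2 * ξ) ∧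
      l' (r.1 + r.2 * ξ) ≤ 2 * l (r.1 + r.2 / 2))
    (hfin : ∫⁻ x, ENNReal.ofReal ((l' x) ^ (-s)) ∂κ ≠ ⊤) :
    ∫⁻ r in A₀ δ, ENNReal.ofReal ((l (r.1 + r.2 / 2)) ^ (-s)) ∂P ≤
      ENNReal.ofReal (2 ^ s * (∫⁻ x, ENNReal.ofReal ((l' x) ^ (-s)) ∂κ).toReal) := by
  rw [ENNReal.ofReal_mul (by positivity), ENNReal.ofReal_toReal hfin,
    hR.lint (g := fun x => ENNReal.ofReal ((l' x) ^ (-s))) (by fun_prop)]
  have := hR.prob
  rw [← lintegral_const_mul _ (by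
    exact meas_lint (α := ℝ × ℝ) (β := ℝ) μ
      (F := fun w => ENNReal.ofReal ((l' (w.1.1 + w.1.2 * w.2)) ^ (-s))) (by fun_prop))]
  refine (setLIntegral_mono' (A₀_meas δ) (fun r hr => ?_)).trans
    (lintegral_mono' Measure.restrict_le_self le_rfl)
  rw [← lintegral_const_mul _ (by fun_prop)]
  have h1 : ENNReal.ofReal ((l (r.1 + r.2 / 2)) ^ (-s)) =
      ∫⁻ _ξ, ENNReal.ofReal ((l (r.1 + r.2 / 2)) ^ (-s)) ∂μ := by
    rw [lintegral_const, measure_univ, mul_one]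
  rw [h1]
  refine lintegral_mono_ae ?_
  filter_upwards [hsupp] with ξ hξ
  obtain ⟨h2, h3⟩ := hll r hr ξ hξ.1 hξ.2
  rw [← ENNReal.ofReal_mul (by positivity)]
  refine ENNReal.ofReal_le_ofReal ?_
  have h4 : l (r.1 + r.2 / 2) ^ (-s) ≤ (l' (r.1 + r.2 * ξ) / 2) ^ (-s) :=
    Real.rpow_le_rpow_of_nonpos (by linarith) (by linarith) (by linarith)
  refine h4.trans (le_of_eq ?_)
  rw [Real.div_rpow h2.le (by norm_num), Real.rpow_neg (by norm_num : (0 : ℝ) ≤ 2)]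
  rw [div_inv_eq_mul, mul_comm]

end Aff

end Pool.Agent.T6.H62.AC
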