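import Pool.Agent.T6.H62.AC.Kit

open MeasureTheory Complex Filter Topology
open scoped ENNReal

namespace Pool.Agent.T6.H62.AC

namespace ConcAux

/-- the exponential sum -/
noncomputable def E (K : ℕ) (d x y : ℝ) : ℂ :=
  ∑ j ∈ Finset.range K, cexp (((j * d * (y - x) : ℝ) : ℂ) * I)

theorem E_cont (K : ℕ) (d x : ℝ) : Continuous (fun y => E K d x y) := by
  unfold E
  fun_prop

theorem E_norm_le (K : ℕ) (d x y : ℝ) : ‖E K d x y‖ ≤ K := by
  unfold E
  refine (norm_sum_le _ _).trans ?_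
  simp only [Complex.norm_exp_ofReal_mul_I]
  simp

theorem E_norm_ge (K : ℕ) (d x y h : ℝ) (hd : 0 ≤ d) (hK : K * d * h ≤ 1) (hy : |y - x| ≤ h) :
    (K : ℝ) / 2 ≤ ‖E K d x y‖ := by
  refine le_trans ?_ (Complex.re_le_norm _)
  unfold E
  rw [Complex.re_sum]
  have : ∀ j ∈ Finset.range K, (1 / 2 : ℝ) ≤ (cexp (((j * d * (y - x) : ℝ) : ℂ) * I)).re := by
    intro j hj
    rw [Complex.exp_ofReal_mul_I_re]
    have hj' : (j : ℝ) ≤ K := by exact_mod_cast (Finset.mem_range.1 hj).le
    have h1 : |(j * d * (y - x) : ℝ)| ≤ 1 := by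
      rw [abs_mul, abs_of_nonneg (by positivity : (0 : ℝ) ≤ j * d)]
      calc (j : ℝ) * d * |y - x| ≤ K * d * h := by
            apply mul_le_mul _ hy (abs_nonneg _) (by positivity)
            exact mul_le_mul_of_nonneg_right hj' hd
        _ ≤ 1 := hK
    have h2 := Real.one_sub_sq_div_two_le_cos (x := (j * d * (y - x) : ℝ))
    have h3 : (j * d * (y - x) : ℝ) ^ 2 ≤ 1 := by
      rw [← sq_abs]; nlinarith [abs_nonneg (j * d * (y - x) : ℝ)]
    linarith
  calc (K : ℝ) / 2 = ∑ j ∈ Finset.range K, (1 / 2 : ℝ) := by simp; ring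
    _ ≤ _ := Finset.sum_le_sum this

theorem E_sq (K : ℕ) (d x y : ℝ) :
    (((‖E K d x y‖ ^ 2 : ℝ)) : ℂ) = ∑ j ∈ Finset.range K, ∑ l ∈ Finset.range K,
      cexp (((-(((j : ℝ) - l) * d * x) : ℝ) : ℂ) * I) *
        cexp (((((j : ℝ) - l) * d : ℝ) : ℂ) * y * I) := by
  have h1 : (((‖E K d x y‖ ^ 2 : ℝ)) : ℂ) = E K d x y * (starRingEnd ℂ) (E K d x y) := by
    rw [Complex.mul_conj, Complex.normSq_eq_norm_sq]
  rw [h1]
  unfold E
  rw [map_sum, Finset.sum_mul_sum]
  refine Finset.sum_congr rfl fun j _ => Finset.sum_congr rfl fun l _ => ?_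
  rw [← Complex.exp_conj, ← Complex.exp_add, ← Complex.exp_add]
  congr 1
  simp only [map_mul, Complex.conj_ofReal, Complex.conj_I]
  push_cast
  ring

theorem int_E (μ : Measure ℝ) [IsProbabilityMeasure μ] (K : ℕ) (d x : ℝ) :
    (((∫ y, ‖E K d x y‖ ^ 2 ∂μ : ℝ)) : ℂ) = ∑ j ∈ Finset.range K, ∑ l ∈ Finset.range K,
      cexp (((-(((j : ℝ) - l) * d * x) : ℝ) : ℂ) * I) *
        charFun μ (((j : ℝ) - l) * d) := by
  rw [← integral_complex_ofReal]
  simp_rw [E_sq]
  have hint : ∀ (a : ℂ) (t : ℝ), Integrable (fun y : ℝ => a * cexp ((t : ℂ) * y * I)) μ := by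
    intro a t
    apply Integrable.const_mul
    refine integrable_of_bdd μ (B := 1) (by fun_prop) ?_
    intro y
    have : (t : ℂ) * y * I = ((t * y : ℝ) : ℂ) * I := by push_cast; ring
    rw [this, Complex.norm_exp_ofReal_mul_I]
  rw [integral_finset_sum]
  · refine Finset.sum_congr rfl fun j _ => ?_
    rw [integral_finset_sum]
    · refine Finset.sum_congr rfl fun l _ => ?_
      rw [integral_const_mul, charFun_apply_real]
    · intro l _
      exact hint _ _
  · intro j _
    apply integrable_finset_sum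
    intro l _
    exact hint _ _

end ConcAux

open ConcAux in
theorem conc : StmCONC := by
  intro μ hμ hdec
  haveI := hμ
  obtain ⟨c, C, hc, hC, hdec⟩ := hdec
  refine ⟨min (1 / 2) (c / 2), 4 * (2 + C), by positivity, by positivity, ?_⟩
  intro x h hh hh1
  set r : ℝ := h ^ (-(1 / 2) : ℝ) with hr
  have hr1 : 1 ≤ r := by
    rw [hr]
    exact Real.one_le_rpow_of_pos_of_le_one_of_nonpos hh hh1 (by norm_num)
  have hrh : r * r * h = 1 := by
    rw [hr, ← Real.rpow_add hh]
    nth_rewrite 2 [← Real.rpow_one h]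
    rw [← Real.rpow_add hh]
    norm_num
  set K : ℕ := ⌊r⌋₊ with hK
  have hK1 : 1 ≤ K := by
    rw [hK]; exact Nat.le_floor (by simpa using hr1)
  have hK1' : (1 : ℝ) ≤ K := by exact_mod_cast hK1
  have hKr : (K : ℝ) ≤ r := Nat.floor_le (by linarith)
  have hKr2 : r / 2 ≤ K := by
    have := Nat.lt_floor_add_one r
    rw [← hK] at this
    linarith
  set d : ℝ := 1 / (h * K) with hd
  have hd0 : 0 < d := by positivity
  have hKd : K * d * h = 1 := by
    rw [hd]; field_simp
  have hdr : r ≤ d := by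
    rw [hd, le_div_iff₀ (by positivity)]
    calc r * (h * K) ≤ r * (h * r) := by
          apply mul_le_mul_of_nonneg_left _ (by linarith)
          exact mul_le_mul_of_nonneg_left hKr hh.le
      _ = 1 := by linarith [hrh]
  have hd1 : 1 ≤ d := hr1.trans hdr
  -- lower bound
  have hlow : μ.real (Set.Icc (x - h) (x + h)) * ((K : ℝ) ^ 2 / 4) ≤ ∫ y, ‖E K d x y‖ ^ 2 ∂μ := by
    have hint : Integrable (fun y => ‖E K d x y‖ ^ 2) μ := by
      refine Integrable.of_bound ((E_cont K d x).norm.pow 2).aestronglyMeasurable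
        ((K : ℝ) ^ 2) (Eventually.of_forall ?_)
      intro y
      rw [Real.norm_of_nonneg (by positivity)]
      exact pow_le_pow_left₀ (norm_nonneg _) (E_norm_le K d x y) 2
    calc μ.real (Set.Icc (x - h) (x + h)) * ((K : ℝ) ^ 2 / 4)
        = ∫ y in Set.Icc (x - h) (x + h), ((K : ℝ) ^ 2 / 4) ∂μ := by
          rw [setIntegral_const, smul_eq_mul]
      _ ≤ ∫ y in Set.Icc (x - h) (x + h), ‖E K d x y‖ ^ 2 ∂μ := by
          apply setIntegral_mono_on _ hint.integrableOn measurableSet_Icc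
          · intro y hy
            have h1 : |y - x| ≤ h := by
              rw [abs_le]; constructor <;> linarith [hy.1, hy.2]
            have h2 := E_norm_ge K d x y h hd0.le hKd.le h1
            calc ((K : ℝ) ^ 2 / 4) = ((K : ℝ) / 2) ^ 2 := by ring
              _ ≤ _ := pow_le_pow_left₀ (by positivity) h2 2
          · exact integrableOn_const (by finiteness)
      _ ≤ ∫ y, ‖E K d x y‖ ^ 2 ∂μ :=
          setIntegral_le_integral hint (Eventually.of_forall fun y => by positivity)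
  -- upper bound
  have hup : ∫ y, ‖E K d x y‖ ^ 2 ∂μ ≤ K + (K : ℝ) ^ 2 * (C * d ^ (-c)) := by
    have h0 : 0 ≤ ∫ y, ‖E K d x y‖ ^ 2 ∂μ := integral_nonneg fun y => by positivity
    have h1 : ∫ y, ‖E K d x y‖ ^ 2 ∂μ = ‖(((∫ y, ‖E K d x y‖ ^ 2 ∂μ : ℝ)) : ℂ)‖ := by
      rw [Complex.norm_real, Real.norm_of_nonneg h0]
    rw [h1, int_E]
    have h2 : ∀ j ∈ Finset.range K, ∀ l ∈ Finset.range K,
        ‖cexp (((-(((j : ℝ) - l) * d * x) : ℝ) : ℂ) * I) * charFun μ (((j : ℝ) - l) * d)‖ ≤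
          (if j = l then 1 else 0) + C * d ^ (-c) := by
      intro j _ l _
      rw [norm_mul, Complex.norm_exp_ofReal_mul_I, one_mul]
      have h3 : 0 ≤ C * d ^ (-c) := by positivity
      by_cases hjl : j = l
      · rw [if_pos hjl]
        have := norm_charFun_le_one (μ := μ) (((j : ℝ) - l) * d)
        linarith
      · rw [if_neg hjl, zero_add]
        have h4 : (1 : ℝ) ≤ |(j : ℝ) - l| := by
          have : (1 : ℤ) ≤ |(j : ℤ) - l| := by
            apply Int.one_le_abs
            intro hz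
            exact hjl (by omega)
          exact_mod_cast this
        have h5 : d ≤ |((j : ℝ) - l) * d| := by
          rw [abs_mul, abs_of_pos hd0]
          nlinarith
        refine (hdec _ (hd1.trans h5)).trans ?_
        apply mul_le_mul_of_nonneg_left _ hC.le
        exact Real.rpow_le_rpow_of_nonpos hd0 h5 (by linarith)
    calc ‖∑ j ∈ Finset.range K, ∑ l ∈ Finset.range K,
          cexp (((-(((j : ℝ) - l) * d * x) : ℝ) : ℂ) * I) * charFun μ (((j : ℝ) - l) * d)‖
        ≤ ∑ j ∈ Finset.range K, ∑ l ∈ Finset.range K,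
          ((if j = l then 1 else 0) + C * d ^ (-c)) := by
          refine (norm_sum_le _ _).trans (Finset.sum_le_sum fun j hj => ?_)
          exact (norm_sum_le _ _).trans (Finset.sum_le_sum fun l hl => h2 j hj l hl)
      _ = ∑ j ∈ Finset.range K, (1 + K * (C * d ^ (-c))) := by
          refine Finset.sum_congr rfl fun j hj => ?_
          rw [Finset.sum_add_distrib, Finset.sum_ite_eq, if_pos hj]
          simp
      _ = K + (K : ℝ) ^ 2 * (C * d ^ (-c)) := by
          rw [Finset.sum_const, Finset.card_range, nsmul_eq_mul]; ring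
  have hKpos : (0 : ℝ) < K := by linarith
  have hmain : μ.real (Set.Icc (x - h) (x + h)) ≤ 4 * (1 / K + C * d ^ (-c)) := by
    have h1 := hlow.trans hup
    have h2 : μ.real (Set.Icc (x - h) (x + h)) * ((K : ℝ) ^ 2 / 4) ≤
        (4 * (1 / K + C * d ^ (-c))) * ((K : ℝ) ^ 2 / 4) := by
      refine h1.trans (le_of_eq ?_)
      field_simp
    exact le_of_mul_le_mul_right h2 (by positivity)
  have e1 : 1 / (K : ℝ) ≤ 2 * h ^ (min (1 / 2) (c / 2)) := by
    have h1 : 1 / (K : ℝ) ≤ 2 * (1 / r) := by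
      rw [← mul_div_assoc, mul_one, div_le_div_iff₀ hKpos (by linarith)]
      linarith
    have h2 : 1 / r = h ^ (1 / 2 : ℝ) := by
      rw [hr, Real.rpow_neg hh.le]; simp
    refine h1.trans ?_
    rw [h2]
    apply mul_le_mul_of_nonneg_left _ (by norm_num)
    exact Real.rpow_le_rpow_of_exponent_ge hh hh1 (min_le_left _ _)
  have e2 : d ^ (-c) ≤ h ^ (min (1 / 2) (c / 2)) := by
    calc d ^ (-c) ≤ r ^ (-c) := Real.rpow_le_rpow_of_nonpos (by linarith) hdr (by linarith)
      _ = h ^ (c / 2) := by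
        rw [hr, ← Real.rpow_mul hh.le]; congr 1; ring
      _ ≤ _ := Real.rpow_le_rpow_of_exponent_ge hh hh1 (min_le_right _ _)
  have hfin : μ.real (Set.Icc (x - h) (x + h)) ≤ 4 * (2 + C) * h ^ (min (1 / 2) (c / 2)) := by
    refine hmain.trans ?_
    have := mul_le_mul_of_nonneg_left e2 hC.le
    nlinarith [this, e1]
  rw [← ofReal_measureReal (by finiteness)]
  exact ENNReal.ofReal_le_ofReal hfin

end Pool.Agent.T6.H62.AC
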