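import Mathlib

open MeasureTheory Complex Filter Topology
open scoped ENNReal

namespace Pool.Agent.T6.H62.AC

/-- law of `u x`, `u ~ μ` and `x ~ κ` independent -/
noncomputable def mulLaw (μ κ : Measure ℝ) : Measure ℝ :=
  (μ.prod κ).map (fun p : ℝ × ℝ => p.1 * p.2)

/-- law of `u + (1 - u) x`, `u ~ μ` and `x ~ κ` independent -/
noncomputable def joinLaw (μ κ : Measure ℝ) : Measure ℝ :=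
  (μ.prod κ).map (fun p : ℝ × ℝ => p.1 + (1 - p.1) * p.2)

/-- the equation for the law conditioned to be positive -/
structure Eqn (a : ℝ) (μ : Measure ℝ) : Prop where
  ha : 1 / 2 < a
  ha1 : a < 1
  prob : IsProbabilityMeasure μ
  supp : ∀ᵐ x ∂μ, 0 < x ∧ x < 1
  eqn : μ = ENNReal.ofReal a • joinLaw μ (mulLaw μ μ) + ENNReal.ofReal (1 - a) • mulLaw μ μ

/-- negative moments at both ends -/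
structure Mom (μ : Measure ℝ) (θ : ℝ) : Prop where
  pos : 0 < θ
  le : θ ≤ 1
  m0 : ∫⁻ x, ENNReal.ofReal (x ^ (-θ)) ∂μ ≠ ⊤
  m1 : ∫⁻ x, ENNReal.ofReal ((1 - x) ^ (-θ)) ∂μ ≠ ⊤

/-- `κ` is the law of `A + B ξ`, `(A,B) ~ P` and `ξ ~ μ` independent -/
structure Rep (κ μ : Measure ℝ) (P : Measure (ℝ × ℝ)) : Prop where
  prob : IsProbabilityMeasure P
  supp : ∀ᵐ p ∂P, 0 ≤ p.1 ∧ 0 < p.2 ∧ p.1 + p.2 ≤ 1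
  law : κ = (P.prod μ).map (fun q : (ℝ × ℝ) × ℝ => q.1.1 + q.1.2 * q.2)

/-- representations at every scale `δ` -/
def GoodRep (κ μ : Measure ℝ) (s : ℝ) : Prop :=
  ∃ C : ℝ, 0 < C ∧ ∀ δ ε : ℝ, 0 < δ → δ ≤ 1 → 0 < ε → ∃ P : Measure (ℝ × ℝ),
    Rep κ μ P ∧ P {p | δ < p.2} ≤ ENNReal.ofReal ε ∧
    ∫⁻ p, ENNReal.ofReal (p.2 ^ (-s)) ∂P ≤ ENNReal.ofReal (C * δ ^ (-(11 / 10 * s)))

/-! ### structure and moments -/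

def StmMOM0 : Prop := ∀ (a : ℝ) (μ : Measure ℝ), Eqn a μ →
  ∃ θ : ℝ, 0 < θ ∧ θ ≤ 1 ∧ ∫⁻ x, ENNReal.ofReal (x ^ (-θ)) ∂μ ≠ ⊤

def StmMOM1 : Prop := ∀ (a : ℝ) (μ : Measure ℝ), Eqn a μ →
  ∃ θ : ℝ, 0 < θ ∧ θ ≤ 1 ∧ ∫⁻ x, ENNReal.ofReal ((1 - x) ^ (-θ)) ∂μ ≠ ⊤

def StmREP : Prop := ∀ (a : ℝ) (μ : Measure ℝ) (θ : ℝ), Eqn a μ → Mom μ θ → GoodRep μ μ θ

def StmREP2 : Prop := ∀ (a : ℝ) (μ : Measure ℝ) (θ : ℝ), Eqn a μ → Mom μ θ → GoodRep μ μ θ →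
  GoodRep (mulLaw μ μ) μ θ

/-! ### the Cramer condition -/

def StmNLT : Prop := ∀ (a : ℝ) (μ : Measure ℝ), Eqn a μ → ∀ u : ℝ, u ≠ 0 → ‖charFun μ u‖ < 1

def StmCRA : Prop := ∀ (a : ℝ) (μ : Measure ℝ) (θ : ℝ), Eqn a μ → Mom μ θ →
  (∀ u : ℝ, u ≠ 0 → ‖charFun μ u‖ < 1) →
  ∃ q : ℝ, 0 ≤ q ∧ q < 1 ∧ ∀ t : ℝ, 1 ≤ |t| → ‖charFun μ t‖ ≤ q

/-! ### unweighted decoupling -/

/-- `κ` is a mixture (over `Ω`, outside a set of measure `≤ ε`) of laws whose characteristic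
function is dominated by a product of `k` values of `charFun μ` -/
def Mx (μ : Measure ℝ) (s β : ℝ) (k : ℕ) (δ ε : ℝ) (κ : Measure ℝ) : Prop :=
  ∃ (Ω Ω' : Type) (_ : MeasurableSpace Ω) (_ : MeasurableSpace Ω') (P : Measure Ω)
    (Q : Measure Ω') (X : Ω → Ω' → ℝ) (c : Ω → ℝ) (b : Fin k → Ω → ℝ) (G : Set Ω),
    IsProbabilityMeasure P ∧ IsProbabilityMeasure Q ∧
    Measurable (fun z : Ω × Ω' => X z.1 z.2) ∧ Measurable c ∧ (∀ j, Measurable (b j)) ∧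
    MeasurableSet G ∧ P Gᶜ ≤ ENNReal.ofReal ε ∧
    κ = (P.prod Q).map (fun z : Ω × Ω' => X z.1 z.2) ∧
    (∀ ω ∈ G, 0 < c ω ∧ c ω < 1 ∧ (∀ j, 0 < b j ω) ∧
      (∀ᵐ ω' ∂Q, 0 ≤ X ω ω' ∧ X ω ω' ≤ 1 ∧ |X ω ω' - c ω| ≤ k * δ) ∧
      ∀ τ : ℝ, ‖∫ ω', cexp (τ * X ω ω' * I) ∂Q‖ ≤
        (∏ j, ‖charFun μ (τ * b j ω)‖) + k * k * |τ| * δ ^ 2) ∧
    (∀ j, ∫⁻ ω in G, ENNReal.ofReal ((b j ω) ^ (-s)) ∂P ≤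
      ENNReal.ofReal (β * δ ^ (-(11 / 10 * s)))) ∧
    ∫⁻ ω in G, ENNReal.ofReal ((c ω) ^ (-s)) ∂P ≤ ENNReal.ofReal β ∧
    ∫⁻ ω in G, ENNReal.ofReal ((1 - c ω) ^ (-s)) ∂P ≤ ENNReal.ofReal β

def MxA (μ : Measure ℝ) (s : ℝ) (k : ℕ) (κ : Measure ℝ) : Prop :=
  ∃ β : ℝ, 0 < β ∧ ∀ δ ε : ℝ, 0 < δ → δ ≤ 1 → 0 < ε → Mx μ s β k δ ε κ

def StmMXB : Prop := ∀ (μ κ : Measure ℝ) (s : ℝ), IsProbabilityMeasure μ →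
  (∀ᵐ x ∂μ, 0 < x ∧ x < 1) → Mom κ s → GoodRep κ μ s → MxA μ s 1 κ

def StmMXM : Prop := ∀ (μ κ₁ κ : Measure ℝ) (s : ℝ) (k : ℕ), IsProbabilityMeasure μ →
  (∀ᵐ x ∂μ, 0 < x ∧ x < 1) → Mom κ₁ s → GoodRep κ₁ μ s → 1 ≤ k → MxA μ s k κ →
  MxA μ s (k + 1) (mulLaw κ₁ κ)

def StmMXJ : Prop := ∀ (μ κ₁ κ : Measure ℝ) (s : ℝ) (k : ℕ), IsProbabilityMeasure μ →
  (∀ᵐ x ∂μ, 0 < x ∧ x < 1) → Mom κ₁ s → GoodRep κ₁ μ s → 1 ≤ k → MxA μ s k κ →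
  MxA μ s (k + 1) (joinLaw κ₁ κ)

/-- `μ` is a mixture of four laws with three decoupled leaves -/
def Three (μ : Measure ℝ) (s : ℝ) : Prop :=
  ∃ (w : Fin 4 → ℝ) (κ : Fin 4 → Measure ℝ), (∀ i, 0 ≤ w i) ∧ ∑ i, w i = 1 ∧
    (∀ i, IsProbabilityMeasure (κ i)) ∧ μ = ∑ i, ENNReal.ofReal (w i) • κ i ∧
    ∀ i, MxA μ s 3 (κ i)

def StmTHR : Prop := ∀ (a : ℝ) (μ : Measure ℝ) (s : ℝ), Eqn a μ → Mom μ s → GoodRep μ μ s →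
  GoodRep (mulLaw μ μ) μ s → StmMXB → StmMXM → StmMXJ → Three μ s

/-- one step of the recursion for the decay -/
def StmPOLA : Prop := ∀ (μ : Measure ℝ) (s : ℝ), IsProbabilityMeasure μ → 0 < s → s ≤ 1 →
  Three μ s → ∃ c C : ℝ, 0 < c ∧ 0 < C ∧ ∀ t η : ℝ, 1 ≤ t → 0 ≤ η → η ≤ 1 →
    (∀ u : ℝ, t ^ (9 / 25 : ℝ) ≤ |u| → ‖charFun μ u‖ ≤ η) →
    ‖charFun μ t‖ ≤ η ^ 3 + C * t ^ (-c)

/-- calculus: the recursion gives polynomial decay -/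
def StmPOLB : Prop := ∀ (φ : ℝ → ℝ) (q c C : ℝ), (∀ t, 0 ≤ φ t) → (∀ t, φ (-t) = φ t) →
  0 ≤ q → q < 1 → 0 < c → 0 < C → (∀ t, 1 ≤ |t| → φ t ≤ q) →
  (∀ t η : ℝ, 1 ≤ t → 0 ≤ η → η ≤ 1 → (∀ u : ℝ, t ^ (9 / 25 : ℝ) ≤ |u| → φ u ≤ η) →
    φ t ≤ η ^ 3 + C * t ^ (-c)) →
  ∃ c' C' : ℝ, 0 < c' ∧ 0 < C' ∧ ∀ t : ℝ, 1 ≤ |t| → φ t ≤ C' * |t| ^ (-c')

/-- polynomial decay of the characteristic function -/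
def Dec (μ : Measure ℝ) : Prop :=
  ∃ c C : ℝ, 0 < c ∧ 0 < C ∧ ∀ t : ℝ, 1 ≤ |t| → ‖charFun μ t‖ ≤ C * |t| ^ (-c)

/-- Hoelder bound for small intervals -/
def Conc (μ : Measure ℝ) : Prop :=
  ∃ c C : ℝ, 0 < c ∧ 0 < C ∧ ∀ x h : ℝ, 0 < h → h ≤ 1 →
    μ (Set.Icc (x - h) (x + h)) ≤ ENNReal.ofReal (C * h ^ c)

def StmCONC : Prop := ∀ μ : Measure ℝ, IsProbabilityMeasure μ → Dec μ → Conc μ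

/-- truncated transforms decay, uniformly in the truncation -/
def Trunc (μ : Measure ℝ) (s C : ℝ) : Prop :=
  ∀ t y : ℝ, 1 ≤ |t| → ‖∫ x in Set.Iic y, cexp (t * x * I) ∂μ‖ ≤ C * |t| ^ (-s)

def StmTST : Prop := ∀ (μ : Measure ℝ) (s : ℝ), IsProbabilityMeasure μ →
  (∀ᵐ x ∂μ, 0 < x ∧ x < 1) → 0 < s → s ≤ 1 → Three μ s → Dec μ → Conc μ →
  ∃ s' C : ℝ, 0 < s' ∧ s' ≤ 1 ∧ 0 < C ∧ Trunc μ s' C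

/-! ### weighted decoupling -/

/-- decay of the transform against polynomial amplitudes, uniformly in `A, B` -/
def AmpOK (μ : Measure ℝ) (s : ℝ) : Prop :=
  ∀ p q r : ℕ, ∃ C : ℝ, 0 < C ∧ ∀ A B lam : ℝ, 0 ≤ A → 0 < B → A + B ≤ 1 → lam ≠ 0 →
    ‖∫ x, (((A + B * x) ^ p * (1 - (A + B * x)) ^ q * (x - 1 / 2) ^ r : ℝ) : ℂ) *
      cexp (lam * x * I) ∂μ‖ ≤
      C * ((A + B / 2) ^ p * (1 - (A + B / 2)) ^ q) * min 1 (|lam| ^ (-s))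

def StmAMP : Prop := ∀ (μ : Measure ℝ) (s C : ℝ), IsProbabilityMeasure μ →
  (∀ᵐ x ∂μ, 0 < x ∧ x < 1) → 0 < s → s ≤ 1 → 0 < C → Trunc μ s C → AmpOK μ s

/-- an elementary piece: `X` is close to `c`, and its weighted transforms are small -/
def Elem {Ω' : Type} [MeasurableSpace Ω'] (s t δ : ℝ) (n0 k N : ℕ) (K L C : ℝ)
    (Q : Measure Ω') (X W : Ω' → ℝ) (c b : ℝ) : Prop :=
  0 < c ∧ c < 1 ∧ 0 ≤ b ∧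
  (∀ᵐ ω ∂Q, 0 ≤ X ω ∧ X ω ≤ 1 ∧ 0 ≤ W ω ∧ W ω ≤ 1 ∧ |X ω - c| ≤ L * δ) ∧
  ∀ n : ℕ, n ≤ N → ∀ τ : ℝ, τ ≠ 0 → |τ| ≤ t →
    ‖∫ ω, (((X ω - c) ^ n * W ω : ℝ) : ℂ) * cexp (τ * X ω * I) ∂Q‖ ≤
      C * δ ^ n * (|τ| ^ (-(s * k)) * b * (c ^ K * (1 - c) ^ K) + (t * δ ^ 2) ^ n0)

/-- expansion of the two-variable integral (pure computation) -/
def StmSTX : Prop := ∀ (μ : Measure ℝ), IsProbabilityMeasure μ →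
  (∀ᵐ x ∂μ, 0 < x ∧ x < 1) → ∀ (Ω' : Type) (_ : MeasurableSpace Ω') (Q : Measure Ω')
    (X W : Ω' → ℝ) (c t δ A B L τ : ℝ) (p q n n0 : ℕ), IsProbabilityMeasure Q → Measurable X →
    Measurable W →
    (∀ᵐ ω ∂Q, 0 ≤ X ω ∧ X ω ≤ 1 ∧ 0 ≤ W ω ∧ W ω ≤ 1 ∧ |X ω - c| ≤ L * δ) →
    0 < c → c < 1 → 0 < δ → δ ≤ 1 → 0 ≤ L → 0 ≤ A → 0 < B → A + B ≤ 1 → B ≤ δ → |τ| ≤ t →
    ‖∫ z : ℝ × Ω', ((((A + B * z.1) * X z.2 - (A + B / 2) * c) ^ n *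
        ((A + B * z.1) ^ p * (1 - (A + B * z.1)) ^ q * W z.2) : ℝ) : ℂ) *
        cexp (τ * (((A + B * z.1) * X z.2 : ℝ) : ℂ) * I) ∂(μ.prod Q)‖ ≤
      (∑ m ∈ Finset.range n0, ∑ j ∈ Finset.range (n + 1), ∑ l ∈ Finset.range (j + 1),
        (n.choose j : ℝ) * (j.choose l : ℝ) * (|τ| ^ m * B ^ (m + j)) *
        ‖∫ x, (((A + B * x) ^ p * (1 - (A + B * x)) ^ q * (x - 1 / 2) ^ (j + m) : ℝ) : ℂ) *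
          cexp (((τ * B * c : ℝ) : ℂ) * x * I) ∂μ‖ *
        ‖∫ ω, (((X ω - c) ^ (n - j + l + m) * W ω : ℝ) : ℂ) *
          cexp (((τ * (A + B / 2) : ℝ) : ℂ) * X ω * I) ∂Q‖) +
      ((L + 1) * δ) ^ n * (t * L * δ ^ 2) ^ n0

def StmSTEP : Prop := ∀ (μ : Measure ℝ) (s : ℝ), IsProbabilityMeasure μ →
  (∀ᵐ x ∂μ, 0 < x ∧ x < 1) → 0 < s → s ≤ 1 → AmpOK μ s →
  ∀ (n0 k N p q : ℕ) (K K₁ L C : ℝ), 0 ≤ K → K + s * k ≤ p → K + s ≤ K₁ → 0 ≤ L → 0 ≤ C →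
  ∃ C' : ℝ, 0 < C' ∧ ∀ (Ω' : Type) (_ : MeasurableSpace Ω') (Q : Measure Ω') (X W : Ω' → ℝ)
    (c b t δ A B : ℝ), IsProbabilityMeasure Q → Measurable X → Measurable W → 1 ≤ t → 0 < δ →
    δ ≤ 1 → t * δ ^ 2 ≤ 1 → 0 ≤ A → 0 < B → A + B ≤ 1 → B ≤ δ →
    Elem s t δ n0 k (N + n0) K₁ L C Q X W c b →
    Elem s t δ n0 (k + 1) N K (L + 1) C' (μ.prod Q)
      (fun z => (A + B * z.1) * X z.2)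
      (fun z => (A + B * z.1) ^ p * (1 - (A + B * z.1)) ^ q * W z.2)
      ((A + B / 2) * c) (B ^ (-s) * b)

def StmSTEPJ : Prop := ∀ (μ : Measure ℝ) (s : ℝ), IsProbabilityMeasure μ →
  (∀ᵐ x ∂μ, 0 < x ∧ x < 1) → 0 < s → s ≤ 1 → AmpOK μ s →
  ∀ (n0 k N p q : ℕ) (K K₁ L C : ℝ), 0 ≤ K → K + s * k ≤ q → K + s ≤ K₁ → 0 ≤ L → 0 ≤ C →
  ∃ C' : ℝ, 0 < C' ∧ ∀ (Ω' : Type) (_ : MeasurableSpace Ω') (Q : Measure Ω') (X W : Ω' → ℝ)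
    (c b t δ A B : ℝ), IsProbabilityMeasure Q → Measurable X → Measurable W → 1 ≤ t → 0 < δ →
    δ ≤ 1 → t * δ ^ 2 ≤ 1 → 0 ≤ A → 0 < B → A + B ≤ 1 → B ≤ δ →
    Elem s t δ n0 k (N + n0) K₁ L C Q X W c b →
    Elem s t δ n0 (k + 1) N K (L + 1) C' (μ.prod Q)
      (fun z => (A + B * z.1) + (1 - (A + B * z.1)) * X z.2)
      (fun z => (A + B * z.1) ^ p * (1 - (A + B * z.1)) ^ q * W z.2)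
      ((A + B / 2) + (1 - (A + B / 2)) * c) (B ^ (-s) * b)

/-- a functional that is a mixture of elementary pieces -/
def Mix (s t δ : ℝ) (n0 k N : ℕ) (K L C β ε : ℝ) (Λ : (ℝ → ℂ) → ℂ) : Prop :=
  ∃ (Ω Ω' : Type) (_ : MeasurableSpace Ω) (_ : MeasurableSpace Ω') (P : Measure Ω)
    (Q : Measure Ω') (X W : Ω → Ω' → ℝ) (c b : Ω → ℝ) (G : Set Ω),
    IsProbabilityMeasure P ∧ IsProbabilityMeasure Q ∧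
    Measurable (fun z : Ω × Ω' => X z.1 z.2) ∧ Measurable (fun z : Ω × Ω' => W z.1 z.2) ∧
    Measurable c ∧ Measurable b ∧ MeasurableSet G ∧ P Gᶜ ≤ ENNReal.ofReal ε ∧
    (∀ᵐ ω ∂P, ∀ᵐ ω' ∂Q, 0 ≤ X ω ω' ∧ X ω ω' ≤ 1 ∧ 0 ≤ W ω ω' ∧ W ω ω' ≤ 1) ∧
    (∀ ω ∈ G, Elem s t δ n0 k N K L C Q (X ω) (W ω) (c ω) (b ω)) ∧
    ∫⁻ ω in G, ENNReal.ofReal (b ω) ∂P ≤ ENNReal.ofReal β ∧
    ∀ f : ℝ → ℂ, Measurable f → (∃ M : ℝ, ∀ x, ‖f x‖ ≤ M) →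
      Λ f = ∫ ω, ∫ ω', f (X ω ω') * (W ω ω' : ℂ) ∂Q ∂P

/-- `f ↦ ∫ x^p (1-x)^q f dμ` -/
noncomputable def Lw (μ : Measure ℝ) (p q : ℕ) (f : ℝ → ℂ) : ℂ :=
  ∫ x, ((x ^ p * (1 - x) ^ q : ℝ) : ℂ) * f x ∂μ

/-- hang a leaf on a product gate -/
noncomputable def hangM (κ : Measure ℝ) (p q : ℕ) (Λ : (ℝ → ℂ) → ℂ) (f : ℝ → ℂ) : ℂ :=
  ∫ u, ((u ^ p * (1 - u) ^ q : ℝ) : ℂ) * Λ (fun x => f (u * x)) ∂κ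

/-- hang a leaf on a coproduct gate -/
noncomputable def hangJ (κ : Measure ℝ) (p q : ℕ) (Λ : (ℝ → ℂ) → ℂ) (f : ℝ → ℂ) : ℂ :=
  ∫ u, ((u ^ p * (1 - u) ^ q : ℝ) : ℂ) * Λ (fun x => f (u + (1 - u) * x)) ∂κ

def StmMIXB : Prop := ∀ (μ : Measure ℝ) (s : ℝ), IsProbabilityMeasure μ →
  (∀ᵐ x ∂μ, 0 < x ∧ x < 1) → 0 < s → s ≤ 1 → AmpOK μ s → GoodRep μ μ s →
  ∀ (n0 N p q : ℕ) (K : ℝ), 0 ≤ K → K ≤ p → K ≤ q → ∃ C C₁ : ℝ, 0 < C ∧ 0 < C₁ ∧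
  ∀ t δ ε : ℝ, 1 ≤ t → 0 < δ → δ ≤ 1 → t * δ ^ 2 ≤ 1 → 0 < ε →
    Mix s t δ n0 1 N K 1 C (C₁ * δ ^ (-(11 / 10 * s))) ε (Lw μ p q)

def StmMIXM : Prop := StmSTEP → ∀ (μ κ : Measure ℝ) (s : ℝ), IsProbabilityMeasure μ →
  (∀ᵐ x ∂μ, 0 < x ∧ x < 1) → 0 < s → s ≤ 1 → AmpOK μ s → GoodRep κ μ s →
  ∀ (n0 k N p q : ℕ) (K K₁ L C : ℝ), 0 ≤ K → K + s * k ≤ p → K + s ≤ K₁ → 0 ≤ L → 0 ≤ C →
  ∃ C' C₁ : ℝ, 0 < C' ∧ 0 < C₁ ∧ ∀ (t δ β ε ε' : ℝ) (Λ : (ℝ → ℂ) → ℂ), 1 ≤ t → 0 < δ →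
    δ ≤ 1 → t * δ ^ 2 ≤ 1 → 0 ≤ β → 0 < ε → 0 < ε' →
    Mix s t δ n0 k (N + n0) K₁ L C β ε Λ →
    Mix s t δ n0 (k + 1) N K (L + 1) C' (C₁ * δ ^ (-(11 / 10 * s)) * β) (ε + ε')
      (hangM κ p q Λ)

def StmMIXJ : Prop := StmSTEPJ → ∀ (μ κ : Measure ℝ) (s : ℝ), IsProbabilityMeasure μ →
  (∀ᵐ x ∂μ, 0 < x ∧ x < 1) → 0 < s → s ≤ 1 → AmpOK μ s → GoodRep κ μ s →
  ∀ (n0 k N p q : ℕ) (K K₁ L C : ℝ), 0 ≤ K → K + s * k ≤ q → K + s ≤ K₁ → 0 ≤ L → 0 ≤ C →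
  ∃ C' C₁ : ℝ, 0 < C' ∧ 0 < C₁ ∧ ∀ (t δ β ε ε' : ℝ) (Λ : (ℝ → ℂ) → ℂ), 1 ≤ t → 0 < δ →
    δ ≤ 1 → t * δ ^ 2 ≤ 1 → 0 ≤ β → 0 < ε → 0 < ε' →
    Mix s t δ n0 k (N + n0) K₁ L C β ε Λ →
    Mix s t δ n0 (k + 1) N K (L + 1) C' (C₁ * δ ^ (-(11 / 10 * s)) * β) (ε + ε')
      (hangJ κ p q Λ)

def StmMIXF : Prop := ∀ (s t δ : ℝ) (n0 k N : ℕ) (K L C β ε : ℝ) (Λ : (ℝ → ℂ) → ℂ),
  0 < s → 1 ≤ t → 0 < δ → δ ≤ 1 → 0 ≤ K → 0 ≤ C → 0 ≤ β → 0 ≤ ε →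
  Mix s t δ n0 k N K L C β ε Λ →
  ‖Λ (fun x => cexp (t * x * I))‖ ≤ C * (t ^ (-(s * k)) * β + (t * δ ^ 2) ^ n0) + ε

/-- caterpillar functionals with `k` leaves and large weights -/
inductive Cat (μ : Measure ℝ) (M : ℕ) : ℕ → ((ℝ → ℂ) → ℂ) → Prop
  | base (p q : ℕ) (hp : M ≤ p) (hq : M ≤ q) : Cat μ M 1 (Lw μ p q)
  | mul (κ : Measure ℝ) (hκ : κ = μ ∨ κ = mulLaw μ μ) (p q k : ℕ) (Λ : (ℝ → ℂ) → ℂ)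
      (hp : M ≤ p) (h : Cat μ M k Λ) : Cat μ M (k + 1) (hangM κ p q Λ)
  | join (κ : Measure ℝ) (hκ : κ = μ ∨ κ = mulLaw μ μ) (p q k : ℕ) (Λ : (ℝ → ℂ) → ℂ)
      (hq : M ≤ q) (h : Cat μ M k Λ) : Cat μ M (k + 1) (hangJ κ p q Λ)

/-- caterpillar functionals of measurable families are measurable and bounded -/
def StmCATM : Prop := ∀ (a : ℝ) (μ : Measure ℝ), Eqn a μ → ∀ (M k : ℕ) (Λ : (ℝ → ℂ) → ℂ),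
  Cat μ M k Λ → ∀ (Ω : Type) (_ : MeasurableSpace Ω) (F : Ω → ℝ → ℂ) (B : ℝ),
    Measurable (fun z : Ω × ℝ => F z.1 z.2) → (∀ v x, ‖F v x‖ ≤ B) →
    Measurable (fun v => Λ (F v)) ∧ ∀ v, ‖Λ (F v)‖ ≤ B

/-- bound for caterpillar functionals -/
def StmCATB : Prop := StmMIXB → StmMIXM → StmMIXJ → StmSTEP →
  StmSTEPJ → StmMIXF → ∀ (μ : Measure ℝ) (s : ℝ), IsProbabilityMeasure μ →
  (∀ᵐ x ∂μ, 0 < x ∧ x < 1) → 0 < s → s ≤ 1 → AmpOK μ s → GoodRep μ μ s →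
  GoodRep (mulLaw μ μ) μ s → ∀ (M k : ℕ) (Λ : (ℝ → ℂ) → ℂ), 2 * k ≤ M → Cat μ M k Λ →
  ∃ C : ℝ, 0 < C ∧ ∀ t : ℝ, 1 ≤ t →
    ‖Λ (fun x => cexp (t * x * I))‖ ≤ C * t ^ (-(39 / 100 * s * k))

/-- the weighted law is a combination of caterpillar functionals with many leaves -/
def StmDEC : Prop := StmCATM → ∀ (a : ℝ) (μ : Measure ℝ), Eqn a μ → ∀ D M : ℕ, ∃ P0 : ℕ,
  ∀ p q : ℕ, P0 ≤ p → P0 ≤ q → ∃ (n : ℕ) (co : Fin n → ℝ) (k : Fin n → ℕ)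
    (Λ : Fin n → ((ℝ → ℂ) → ℂ)), (∀ i, D ≤ k i ∧ Cat μ M (k i) (Λ i)) ∧
    (∀ i, k i ≤ 2 * D + 2) ∧
    ∀ f : ℝ → ℂ, Measurable f → (∃ B : ℝ, ∀ x, ‖f x‖ ≤ B) →
      Lw μ p q f = ∑ i, (co i : ℂ) * Λ i f

/-! ### from decay to a smooth density -/

/-- a finite measure with fast decaying transform has a `C^n` density -/
def StmSMA : Prop := ∀ (ρ : Measure ℝ) (n : ℕ) (C : ℝ), IsFiniteMeasure ρ →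
  (∀ t : ℝ, 1 ≤ |t| → ‖charFun ρ t‖ ≤ C * |t| ^ (-((n : ℝ) + 2))) →
  ∃ h : ℝ → ℝ, ContDiff ℝ n h ∧ (∀ x, 0 ≤ h x) ∧
    ρ = volume.withDensity (fun x => ENNReal.ofReal (h x))

def StmSMB : Prop := StmSMA → ∀ μ : Measure ℝ, IsProbabilityMeasure μ →
  (∀ᵐ x ∂μ, 0 < x ∧ x < 1) →
  (∀ n : ℕ, ∃ (p q : ℕ) (C : ℝ), ∀ t : ℝ, 1 ≤ t →
    ‖Lw μ p q (fun x => cexp (t * x * I))‖ ≤ C * t ^ (-((n : ℝ) + 2))) →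
  ∃ f : ℝ → ℝ, (∀ x, 0 ≤ f x) ∧ ContDiffOn ℝ (⊤ : ℕ∞) f (Set.Ioo 0 1) ∧
    μ = (volume.restrict (Set.Ioo 0 1)).withDensity (fun x => ENNReal.ofReal (f x))

/-! ### the problem -/

/-- law of `χ`: `P[χ = 1] = α / (α + 1)` -/
noncomputable def chiLaw (α : ℝ) : Measure ℝ :=
  ENNReal.ofReal (1 / (α + 1)) • Measure.dirac 0 +
    ENNReal.ofReal (α / (α + 1)) • Measure.dirac 1

/-- `ν` solves the recursive distributional equation -/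
def IsSolution (α : ℝ) (ν : Measure ℝ) : Prop :=
  ν = ((chiLaw α).prod (ν.prod (ν.prod ν))).map
    (fun q : ℝ × ℝ × ℝ × ℝ => q.1 * (q.2.1 + (1 - q.2.1) * q.2.2.1 * q.2.2.2))

def StmSTR : Prop := ∀ (α : ℝ) (ν : Measure ℝ), 4 < α → IsProbabilityMeasure ν →
  ν (Set.Icc 0 1)ᶜ = 0 → IsSolution α ν → 0 < ν (Set.Ioo 0 1) →
  ∃ (a : ℝ) (μ : Measure ℝ), Eqn a μ ∧ ν.restrict {0}ᶜ = ENNReal.ofReal a • μ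

end Pool.Agent.T6.H62.AC
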