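import Pool.Agent.T6.H62.AC.Kit

/-!
# Hanging a leaf on a gate (helper71 for helper62)
-/

open MeasureTheory Complex Filter Topology
open scoped ENNReal

namespace Pool.Agent.T6.H62.AC

namespace Hang

theorem meas_int {α β : Type} [MeasurableSpace α] [MeasurableSpace β] (ν : Measure β)
    [SFinite ν] {F : α × β → ℂ} (hF : Measurable F) :
    Measurable (fun a => ∫ b, F (a, b) ∂ν) :=
  (hF.stronglyMeasurable.integral_prod_right').measurable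

theorem norm_int_le {β : Type} [MeasurableSpace β] (ν : Measure β) [IsProbabilityMeasure ν]
    {F : β → ℂ} {M : ℝ} (h : ∀ b, ‖F b‖ ≤ M) : ‖∫ b, F b ∂ν‖ ≤ M := by
  have := norm_integral_le_of_norm_le_const (μ := ν) (Eventually.of_forall h)
  simpa using this

/-- reordering a fourfold integral -/
theorem quad {Ω Ω' : Type} [MeasurableSpace Ω] [MeasurableSpace Ω'] (P : Measure (ℝ × ℝ))
    (V : Measure Ω) (μ : Measure ℝ) (Q : Measure Ω') [IsProbabilityMeasure P]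
    [IsProbabilityMeasure V] [IsProbabilityMeasure μ] [IsProbabilityMeasure Q]
    {F : ((ℝ × ℝ) × Ω) × (ℝ × Ω') → ℂ} (hF : Measurable F) {M : ℝ} (hM : ∀ z, ‖F z‖ ≤ M) :
    ∫ z, ∫ z', F (z, z') ∂(μ.prod Q) ∂(P.prod V) =
      ∫ p, ∫ ξ, ∫ ω, ∫ ω', F ((p, ω), (ξ, ω')) ∂Q ∂V ∂μ ∂P := by
  rw [integral_prod _ (integrable_of_bdd _ (meas_int _ hF)
    (fun z => norm_int_le _ fun z' => hM _))]
  refine integral_congr_ae (Eventually.of_forall fun p => ?_)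
  have h1 : ∀ ω, ∫ z', F ((p, ω), z') ∂(μ.prod Q) = ∫ ξ, ∫ ω', F ((p, ω), (ξ, ω')) ∂Q ∂μ :=
    fun ω => integral_prod _ (integrable_of_bdd _ (by fun_prop) (fun z => hM _))
  simp only [h1]
  refine integral_integral_swap (f := fun ω ξ => ∫ ω', F ((p, ω), (ξ, ω')) ∂Q) ?_
  refine integrable_of_bdd (B := M) _ ?_ (fun z => norm_int_le _ fun z' => hM _)
  exact meas_int (α := Ω × ℝ) Q (F := fun w => F ((p, w.1.1), (w.1.2, w.2))) (by fun_prop)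

/-- truncation to the unit interval -/
noncomputable def cl (x : ℝ) : ℝ := max 0 (min x 1)

theorem cl_meas : Measurable cl := by unfold cl; fun_prop

theorem cl_nonneg (x : ℝ) : 0 ≤ cl x := le_max_left _ _

theorem cl_le (x : ℝ) : cl x ≤ 1 := max_le zero_le_one (min_le_right _ _)

theorem cl_eq {x : ℝ} (h0 : 0 ≤ x) (h1 : x ≤ 1) : cl x = x := by
  unfold cl
  rw [min_eq_left h1, max_eq_right h0]

/-- the truncated weight -/
noncomputable def wt (p q : ℕ) (u : ℝ) : ℝ := cl u ^ p * (1 - cl u) ^ q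

theorem wt_meas (p q : ℕ) : Measurable (wt p q) := by
  unfold wt
  have := cl_meas
  fun_prop

theorem wt_nonneg (p q : ℕ) (u : ℝ) : 0 ≤ wt p q u :=
  mul_nonneg (pow_nonneg (cl_nonneg u) _) (pow_nonneg (sub_nonneg.2 (cl_le u)) _)

theorem wt_le (p q : ℕ) (u : ℝ) : wt p q u ≤ 1 :=
  mul_le_one₀ (pow_le_one₀ (cl_nonneg u) (cl_le u)) (pow_nonneg (sub_nonneg.2 (cl_le u)) _)
    (pow_le_one₀ (sub_nonneg.2 (cl_le u)) (by linarith [cl_nonneg u]))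

theorem wt_eq (p q : ℕ) {u : ℝ} (h0 : 0 ≤ u) (h1 : u ≤ 1) : wt p q u = u ^ p * (1 - u) ^ q := by
  unfold wt
  rw [cl_eq h0 h1]

/-- hang a leaf on a gate -/
noncomputable def hangG (g : ℝ → ℝ → ℝ) (κ : Measure ℝ) (p q : ℕ) (Λ : (ℝ → ℂ) → ℂ)
    (f : ℝ → ℂ) : ℂ :=
  ∫ u, ((u ^ p * (1 - u) ^ q : ℝ) : ℂ) * Λ (fun x => f (g u x)) ∂κ

section

variable {Ω Ω' : Type} [MeasurableSpace Ω] [MeasurableSpace Ω'] {g : ℝ → ℝ → ℝ}
  {μ κ : Measure ℝ} {P : Measure (ℝ × ℝ)} {V : Measure Ω} {Q : Measure Ω'}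
  {X W : Ω → Ω' → ℝ}

theorem phi_mem {p : ℝ × ℝ} (hp : 0 ≤ p.1 ∧ 0 < p.2 ∧ p.1 + p.2 ≤ 1) {ξ : ℝ}
    (hξ : 0 < ξ ∧ ξ < 1) : 0 ≤ p.1 + p.2 * ξ ∧ p.1 + p.2 * ξ ≤ 1 := by
  have h1 : 0 ≤ p.2 * ξ := mul_nonneg hp.2.1.le hξ.1.le
  have h2 : p.2 * ξ ≤ p.2 := mul_le_of_le_one_right hp.2.1.le hξ.2.le
  exact ⟨by linarith [hp.1], by linarith [hp.2.2]⟩

theorem kap_mem [IsProbabilityMeasure μ] (hsupp : ∀ᵐ x ∂μ, 0 < x ∧ x < 1) (hR : Rep κ μ P) :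
    ∀ᵐ u ∂κ, 0 ≤ u ∧ u ≤ 1 := by
  have := hR.prob
  rw [hR.law]
  have hm : MeasurableSet {u : ℝ | 0 ≤ u ∧ u ≤ 1} := measurableSet_Icc
  rw [ae_map_iff (by fun_prop) hm]
  filter_upwards [(Measure.quasiMeasurePreserving_fst (μ := P) (ν := μ)).ae hR.supp,
    (Measure.quasiMeasurePreserving_snd (μ := P) (ν := μ)).ae hsupp] with z h1 h2
  exact phi_mem h1 h2

theorem formula [IsProbabilityMeasure μ] [IsProbabilityMeasure V] [IsProbabilityMeasure Q]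
    (hg : Measurable (fun z : ℝ × ℝ => g z.1 z.2)) (hsupp : ∀ᵐ x ∂μ, 0 < x ∧ x < 1)
    (hR : Rep κ μ P) (hX : Measurable (fun z : Ω × Ω' => X z.1 z.2))
    (hW : Measurable (fun z : Ω × Ω' => W z.1 z.2))
    (hb : ∀ᵐ ω ∂V, ∀ᵐ ω' ∂Q, 0 ≤ W ω ω' ∧ W ω ω' ≤ 1) (Λ : (ℝ → ℂ) → ℂ)
    (hΛ : ∀ f : ℝ → ℂ, Measurable f → (∃ M : ℝ, ∀ x, ‖f x‖ ≤ M) →
      Λ f = ∫ ω, ∫ ω', f (X ω ω') * (W ω ω' : ℂ) ∂Q ∂V) (p q : ℕ) (f : ℝ → ℂ)
    (hf : Measurable f) (M : ℝ) (hM : ∀ x, ‖f x‖ ≤ M) :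
    hangG g κ p q Λ f = ∫ z : (ℝ × ℝ) × Ω, ∫ z' : ℝ × Ω',
      f (g (z.1.1 + z.1.2 * z'.1) (X z.2 z'.2)) *
        (((z.1.1 + z.1.2 * z'.1) ^ p * (1 - (z.1.1 + z.1.2 * z'.1)) ^ q * W z.2 z'.2 : ℝ) : ℂ)
        ∂(μ.prod Q) ∂(P.prod V) := by
  have := hR.prob
  have hM0 : 0 ≤ M := (norm_nonneg _).trans (hM 0)
  have hgu : ∀ u, Measurable (g u) := fun u => hg.comp (measurable_prodMk_left (x := u))
  have hcl := cl_meas
  -- the inner functional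
  set H : ℝ → ℂ := fun u => ∫ ω, ∫ ω', f (g u (X ω ω')) * (cl (W ω ω') : ℂ) ∂Q ∂V with hH
  have hG : Measurable (fun w : (ℝ × Ω) × Ω' =>
      f (g w.1.1 (X w.1.2 w.2)) * ((cl (W w.1.2 w.2) : ℝ) : ℂ)) := by
    have h1 : Measurable (fun w : (ℝ × Ω) × Ω' => X w.1.2 w.2) :=
      hX.comp (by fun_prop : Measurable (fun w : (ℝ × Ω) × Ω' => (w.1.2, w.2)))
    have h2 : Measurable (fun w : (ℝ × Ω) × Ω' => W w.1.2 w.2) :=
      hW.comp (by fun_prop : Measurable (fun w : (ℝ × Ω) × Ω' => (w.1.2, w.2)))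
    have h3 : Measurable (fun w : (ℝ × Ω) × Ω' => g w.1.1 (X w.1.2 w.2)) :=
      hg.comp (by fun_prop : Measurable (fun w : (ℝ × Ω) × Ω' => (w.1.1, X w.1.2 w.2)))
    exact (hf.comp h3).mul (Complex.measurable_ofReal.comp (hcl.comp h2))
  have hbd : ∀ (x : ℝ) (y : ℝ), ‖f x * ((cl y : ℝ) : ℂ)‖ ≤ M := by
    intro x y
    rw [norm_mul, Complex.norm_real, Real.norm_of_nonneg (cl_nonneg _)]
    exact (mul_le_of_le_one_right (norm_nonneg _) (cl_le _)).trans (hM x)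
  have hHm : Measurable H := by
    have h1 := meas_int Q hG
    exact meas_int (α := ℝ) (β := Ω) V h1
  have hHb : ∀ u, ‖H u‖ ≤ M := fun u => norm_int_le _ fun ω => norm_int_le _ fun ω' => hbd _ _
  have e1 : ∀ u, Λ (fun x => f (g u x)) = H u := by
    intro u
    rw [hΛ (fun x => f (g u x)) (hf.comp (hgu u)) ⟨M, fun x => hM _⟩]
    refine integral_congr_ae ?_
    filter_upwards [hb] with ω hω
    refine integral_congr_ae ?_
    filter_upwards [hω] with ω' h1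
    rw [cl_eq h1.1 h1.2]
  have e2 : hangG g κ p q Λ f = ∫ u, ((wt p q u : ℝ) : ℂ) * H u ∂κ := by
    unfold hangG
    refine integral_congr_ae ?_
    filter_upwards [kap_mem hsupp hR] with u hu
    rw [e1 u, wt_eq p q hu.1 hu.2]
  have hwm := wt_meas p q
  have hwb : ∀ (u : ℝ) (c : ℂ), ‖c‖ ≤ M → ‖((wt p q u : ℝ) : ℂ) * c‖ ≤ M := by
    intro u c hc
    rw [norm_mul, Complex.norm_real, Real.norm_of_nonneg (wt_nonneg _ _ _)]
    exact (mul_le_of_le_one_left (norm_nonneg _) (wt_le _ _ _)).trans hc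
  have e3 : hangG g κ p q Λ f = ∫ r, ∫ x, ((wt p q (r.1 + r.2 * x) : ℝ) : ℂ) *
      H (r.1 + r.2 * x) ∂μ ∂P := by
    rw [e2]
    exact hR.int (f := fun u => ((wt p q u : ℝ) : ℂ) * H u)
      ((Complex.measurable_ofReal.comp hwm).mul hHm) (fun u => hwb u _ (hHb u))
  obtain ⟨FF, hFF⟩ : ∃ FF : ((ℝ × ℝ) × Ω) × (ℝ × Ω') → ℂ, FF = fun y =>
      ((wt p q (y.1.1.1 + y.1.1.2 * y.2.1) : ℝ) : ℂ) *
        (f (g (y.1.1.1 + y.1.1.2 * y.2.1) (X y.1.2 y.2.2)) *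
        ((cl (W y.1.2 y.2.2) : ℝ) : ℂ)) := ⟨_, rfl⟩
  have e4 : (∫ z : (ℝ × ℝ) × Ω, ∫ z' : ℝ × Ω',
      f (g (z.1.1 + z.1.2 * z'.1) (X z.2 z'.2)) *
        (((z.1.1 + z.1.2 * z'.1) ^ p * (1 - (z.1.1 + z.1.2 * z'.1)) ^ q * W z.2 z'.2 : ℝ) : ℂ)
        ∂(μ.prod Q) ∂(P.prod V)) = ∫ z : (ℝ × ℝ) × Ω, ∫ z' : ℝ × Ω',
      FF (z, z') ∂(μ.prod Q) ∂(P.prod V) := by
    refine integral_congr_ae ?_
    filter_upwards [(Measure.quasiMeasurePreserving_fst (μ := P) (ν := V)).ae hR.supp,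
      (Measure.quasiMeasurePreserving_snd (μ := P) (ν := V)).ae hb] with z h1 h2
    refine integral_congr_ae ?_
    filter_upwards [(Measure.quasiMeasurePreserving_fst (μ := μ) (ν := Q)).ae hsupp,
      (Measure.quasiMeasurePreserving_snd (μ := μ) (ν := Q)).ae h2] with z' h3 h4
    have h5 := phi_mem h1 h3
    rw [hFF]
    simp only
    rw [wt_eq p q h5.1 h5.2, cl_eq h4.1 h4.2]
    push_cast
    ring
  rw [e4, quad P V μ Q (F := FF) (M := M) ?_ ?_, e3, hFF]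
  · refine integral_congr_ae (Eventually.of_forall fun r => ?_)
    refine integral_congr_ae (Eventually.of_forall fun x => ?_)
    simp only [hH]
    rw [← integral_const_mul]
    refine integral_congr_ae (Eventually.of_forall fun ω => ?_)
    exact (integral_const_mul _ _).symm
  · rw [hFF]
    have h1 : Measurable (fun y : ((ℝ × ℝ) × Ω) × (ℝ × Ω') =>
        ((wt p q (y.1.1.1 + y.1.1.2 * y.2.1) : ℝ) : ℂ)) :=
      Complex.measurable_ofReal.comp (hwm.comp (by fun_prop))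
    have h2 : Measurable (fun y : ((ℝ × ℝ) × Ω) × (ℝ × Ω') =>
        (((y.1.1.1 + y.1.1.2 * y.2.1, y.1.2), y.2.2) : (ℝ × Ω) × Ω')) := by fun_prop
    exact h1.mul (hG.comp h2)
  · intro y
    rw [hFF]
    exact hwb _ _ (hbd _ _)

end

/-- the general gate -/
theorem main {g : ℝ → ℝ → ℝ} (hg : Measurable (fun z : ℝ × ℝ => g z.1 z.2))
    (hg01 : ∀ u x : ℝ, 0 ≤ u → u ≤ 1 → 0 ≤ x → x ≤ 1 → 0 ≤ g u x ∧ g u x ≤ 1)
    {μ κ : Measure ℝ} [IsProbabilityMeasure μ] (hsupp : ∀ᵐ x ∂μ, 0 < x ∧ x < 1)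
    {P : Measure (ℝ × ℝ)} (hR : Rep κ μ P) {s t δ ε' C₁ : ℝ} {n0 k N p q : ℕ}
    {K K₁ L C C' β ε : ℝ} {Λ : (ℝ → ℂ) → ℂ} (hε : 0 < ε) (hε' : 0 < ε') (hC₁ : 0 < C₁)
    (hδ : 0 < δ)
    (hP1 : P {p | δ < p.2} ≤ ENNReal.ofReal ε')
    (hP2 : ∫⁻ p, ENNReal.ofReal (p.2 ^ (-s)) ∂P ≤ ENNReal.ofReal (C₁ * δ ^ (-(11 / 10 * s))))
    (step : ∀ (Ω' : Type) (_ : MeasurableSpace Ω') (Q : Measure Ω') (X W : Ω' → ℝ)
      (c b A B : ℝ), IsProbabilityMeasure Q → Measurable X → Measurable W → 0 ≤ A → 0 < B →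
      A + B ≤ 1 → B ≤ δ → Elem s t δ n0 k (N + n0) K₁ L C Q X W c b →
      Elem s t δ n0 (k + 1) N K (L + 1) C' (μ.prod Q)
        (fun z => g (A + B * z.1) (X z.2))
        (fun z => (A + B * z.1) ^ p * (1 - (A + B * z.1)) ^ q * W z.2)
        (g (A + B / 2) c) (B ^ (-s) * b))
    (hMix : Mix s t δ n0 k (N + n0) K₁ L C β ε Λ) :
    Mix s t δ n0 (k + 1) N K (L + 1) C' (C₁ * δ ^ (-(11 / 10 * s)) * β) (ε + ε')
      (hangG g κ p q Λ) := by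
  obtain ⟨Ω, Ω', mΩ, mΩ', V, Q, X, W, c, b, G, hRp, hQ, hX, hW, hc, hb, hG, hGc, hae, hel, hint,
    hform⟩ := hMix
  have := hR.prob
  set A₀ : Set (ℝ × ℝ) := {r | 0 ≤ r.1 ∧ 0 < r.2 ∧ r.1 + r.2 ≤ 1 ∧ r.2 ≤ δ} with hA₀
  have hA₀m : MeasurableSet A₀ := by
    have h1 : MeasurableSet {r : ℝ × ℝ | 0 ≤ r.1} := measurableSet_le measurable_const measurable_fst
    have h2 : MeasurableSet {r : ℝ × ℝ | 0 < r.2} := measurableSet_lt measurable_const measurable_snd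
    have h3 : MeasurableSet {r : ℝ × ℝ | r.1 + r.2 ≤ 1} :=
      measurableSet_le (by fun_prop) measurable_const
    have h4 : MeasurableSet {r : ℝ × ℝ | r.2 ≤ δ} := measurableSet_le measurable_snd measurable_const
    exact h1.inter (h2.inter (h3.inter h4))
  have hA₀c : P A₀ᶜ ≤ ENNReal.ofReal ε' := by
    refine (measure_mono_ae ?_).trans hP1
    filter_upwards [hR.supp] with r hr hrA
    by_contra hcon
    exact hrA ⟨hr.1, hr.2.1, hr.2.2, not_lt.1 hcon⟩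
  have hXp : Measurable (fun z : ((ℝ × ℝ) × Ω) × (ℝ × Ω') => X z.1.2 z.2.2) :=
    hX.comp (by fun_prop : Measurable (fun z : ((ℝ × ℝ) × Ω) × (ℝ × Ω') => (z.1.2, z.2.2)))
  have hWp : Measurable (fun z : ((ℝ × ℝ) × Ω) × (ℝ × Ω') => W z.1.2 z.2.2) :=
    hW.comp (by fun_prop : Measurable (fun z : ((ℝ × ℝ) × Ω) × (ℝ × Ω') => (z.1.2, z.2.2)))
  refine ⟨(ℝ × ℝ) × Ω, ℝ × Ω', inferInstance, inferInstance, P.prod V, μ.prod Q,
    fun z z' => g (z.1.1 + z.1.2 * z'.1) (X z.2 z'.2),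
    fun z z' => (z.1.1 + z.1.2 * z'.1) ^ p * (1 - (z.1.1 + z.1.2 * z'.1)) ^ q * W z.2 z'.2,
    fun z => g (z.1.1 + z.1.2 / 2) (c z.2), fun z => z.1.2 ^ (-s) * b z.2, A₀ ×ˢ G,
    inferInstance, inferInstance, ?_, ?_, ?_, ?_, hA₀m.prod hG, ?_, ?_, ?_, ?_, ?_⟩
  · exact hg.comp (by fun_prop : Measurable (fun z : ((ℝ × ℝ) × Ω) × (ℝ × Ω') =>
      (z.1.1.1 + z.1.1.2 * z.2.1, X z.1.2 z.2.2)))
  · fun_prop
  · exact hg.comp (by fun_prop : Measurable (fun z : (ℝ × ℝ) × Ω =>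
      (z.1.1 + z.1.2 / 2, c z.2)))
  · fun_prop
  · have h1 : (A₀ ×ˢ G)ᶜ ⊆ (A₀ᶜ ×ˢ Set.univ) ∪ ((Set.univ : Set (ℝ × ℝ)) ×ˢ Gᶜ) := by
      rintro ⟨r, ω⟩ h
      by_cases hr : r ∈ A₀
      · right
        exact ⟨Set.mem_univ _, fun hω => h ⟨hr, hω⟩⟩
      · left
        exact ⟨hr, Set.mem_univ _⟩
    refine (measure_mono h1).trans ((measure_union_le _ _).trans ?_)
    rw [Measure.prod_prod, Measure.prod_prod, measure_univ, measure_univ, mul_one, one_mul,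
      ENNReal.ofReal_add hε.le hε'.le, add_comm]
    exact add_le_add hGc hA₀c
  · filter_upwards [(Measure.quasiMeasurePreserving_fst (μ := P) (ν := V)).ae hR.supp,
      (Measure.quasiMeasurePreserving_snd (μ := P) (ν := V)).ae hae] with z h1 h2
    filter_upwards [(Measure.quasiMeasurePreserving_fst (μ := μ) (ν := Q)).ae hsupp,
      (Measure.quasiMeasurePreserving_snd (μ := μ) (ν := Q)).ae h2] with z' h3 h4
    have h5 := phi_mem h1 h3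
    have h6 := hg01 _ _ h5.1 h5.2 h4.1 h4.2.1
    have h7 := wt_nonneg p q (z.1.1 + z.1.2 * z'.1)
    have h8 := wt_le p q (z.1.1 + z.1.2 * z'.1)
    rw [wt_eq p q h5.1 h5.2] at h7 h8
    exact ⟨h6.1, h6.2, mul_nonneg h7 h4.2.2.1, mul_le_one₀ h8 h4.2.2.1 h4.2.2.2⟩
  · rintro ⟨r, ω⟩ ⟨hr, hω⟩
    exact step Ω' mΩ' Q (X ω) (W ω) (c ω) (b ω) r.1 r.2 hQ
      (hX.comp (measurable_prodMk_left (x := ω))) (hW.comp (measurable_prodMk_left (x := ω)))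
      hr.1 hr.2.1 hr.2.2.1 hr.2.2.2 (hel ω hω)
  · have h1 : ∫⁻ z in A₀ ×ˢ G, ENNReal.ofReal (z.1.2 ^ (-s) * b z.2) ∂(P.prod V) =
        ∫⁻ z in A₀ ×ˢ G, ENNReal.ofReal (z.1.2 ^ (-s)) * ENNReal.ofReal (b z.2)
          ∂(P.prod V) := by
      refine setLIntegral_congr_fun (hA₀m.prod hG) ?_
      rintro ⟨r, ω⟩ ⟨hr, hω⟩
      exact ENNReal.ofReal_mul (Real.rpow_nonneg hr.2.1.le _)
    rw [h1, ← Measure.prod_restrict, lintegral_prod_mul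
      (f := fun r : ℝ × ℝ => ENNReal.ofReal (r.2 ^ (-s))) (g := fun ω => ENNReal.ofReal (b ω))
      (by fun_prop) (by fun_prop),
      ENNReal.ofReal_mul (mul_nonneg hC₁.le (Real.rpow_nonneg hδ.le _))]
    exact mul_le_mul' ((lintegral_mono' Measure.restrict_le_self le_rfl).trans hP2) hint
  · rintro f hf ⟨M, hM⟩
    exact formula hg hsupp hR hX hW
      (hae.mono fun ω h => h.mono fun ω' h' => ⟨h'.2.2.1, h'.2.2.2⟩) Λ hform p q f hf M hM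

end Hang

end Pool.Agent.T6.H62.AC
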