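import Pool.Agent.T6.H62.AC.Defs

open MeasureTheory Complex Filter Topology
open scoped ENNReal

namespace Pool.Agent.T6.H62.AC

instance (μ κ : Measure ℝ) [IsProbabilityMeasure μ] [IsProbabilityMeasure κ] :
    IsProbabilityMeasure (mulLaw μ κ) := by
  unfold mulLaw
  exact Measure.isProbabilityMeasure_map (by fun_prop)

instance (μ κ : Measure ℝ) [IsProbabilityMeasure μ] [IsProbabilityMeasure κ] :
    IsProbabilityMeasure (joinLaw μ κ) := by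
  unfold joinLaw
  exact Measure.isProbabilityMeasure_map (by fun_prop)

theorem lint_mulLaw (μ κ : Measure ℝ) [IsProbabilityMeasure μ] [IsProbabilityMeasure κ]
    {g : ℝ → ℝ≥0∞} (hg : Measurable g) :
    ∫⁻ x, g x ∂(mulLaw μ κ) = ∫⁻ u, ∫⁻ x, g (u * x) ∂κ ∂μ := by
  unfold mulLaw
  rw [lintegral_map hg (by fun_prop), lintegral_prod _ (by fun_prop)]

theorem lint_joinLaw (μ κ : Measure ℝ) [IsProbabilityMeasure μ] [IsProbabilityMeasure κ]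
    {g : ℝ → ℝ≥0∞} (hg : Measurable g) :
    ∫⁻ x, g x ∂(joinLaw μ κ) = ∫⁻ u, ∫⁻ x, g (u + (1 - u) * x) ∂κ ∂μ := by
  unfold joinLaw
  rw [lintegral_map hg (by fun_prop), lintegral_prod _ (by fun_prop)]

theorem integrable_of_bdd {α : Type*} [MeasurableSpace α] (μ : Measure α) [IsFiniteMeasure μ]
    {f : α → ℂ} (hf : Measurable f) {B : ℝ} (hB : ∀ x, ‖f x‖ ≤ B) : Integrable f μ :=
  Integrable.of_bound hf.aestronglyMeasurable B (Eventually.of_forall hB)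

theorem int_mulLaw (μ κ : Measure ℝ) [IsProbabilityMeasure μ] [IsProbabilityMeasure κ]
    {f : ℝ → ℂ} (hf : Measurable f) {B : ℝ} (hB : ∀ x, ‖f x‖ ≤ B) :
    ∫ x, f x ∂(mulLaw μ κ) = ∫ u, ∫ x, f (u * x) ∂κ ∂μ := by
  unfold mulLaw
  rw [integral_map (by fun_prop) hf.aestronglyMeasurable,
    integral_prod _ (integrable_of_bdd _ (by fun_prop) (fun z => hB _))]

theorem int_joinLaw (μ κ : Measure ℝ) [IsProbabilityMeasure μ] [IsProbabilityMeasure κ]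
    {f : ℝ → ℂ} (hf : Measurable f) {B : ℝ} (hB : ∀ x, ‖f x‖ ≤ B) :
    ∫ x, f x ∂(joinLaw μ κ) = ∫ u, ∫ x, f (u + (1 - u) * x) ∂κ ∂μ := by
  unfold joinLaw
  rw [integral_map (by fun_prop) hf.aestronglyMeasurable,
    integral_prod _ (integrable_of_bdd _ (by fun_prop) (fun z => hB _))]

/-- the equation, tested against nonnegative functions, in terms of the two laws -/
theorem Eqn.lint' {a : ℝ} {μ : Measure ℝ} (h : Eqn a μ) {g : ℝ → ℝ≥0∞} :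
    ∫⁻ x, g x ∂μ = ENNReal.ofReal a * ∫⁻ x, g x ∂(joinLaw μ (mulLaw μ μ)) +
      ENNReal.ofReal (1 - a) * ∫⁻ x, g x ∂(mulLaw μ μ) := by
  conv_lhs => rw [h.eqn]
  rw [lintegral_add_measure, lintegral_smul_measure, lintegral_smul_measure]
  rfl

theorem Eqn.lint {a : ℝ} {μ : Measure ℝ} (h : Eqn a μ) {g : ℝ → ℝ≥0∞} (hg : Measurable g) :
    ∫⁻ x, g x ∂μ =
      ENNReal.ofReal a * ∫⁻ x, ∫⁻ y, ∫⁻ z, g (x + (1 - x) * (y * z)) ∂μ ∂μ ∂μ +
      ENNReal.ofReal (1 - a) * ∫⁻ y, ∫⁻ z, g (y * z) ∂μ ∂μ := by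
  haveI := h.prob
  rw [h.lint', lint_joinLaw _ _ hg, lint_mulLaw _ _ hg]
  congr 2
  apply lintegral_congr; intro x
  rw [lint_mulLaw]
  fun_prop

theorem Eqn.int' {a : ℝ} {μ : Measure ℝ} (h : Eqn a μ) {f : ℝ → ℂ} (hf : Measurable f)
    {B : ℝ} (hB : ∀ x, ‖f x‖ ≤ B) :
    ∫ x, f x ∂μ = (a : ℂ) * ∫ x, f x ∂(joinLaw μ (mulLaw μ μ)) +
      ((1 - a : ℝ) : ℂ) * ∫ x, f x ∂(mulLaw μ μ) := by
  haveI := h.prob
  have h1 := h.ha
  have h2 := h.ha1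
  conv_lhs => rw [h.eqn]
  rw [integral_add_measure, integral_smul_measure, integral_smul_measure,
    ENNReal.toReal_ofReal (by linarith), ENNReal.toReal_ofReal (by linarith)]
  · rw [real_smul, real_smul]
  · exact (integrable_of_bdd _ hf hB).smul_measure ENNReal.ofReal_ne_top
  · exact (integrable_of_bdd _ hf hB).smul_measure ENNReal.ofReal_ne_top

theorem Eqn.int {a : ℝ} {μ : Measure ℝ} (h : Eqn a μ) {f : ℝ → ℂ} (hf : Measurable f)
    {B : ℝ} (hB : ∀ x, ‖f x‖ ≤ B) :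
    ∫ x, f x ∂μ = (a : ℂ) * ∫ x, ∫ y, ∫ z, f (x + (1 - x) * (y * z)) ∂μ ∂μ ∂μ +
      ((1 - a : ℝ) : ℂ) * ∫ y, ∫ z, f (y * z) ∂μ ∂μ := by
  haveI := h.prob
  rw [h.int' hf hB, int_joinLaw _ _ hf hB, int_mulLaw _ _ hf hB]
  congr 2
  apply integral_congr_ae
  refine Eventually.of_forall fun x => ?_
  show ∫ w, f (x + (1 - x) * w) ∂(mulLaw μ μ) = _
  exact int_mulLaw μ μ (f := fun w => f (x + (1 - x) * w)) (by fun_prop) (fun w => hB _)

theorem Rep.lint {κ μ : Measure ℝ} [IsProbabilityMeasure μ] {P : Measure (ℝ × ℝ)}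
    (h : Rep κ μ P) {g : ℝ → ℝ≥0∞} (hg : Measurable g) :
    ∫⁻ x, g x ∂κ = ∫⁻ p, ∫⁻ x, g (p.1 + p.2 * x) ∂μ ∂P := by
  haveI := h.prob
  rw [h.law, lintegral_map hg (by fun_prop), lintegral_prod _ (by fun_prop)]

theorem Rep.int {κ μ : Measure ℝ} [IsProbabilityMeasure μ] {P : Measure (ℝ × ℝ)}
    (h : Rep κ μ P) {f : ℝ → ℂ} (hf : Measurable f) {B : ℝ} (hB : ∀ x, ‖f x‖ ≤ B) :
    ∫ x, f x ∂κ = ∫ p, ∫ x, f (p.1 + p.2 * x) ∂μ ∂P := by
  haveI := h.prob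
  rw [h.law, integral_map (by fun_prop) hf.aestronglyMeasurable,
    integral_prod _ (integrable_of_bdd _ (by fun_prop) (fun z => hB _))]

end Pool.Agent.T6.H62.AC
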