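import Pool.Agent.T6.H62.AC.Kit

open MeasureTheory Complex Filter Topology
open scoped ENNReal

namespace Pool.Agent.T6.H62.AC

theorem Mom.mono {μ : Measure ℝ} {θ s : ℝ} (hsupp : ∀ᵐ x ∂μ, 0 < x ∧ x < 1)
    (h : Mom μ θ) (hs : 0 < s) (hsθ : s ≤ θ) : Mom μ s := by
  refine ⟨hs, hsθ.trans h.le, ?_, ?_⟩
  · refine ne_top_of_le_ne_top h.m0 (lintegral_mono_ae ?_)
    filter_upwards [hsupp] with x hx
    exact ENNReal.ofReal_le_ofReal
      (Real.rpow_le_rpow_of_exponent_ge hx.1 hx.2.le (by linarith))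
  · refine ne_top_of_le_ne_top h.m1 (lintegral_mono_ae ?_)
    filter_upwards [hsupp] with x hx
    exact ENNReal.ofReal_le_ofReal
      (Real.rpow_le_rpow_of_exponent_ge (by linarith [hx.2]) (by linarith [hx.1]) (by linarith))

theorem Trunc.mono {μ : Measure ℝ} {s' s C : ℝ} (hC : 0 ≤ C) (h : Trunc μ s' C) (hs : s ≤ s') :
    Trunc μ s C := by
  intro t y ht
  refine (h t y ht).trans (mul_le_mul_of_nonneg_left ?_ hC)
  exact Real.rpow_le_rpow_of_exponent_le ht (by linarith)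

theorem final_core (hMOM0 : StmMOM0) (hMOM1 : StmMOM1) (hREP : StmREP) (hREP2 : StmREP2)
    (hNLT : StmNLT) (hCRA : StmCRA) (hMXB : StmMXB) (hMXM : StmMXM) (hMXJ : StmMXJ)
    (hTHR : StmTHR) (hPOLA : StmPOLA) (hPOLB : StmPOLB) (hCONC : StmCONC) (hTST : StmTST)
    (hAMP : StmAMP) (hSTEP : StmSTEP) (hSTEPJ : StmSTEPJ) (hMIXB : StmMIXB) (hMIXM : StmMIXM)
    (hMIXJ : StmMIXJ) (hMIXF : StmMIXF) (hCATM : StmCATM) (hCATB : StmCATB) (hDEC : StmDEC)
    (hSMA : StmSMA) (hSMB : StmSMB) (a : ℝ) (μ : Measure ℝ) (hE : Eqn a μ) :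
    ∃ f : ℝ → ℝ, (∀ x, 0 ≤ f x) ∧ ContDiffOn ℝ (⊤ : ℕ∞) f (Set.Ioo 0 1) ∧
      μ = (volume.restrict (Set.Ioo 0 1)).withDensity (fun x => ENNReal.ofReal (f x)) := by
  have hprob := hE.prob
  have hsupp := hE.supp
  obtain ⟨θ₀, h00, h01, h02⟩ := hMOM0 a μ hE
  obtain ⟨θ₁, h10, h11, h12⟩ := hMOM1 a μ hE
  have hmom : Mom μ (min θ₀ θ₁) := by
    refine ⟨lt_min h00 h10, (min_le_left _ _).trans h01, ?_, ?_⟩
    · refine ne_top_of_le_ne_top h02 (lintegral_mono_ae ?_)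
      filter_upwards [hsupp] with x hx
      exact ENNReal.ofReal_le_ofReal
        (Real.rpow_le_rpow_of_exponent_ge hx.1 hx.2.le (by linarith [min_le_left θ₀ θ₁]))
    · refine ne_top_of_le_ne_top h12 (lintegral_mono_ae ?_)
      filter_upwards [hsupp] with x hx
      exact ENNReal.ofReal_le_ofReal
        (Real.rpow_le_rpow_of_exponent_ge (by linarith [hx.2]) (by linarith [hx.1])
          (by linarith [min_le_right θ₀ θ₁]))
  set θ := min θ₀ θ₁ with hθ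
  have hr1 := hREP a μ θ hE hmom
  have hr2 := hREP2 a μ θ hE hmom hr1
  obtain ⟨q, hq0, hq1, hq⟩ := hCRA a μ θ hE hmom (hNLT a μ hE)
  have h3 : Three μ θ := hTHR a μ θ hE hmom hr1 hr2 hMXB hMXM hMXJ
  have hdec : Dec μ := by
    obtain ⟨c, C, hc, hC, hrec⟩ := hPOLA μ θ hprob hmom.pos hmom.le h3
    obtain ⟨c', C', hc', hC', h⟩ := hPOLB (fun t => ‖charFun μ t‖) q c C
      (fun t => norm_nonneg _) (fun t => by
        show ‖charFun μ (-t)‖ = ‖charFun μ t‖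
        rw [charFun_neg, RCLike.norm_conj]) hq0 hq1 hc hC hq hrec
    exact ⟨c', C', hc', hC', h⟩
  have hconc : Conc μ := hCONC μ hprob hdec
  obtain ⟨s', C, hs', hs'1, hC, htr⟩ := hTST μ θ hprob hsupp hmom.pos hmom.le h3 hdec hconc
  set s := min θ s' with hs
  have hs0 : 0 < s := lt_min hmom.pos hs'
  have hs1 : s ≤ 1 := (min_le_right _ _).trans hs'1
  have hmoms : Mom μ s := hmom.mono hsupp hs0 (min_le_left _ _)
  have hr1 := hREP a μ s hE hmoms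
  have hr2 := hREP2 a μ s hE hmoms hr1
  have hamp : AmpOK μ s := hAMP μ s C hprob hsupp hs0 hs1 hC (htr.mono hC.le (min_le_right _ _))
  have hcat := hCATB hMIXB hMIXM hMIXJ hSTEP hSTEPJ hMIXF μ s hprob hsupp hs0 hs1 hamp hr1 hr2
  refine hSMB hSMA μ hprob hsupp fun n => ?_
  obtain ⟨D, hD⟩ := exists_nat_ge (((n : ℝ) + 2) / (39 / 100 * s))
  have hD' : (n : ℝ) + 2 ≤ 39 / 100 * s * D := by
    rw [div_le_iff₀ (by positivity)] at hD
    linarith
  obtain ⟨P0, hP0⟩ := hDEC hCATM a μ hE D (2 * (2 * D + 2))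
  obtain ⟨m, co, k, Λ, hk, hk2, hsum⟩ := hP0 P0 P0 le_rfl le_rfl
  choose Ci hCi0 hCi using fun i => hcat (2 * (2 * D + 2)) (k i) (Λ i)
    (by have := hk2 i; omega) (hk i).2
  refine ⟨P0, P0, ∑ i, |co i| * Ci i, fun t ht => ?_⟩
  rw [hsum (fun x => cexp (t * x * I)) (by fun_prop) ⟨1, fun x => by
    rw [show (t : ℂ) * x * I = ((t * x : ℝ) : ℂ) * I by push_cast; ring,
      Complex.norm_exp_ofReal_mul_I]⟩]
  refine (norm_sum_le _ _).trans ?_
  rw [Finset.sum_mul]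
  refine Finset.sum_le_sum fun i _ => ?_
  rw [norm_mul, Complex.norm_real, Real.norm_eq_abs, mul_assoc]
  refine mul_le_mul_of_nonneg_left ((hCi i t ht).trans ?_) (abs_nonneg _)
  refine mul_le_mul_of_nonneg_left ?_ (hCi0 i).le
  refine Real.rpow_le_rpow_of_exponent_le ht ?_
  have h1 : (D : ℝ) ≤ k i := by exact_mod_cast (hk i).1
  have h2 : 39 / 100 * s * D ≤ 39 / 100 * s * k i := mul_le_mul_of_nonneg_left h1 (by positivity)
  linarith

theorem final (hSTR : StmSTR)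
    (core : ∀ (a : ℝ) (μ : Measure ℝ), Eqn a μ → ∃ f : ℝ → ℝ, (∀ x, 0 ≤ f x) ∧
      ContDiffOn ℝ (⊤ : ℕ∞) f (Set.Ioo 0 1) ∧
      μ = (volume.restrict (Set.Ioo 0 1)).withDensity (fun x => ENNReal.ofReal (f x)))
    (α : ℝ) (ν : Measure ℝ) (hα : 4 < α) (hν : IsProbabilityMeasure ν)
    (h01 : ν (Set.Icc 0 1)ᶜ = 0) (hsol : IsSolution α ν) (hnt : 0 < ν (Set.Ioo 0 1)) :
    ∃ f : ℝ → ℝ, (∀ x, 0 ≤ f x) ∧ ContDiffOn ℝ (⊤ : ℕ∞) f (Set.Ioo 0 1) ∧
      ν = ν {0} • Measure.dirac 0 +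
        (volume.restrict (Set.Icc 0 1)).withDensity (fun x => ENNReal.ofReal (f x)) := by
  obtain ⟨a, μ, hE, hr⟩ := hSTR α ν hα hν h01 hsol hnt
  obtain ⟨f, hf0, hf, hμ⟩ := core a μ hE
  have ha : 0 ≤ a := by linarith [hE.ha]
  refine ⟨fun x => a * f x, fun x => mul_nonneg ha (hf0 x), contDiffOn_const.mul hf, ?_⟩
  have h1 : ν = ν.restrict {0} + ν.restrict {0}ᶜ :=
    (Measure.restrict_add_restrict_compl (MeasurableSet.singleton 0)).symm
  have h2 : ν.restrict {0} = ν {0} • Measure.dirac 0 := Measure.restrict_singleton ν 0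
  have h3 : (volume.restrict (Set.Icc (0 : ℝ) 1)) = volume.restrict (Set.Ioo 0 1) :=
    Measure.restrict_congr_set Ioo_ae_eq_Icc.symm
  have h4 : ν.restrict {0}ᶜ =
      (volume.restrict (Set.Icc 0 1)).withDensity (fun x => ENNReal.ofReal (a * f x)) := by
    rw [hr, h3]
    conv_lhs => rw [hμ]
    rw [← withDensity_smul' _ _ ENNReal.ofReal_ne_top]
    congr 1
    funext x
    simp [ENNReal.ofReal_mul ha]
  conv_lhs => rw [h1]
  rw [h2, h4]

end Pool.Agent.T6.H62.AC
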